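import Pool.Agent.P.MP_a1177c_nt.MR.Defs

namespace Pool.Agent.P.MP_a1177c_nt.MR

open Finset Filter
open scoped ArithmeticFunction.vonMangoldt

namespace ES

open MeasureTheory Metric

/-- The angular character on the plane. -/
noncomputable def ph (j : ℤ) (z : ℂ) : ℂ := ((z / (‖z‖ : ℂ)) ^ 4) ^ j

lemma chi_eq (j : ℤ) (a : G) : chi j a = ph j (a : ℂ) := by
  have h : ((nm a : ℕ) : ℂ) = ((‖(a : ℂ)‖ : ℝ) : ℂ) ^ 2 := by
    rw [← Complex.ofReal_pow, norm_sq_coe]; simp
  rw [chi, dir, ph, div_pow, h, ← pow_mul]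

lemma norm_unit {z : ℂ} (hz : z ≠ 0) : ‖z / (‖z‖ : ℂ)‖ = 1 := by
  rw [norm_div, Complex.norm_real, norm_norm, div_self (norm_ne_zero_iff.2 hz)]

lemma norm_ph_le (j : ℤ) (z : ℂ) : ‖ph j z‖ ≤ 1 := by
  by_cases hz : z = 0
  · subst hz
    rcases eq_or_ne j 0 with rfl | hj
    · simp [ph]
    · simp [ph, zero_zpow j hj]
  · rw [ph, norm_zpow, norm_pow, norm_unit hz, one_pow, one_zpow]

lemma pow_lip {u v : ℂ} (hu : ‖u‖ = 1) (hv : ‖v‖ = 1) (n : ℕ) :
    ‖u ^ n - v ^ n‖ ≤ n * ‖u - v‖ := by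
  induction n with
  | zero => simp
  | succ n ih =>
    have e : u ^ (n + 1) - v ^ (n + 1) = u * (u ^ n - v ^ n) + (u - v) * v ^ n := by ring
    rw [e]
    refine (norm_add_le _ _).trans ?_
    rw [norm_mul, norm_mul, norm_pow, hu, hv, one_pow]
    push_cast
    linarith

lemma zpow_lip {u v : ℂ} (hu : ‖u‖ = 1) (hv : ‖v‖ = 1) (j : ℤ) :
    ‖u ^ j - v ^ j‖ ≤ |(j : ℝ)| * ‖u - v‖ := by
  obtain ⟨n, rfl | rfl⟩ := Int.eq_nat_or_neg j
  · simpa using pow_lip hu hv n
  · have hu0 : u ^ n ≠ 0 := pow_ne_zero _ (by rw [← norm_ne_zero_iff, hu]; exact one_ne_zero)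
    have hv0 : v ^ n ≠ 0 := pow_ne_zero _ (by rw [← norm_ne_zero_iff, hv]; exact one_ne_zero)
    rw [zpow_neg, zpow_neg, zpow_natCast, zpow_natCast, inv_sub_inv hu0 hv0, norm_div, norm_mul,
      norm_pow, norm_pow, hu, hv, one_pow, mul_one, div_one, norm_sub_rev]
    simpa using pow_lip hu hv n

lemma unit_lip {z w : ℂ} (hz : z ≠ 0) (hw : w ≠ 0) :
    ‖w / (‖w‖ : ℂ) - z / (‖z‖ : ℂ)‖ ≤ 2 * ‖w - z‖ / ‖z‖ := by
  have hz' : 0 < ‖z‖ := norm_pos_iff.2 hz
  have hw' : 0 < ‖w‖ := norm_pos_iff.2 hw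
  have hz2 : (‖z‖ : ℂ) ≠ 0 := by exact_mod_cast hz'.ne'
  have hw2 : (‖w‖ : ℂ) ≠ 0 := by exact_mod_cast hw'.ne'
  have e : w / (‖w‖ : ℂ) - z / (‖z‖ : ℂ)
      = (w - z) / (‖z‖ : ℂ) + w / (‖w‖ : ℂ) * (((‖z‖ - ‖w‖ : ℝ) : ℂ) / (‖z‖ : ℂ)) := by
    push_cast; field_simp; ring
  rw [e]
  refine (norm_add_le _ _).trans ?_
  rw [norm_mul, norm_unit hw, one_mul, norm_div, norm_div, Complex.norm_real, Complex.norm_real,
    norm_norm, Real.norm_eq_abs, ← add_div]
  have := abs_norm_sub_norm_le z w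
  rw [norm_sub_rev] at this
  gcongr
  linarith

lemma ph_lip (j : ℤ) {z w : ℂ} (hz : z ≠ 0) (hw : w ≠ 0) :
    ‖ph j w - ph j z‖ ≤ 8 * |(j : ℝ)| * ‖w - z‖ / ‖z‖ := by
  have h1 := zpow_lip (u := (w / (‖w‖ : ℂ)) ^ 4) (v := (z / (‖z‖ : ℂ)) ^ 4)
    (by rw [norm_pow, norm_unit hw, one_pow]) (by rw [norm_pow, norm_unit hz, one_pow]) j
  have h2 := pow_lip (norm_unit hw) (norm_unit hz) 4
  have h3 := unit_lip hz hw
  calc _ ≤ |(j : ℝ)| * ‖(w / (‖w‖ : ℂ)) ^ 4 - (z / (‖z‖ : ℂ)) ^ 4‖ := h1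
    _ ≤ |(j : ℝ)| * ((4 : ℕ) * (2 * ‖w - z‖ / ‖z‖)) := by
        gcongr
        exact h2.trans (by gcongr)
    _ = _ := by push_cast; ring

lemma measurable_ph (j : ℤ) : Measurable (ph j) := by
  unfold ph
  fun_prop

/-- The unit square with lower left corner `a`. -/
def Sq (a : G) : Set ℂ :=
  Complex.measurableEquivRealProd ⁻¹' (Set.Ico (a.re : ℝ) (a.re + 1) ×ˢ Set.Ico (a.im : ℝ) (a.im + 1))

lemma measurableSet_Sq (a : G) : MeasurableSet (Sq a) :=
  Complex.measurableEquivRealProd.measurable (measurableSet_Ico.prod measurableSet_Ico)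

lemma volume_Sq (a : G) : volume (Sq a) = 1 := by
  rw [Sq, Complex.volume_preserving_equiv_real_prod.measure_preimage
    (measurableSet_Ico.prod measurableSet_Ico).nullMeasurableSet, Measure.volume_eq_prod,
    Measure.prod_prod, Real.volume_Ico, Real.volume_Ico]
  simp

/-- The lattice point below and to the left of `z`. -/
noncomputable def fl (z : ℂ) : G := ⟨⌊z.re⌋, ⌊z.im⌋⟩

lemma mem_Sq {a : G} {z : ℂ} : z ∈ Sq a ↔ a = fl z := by
  simp only [Sq, Set.mem_preimage, Set.mem_prod, Set.mem_Ico,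
    Complex.measurableEquivRealProd_apply, ← Int.floor_eq_iff, fl]
  constructor
  · rintro ⟨h1, h2⟩
    exact Zsqrtd.ext h1.symm h2.symm
  · rintro rfl
    exact ⟨rfl, rfl⟩

lemma norm_fl_sub (z : ℂ) : ‖(fl z : ℂ) - z‖ ≤ 2 := by
  refine (Complex.norm_le_abs_re_add_abs_im _).trans ?_
  have h1 : |((fl z : ℂ) - z).re| ≤ 1 := by
    have a := Int.floor_le z.re
    have b := Int.lt_floor_add_one z.re
    simp only [Complex.sub_re, fl, GaussianInt.re_toComplex]
    rw [abs_le]; constructor <;> linarith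
  have h2 : |((fl z : ℂ) - z).im| ≤ 1 := by
    have a := Int.floor_le z.im
    have b := Int.lt_floor_add_one z.im
    simp only [Complex.sub_im, fl, GaussianInt.im_toComplex]
    rw [abs_le]; constructor <;> linarith
  linarith

/-- The step function whose integral is the character sum. -/
noncomputable def ps (y : ℕ) (j : ℤ) (z : ℂ) : ℂ :=
  ∑ a ∈ disc y, (Sq a).indicator (fun _ => chi j a) z

lemma integrable_sq (a : G) (c : ℂ) : Integrable ((Sq a).indicator fun _ => c) volume :=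
  (integrable_indicator_iff (measurableSet_Sq a)).2
    (integrableOn_const (by rw [volume_Sq]; exact ENNReal.one_ne_top))

lemma integral_ps (y : ℕ) (j : ℤ) : ∫ z, ps y j z = ∑ a ∈ disc y, chi j a := by
  unfold ps
  rw [integral_finsetSum _ fun a _ => integrable_sq a _]
  refine sum_congr rfl fun a _ => ?_
  rw [integral_indicator (measurableSet_Sq a), setIntegral_const, Measure.real, volume_Sq]
  simp

open Classical in
lemma ps_eq (y : ℕ) (j : ℤ) (z : ℂ) :
    ps y j z = if fl z ∈ disc y then chi j (fl z) else 0 := by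
  unfold ps
  simp only [Set.indicator_apply, mem_Sq]
  rw [sum_ite_eq']

lemma integrable_ball (j : ℤ) (r : ℝ) : Integrable ((ball (0 : ℂ) r).indicator (ph j)) volume := by
  rw [integrable_indicator_iff measurableSet_ball]
  exact Measure.integrableOn_of_bounded (M := 1) measure_ball_lt_top.ne
    (measurable_ph j).aestronglyMeasurable (Eventually.of_forall fun z => norm_ph_le j z)

lemma real_ball (r : ℝ) : (volume (ball (0 : ℂ) r)).toReal = Real.pi * max r 0 ^ 2 := by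
  rw [Complex.volume_ball, ENNReal.toReal_mul, ENNReal.toReal_pow, ENNReal.toReal_ofReal']
  simp [mul_comm]

lemma integral_ball (y : ℕ) (j : ℤ) :
    ∫ z, (ball (0 : ℂ) (Real.sqrt y)).indicator (ph j) z
      = if j = 0 then ((Real.pi * y : ℝ) : ℂ) else 0 := by
  split_ifs with hj
  · subst hj
    have : ph 0 = fun _ => 1 := by funext z; simp [ph]
    rw [this, integral_indicator measurableSet_ball, setIntegral_const, Measure.real, real_ball,
      max_eq_left (Real.sqrt_nonneg _), Real.sq_sqrt (by positivity)]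
    simp
  · set u : Circle := Circle.exp (Real.pi / (4 * j)) with hu
    have hj' : (j : ℂ) ≠ 0 := by exact_mod_cast hj
    have hu4 : ((u : ℂ) ^ 4) ^ j = -1 := by
      rw [hu, Circle.coe_exp, ← Complex.exp_nat_mul, ← Complex.exp_int_mul, ← Complex.exp_pi_mul_I]
      congr 1
      push_cast
      field_simp
    have h1 := (rotation u).measurePreserving.integral_comp
      (rotation u).toHomeomorph.measurableEmbedding
      ((ball (0 : ℂ) (Real.sqrt y)).indicator (ph j))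
    have h2 : ∀ z : ℂ, (ball (0 : ℂ) (Real.sqrt y)).indicator (ph j) (rotation u z)
        = -(ball (0 : ℂ) (Real.sqrt y)).indicator (ph j) z := by
      classical
      intro z
      have hn : ‖(u : ℂ) * z‖ = ‖z‖ := by rw [norm_mul, Circle.norm_coe, one_mul]
      simp only [Set.indicator_apply, mem_ball_zero_iff, rotation_apply, hn]
      split_ifs
      · rw [ph, ph, hn, mul_div_assoc, mul_pow, mul_zpow, hu4, neg_one_mul]
      · simp
    simp only [h2, integral_neg] at h1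
    linear_combination (-1 / 2 : ℂ) * h1

lemma integrable_ind (r c : ℝ) : Integrable ((ball (0 : ℂ) r).indicator fun _ => c) volume :=
  (integrable_indicator_iff measurableSet_ball).2 (integrableOn_const measure_ball_lt_top.ne)

lemma integral_ind (r c : ℝ) :
    ∫ z, (ball (0 : ℂ) r).indicator (fun _ => c) z = Real.pi * max r 0 ^ 2 * c := by
  rw [integral_indicator measurableSet_ball, setIntegral_const, Measure.real, real_ball,
    smul_eq_mul]

lemma pointwise (y : ℕ) (j : ℤ) (ρ : ℝ) (hρ : 3 ≤ ρ) (z : ℂ) :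
    ‖ps y j z - (ball (0 : ℂ) (Real.sqrt y)).indicator (ph j) z‖ ≤
      ((ball (0 : ℂ) (Real.sqrt y + 3)).indicator (fun _ => (2 : ℝ)) z
        - (ball (0 : ℂ) (Real.sqrt y - 2)).indicator (fun _ => (2 : ℝ)) z)
      + (ball (0 : ℂ) ρ).indicator (fun _ => (2 : ℝ)) z
      + (ball (0 : ℂ) (Real.sqrt y)).indicator (fun _ => 16 * |(j : ℝ)| / ρ) z := by
  classical
  set r := Real.sqrt y with hr
  have hfl := norm_fl_sub z
  have ha1 : ‖(fl z : ℂ)‖ ≤ ‖z‖ + 2 := by
    have := norm_sub_norm_le (fl z : ℂ) z; linarith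
  have ha2 : ‖z‖ - 2 ≤ ‖(fl z : ℂ)‖ := by
    have := norm_sub_norm_le z (fl z : ℂ); rw [norm_sub_rev] at this; linarith
  have hmem : fl z ∈ disc y ↔ fl z ≠ 0 ∧ ‖(fl z : ℂ)‖ ≤ r := by
    rw [mem_disc, hr, Real.le_sqrt (norm_nonneg _) (by positivity), norm_sq_coe, Nat.cast_le]
  have hk : 0 ≤ 16 * |(j : ℝ)| / ρ := by positivity
  have two : ‖ps y j z - (ball (0 : ℂ) r).indicator (ph j) z‖ ≤ 2 := by
    refine (norm_sub_le _ _).trans ?_
    have a : ‖ps y j z‖ ≤ 1 := by
      rw [ps_eq]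
      split_ifs
      · rw [chi_eq]; exact norm_ph_le _ _
      · simp
    have b : ‖(ball (0 : ℂ) r).indicator (ph j) z‖ ≤ 1 :=
      (norm_indicator_le_norm_self _ _).trans (norm_ph_le _ _)
    linarith
  simp only [Set.indicator_apply, mem_ball_zero_iff] at two ⊢
  by_cases h1 : ‖z‖ < r + 3
  · by_cases h2 : ‖z‖ < r - 2
    · have h3 : ‖z‖ < r := by linarith
      by_cases h4 : ‖z‖ < ρ
      · simp only [h1, h2, h3, h4, if_true] at two ⊢
        linarith
      · simp only [h1, h2, h3, h4, if_true, if_false]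
        push Not at h4
        have hz : z ≠ 0 := by rw [← norm_pos_iff]; linarith
        have ha : (fl z : ℂ) ≠ 0 := by rw [← norm_pos_iff]; linarith
        have ha0 : fl z ≠ 0 := fun h => ha (by rw [h]; simp)
        rw [ps_eq, if_pos (hmem.2 ⟨ha0, by linarith⟩), chi_eq]
        refine (ph_lip j hz ha).trans ?_
        have : 8 * |(j : ℝ)| * ‖(fl z : ℂ) - z‖ / ‖z‖ ≤ 8 * |(j : ℝ)| * 2 / ρ := by
          gcongr
        calc _ ≤ 8 * |(j : ℝ)| * 2 / ρ := this
          _ = _ := by ring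
    · simp only [h1, h2, if_true, if_false]
      refine two.trans ?_
      split_ifs <;> linarith
  · have h2 : ¬ ‖z‖ < r - 2 := by intro h; apply h1; linarith
    have h3 : ¬ ‖z‖ < r := by intro h; apply h1; linarith
    have h4 : fl z ∉ disc y := fun h => by have := (hmem.1 h).2; apply h1; linarith
    simp only [h1, h2, h3, if_false, ps_eq, h4, sub_zero, norm_zero]
    split_ifs <;> norm_num

end ES

/-- Gauss circle estimate with a small angular frequency. -/
theorem expsum_small : ∃ C : ℝ, 0 < C ∧ ∀ (y : ℕ) (j : ℤ), 1 ≤ y →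
    ‖∑ a ∈ disc y, chi j a - (if j = 0 then ((Real.pi * y : ℝ) : ℂ) else 0)‖ ≤
      C * ((1 + |(j : ℝ)|) * y) ^ ((2 : ℝ) / 3) := by
  refine ⟨300, by norm_num, fun y j hy => ?_⟩
  have hy' : (1 : ℝ) ≤ y := by exact_mod_cast hy
  have hj : 0 ≤ |(j : ℝ)| := abs_nonneg _
  set t : ℝ := (1 + |(j : ℝ)|) * y with ht
  have hty : (y : ℝ) ≤ t := by nlinarith
  have ht1 : 1 ≤ t := hy'.trans hty
  set s : ℝ := t ^ ((1 : ℝ) / 3) with hs
  have hs1 : 1 ≤ s := Real.one_le_rpow ht1 (by norm_num)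
  have hs2 : t ^ ((2 : ℝ) / 3) = s ^ 2 := by
    rw [hs, ← Real.rpow_natCast, ← Real.rpow_mul (by linarith)]; norm_num
  have hs3 : s ^ 3 = t := by
    rw [hs, ← Real.rpow_natCast, ← Real.rpow_mul (by linarith)]; norm_num
  set r := Real.sqrt y with hr
  have hr1 : 1 ≤ r := Real.one_le_sqrt.2 hy'
  have hr2 : r ^ 2 = y := Real.sq_sqrt (by positivity)
  have hrs : r ≤ s ^ 2 := by
    refine abs_le_of_sq_le_sq' ?_ (by positivity) |>.2
    have h4 : s ^ 3 ≤ (s ^ 2) ^ 2 := by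
      rw [← pow_mul]; exact pow_le_pow_right₀ hs1 (by norm_num)
    linarith
  have hint : MeasureTheory.Integrable (ES.ps y j) :=
    MeasureTheory.integrable_finsetSum _ fun a _ => ES.integrable_sq a _
  rw [← ES.integral_ps, ← ES.integral_ball, ← MeasureTheory.integral_sub hint
    (ES.integrable_ball _ _), hs2]
  have i1 := (ES.integrable_ind (r + 3) 2).sub (ES.integrable_ind (r - 2) 2)
  have i2 := i1.add (ES.integrable_ind (3 * s) 2)
  have i3 := i2.add (ES.integrable_ind r (16 * |(j : ℝ)| / (3 * s)))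
  refine (MeasureTheory.norm_integral_le_of_norm_le i3
    (Eventually.of_forall fun z => ES.pointwise y j (3 * s) (by linarith) z)).trans ?_
  rw [MeasureTheory.integral_add' i2 (ES.integrable_ind _ _),
    MeasureTheory.integral_add' i1 (ES.integrable_ind _ _),
    MeasureTheory.integral_sub' (ES.integrable_ind _ _) (ES.integrable_ind _ _),
    ES.integral_ind, ES.integral_ind, ES.integral_ind, ES.integral_ind,
    max_eq_left (by linarith : (0 : ℝ) ≤ r + 3), max_eq_left (by linarith : (0 : ℝ) ≤ 3 * s),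
    max_eq_left (by linarith : (0 : ℝ) ≤ r)]
  have hpi := Real.pi_le_four
  have hpi0 := Real.pi_pos
  have a1 : (r + 3) ^ 2 - max (r - 2) 0 ^ 2 ≤ 25 * r := by
    rcases le_total (r - 2) 0 with h | h
    · rw [max_eq_right h]; nlinarith
    · rw [max_eq_left h]; nlinarith
  have a2 : r ^ 2 * (16 * |(j : ℝ)| / (3 * s)) ≤ 16 / 3 * s ^ 2 := by
    rw [hr2, mul_div_assoc', div_le_iff₀ (by linarith)]
    have : |(j : ℝ)| * y ≤ s ^ 3 := by rw [hs3, ht]; nlinarith
    nlinarith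
  have a3 : Real.pi * (2 * ((r + 3) ^ 2 - max (r - 2) 0 ^ 2) + 18 * s ^ 2
      + r ^ 2 * (16 * |(j : ℝ)| / (3 * s))) ≤ Real.pi * (74 * s ^ 2) := by
    gcongr
    nlinarith
  have a4 : Real.pi * (74 * s ^ 2) ≤ 4 * (74 * s ^ 2) := by gcongr
  nlinarith

end Pool.Agent.P.MP_a1177c_nt.MR
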