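import Pool.Agent.P.MP_a1177c_nt.MR.Farey

/-!
The Fejer kernel, the mean value theorem for Hecke polynomials, and the passage from a small
mean square to many unimodular pairs of opposite sign.
-/

namespace Pool.Agent.P.MP_a1177c_nt.MR

open Finset
open scoped ComplexConjugate

/-- The Fejer kernel. -/
noncomputable def ker (K : ℕ) (z : ℂ) : ℝ := ‖∑ j ∈ range K, z ^ j‖ ^ 2 / K

/-- The Fejer mean square. -/
noncomputable def En (K : ℕ) (A : ℤ → ℂ) : ℝ :=
  (∑ j ∈ range K, ∑ j' ∈ range K, ‖A ((j : ℤ) - j')‖ ^ 2) / K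

lemma ker_nonneg (K : ℕ) (z : ℂ) : 0 ≤ ker K z := by unfold ker; positivity

lemma ker_le {K : ℕ} {z : ℂ} (hz : ‖z‖ = 1) : ker K z ≤ K := by
  rcases Nat.eq_zero_or_pos K with rfl | hK
  · simp [ker]
  have hK' : (0 : ℝ) < K := by exact_mod_cast hK
  have : ‖∑ j ∈ range K, z ^ j‖ ≤ K := (norm_sum_le _ _).trans (by simp [hz])
  rw [ker, div_le_iff₀ hK', ← sq]; gcongr

lemma ker_mul_le {K : ℕ} {z : ℂ} (hz : ‖z‖ = 1) : ker K z * (K * ‖z - 1‖ ^ 2) ≤ 4 := by
  rcases Nat.eq_zero_or_pos K with rfl | hK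
  · simp [ker]
  have hK' : (0 : ℝ) < K := by exact_mod_cast hK
  have h : ‖∑ j ∈ range K, z ^ j‖ * ‖z - 1‖ ≤ 2 := by
    rw [← norm_mul, geom_sum_mul]
    exact (norm_sub_le _ _).trans (by simp [hz]; norm_num)
  have : ker K z * (K * ‖z - 1‖ ^ 2) = (‖∑ j ∈ range K, z ^ j‖ * ‖z - 1‖) ^ 2 := by
    rw [ker]; field_simp
  rw [this]
  have h0 : 0 ≤ ‖∑ j ∈ range K, z ^ j‖ * ‖z - 1‖ := by positivity
  nlinarith

lemma ker_conj (K : ℕ) (z : ℂ) : ker K (conj z) = ker K z := by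
  simp only [ker, ← map_pow, ← map_sum, Complex.norm_conj]

lemma ker_eq_sum {K : ℕ} {z : ℂ} (hz : ‖z‖ = 1) :
    ((ker K z : ℝ) : ℂ) = (∑ j ∈ range K, ∑ j' ∈ range K, z ^ ((j : ℤ) - j')) / K := by
  have h0 : z ≠ 0 := by rintro rfl; simp at hz
  rw [ker]; push_cast
  rw [← Complex.mul_conj', map_sum, sum_mul_sum]
  congr 1
  refine sum_congr rfl fun j _ => sum_congr rfl fun j' _ => ?_
  rw [map_pow, ← Complex.inv_eq_conj hz, zpow_sub₀ h0, zpow_natCast, zpow_natCast, inv_pow,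
    div_eq_mul_inv]

lemma norm_dir_sub_one {w : G} (hw : w ≠ 0) :
    ‖dir w - 1‖ ^ 2 * (nm w : ℝ) ^ 2 = 16 * (w.re : ℝ) ^ 2 * (w.im : ℝ) ^ 2 := by
  have hn : (0 : ℝ) < nm w := by exact_mod_cast nm_pos hw
  have hn' : (nm w : ℂ) ≠ 0 := by exact_mod_cast (nm_pos hw).ne'
  have e : dir w - 1 = (w : ℂ) ^ 2 * (4 * w.re * w.im * Complex.I) / (nm w : ℂ) ^ 2 := by
    have h : (nm w : ℂ) = (w.re : ℂ) ^ 2 + (w.im : ℂ) ^ 2 := by exact_mod_cast nm_int w
    rw [dir, div_sub_one (by positivity)]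
    congr 1
    rw [h, GaussianInt.toComplex_def]
    have hI := Complex.I_sq
    linear_combination ((w.im : ℂ) ^ 2 * (-2 * w.re ^ 2 - w.im ^ 2 * (1 - Complex.I ^ 2))) * hI
  rw [e, norm_div, norm_mul, norm_pow, norm_pow, norm_sq_coe, Complex.norm_natCast]
  simp only [norm_mul, Complex.norm_I, Complex.norm_intCast, Complex.norm_ofNat]
  field_simp
  simp only [sq_abs]; ring

/-- The tail weight. -/
noncomputable def tw (X : ℝ) (K h : ℕ) (j : ℤ) : ℝ :=
  if |j| ≤ h then 0 else X ^ 2 / (K * (j : ℝ) ^ 2)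

lemma tw_nonneg (X : ℝ) (K h : ℕ) (j : ℤ) : 0 ≤ tw X K h j := by
  unfold tw; split_ifs <;> positivity

lemma ker_dir_le {K : ℕ} (hK : 0 < K) (h : ℕ) {a b : G} (ha : a ≠ 0) (hb : b ≠ 0) {X : ℝ}
    (a2 : (nm a : ℝ) ≤ X) (b2 : (nm b : ℝ) ≤ X) :
    ker K (dir (star a * b)) ≤ (if |dot a b| ≤ h ∨ |det a b| ≤ h then (K : ℝ) else 0) +
      (tw X K h (dot a b) + tw X K h (det a b)) := by
  have hw : star a * b ≠ 0 := mul_ne_zero (star_ne_zero.2 ha) hb
  have hz := norm_dir hw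
  split_ifs with hc
  · linarith [ker_le (K := K) hz, tw_nonneg X K h (dot a b), tw_nonneg X K h (det a b)]
  push Not at hc
  have h1 := ker_mul_le (K := K) hz
  have h2 := norm_dir_sub_one hw
  have h3 : (nm (star a * b) : ℝ) ≤ X ^ 2 := by
    rw [nm_mul, nm_star, sq]; push_cast
    exact mul_le_mul a2 b2 (Nat.cast_nonneg _) ((Nat.cast_nonneg _).trans a2)
  have h4 := nm_real (star a * b)
  have h5 := ker_nonneg K (dir (star a * b))
  rw [star_mul_eq] at *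
  simp only at h2 h4
  rw [tw, tw, if_neg (not_le.2 hc.1), if_neg (not_le.2 hc.2), zero_add]
  have s0 : (dot a b : ℝ) ≠ 0 := by
    have : dot a b ≠ 0 := by rintro h0; rw [h0] at hc; simp at hc; omega
    exact_mod_cast this
  have t0 : (det a b : ℝ) ≠ 0 := by
    have : det a b ≠ 0 := by rintro h0; rw [h0] at hc; simp at hc; omega
    exact_mod_cast this
  have hK' : (0 : ℝ) < K := by exact_mod_cast hK
  generalize (nm ⟨dot a b, det a b⟩ : ℝ) = n at *
  generalize (dot a b : ℝ) = s at *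
  generalize (det a b : ℝ) = t at *
  generalize ker K _ = κ at *
  generalize ‖dir _ - 1‖ ^ 2 = δ at *
  have s1 : 0 < s ^ 2 := by positivity
  have t1 : 0 < t ^ 2 := by positivity
  have e : X ^ 2 / (K * s ^ 2) + X ^ 2 / (K * t ^ 2) = X ^ 2 * n / (K * s ^ 2 * t ^ 2) := by
    rw [h4]; field_simp; ring
  rw [e, le_div_iff₀ (by positivity)]
  have n0 : 0 < n := by rw [h4]; positivity
  have h6 : κ * (K * δ) * n ^ 2 ≤ 4 * n ^ 2 := by gcongr
  have h7 : κ * (K * δ) * n ^ 2 = 16 * (κ * (K * s ^ 2 * t ^ 2)) := by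
    linear_combination (κ * K) * h2
  nlinarith [mul_le_mul_of_nonneg_right h3 n0.le]

lemma sum_inv_sq_tail (h : ℕ) (hh : 0 < h) (J : Finset ℤ) :
    ∑ j ∈ J, (if |j| ≤ h then 0 else 1 / (j : ℝ) ^ 2) ≤ 2 / (h : ℝ) := by
  obtain ⟨M, hM⟩ : ∃ M : ℕ, ∀ j ∈ J, j.natAbs ≤ M := ⟨J.sup Int.natAbs, fun j hj => le_sup hj⟩
  have h1 : ∑ n ∈ Ioc h M, ((n : ℝ) ^ 2)⁻¹ ≤ (h : ℝ)⁻¹ := by
    rcases le_total h M with hM' | hM'
    · exact (sum_Ioc_inv_sq_le_sub hh.ne' hM').trans (by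
        have : (0 : ℝ) ≤ (M : ℝ)⁻¹ := by positivity
        linarith)
    · rw [Ioc_eq_empty (by omega)]; simp
  rw [← sum_filter_add_sum_filter_not J (fun j => |j| ≤ h), sum_eq_zero (fun j hj => by
    rw [if_pos (mem_filter.1 hj).2]), zero_add,
    ← sum_fiberwise_of_maps_to (t := Ioc h M) (g := Int.natAbs) (fun j hj => by
      obtain ⟨a, b⟩ := mem_filter.1 hj
      have := hM j a
      rw [← Int.natCast_natAbs] at b
      rw [mem_Ioc]; omega)]
  calc _ ≤ ∑ n ∈ Ioc h M, 2 * ((n : ℝ) ^ 2)⁻¹ := sum_le_sum fun n _ => by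
        refine (sum_le_card_nsmul _ _ ((n : ℝ) ^ 2)⁻¹ fun j hj => ?_).trans ?_
        · obtain ⟨a, b⟩ := mem_filter.1 hj
          rw [if_neg (mem_filter.1 a).2, ← b, Nat.cast_natAbs, one_div]; simp
        · rw [nsmul_eq_mul]
          gcongr
          have : ((J.filter fun j : ℤ => ¬ |j| ≤ h).filter fun j : ℤ => j.natAbs = n) ⊆
              {(n : ℤ), -(n : ℤ)} := by
            intro j hj
            have := (mem_filter.1 hj).2
            simp only [mem_insert, mem_singleton]; omega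
          exact_mod_cast (card_le_card this).trans card_le_two
    _ ≤ _ := by rw [← mul_sum, div_eq_mul_inv]; linarith

lemma sum_tw_le (X : ℝ) (K h : ℕ) (hh : 0 < h) (J : Finset ℤ) :
    ∑ j ∈ J, tw X K h j ≤ X ^ 2 / K * (2 / h) := by
  refine le_trans (le_of_eq ?_) (mul_le_mul_of_nonneg_left (sum_inv_sq_tail h hh J) (by positivity))
  rw [mul_sum]
  refine sum_congr rfl fun j _ => ?_
  unfold tw; split_ifs
  · simp
  · rw [div_mul_div_comm, mul_one]

lemma sum_ind_le (c : ℝ) (hc : 0 ≤ c) (h : ℕ) (J : Finset ℤ) :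
    ∑ j ∈ J, (if |j| ≤ h then c else 0) ≤ (2 * h + 1) * c := by
  rw [← sum_filter, sum_const, nsmul_eq_mul]
  gcongr
  have : (J.filter fun j : ℤ => |j| ≤ h) ⊆ Icc (-(h : ℤ)) h := fun j hj =>
    mem_Icc.2 (abs_le.1 (mem_filter.1 hj).2)
  have h2 := card_le_card this
  rw [Int.card_Icc] at h2
  exact_mod_cast (by omega : (J.filter fun j : ℤ => |j| ≤ h).card ≤ 2 * h + 1)

/-- A family of Gaussian integers in an annulus, with bounded content and multiplicity. -/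
structure Fam {ι : Type*} (s : Finset ι) (g : ι → G) (X₀ X : ℝ) (D μ : ℕ) : Prop where
  pos : 0 < X₀
  lo : ∀ i ∈ s, X₀ ≤ nm (g i)
  hi : ∀ i ∈ s, (nm (g i) : ℝ) ≤ X
  co : ∀ i ∈ s, cont (g i) ≤ D
  fib : ∀ z, (s.filter fun i => g i = z).card ≤ μ

variable {ι : Type*} {s : Finset ι} {g : ι → G} {X₀ X : ℝ} {D μ : ℕ}

lemma Fam.ne (h : Fam s g X₀ X D μ) {i : ι} (hi : i ∈ s) : g i ≠ 0 := fun h0 => by
  have := h.lo i hi
  rw [h0] at this; simp at this; linarith [h.pos]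

lemma Fam.row_det (h : Fam s g X₀ X D μ) {a : G} (a1 : X₀ ≤ nm a) (a2 : (nm a : ℝ) ≤ X)
    (a3 : cont a ≤ D) (φ : ℤ → ℝ) (hφ : ∀ j, 0 ≤ φ j) {B : ℝ} (hB : ∀ J : Finset ℤ, ∑ j ∈ J, φ j ≤ B) :
    ∑ i ∈ s, φ (det a (g i)) ≤ μ * (5 * D * √(X / X₀)) * B := by
  have ha : a ≠ 0 := by rintro rfl; simp at a1; linarith [h.pos]
  have hX : 0 ≤ X := (Nat.cast_nonneg _).trans a2
  rw [← sum_fiberwise_of_maps_to (t := s.image fun i => det a (g i)) (g := fun i => det a (g i))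
    (fun i hi => mem_image_of_mem _ hi)]
  refine le_trans (sum_le_sum fun j _ => ?_)
    ((mul_sum _ _ _).ge.trans (mul_le_mul_of_nonneg_left (hB _) (by positivity)))
  rw [sum_congr rfl (g := fun _ => φ j) (fun i hi => by rw [(mem_filter.1 hi).2]), sum_const,
    nsmul_eq_mul]
  refine mul_le_mul_of_nonneg_right ?_ (hφ j)
  have h1 : (s.filter fun i => det a (g i) = j).card ≤
      μ * ((s.filter fun i => det a (g i) = j).image g).card :=
    card_le_mul_card_image _ _ fun z _ =>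
      (card_le_card (filter_subset_filter _ (filter_subset _ _))).trans (h.fib z)
  have h2 := line_count ha a2 j ((s.filter fun i => det a (g i) = j).image g) (fun b hb => by
    obtain ⟨i, hi, rfl⟩ := mem_image.1 hb
    exact ⟨(mem_filter.1 hi).2, h.hi i (mem_filter.1 hi).1⟩)
  have h3 : √(X / nm a) ≤ √(X / X₀) := by gcongr; exact h.pos
  have h4 : (cont a : ℝ) ≤ D := by exact_mod_cast a3
  calc _ ≤ (μ : ℝ) * ((s.filter fun i => det a (g i) = j).image g).card := by exact_mod_cast h1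
    _ ≤ μ * (5 * cont a * √(X / nm a)) := by gcongr
    _ ≤ _ := by gcongr

lemma Fam.row (h : Fam s g X₀ X D μ) {i : ι} (hi : i ∈ s) (φ : ℤ → ℝ) (hφ : ∀ j, 0 ≤ φ j) {B : ℝ}
    (hB : ∀ J : Finset ℤ, ∑ j ∈ J, φ j ≤ B) :
    ∑ l ∈ s, (φ (dot (g i) (g l)) + φ (det (g i) (g l))) ≤ 10 * μ * D * √(X / X₀) * B := by
  have h1 := h.row_det (h.lo i hi) (h.hi i hi) (h.co i hi) φ hφ hB
  have h2 := h.row_det (a := -((⟨0, 1⟩ : G) * g i)) (by rw [nm_neg, nm_I_mul]; exact h.lo i hi)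
    (by rw [nm_neg, nm_I_mul]; exact h.hi i hi) (by rw [cont_neg, cont_I_mul]; exact h.co i hi)
    φ hφ hB
  have e : ∀ b, det (-((⟨0, 1⟩ : G) * g i)) b = dot (g i) b := fun b => by
    simp [det, dot, Zsqrtd.re_mul, Zsqrtd.im_mul]; ring
  simp only [e] at h2
  rw [sum_add_distrib]; linarith

lemma En_eq (hg : ∀ i ∈ s, g i ≠ 0) (K : ℕ) (c : ι → ℂ) :
    ((En K fun k => ∑ i ∈ s, c i * chi k (g i) : ℝ) : ℂ) =
      ∑ i ∈ s, ∑ l ∈ s, conj (c i) * c l * (ker K (dir (star (g i) * g l)) : ℝ) := by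
  have e : ∀ k : ℤ, ((‖∑ i ∈ s, c i * chi k (g i)‖ : ℝ) : ℂ) ^ 2 =
      ∑ i ∈ s, ∑ l ∈ s, conj (c i) * c l * dir (star (g i) * g l) ^ k := fun k => by
    rw [← Complex.conj_mul', map_sum, sum_mul_sum]
    refine sum_congr rfl fun i _ => sum_congr rfl fun l _ => ?_
    rw [dir_mul, dir_star, mul_zpow, map_mul, chi, chi, map_zpow₀]; ring
  rw [En]; push_cast
  simp only [e]
  symm
  rw [sum_congr rfl fun i hi => sum_congr rfl fun l hl => by
    rw [ker_eq_sum (norm_dir (mul_ne_zero (star_ne_zero.2 (hg i hi)) (hg l hl)))]]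
  symm
  simp only [mul_div_assoc', ← sum_div, mul_sum]
  congr 1
  rw [sum_congr rfl fun j _ => sum_comm, sum_comm]
  refine sum_congr rfl fun i _ => ?_
  rw [sum_congr rfl fun j _ => sum_comm, sum_comm]

lemma En_real (hg : ∀ i ∈ s, g i ≠ 0) (K : ℕ) (c : ι → ℝ) :
    (En K fun k => ∑ i ∈ s, (c i : ℂ) * chi k (g i)) =
      ∑ i ∈ s, ∑ l ∈ s, c i * c l * ker K (dir (star (g i) * g l)) := by
  have := En_eq hg K fun i => (c i : ℂ)
  simp only [Complex.conj_ofReal] at this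
  exact_mod_cast this

lemma En_le_sum {K : ℕ} (hK : 0 < K) (A : ℤ → ℂ) :
    En K A ≤ ∑ k ∈ Icc (-(K : ℤ)) K, ‖A k‖ ^ 2 := by
  have hK' : (0 : ℝ) < K := by exact_mod_cast hK
  rw [En, div_le_iff₀ hK']
  refine (sum_le_card_nsmul _ _ (∑ k ∈ Icc (-(K : ℤ)) K, ‖A k‖ ^ 2) fun j hj => ?_).trans
    (by simp [mul_comm])
  rw [← sum_image (s := range K) (g := fun j' : ℕ => (j : ℤ) - j') (f := fun k => ‖A k‖ ^ 2)
    (fun x _ y _ h => by simpa using h)]
  refine sum_le_sum_of_subset_of_nonneg (fun k hk => ?_) fun _ _ _ => by positivity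
  obtain ⟨j', hj', rfl⟩ := mem_image.1 hk
  have := mem_range.1 hj; have := mem_range.1 hj'
  rw [mem_Icc]; omega

lemma le_En {K : ℕ} (hK : 0 < K) (A : ℤ → ℂ) : ‖A 0‖ ^ 2 ≤ En K A := by
  have hK' : (0 : ℝ) < K := by exact_mod_cast hK
  rw [En, le_div_iff₀ hK']
  refine le_trans (by simp [mul_comm]) (card_nsmul_le_sum _ _ (‖A 0‖ ^ 2) fun j hj => ?_)
  simpa using single_le_sum (f := fun j' : ℕ => ‖A ((j : ℤ) - j')‖ ^ 2)
    (fun _ _ => by positivity) hj

lemma sum_le_En (K : ℕ) (A : ℤ → ℂ) :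
    ∑ k ∈ Icc (-(K : ℤ)) K, ‖A k‖ ^ 2 ≤ 3 * En (3 * K + 1) A := by
  set S := ∑ k ∈ Icc (-(K : ℤ)) K, ‖A k‖ ^ 2 with hS
  have S0 : 0 ≤ S := sum_nonneg fun _ _ => by positivity
  have h1 : ((K : ℝ) + 1) * S ≤
      ∑ j ∈ range (3 * K + 1), ∑ j' ∈ range (3 * K + 1), ‖A ((j : ℤ) - j')‖ ^ 2 := by
    calc _ = (Icc K (2 * K)).card • S := by
          rw [Nat.card_Icc, nsmul_eq_mul, show 2 * K + 1 - K = K + 1 by omega]; push_cast; rfl
      _ ≤ ∑ j ∈ Icc K (2 * K), ∑ j' ∈ range (3 * K + 1), ‖A ((j : ℤ) - j')‖ ^ 2 := by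
          refine card_nsmul_le_sum _ _ _ fun j hj => ?_
          rw [← sum_image (s := range (3 * K + 1)) (g := fun j' : ℕ => (j : ℤ) - j')
            (f := fun k => ‖A k‖ ^ 2) (fun x _ y _ h => by simpa using h)]
          refine sum_le_sum_of_subset_of_nonneg (fun k hk => ?_) fun _ _ _ => by positivity
          have := mem_Icc.1 hj; have := mem_Icc.1 hk
          exact mem_image.2 ⟨((j : ℤ) - k).toNat, mem_range.2 (by omega), by omega⟩
      _ ≤ _ := sum_le_sum_of_subset_of_nonneg (fun j hj => by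
          have := mem_Icc.1 hj; exact mem_range.2 (by omega))
          fun _ _ _ => sum_nonneg fun _ _ => by positivity
  rw [En, mul_div_assoc', le_div_iff₀ (by positivity)]
  push_cast
  nlinarith

/-- The mean value theorem for Hecke polynomials. -/
theorem Fam.mean_value (h : Fam s g X₀ X D μ) (hX : 1 ≤ X) (K : ℕ) (c : ι → ℂ) :
    ∑ k ∈ Icc (-(K : ℤ)) K, ‖∑ i ∈ s, c i * chi k (g i)‖ ^ 2 ≤
      270 * μ * D * √(X / X₀) * (K + X) * ∑ i ∈ s, ‖c i‖ ^ 2 := by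
  set K' := 3 * K + 1 with hK'
  have hK : 0 < K' := by omega
  have hKr : (0 : ℝ) < K' := by exact_mod_cast hK
  set H := ⌈X / K'⌉₊ with hH
  have H0 : 0 < H := Nat.ceil_pos.2 (by positivity)
  have H1 : X / K' ≤ H := Nat.le_ceil _
  have H2 : (H : ℝ) ≤ X / K' + 1 := (Nat.ceil_lt_add_one (by positivity)).le
  have Hr : (0 : ℝ) < H := by exact_mod_cast H0
  have row : ∀ i ∈ s, ∑ l ∈ s, ker K' (dir (star (g i) * g l)) ≤
      10 * μ * D * √(X / X₀) * (3 * K' + 4 * X) := fun i hi => by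
    refine le_trans (sum_le_sum fun l hl => ?_) (h.row hi
      (fun j => (if |j| ≤ H then (K' : ℝ) else 0) + tw X K' H j)
      (fun j => add_nonneg (by split_ifs <;> positivity) (tw_nonneg _ _ _ _)) fun J => ?_)
    · refine (ker_dir_le hK H (h.ne hi) (h.ne hl) (h.hi i hi) (h.hi l hl)).trans ?_
      by_cases c1 : |dot (g i) (g l)| ≤ H <;> by_cases c2 : |det (g i) (g l)| ≤ H <;>
        simp only [c1, c2, true_or, or_true, or_self, if_true, if_false] <;> linarith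
    · rw [sum_add_distrib]
      have a1 := sum_ind_le K' hKr.le H J
      have a2 := sum_tw_le X K' H H0 J
      have a3 : (H : ℝ) * K' ≤ X + K' := by
        have := mul_le_mul_of_nonneg_right H2 hKr.le
        rwa [add_mul, div_mul_cancel₀ _ hKr.ne', one_mul] at this
      have a4 : X ^ 2 / K' * (2 / H) ≤ 2 * X := by
        rw [show X ^ 2 / K' * (2 / H) = 2 * X * (X / K' / H) by field_simp]
        exact mul_le_of_le_one_right (by positivity) ((div_le_one Hr).2 H1)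
      nlinarith
  have sym : ∀ i l, ker K' (dir (star (g l) * g i)) = ker K' (dir (star (g i) * g l)) := by
    intro i l
    rw [← ker_conj, ← dir_star, star_mul, star_star]
  have h1 : En K' (fun k => ∑ i ∈ s, c i * chi k (g i)) ≤
      ∑ i ∈ s, ‖c i‖ ^ 2 * ∑ l ∈ s, ker K' (dir (star (g i) * g l)) := by
    refine (le_abs_self _).trans ?_
    rw [← Real.norm_eq_abs, ← Complex.norm_real, En_eq (fun i hi => h.ne hi)]
    calc _ ≤ ∑ i ∈ s, ∑ l ∈ s, (‖c i‖ ^ 2 / 2 * ker K' (dir (star (g i) * g l)) +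
          ‖c l‖ ^ 2 / 2 * ker K' (dir (star (g l) * g i))) := by
          refine (norm_sum_le _ _).trans (sum_le_sum fun i _ => ?_)
          refine (norm_sum_le _ _).trans (sum_le_sum fun l _ => ?_)
          rw [norm_mul, norm_mul, Complex.norm_conj, Complex.norm_real,
            Real.norm_of_nonneg (ker_nonneg _ _), sym i l]
          nlinarith [mul_nonneg (sq_nonneg (‖c i‖ - ‖c l‖))
            (ker_nonneg K' (dir (star (g i) * g l)))]
      _ = _ := by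
          simp only [sum_add_distrib]
          rw [sum_comm (f := fun i l => ‖c l‖ ^ 2 / 2 * ker K' (dir (star (g l) * g i))),
            ← sum_add_distrib]
          refine sum_congr rfl fun i _ => ?_
          rw [← mul_sum]; ring
  have h2 : ∑ i ∈ s, ‖c i‖ ^ 2 * ∑ l ∈ s, ker K' (dir (star (g i) * g l)) ≤
      (∑ i ∈ s, ‖c i‖ ^ 2) * (10 * μ * D * √(X / X₀) * (3 * K' + 4 * X)) := by
    rw [sum_mul]; exact sum_le_sum fun i hi => by gcongr; exact row i hi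
  have h3 : 3 * (K' : ℝ) + 4 * X ≤ 9 * (K + X) := by rw [hK']; push_cast; linarith
  have h4 : 0 ≤ ∑ i ∈ s, ‖c i‖ ^ 2 := sum_nonneg fun _ _ => by positivity
  calc _ ≤ 3 * En K' _ := sum_le_En K _
    _ ≤ 3 * ((∑ i ∈ s, ‖c i‖ ^ 2) * (10 * μ * D * √(X / X₀) * (9 * (K + X)))) := by
        gcongr; exact h1.trans (h2.trans (by gcongr))
    _ = _ := by ring

/-- A small mean square forces many unimodular pairs of opposite sign. -/
theorem Fam.geom (h : Fam s g X₀ X D μ) (a : ι → ℝ) {a₀ : ℝ} (ha : ∀ i ∈ s, 0 ≤ a i ∧ a i ≤ a₀)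
    {K H : ℕ} (hK : 0 < K) (hH : 0 < H) (hD : 0 < D) (ha₀ : 0 ≤ a₀)
    (hup : ∑ k ∈ Icc (-(K : ℤ)) K, ‖∑ i ∈ s, ((a i * lam (g i) : ℝ) : ℂ) * chi k (g i)‖ ^ 2 ≤
      (∑ i ∈ s, a i) ^ 2 / 2)
    (hfar : 160 * a₀ * μ * D * √(X / X₀) * X ^ 2 ≤ K * H * ∑ i ∈ s, a i) :
    ∃ E : Finset (G × G), (∀ e ∈ E, BadEdge (X₀ / ((D : ℝ) * H) ^ 2) X e) ∧
      (∑ i ∈ s, a i) ^ 2 ≤ 2592 * a₀ ^ 2 * μ ^ 2 * K * ((D : ℝ) * H) ^ 4 * E.card := by
  classical
  set m := ∑ i ∈ s, a i with hm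
  have m0 : 0 ≤ m := sum_nonneg fun i hi => (ha i hi).1
  have hKr : (0 : ℝ) < K := by exact_mod_cast hK
  have Hr : (0 : ℝ) < H := by exact_mod_cast hH
  set κ : ι → ι → ℝ := fun i l => ker K (dir (star (g i) * g l)) with hκ
  have lower : m ^ 2 ≤ ∑ i ∈ s, ∑ l ∈ s, a i * a l * κ i l := by
    rw [← En_real (fun i hi => h.ne hi)]
    refine le_trans (le_of_eq ?_) (le_En hK _)
    simp only [chi_zero, mul_one]
    rw [← Complex.ofReal_sum, Complex.norm_real, Real.norm_eq_abs, sq_abs]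
  have upper : ∑ i ∈ s, ∑ l ∈ s, a i * lam (g i) * (a l * lam (g l)) * κ i l ≤ m ^ 2 / 2 := by
    rw [← En_real (fun i hi => h.ne hi)]
    exact (En_le_sum hK _).trans hup
  set P := (s ×ˢ s).filter fun q => lam (g q.1) ≠ lam (g q.2) ∧
    (|dot (g q.1) (g q.2)| ≤ H ∨ |det (g q.1) (g q.2)| ≤ H) with hP
  have pt : ∀ i ∈ s, ∀ l ∈ s, a i * a l * κ i l - a i * lam (g i) * (a l * lam (g l)) * κ i l ≤
      (if (i, l) ∈ P then 2 * a₀ ^ 2 * K else 0) +
        2 * a₀ * a i * (tw X K H (dot (g i) (g l)) + tw X K H (det (g i) (g l))) := by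
    intro i hi l hl
    obtain ⟨i1, i2⟩ := ha i hi
    obtain ⟨l1, l2⟩ := ha l hl
    have t0 : 0 ≤ tw X K H (dot (g i) (g l)) + tw X K H (det (g i) (g l)) :=
      add_nonneg (tw_nonneg _ _ _ _) (tw_nonneg _ _ _ _)
    by_cases hF : lam (g i) = lam (g l)
    · have e : lam (g i) * lam (g l) = 1 := by
        rw [hF]; rcases lam_eq (g l) with h' | h' <;> simp [h']
      have : a i * a l * κ i l - a i * lam (g i) * (a l * lam (g l)) * κ i l = 0 := by
        linear_combination (-(a i * a l * κ i l)) * e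
      rw [this]
      split_ifs <;> positivity
    · have e : lam (g i) * lam (g l) = -1 := by
        rcases lam_eq (g l) with h' | h' <;> rcases lam_eq (g i) with h'' | h'' <;>
          simp_all
      have e' : a i * a l * κ i l - a i * lam (g i) * (a l * lam (g l)) * κ i l =
          2 * (a i * a l) * κ i l := by
        linear_combination (-(a i * a l * κ i l)) * e
      have hk := ker_dir_le hK H (h.ne hi) (h.ne hl) (h.hi i hi) (h.hi l hl)
      have hmem : (i, l) ∈ P ↔ (|dot (g i) (g l)| ≤ H ∨ |det (g i) (g l)| ≤ H) := by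
        simp [hP, hi, hl, hF]
      rw [e']
      simp only [hmem]
      have b1 : a i * a l ≤ a₀ * a i := by rw [mul_comm a₀]; gcongr
      have b2 : a i * a l ≤ a₀ ^ 2 := by rw [sq]; gcongr
      have b0 : 0 ≤ a i * a l := mul_nonneg i1 l1
      change κ i l ≤ _ at hk
      split_ifs at hk ⊢ <;>
        nlinarith [mul_le_mul_of_nonneg_left hk b0, mul_le_mul_of_nonneg_right b1 t0,
          mul_le_mul_of_nonneg_right b2 hKr.le]
  have far : ∑ i ∈ s, ∑ l ∈ s, 2 * a₀ * a i *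
      (tw X K H (dot (g i) (g l)) + tw X K H (det (g i) (g l))) ≤ m ^ 2 / 4 := by
    calc _ ≤ ∑ i ∈ s, 2 * a₀ * a i * (10 * μ * D * √(X / X₀) * (X ^ 2 / K * (2 / H))) :=
          sum_le_sum fun i hi => by
            rw [← mul_sum]
            have := (ha i hi).1
            gcongr
            exact h.row hi _ (tw_nonneg X K H) (sum_tw_le X K H hH)
      _ = m * (160 * a₀ * μ * D * √(X / X₀) * X ^ 2) / (4 * (K * H)) := by
          rw [← sum_mul, ← mul_sum, ← hm]; field_simp; ring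
      _ ≤ m * (K * H * m) / (4 * (K * H)) := by gcongr
      _ = _ := by field_simp
  have nearc : ∑ i ∈ s, ∑ l ∈ s, (if (i, l) ∈ P then 2 * a₀ ^ 2 * K else 0) =
      P.card * (2 * a₀ ^ 2 * K) := by
    rw [← sum_product' (f := fun i l => if (i, l) ∈ P then 2 * a₀ ^ 2 * K else 0), ← sum_filter,
      filter_mem_eq_inter, inter_eq_right.2 (filter_subset _ _), sum_const, nsmul_eq_mul]
  have tot : m ^ 2 ≤ 8 * a₀ ^ 2 * K * P.card := by
    have := sum_le_sum fun i hi => sum_le_sum (pt i hi)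
    simp only [sum_sub_distrib, sum_add_distrib] at this
    linarith
  have ex : ∀ q ∈ P, ∃ e : G × G, BadEdge (X₀ / ((D : ℝ) * H) ^ 2) X e ∧
      g q.1 ∈ near (D * H) e ∧ g q.2 ∈ near (D * H) e := fun q hq => by
    obtain ⟨h1, h2, h3⟩ := mem_filter.1 hq
    obtain ⟨h4, h5⟩ := mem_product.1 h1
    exact edge_of_pair h.pos h2 h3 (h.lo _ h4) (h.hi _ h4) (h.co _ h4) (h.lo _ h5) (h.hi _ h5)
      (h.co _ h5)
  choose! ed hed using ex
  refine ⟨P.image ed, fun e he => ?_, ?_⟩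
  · obtain ⟨q, hq, rfl⟩ := mem_image.1 he
    exact (hed q hq).1
  have one : ∀ e, (s.filter fun i => g i ∈ near (D * H) e).card ≤ μ * (18 * (D * H) ^ 2) := by
    intro e
    refine (card_le_mul_card_image (f := g) _ μ fun z _ =>
      (card_le_card (filter_subset_filter _ (filter_subset _ _))).trans (h.fib z)).trans ?_
    gcongr
    refine (card_le_card fun z hz => ?_).trans (card_near_le (Nat.mul_pos hD hH) e)
    obtain ⟨i, hi, rfl⟩ := mem_image.1 hz
    exact (mem_filter.1 hi).2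
  have hc : P.card ≤ (μ * (18 * (D * H) ^ 2)) ^ 2 * (P.image ed).card := by
    refine card_le_mul_card_image _ _ fun e _ => ?_
    refine (card_le_card (t := (s.filter fun i => g i ∈ near (D * H) e) ×ˢ
      (s.filter fun i => g i ∈ near (D * H) e)) fun q hq => ?_).trans ?_
    · obtain ⟨h1, rfl⟩ := mem_filter.1 hq
      obtain ⟨h4, h5⟩ := mem_product.1 (mem_filter.1 h1).1
      exact mem_product.2 ⟨mem_filter.2 ⟨h4, (hed q h1).2.1⟩, mem_filter.2 ⟨h5, (hed q h1).2.2⟩⟩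
    · rw [card_product, sq]; exact Nat.mul_le_mul (one e) (one e)
  have hc' : (P.card : ℝ) ≤ ((μ : ℝ) * (18 * ((D : ℝ) * H) ^ 2)) ^ 2 * (P.image ed).card := by
    exact_mod_cast hc
  calc _ ≤ _ := tot
    _ ≤ 8 * a₀ ^ 2 * K * (((μ : ℝ) * (18 * ((D : ℝ) * H) ^ 2)) ^ 2 * (P.image ed).card) := by gcongr
    _ = _ := by ring

end Pool.Agent.P.MP_a1177c_nt.MR
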