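import Pool.Agent.P.MP_a1177c_nt.MR.Defs

namespace Pool.Agent.P.MP_a1177c_nt.MR

open Finset Filter UniqueFactorizationMonoid
open scoped ArithmeticFunction.vonMangoldt

lemma LamK_nonneg (d : G) : 0 ≤ LamK d := by
  unfold LamK
  split_ifs
  · exact div_nonneg (Real.log_natCast_nonneg _) (Nat.cast_nonneg _)
  · exact le_rfl

lemma Om_mul {a b : G} (ha : a ≠ 0) (hb : b ≠ 0) : Om (a * b) = Om a + Om b := by
  simp [Om, normalizedFactors_mul ha hb]

namespace LamKAux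

lemma two_le_nm {p : G} (h : Prime p) : 2 ≤ nm p := by
  have h1 := nm_pos h.ne_zero
  have h2 : nm p ≠ 1 := fun e => h.not_isUnit (nm_eq_one_iff.1 e)
  omega

lemma nm_eq_of_associated {a b : G} (h : Associated a b) : nm a = nm b := by
  obtain ⟨u, rfl⟩ := h
  rw [nm_mul, nm_eq_one_iff.2 u.isUnit, mul_one]

lemma nm_multiset_prod (s : Multiset G) : nm s.prod = (s.map nm).prod := by
  induction s using Multiset.induction_on with
  | empty => simp
  | cons a s ih => simp [nm_mul, ih]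

lemma nm_eq_prod {a : G} (ha : a ≠ 0) : nm a = ((normalizedFactors a).map nm).prod := by
  rw [← nm_multiset_prod, nm_eq_of_associated (prod_normalizedFactors ha)]

lemma isP_of_mem {a p : G} (h : p ∈ normalizedFactors a) : IsP p :=
  ⟨prime_of_normalized_factor p h, normalize_normalized_factor p h⟩

lemma nf_pow {p : G} (h : IsP p) (j : ℕ) : normalizedFactors (p ^ j) = Multiset.replicate j p := by
  rw [h.1.irreducible.normalizedFactors_pow, h.2]

lemma Om_pow {p : G} (h : IsP p) (j : ℕ) : Om (p ^ j) = j := by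
  simp [Om, nf_pow h]

lemma LamK_pow {p : G} (h : IsP p) {j : ℕ} (hj : 0 < j) : LamK (p ^ j) = Real.log (nm p) := by
  unfold LamK
  rw [if_pos ⟨p, j, h, hj, rfl⟩, Om_pow h, nm_pow]
  have : (j : ℝ) ≠ 0 := by exact_mod_cast hj.ne'
  push_cast
  rw [Real.log_pow]
  field_simp

lemma pow_inj {p q : G} (hp : IsP p) (hq : IsP q) {j k : ℕ} (hj : 0 < j) (h : p ^ j = q ^ k) :
    p = q ∧ j = k := by
  have h1 : Multiset.replicate j p = Multiset.replicate k q := by
    rw [← nf_pow hp, ← nf_pow hq, h]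
  have h2 : j = k := by simpa using congrArg Multiset.card h1
  subst h2
  exact ⟨(Multiset.replicate_right_inj hj.ne').1 h1, rfl⟩

open Classical in
lemma pow_dvd_iff {p a : G} (hp : IsP p) (ha : a ≠ 0) (j : ℕ) :
    p ^ j ∣ a ↔ j ≤ (normalizedFactors a).count p := by
  rw [dvd_iff_normalizedFactors_le_normalizedFactors (pow_ne_zero _ hp.1.ne_zero) ha, nf_pow hp,
    Multiset.le_count_iff_replicate_le]

lemma LamK_eq_zero {d : G} (h : ¬ ∃ p : G, ∃ j : ℕ, IsP p ∧ 0 < j ∧ d = p ^ j) : LamK d = 0 := by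
  unfold LamK; rw [if_neg h]

lemma exists_rat_prime {p : G} (hp : Prime p) : ∃ q : ℕ, q.Prime ∧ p ∣ (q : G) ∧
    ∃ k, 0 < k ∧ nm p = q ^ k := by
  have h1 : p ∣ ((nm p : ℕ) : G) := ⟨star p, (mul_star_eq p).symm⟩
  have h0 : nm p ≠ 0 := (nm_pos hp.ne_zero).ne'
  rw [← Nat.prod_primeFactorsList h0, Nat.cast_list_prod, hp.dvd_prod_iff] at h1
  obtain ⟨x, hx, hpx⟩ := h1
  obtain ⟨q, hq, rfl⟩ := List.mem_map.1 hx
  have hq' := Nat.prime_of_mem_primeFactorsList hq
  refine ⟨q, hq', hpx, ?_⟩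
  have h2 := nm_dvd hpx
  rw [nm_natCast, Nat.dvd_prime_pow hq'] at h2
  obtain ⟨k, -, hk⟩ := h2
  refine ⟨k, Nat.pos_of_ne_zero fun e => ?_, hk⟩
  have := two_le_nm hp
  rw [e, pow_zero] at hk
  omega

end LamKAux
open LamKAux

lemma two_pow_Om_le {a : G} (ha : a ≠ 0) : 2 ^ Om a ≤ nm a := by
  rw [nm_eq_prod ha, Om, ← Multiset.card_map nm]
  refine Multiset.pow_card_le_prod fun x hx => ?_
  obtain ⟨p, hp, rfl⟩ := Multiset.mem_map.1 hx
  exact two_le_nm (isP_of_mem hp).1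

lemma Om_of_prime {a : G} (h : (nm a).Prime) : Om a = 1 := by
  simp [Om, normalizedFactors_irreducible (prime_of_nm_prime h).irreducible]

lemma card_shell_one : (shell 1).card = 4 := by
  have : shell 1 = {⟨1, 0⟩, ⟨-1, 0⟩, ⟨0, 1⟩, ⟨0, -1⟩} := by
    ext a
    simp only [mem_shell, mem_insert, mem_singleton]
    constructor
    · rintro ⟨-, h⟩
      have h1 : a.re ^ 2 + a.im ^ 2 = 1 := by rw [← nm_int, h]; rfl
      have h2 : -1 ≤ a.re ∧ a.re ≤ 1 := by constructor <;> nlinarith [sq_nonneg a.im]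
      have h3 : -1 ≤ a.im ∧ a.im ≤ 1 := by constructor <;> nlinarith [sq_nonneg a.re]
      obtain ⟨x, y⟩ := a
      obtain ⟨h4, h5⟩ := h2
      obtain ⟨h6, h7⟩ := h3
      simp only at h1 h4 h5 h6 h7
      interval_cases x <;> interval_cases y <;> simp_all
    · rintro (rfl | rfl | rfl | rfl) <;> exact ⟨by decide, by decide⟩
  rw [this]
  decide

lemma dir_of_isUnit {u : G} (h : IsUnit u) : dir u = 1 := by
  have h1 := nm_eq_one_iff.2 h
  have h2 : u.re ^ 2 + u.im ^ 2 = 1 := by rw [← nm_int, h1]; rfl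
  have h3 : u ^ 4 = 1 := by
    have h4 : u.re * u.im = 0 := by
      by_contra hne
      have h5 : u.re ≠ 0 := left_ne_zero_of_mul hne
      have h6 : u.im ≠ 0 := right_ne_zero_of_mul hne
      have := sq_pos_of_ne_zero h5
      have := sq_pos_of_ne_zero h6
      omega
    have e : u ^ 4 = (u * u) * (u * u) := by ring
    rw [e]
    ext
    · simp only [Zsqrtd.re_mul, Zsqrtd.im_mul, Zsqrtd.re_one]
      have : (u.re ^ 2 + u.im ^ 2) ^ 2 = 1 := by rw [h2]; rfl
      linear_combination this - 8 * (u.re * u.im) * h4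
    · simp only [Zsqrtd.re_mul, Zsqrtd.im_mul, Zsqrtd.im_one]
      linear_combination 4 * (u.re ^ 2 - u.im ^ 2) * h4
  rw [dir, h1, ← map_pow, h3]
  simp

open Classical in
theorem sum_LamK_dvd {a : G} (ha : a ≠ 0) :
    ∑ d ∈ (disc (nm a)).filter (fun d => d ∣ a), LamK d = Real.log (nm a) := by
  set s := normalizedFactors a with hs
  have h1 : ∑ d ∈ (disc (nm a)).filter (fun d => d ∣ a), LamK d =
      ∑ x ∈ s.toFinset.sigma (fun p => Icc 1 (s.count p)), Real.log (nm x.1) := by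
    symm
    refine sum_bij_ne_zero (fun x _ _ => x.1 ^ x.2) (fun x hx _ => ?_)
      (fun x hx _ y hy _ e => ?_) (fun d hd hd0 => ?_) (fun x hx _ => ?_)
    · obtain ⟨h1, h2⟩ := mem_sigma.1 hx
      have hp := isP_of_mem (Multiset.mem_toFinset.1 h1)
      have h3 := (pow_dvd_iff hp ha _).2 (mem_Icc.1 h2).2
      exact mem_filter.2 ⟨mem_disc.2 ⟨pow_ne_zero _ hp.1.ne_zero, nm_le_of_dvd ha h3⟩, h3⟩
    · obtain ⟨h1, h2⟩ := mem_sigma.1 hx
      obtain ⟨h3, -⟩ := mem_sigma.1 hy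
      obtain ⟨e1, e2⟩ := pow_inj (isP_of_mem (Multiset.mem_toFinset.1 h1))
        (isP_of_mem (Multiset.mem_toFinset.1 h3)) (mem_Icc.1 h2).1 e
      exact Sigma.ext e1 (heq_of_eq e2)
    · obtain ⟨p, j, hp, hj, rfl⟩ : ∃ p : G, ∃ j : ℕ, IsP p ∧ 0 < j ∧ d = p ^ j := by
        by_contra h
        exact hd0 (LamK_eq_zero h)
      have h3 := (pow_dvd_iff hp ha _).1 (mem_filter.1 hd).2
      refine ⟨⟨p, j⟩, mem_sigma.2 ⟨Multiset.mem_toFinset.2
        (Multiset.count_pos.1 (hj.trans_le h3)), mem_Icc.2 ⟨hj, h3⟩⟩, ?_, rfl⟩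
      rwa [LamK_pow hp hj] at hd0
    · obtain ⟨h1, h2⟩ := mem_sigma.1 hx
      exact (LamK_pow (isP_of_mem (Multiset.mem_toFinset.1 h1)) (mem_Icc.1 h2).1).symm
  rw [h1, sum_sigma, nm_eq_prod ha, ← hs, prod_multiset_map_count]
  push_cast
  rw [Real.log_prod]
  · refine sum_congr rfl fun p _ => ?_
    simp [Real.log_pow]
  · intro p hp
    have := nm_pos (isP_of_mem (Multiset.mem_toFinset.1 hp)).1.ne_zero
    positivity

theorem lf_conv (g : G → ℂ) (hg : ∀ a b, a ≠ 0 → b ≠ 0 → g (a * b) = g a * g b) (n : ℕ) :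
    (Real.log n : ℂ) * cf g n = ∑ p ∈ n.divisorsAntidiagonal, lf g p.1 * cf g p.2 := by
  classical
  have h1 : (Real.log n : ℂ) * cf g n = ∑ x ∈ (shell n).sigma
      (fun a => (disc (nm a)).filter (fun d => d ∣ a)), (LamK x.2 : ℂ) * g x.1 := by
    rw [sum_sigma, cf, mul_sum]
    refine sum_congr rfl fun a ha => ?_
    obtain ⟨h0, h1⟩ := mem_shell.1 ha
    dsimp only
    rw [← sum_mul, ← Complex.ofReal_sum, ← h1]
    congr 2
    convert (sum_LamK_dvd h0).symm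
  have h2 : ∑ p ∈ n.divisorsAntidiagonal, lf g p.1 * cf g p.2 = ∑ x ∈ n.divisorsAntidiagonal.sigma
      (fun p => shell p.1 ×ˢ shell p.2), (LamK x.2.1 : ℂ) * g x.2.1 * g x.2.2 := by
    rw [sum_sigma]
    refine sum_congr rfl fun p _ => ?_
    rw [lf, cf, sum_mul_sum, sum_product]
  rw [h1, h2]
  symm
  refine sum_bij (fun x _ => ⟨x.2.1 * x.2.2, x.2.1⟩) (fun x hx => ?_) (fun x hx y hy e => ?_)
    (fun y hy => ?_) (fun x hx => ?_)
  · obtain ⟨h1, h2⟩ := mem_sigma.1 hx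
    obtain ⟨h3, h4⟩ := mem_product.1 h2
    obtain ⟨h5, h6⟩ := mem_shell.1 h3
    obtain ⟨h7, h8⟩ := mem_shell.1 h4
    have h9 := mul_ne_zero h5 h7
    refine mem_sigma.2 ⟨mem_shell.2 ⟨h9, ?_⟩, mem_filter.2
      ⟨mem_disc.2 ⟨h5, nm_le_of_dvd h9 (dvd_mul_right _ _)⟩, dvd_mul_right _ _⟩⟩
    rw [nm_mul, h6, h8]
    exact (Nat.mem_divisorsAntidiagonal.1 h1).1
  · obtain ⟨-, h2⟩ := mem_sigma.1 hx
    obtain ⟨h3, h4⟩ := mem_product.1 h2
    obtain ⟨-, h2'⟩ := mem_sigma.1 hy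
    obtain ⟨h3', h4'⟩ := mem_product.1 h2'
    obtain ⟨⟨p1, p2⟩, d, b⟩ := x
    obtain ⟨⟨q1, q2⟩, d', b'⟩ := y
    simp only [Sigma.mk.injEq, heq_eq_eq] at e
    obtain ⟨e1, rfl⟩ := e
    have e2 : b = b' := mul_left_cancel₀ (mem_shell.1 h3).1 e1
    subst e2
    have e3 : p1 = q1 := (mem_shell.1 h3).2.symm.trans (mem_shell.1 h3').2
    have e4 : p2 = q2 := (mem_shell.1 h4).2.symm.trans (mem_shell.1 h4').2
    subst e3 e4
    rfl
  · obtain ⟨a, d⟩ := y
    obtain ⟨h1, h2⟩ := mem_sigma.1 hy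
    obtain ⟨h3, h4⟩ := mem_shell.1 h1
    obtain ⟨-, b, hb⟩ := mem_filter.1 h2
    simp only at h3 h4 hb
    subst hb
    refine ⟨⟨(nm d, nm b), d, b⟩, mem_sigma.2 ⟨Nat.mem_divisorsAntidiagonal.2
      ⟨by rw [← h4, nm_mul], by rw [← h4]; exact (nm_pos h3).ne'⟩, mem_product.2
        ⟨mem_shell.2 ⟨left_ne_zero_of_mul h3, rfl⟩,
          mem_shell.2 ⟨right_ne_zero_of_mul h3, rfl⟩⟩⟩, rfl⟩
  · obtain ⟨-, h2⟩ := mem_sigma.1 hx
    obtain ⟨h3, h4⟩ := mem_product.1 h2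
    rw [hg _ _ (mem_shell.1 h3).1 (mem_shell.1 h4).1, mul_assoc]

theorem sum_shell_LamK_le (n : ℕ) : ∑ a ∈ shell n, LamK a ≤ 2 * Λ n := by
  classical
  set F := (shell n).filter fun d => ∃ p : G, ∃ j : ℕ, IsP p ∧ 0 < j ∧ d = p ^ j with hF
  have h1 : ∑ a ∈ shell n, LamK a = ∑ a ∈ F, LamK a :=
    (sum_filter_of_ne fun a _ h => by by_contra h'; exact h (LamK_eq_zero h')).symm
  rw [h1]
  rcases F.eq_empty_or_nonempty with h0 | ⟨a0, ha0⟩
  · rw [h0, sum_empty]
    exact mul_nonneg zero_le_two ArithmeticFunction.vonMangoldt_nonneg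
  have key : ∀ a ∈ F, ∃ p : G, ∃ j : ℕ, IsP p ∧ 0 < j ∧ a = p ^ j ∧ n.minFac.Prime ∧
      p ∣ (n.minFac : G) ∧ Λ n = Real.log n.minFac := fun a ha => by
    obtain ⟨h2, p, j, hp, hj, rfl⟩ := mem_filter.1 ha
    obtain ⟨q, hq, hpq, k, hk, hn⟩ := exists_rat_prime hp.1
    have h3 : n = q ^ (k * j) := by rw [← (mem_shell.1 h2).2, nm_pow, hn, pow_mul]
    have h4 : k * j ≠ 0 := (Nat.mul_pos hk hj).ne'
    have h5 : n.minFac = q := by rw [h3, hq.pow_minFac h4]
    refine ⟨p, j, hp, hj, rfl, h5 ▸ hq, h5 ▸ hpq, ?_⟩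
    rw [h5, h3, ArithmeticFunction.vonMangoldt_apply_pow h4,
      ArithmeticFunction.vonMangoldt_apply_prime hq]
  obtain ⟨-, -, -, -, -, hq, -, hΛ⟩ := key a0 ha0
  choose! b j hb hj he _ hd _ using key
  have hq0 : (n.minFac : G) ≠ 0 := by exact_mod_cast hq.ne_zero
  have h6 := sum_LamK_dvd hq0
  rw [nm_natCast] at h6
  push_cast at h6
  rw [Real.log_pow] at h6
  calc ∑ a ∈ F, LamK a = ∑ a ∈ F, LamK (b a) := by
        refine sum_congr rfl fun a ha => ?_
        conv_lhs => rw [he a ha, LamK_pow (hb a ha) (hj a ha)]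
        conv_rhs => rw [← pow_one (b a), LamK_pow (hb a ha) one_pos]
    _ = ∑ d ∈ F.image b, LamK d := by
        refine (sum_image fun a ha a' ha' e => ?_).symm
        have e1 : nm (b a) ^ j a = nm (b a) ^ j a' := by
          rw [← nm_pow, ← he a ha, (mem_shell.1 (mem_filter.1 ha).1).2, e, ← nm_pow, ← he a' ha',
            (mem_shell.1 (mem_filter.1 ha').1).2]
        have e2 := Nat.pow_right_injective (two_le_nm (hb a ha).1) e1
        rw [he a ha, he a' ha', e, e2]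
    _ ≤ _ := by
        rw [hΛ]
        refine le_trans (sum_le_sum_of_subset_of_nonneg (fun d hd' => ?_)
          fun _ _ _ => LamK_nonneg _) (le_of_eq (h6.trans (by norm_num)))
        obtain ⟨a, ha, rfl⟩ := mem_image.1 hd'
        refine mem_filter.2 ⟨mem_disc.2 ⟨(hb a ha).1.ne_zero, ?_⟩, hd a ha⟩
        rw [← nm_natCast]
        exact nm_le_of_dvd hq0 (hd a ha)

open Classical in
theorem card_divisors_le {a : G} (ha : a ≠ 0) :
    ((disc (nm a)).filter (fun d => d ∣ a)).card ≤ 4 * 2 ^ Om a := by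
  refine le_trans (card_le_mul_card_image_of_maps_to (f := normalizedFactors)
    (t := (normalizedFactors a).powerset.toFinset) (fun d hd => ?_) 4 (fun s _ => ?_)) ?_
  · obtain ⟨h1, h2⟩ := mem_filter.1 hd
    exact Multiset.mem_toFinset.2 (Multiset.mem_powerset.2
      ((dvd_iff_normalizedFactors_le_normalizedFactors (mem_disc.1 h1).1 ha).1 h2))
  · rw [← card_shell_one]
    refine le_trans (card_le_card (t := (shell 1).image (s.prod * ·)) fun d hd => ?_) card_image_le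
    obtain ⟨h1, rfl⟩ := mem_filter.1 hd
    obtain ⟨u, hu⟩ := prod_normalizedFactors (mem_disc.1 (mem_filter.1 h1).1).1
    exact mem_image.2 ⟨u, mem_shell.2 ⟨u.ne_zero, nm_eq_one_iff.2 u.isUnit⟩, hu⟩
  · refine Nat.mul_le_mul_left _ (le_trans (Multiset.toFinset_card_le _) ?_)
    rw [Multiset.card_powerset, Om]

/-- Chebyshev bound with the weight `z ^ Om`. -/
theorem cheb_z : ∃ C : ℝ, 0 < C ∧ ∀ z : ℝ, 0 ≤ z → z ≤ 9 / 8 → ∀ y : ℕ,
    ∑ d ∈ disc y, LamK d * z ^ Om d ≤ C * y := by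
  obtain ⟨C, hC⟩ := Chebyshev.psi_sub_theta_le_mul_sqrt
  have hl : 0 < Real.log 4 + 4 := by have := Real.log_pos (show (1 : ℝ) < 4 by norm_num); linarith
  refine ⟨9 / 4 * (Real.log 4 + 4) + 2 * |C|, by positivity, fun z hz0 hz y => ?_⟩
  have hy : (0 : ℝ) ≤ y := Nat.cast_nonneg y
  have h1 : ∀ n ∈ range (y + 1), ∑ d ∈ shell n, LamK d * z ^ Om d ≤
      9 / 4 * Λ n + 2 * √y * (if ¬ n.Prime then Λ n else 0) := fun n hn => by
    have hΛ : 0 ≤ Λ n := ArithmeticFunction.vonMangoldt_nonneg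
    have hs := sum_shell_LamK_le n
    by_cases hp : n.Prime
    · have : ∑ d ∈ shell n, LamK d * z ^ Om d ≤ ∑ d ∈ shell n, LamK d * (9 / 8) :=
        sum_le_sum fun d hd => by
          rw [Om_of_prime ((mem_shell.1 hd).2 ▸ hp), pow_one]
          exact mul_le_mul_of_nonneg_left hz (LamK_nonneg d)
      rw [← sum_mul] at this
      simp only [hp, not_true, if_false, mul_zero, add_zero]
      linarith
    · have : ∑ d ∈ shell n, LamK d * z ^ Om d ≤ ∑ d ∈ shell n, LamK d * √y :=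
        sum_le_sum fun d hd => by
          refine mul_le_mul_of_nonneg_left (Real.le_sqrt_of_sq_le ?_) (LamK_nonneg d)
          obtain ⟨h0, h1⟩ := mem_shell.1 hd
          have h2 : ((2 : ℝ)) ^ Om d ≤ y := by
            have := (two_pow_Om_le h0).trans (h1 ▸ Nat.lt_succ_iff.1 (mem_range.1 hn))
            exact_mod_cast this
          rw [← pow_mul, mul_comm, pow_mul]
          exact le_trans (pow_le_pow_left₀ (sq_nonneg z) (by nlinarith) _) h2
      rw [← sum_mul] at this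
      simp only [hp, not_false_eq_true, if_true]
      have h3 := mul_le_mul_of_nonneg_right hs (Real.sqrt_nonneg (y : ℝ))
      linarith
  have e1 : ∑ n ∈ range (y + 1), Λ n = Chebyshev.psi y := by
    rw [Chebyshev.psi_eq_sum_Icc, Nat.floor_natCast, Nat.range_succ_eq_Icc_zero]
  have e2 : ∑ n ∈ range (y + 1), (if ¬ n.Prime then Λ n else 0) =
      Chebyshev.psi y - Chebyshev.theta y := by
    rw [← e1, Chebyshev.theta_eq_sum_Icc, Nat.floor_natCast, ← Nat.range_succ_eq_Icc_zero,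
      sum_filter, ← sum_sub_distrib]
    refine sum_congr rfl fun n _ => ?_
    by_cases hp : n.Prime
    · simp [hp, ArithmeticFunction.vonMangoldt_apply_prime hp]
    · simp [hp]
  rw [sum_disc_eq]
  refine (sum_le_sum h1).trans ?_
  rw [sum_add_distrib, ← mul_sum, ← mul_sum, e1, e2]
  have h2 := Chebyshev.psi_le_const_mul_self hy
  have h3 : Chebyshev.psi y - Chebyshev.theta y ≤ |C| * √y :=
    (hC y).trans (mul_le_mul_of_nonneg_right (le_abs_self C) (Real.sqrt_nonneg _))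
  have h4 := mul_le_mul_of_nonneg_left h3 (Real.sqrt_nonneg (y : ℝ))
  have h5 : √(y : ℝ) * (|C| * √y) = |C| * y := by
    rw [mul_left_comm, Real.mul_self_sqrt hy]
  nlinarith

end Pool.Agent.P.MP_a1177c_nt.MR
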