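import Pool.Agent.P.MP_a1177c_nt.MR.HalaszAux
import Pool.Agent.Lib.Mertens.First

namespace Pool.Agent.P.MP_a1177c_nt.MR

open Finset Filter
open scoped ArithmeticFunction.vonMangoldt

namespace Hal

open MeasureTheory LSeries

/-- The Gaussian weighted sum. -/
noncomputable def SG (c : ℕ → ℂ) (y : ℝ) : ℂ := ∑' n : ℕ, c n * (gw y n : ℝ)

lemma term_eq (f : ℕ → ℂ) (δ : ℝ) (n : ℕ) :
    term f ((1 + δ : ℝ) : ℂ) n = f n * (Real.exp (-(δ * Real.log n)) / n : ℝ) := by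
  rcases Nat.eq_zero_or_pos n with rfl | hn
  · simp
  have hn' : (0 : ℝ) < n := by exact_mod_cast hn
  rw [term_of_ne_zero hn.ne', ← Complex.ofReal_natCast, ← Complex.ofReal_cpow hn'.le,
    Real.rpow_add hn', Real.rpow_one, Real.rpow_def_of_pos hn', Real.exp_neg, div_eq_mul_inv,
    ← Complex.ofReal_inv, mul_comm δ]
  congr 2
  field_simp

lemma norm_term (f : ℕ → ℂ) (δ : ℝ) (n : ℕ) :
    ‖term f ((1 + δ : ℝ) : ℂ) n‖ = ‖f n‖ * (Real.exp (-(δ * |0 - Real.log n|)) / n) := by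
  rw [term_eq, norm_mul, Complex.norm_real, Real.norm_of_nonneg (by positivity), zero_sub, abs_neg,
    abs_of_nonneg (Real.log_natCast_nonneg n)]

lemma LSeries_eq_FS (f : ℕ → ℂ) (σ t : ℝ) :
    LSeries f (σ + t * Complex.I) = FS (term f σ) (fun n => -Real.log n) t := by
  unfold LSeries FS
  refine tsum_congr fun n => ?_
  rcases Nat.eq_zero_or_pos n with rfl | hn
  · simp
  have hn' : (n : ℂ) ≠ 0 := by exact_mod_cast hn.ne'
  rw [term_of_ne_zero hn.ne', term_of_ne_zero hn.ne', Complex.cpow_add _ _ hn',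
    Complex.cpow_def_of_ne_zero hn' (t * Complex.I), ← div_div, div_eq_mul_inv _ (Complex.exp _),
    ← Complex.exp_neg]
  congr 2
  push_cast; ring

lemma gw_eq1 (g : ℕ → ℂ) (x δ : ℝ) (b : ℕ) :
    g b * (gw x b : ℝ) = (Real.exp (δ * x + δ ^ 2 / 4) : ℝ) * (term g ((1 + δ : ℝ) : ℂ) b *
      (Real.exp (-(x + δ / 2 + -Real.log b) ^ 2 / (4 * (1 / 4))) : ℝ)) := by
  have e : gw x b = Real.exp (δ * x + δ ^ 2 / 4) * (Real.exp (-(δ * Real.log b)) / b *
      Real.exp (-(x + δ / 2 + -Real.log b) ^ 2 / (4 * (1 / 4)))) := by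
    rw [gw, show -(x - Real.log b) ^ 2 = (δ * x + δ ^ 2 / 4) + (-(δ * Real.log b)) +
      (-(x + δ / 2 + -Real.log b) ^ 2 / (4 * (1 / 4))) by ring, Real.exp_add, Real.exp_add]
    ring
  rw [e, term_eq]
  simp only [Complex.ofReal_mul]
  ring

lemma gw_eq2 (f g : ℕ → ℂ) (x δ : ℝ) (a b : ℕ) :
    f a / a * (g b * (gw (x - Real.log a) b : ℝ)) = (Real.exp (δ * x + δ ^ 2 / 4) : ℝ) *
      (term f ((1 + δ : ℝ) : ℂ) a * term g ((1 + δ : ℝ) : ℂ) b *
      (Real.exp (-(x + δ / 2 + (-Real.log a + -Real.log b)) ^ 2 / (4 * (1 / 4))) : ℝ)) := by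
  have e : (a : ℝ)⁻¹ * gw (x - Real.log a) b = Real.exp (δ * x + δ ^ 2 / 4) *
      (Real.exp (-(δ * Real.log a)) / a * (Real.exp (-(δ * Real.log b)) / b) *
      Real.exp (-(x + δ / 2 + (-Real.log a + -Real.log b)) ^ 2 / (4 * (1 / 4)))) := by
    rw [gw, show -(x - Real.log a - Real.log b) ^ 2 = (δ * x + δ ^ 2 / 4) + (-(δ * Real.log a)) +
      (-(δ * Real.log b)) +
      (-(x + δ / 2 + (-Real.log a + -Real.log b)) ^ 2 / (4 * (1 / 4))) by ring, Real.exp_add,
      Real.exp_add, Real.exp_add]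
    ring
  have e2 : f a / a * (g b * (gw (x - Real.log a) b : ℝ)) =
      f a * g b * (((a : ℝ)⁻¹ * gw (x - Real.log a) b : ℝ) : ℂ) := by
    push_cast; ring
  rw [e2, e, term_eq, term_eq]
  simp only [Complex.ofReal_mul]
  ring

/-- The normalising constant. -/
noncomputable def kap (x δ : ℝ) : ℝ := Real.exp (δ * x + δ ^ 2 / 4) / √(Real.pi / (1 / 4))

lemma sqrt_pos' : 0 < √(Real.pi / (1 / 4)) := by have := Real.pi_pos; positivity

lemma master1 {g : ℕ → ℂ} (x δ : ℝ) (hg : LSeriesSummable g ((1 + δ : ℝ) : ℂ)) :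
    SG g x = (kap x δ : ℝ) * ∫ t : ℝ, (Real.exp (-(1 / 4) * t ^ 2) : ℂ) *
      (Complex.exp (Complex.I * (x + δ / 2 : ℝ) * t) *
        LSeries g ((1 + δ : ℝ) + t * Complex.I)) := by
  simp only [LSeries_eq_FS, FS_shift]
  rw [gauss hg.norm _ (by norm_num), SG, ← mul_assoc, ← tsum_mul_left]
  refine tsum_congr fun b => ?_
  rw [gw_eq1 g x δ, kap, ← Complex.ofReal_mul, div_mul_cancel₀ _ sqrt_pos'.ne']

lemma master2 {f g : ℕ → ℂ} (x δ : ℝ) (hf : LSeriesSummable f ((1 + δ : ℝ) : ℂ))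
    (hg : LSeriesSummable g ((1 + δ : ℝ) : ℂ)) :
    (Summable fun a : ℕ => f a / a * SG g (x - Real.log a)) ∧
    ∑' a : ℕ, f a / a * SG g (x - Real.log a) =
      (kap x δ : ℝ) * ∫ t : ℝ, (Real.exp (-(1 / 4) * t ^ 2) : ℂ) *
      (Complex.exp (Complex.I * (x + δ / 2 : ℝ) * t) *
        (LSeries f ((1 + δ : ℝ) + t * Complex.I) * LSeries g ((1 + δ : ℝ) + t * Complex.I))) := by
  have hp := summable_pair hf.norm hg.norm
  have hs : Summable fun p : ℕ × ℕ =>
      f p.1 / p.1 * (g p.2 * (gw (x - Real.log p.1) p.2 : ℝ)) := by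
    simp only [gw_eq2 f g x δ]
    refine Summable.mul_left _ (Summable.of_norm_bounded hp fun p => ?_)
    rw [norm_mul, Complex.norm_real, Real.norm_of_nonneg (Real.exp_pos _).le]
    refine mul_le_of_le_one_right (norm_nonneg _) ?_
    rw [Real.exp_le_one_iff]
    have := sq_nonneg (x + δ / 2 + (-Real.log p.1 + -Real.log p.2))
    linarith
  have h1 := hs.prod
  simp only [tsum_mul_left] at h1
  refine ⟨h1, ?_⟩
  simp only [LSeries_eq_FS, FS_mul hf.norm hg.norm, FS_shift]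
  rw [gauss hp _ (by norm_num), ← mul_assoc, ← tsum_mul_left, ← Complex.ofReal_mul, kap,
    div_mul_cancel₀ _ sqrt_pos'.ne']
  simp only [← gw_eq2 f g x δ]
  rw [hs.tsum_prod]
  simp only [tsum_mul_left, SG]

lemma kap_le {x : ℝ} (hx : 1 ≤ x) : 0 ≤ kap x (1 / x) ∧ kap x (1 / x) ≤ 9 := by
  have h0 : 0 < x := by linarith
  refine ⟨(div_pos (Real.exp_pos _) sqrt_pos').le, ?_⟩
  have h1 : 1 ≤ √(Real.pi / (1 / 4)) := by
    rw [Real.one_le_sqrt]; linarith [Real.pi_gt_three]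
  have h2 : 1 / x ≤ 1 := by rw [div_le_one h0]; exact hx
  have h3 : 0 ≤ 1 / x := by positivity
  have h4 : Real.exp (1 / x * x + (1 / x) ^ 2 / 4) ≤ Real.exp 1 * Real.exp 1 := by
    rw [← Real.exp_add, one_div_mul_cancel h0.ne']
    exact Real.exp_le_exp.2 (by nlinarith)
  have h5 := Real.exp_one_lt_d9
  have h6 := Real.exp_pos 1
  rw [kap, div_le_iff₀ sqrt_pos']
  nlinarith

/-! ### Bounds -/

section Bounds

variable {C₁ : ℝ} {r : ℕ → ℝ} {c : ℕ → ℂ}

lemma dir_bound (hr : ∀ n, 0 ≤ r n) (hs : ∀ y : ℕ, ∑ n ∈ range (y + 1), r n ≤ C₁ * y)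
    {M : ℝ} (hM : 0 ≤ M) (hc : ∀ n, ‖c n‖ ≤ M * r n) {δ : ℝ} (h0 : 0 < δ) (h1 : δ ≤ 1) :
    LSeriesSummable c ((1 + δ : ℝ) : ℂ) ∧
      ∑' n, ‖term c ((1 + δ : ℝ) : ℂ) n‖ ≤ M * (24 * C₁ / δ) := by
  obtain ⟨s1, s2⟩ := star_sum hr hs h0 h1 0
  have hle : ∀ n, ‖term c ((1 + δ : ℝ) : ℂ) n‖ ≤
      M * (r n * (Real.exp (-(δ * |0 - Real.log n|)) / n)) := fun n => by
    rw [norm_term, ← mul_assoc]
    exact mul_le_mul_of_nonneg_right (hc n) (by positivity)
  have h2 : Summable fun n => ‖term c ((1 + δ : ℝ) : ℂ) n‖ :=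
    (s1.mul_left M).of_nonneg_of_le (fun _ => norm_nonneg _) hle
  refine ⟨h2.of_norm, (h2.tsum_le_tsum hle (s1.mul_left M)).trans ?_⟩
  rw [tsum_mul_left]
  exact mul_le_mul_of_nonneg_left s2 hM

lemma ms_bound (hr : ∀ n, 0 ≤ r n) (hs : ∀ y : ℕ, ∑ n ∈ range (y + 1), r n ≤ C₁ * y)
    {M : ℝ} (hM : 0 ≤ M) (hc : ∀ n, ‖c n‖ ≤ M * r n) {δ : ℝ} (h0 : 0 < δ) (h1 : δ ≤ 1) :
    Integrable (fun t : ℝ => Real.exp (-(1 / 8) * t ^ 2) *
      ‖LSeries c ((1 + δ : ℝ) + t * Complex.I)‖ ^ 2) ∧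
    ∫ t : ℝ, Real.exp (-(1 / 8) * t ^ 2) * ‖LSeries c ((1 + δ : ℝ) + t * Complex.I)‖ ^ 2 ≤
      M ^ 2 * (18 * (24 * C₁) ^ 2 / δ) := by
  obtain ⟨d1, d2⟩ := dir_bound hr hs hM hc h0 h1
  have hC := C_nonneg hr hs
  simp only [LSeries_eq_FS]
  refine ⟨integrable_sq d1.norm _ (by norm_num), ?_⟩
  refine (mean_sq d1.norm _ (W := 3 * M * (24 * C₁ / 1)) fun i => ?_).trans ?_
  · obtain ⟨s1, s2⟩ := star_sum hr hs one_pos le_rfl (Real.log i)
    have hle : ∀ j : ℕ, ‖term c ((1 + δ : ℝ) : ℂ) j‖ *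
        Real.exp (-(-Real.log i + - -Real.log j) ^ 2 / (4 * (1 / 8))) ≤
        3 * M * (r j * (Real.exp (-(1 * |Real.log i - Real.log j|)) / j)) := fun j => by
      have a1 : Real.exp (-(δ * |0 - Real.log j|)) ≤ 1 := by
        rw [Real.exp_le_one_iff]; have := abs_nonneg (0 - Real.log j); nlinarith
      have a2 : Real.exp (-(-Real.log i + - -Real.log j) ^ 2 / (4 * (1 / 8))) ≤
          3 * Real.exp (-(1 * |Real.log i - Real.log j|)) := by
        have a3 : Real.exp (-(-Real.log i + - -Real.log j) ^ 2 / (4 * (1 / 8))) ≤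
            Real.exp 1 * Real.exp (-(1 * |Real.log i - Real.log j|)) := by
          rw [← Real.exp_add]
          refine Real.exp_le_exp.2 ?_
          rw [show -(-Real.log i + - -Real.log j) ^ 2 / (4 * (1 / 8)) =
            -2 * (Real.log i - Real.log j) ^ 2 by ring, ← sq_abs]
          nlinarith [sq_nonneg (|Real.log i - Real.log j| - 1 / 2),
            sq_nonneg |Real.log i - Real.log j|]
        have := Real.exp_one_lt_d9
        have := Real.exp_pos (-(1 * |Real.log i - Real.log j|))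
        nlinarith
      rw [norm_term]
      have b1 := hc j
      have b2 := hr j
      calc ‖c j‖ * (Real.exp (-(δ * |0 - Real.log j|)) / j) *
            Real.exp (-(-Real.log i + - -Real.log j) ^ 2 / (4 * (1 / 8)))
          ≤ (M * r j) * (1 / j) * (3 * Real.exp (-(1 * |Real.log i - Real.log j|))) := by
            gcongr
        _ = _ := by ring
    refine (Summable.tsum_le_tsum hle ((s1.mul_left _).of_nonneg_of_le (fun _ => by positivity) hle)
      (s1.mul_left _)).trans ?_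
    rw [tsum_mul_left]
    exact mul_le_mul_of_nonneg_left s2 (by positivity)
  · calc 6 * ((∑' n, ‖term c ((1 + δ : ℝ) : ℂ) n‖) * (3 * M * (24 * C₁ / 1)))
        ≤ 6 * (M * (24 * C₁ / δ) * (3 * M * (24 * C₁ / 1))) := by gcongr
      _ = _ := by ring

lemma gw_le (y : ℝ) (n : ℕ) : gw y n ≤ 3 * Real.exp (-|y - Real.log n|) *
    (Real.exp (-(1 * |y - Real.log n|)) / n) := by
  have a3 : Real.exp (-(y - Real.log n) ^ 2) ≤ Real.exp 1 * (Real.exp (-|y - Real.log n|) *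
      Real.exp (-(1 * |y - Real.log n|))) := by
    rw [← Real.exp_add, ← Real.exp_add]
    refine Real.exp_le_exp.2 ?_
    rw [← sq_abs]
    nlinarith [sq_nonneg (|y - Real.log n| - 1)]
  have h5 := Real.exp_one_lt_d9
  have h6 : 0 < Real.exp (-|y - Real.log n|) * Real.exp (-(1 * |y - Real.log n|)) := by positivity
  rw [gw, ← mul_div_assoc]
  refine div_le_div_of_nonneg_right ?_ (Nat.cast_nonneg n)
  nlinarith

lemma gw_nonneg (y : ℝ) (n : ℕ) : 0 ≤ gw y n := by unfold gw; positivity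

lemma weighted (hr : ∀ n, 0 ≤ r n) (hs : ∀ y : ℕ, ∑ n ∈ range (y + 1), r n ≤ C₁ * y)
    (y : ℝ) {d : ℕ → ℂ} {M : ℝ} (hM : 0 ≤ M)
    (hd : ∀ n : ℕ, ‖d n‖ * Real.exp (-|y - Real.log n|) ≤ M * r n) :
    (Summable fun n : ℕ => d n * (gw y n : ℝ)) ∧ ‖SG d y‖ ≤ 72 * C₁ * M := by
  obtain ⟨s1, s2⟩ := star_sum hr hs one_pos le_rfl y
  have hle : ∀ n : ℕ, ‖d n * (gw y n : ℝ)‖ ≤
      3 * M * (r n * (Real.exp (-(1 * |y - Real.log n|)) / n)) := fun n => by
    rw [norm_mul, Complex.norm_real, Real.norm_of_nonneg (gw_nonneg y n)]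
    calc ‖d n‖ * gw y n ≤ ‖d n‖ * (3 * Real.exp (-|y - Real.log n|) *
          (Real.exp (-(1 * |y - Real.log n|)) / n)) :=
          mul_le_mul_of_nonneg_left (gw_le y n) (norm_nonneg _)
      _ = 3 * (‖d n‖ * Real.exp (-|y - Real.log n|)) *
          (Real.exp (-(1 * |y - Real.log n|)) / n) := by ring
      _ ≤ 3 * (M * r n) * (Real.exp (-(1 * |y - Real.log n|)) / n) := by
          have := hd n
          gcongr
      _ = _ := by ring
  refine ⟨Summable.of_norm_bounded (s1.mul_left _) hle, ?_⟩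
  refine (tsum_of_norm_bounded (s1.mul_left (3 * M)).hasSum hle).trans ?_
  rw [tsum_mul_left]
  refine (mul_le_mul_of_nonneg_left s2 (by positivity)).trans (le_of_eq ?_)
  ring

lemma SG_bound (hr : ∀ n, 0 ≤ r n) (hs : ∀ y : ℕ, ∑ n ∈ range (y + 1), r n ≤ C₁ * y)
    (hc : ∀ n, ‖c n‖ ≤ r n) {θ : ℝ} (h0 : 0 ≤ θ) (h1 : θ ≤ 1) (y : ℝ) :
    (Summable fun n : ℕ => c n * (gw y n : ℝ)) ∧ ‖SG c y‖ ≤ 72 * C₁ * Real.exp (θ * y) := by
  refine weighted hr hs y (Real.exp_pos _).le fun n => ?_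
  rw [mul_comm]
  refine mul_le_mul (Real.exp_le_exp.2 ?_) (hc n) (norm_nonneg _) (Real.exp_pos _).le
  have a1 := abs_nonneg (y - Real.log n)
  have a2 := neg_le_abs (y - Real.log n)
  have a3 := Real.log_natCast_nonneg n
  rcases le_total 0 y with h | h <;> nlinarith

/-- Replacing the scale by the logarithm. -/
lemma SG_log (hr : ∀ n, 0 ≤ r n) (hs : ∀ y : ℕ, ∑ n ∈ range (y + 1), r n ≤ C₁ * y)
    (hc : ∀ n, ‖c n‖ ≤ r n) (y : ℝ) :
    ‖y * SG c y - SG (fun n => (Real.log n : ℂ) * c n) y‖ ≤ 72 * C₁ := by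
  obtain ⟨s1, -⟩ := SG_bound hr hs hc le_rfl zero_le_one y
  obtain ⟨e1, e2⟩ := weighted hr hs y (d := fun n => ((y - Real.log n : ℝ) : ℂ) * c n)
    zero_le_one (fun n => by
      rw [norm_mul, Complex.norm_real, Real.norm_eq_abs, mul_right_comm]
      refine mul_le_mul ?_ (hc n) (norm_nonneg _) zero_le_one
      rw [Real.exp_neg, ← div_eq_mul_inv, div_le_one (Real.exp_pos _)]
      linarith [Real.add_one_le_exp |y - Real.log n|])
  have h : SG (fun n => (Real.log n : ℂ) * c n) y =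
      y * SG c y - SG (fun n => ((y - Real.log n : ℝ) : ℂ) * c n) y := by
    unfold SG
    rw [← tsum_mul_left, ← (s1.mul_left _).tsum_sub e1]
    refine tsum_congr fun n => ?_
    push_cast; ring
  rw [h, sub_sub_cancel]
  simpa using e2

end Bounds

lemma vonMangoldt_sum (y : ℕ) : ∑ n ∈ range (y + 1), Λ n ≤ 6 * y := by
  have h := Chebyshev.psi_le_const_mul_self (x := y) (Nat.cast_nonneg y)
  rw [Chebyshev.psi_eq_sum_Icc, Nat.floor_natCast, ← Nat.range_succ_eq_Icc_zero] at h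
  have h2 : Real.log 4 ≤ 2 := by
    rw [show (4 : ℝ) = 2 ^ 2 by norm_num, Real.log_pow]
    have := Real.log_two_lt_d9
    push_cast; linarith
  have h3 : (0 : ℝ) ≤ y := Nat.cast_nonneg y
  nlinarith

lemma three_exp {u : ℝ} : Real.exp (1 - u) ≤ 3 * Real.exp (-u) := by
  rw [sub_eq_add_neg, Real.exp_add]
  have := Real.exp_one_lt_d9
  have := Real.exp_pos (-u)
  nlinarith

/-- The trilinear term. -/
lemma trilinear {c L L' : ℕ → ℂ} {x s B : ℝ} (hx : 1 ≤ x) (hs : 0 < s) (hB : 0 ≤ B)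
    (hL : ∀ n, ‖L n‖ ≤ 2 * Λ n) (hL' : ∀ n, ‖L' n‖ ≤ 2 / s * Λ n)
    (hD : ∀ t : ℝ, Real.exp (-(1 / 8) * t ^ 2) *
      ‖LSeries c ((1 + 1 / x : ℝ) + t * Complex.I)‖ ≤ B) :
    ‖∫ t : ℝ, (Real.exp (-(1 / 4) * t ^ 2) : ℂ) *
      (Complex.exp (Complex.I * (x + 1 / x / 2 : ℝ) * t) *
        (LSeries L' ((1 + 1 / x : ℝ) + t * Complex.I) *
          (LSeries L ((1 + 1 / x : ℝ) + t * Complex.I) *
            LSeries c ((1 + 1 / x : ℝ) + t * Complex.I))))‖ ≤ 4 * 373248 * B * x / s := by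
  have h0 : 0 < x := by linarith
  have hd0 : 0 < 1 / x := by positivity
  have hd1 : 1 / x ≤ 1 := by rw [div_le_one h0]; exact hx
  obtain ⟨i1, j1⟩ := ms_bound (fun _ => ArithmeticFunction.vonMangoldt_nonneg) vonMangoldt_sum
    (by norm_num) hL hd0 hd1
  obtain ⟨i2, j2⟩ := ms_bound (fun _ => ArithmeticFunction.vonMangoldt_nonneg) vonMangoldt_sum
    (by positivity) hL' hd0 hd1
  have hi := (i2.const_mul (B / 2 * s)).add (i1.const_mul (B / 2 / s))
  refine (norm_integral_le_of_norm_le hi (Eventually.of_forall fun t => ?_)).trans ?_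
  · have hDt := hD t
    rw [norm_mul, norm_mul, norm_mul, norm_mul, norm_cexp, Complex.norm_real,
      Real.norm_of_nonneg (Real.exp_pos _).le, one_mul, Pi.add_apply]
    set p' := ‖LSeries L' ((1 + 1 / x : ℝ) + t * Complex.I)‖
    set p := ‖LSeries L ((1 + 1 / x : ℝ) + t * Complex.I)‖
    set d := ‖LSeries c ((1 + 1 / x : ℝ) + t * Complex.I)‖
    have e : Real.exp (-(1 / 4) * t ^ 2) =
        Real.exp (-(1 / 8) * t ^ 2) * Real.exp (-(1 / 8) * t ^ 2) := by
      rw [← Real.exp_add]; congr 1; ring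
    rw [e]
    set w := Real.exp (-(1 / 8) * t ^ 2)
    have hw : 0 < w := Real.exp_pos _
    have hp : 0 ≤ p := norm_nonneg _
    have hp' : 0 ≤ p' := norm_nonneg _
    have a1 : p' * p ≤ (s * p' ^ 2 + p ^ 2 / s) / 2 := by
      have : (s * p' ^ 2 + p ^ 2 / s) / 2 - p' * p = (s * p' - p) ^ 2 / (2 * s) := by
        field_simp; ring
      have h2 : 0 ≤ (s * p' - p) ^ 2 / (2 * s) := by positivity
      linarith
    calc w * w * (p' * (p * d)) = (w * d) * (w * (p' * p)) := by ring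
      _ ≤ B * (w * ((s * p' ^ 2 + p ^ 2 / s) / 2)) := by gcongr
      _ = _ := by ring
  · simp only [Pi.add_apply]
    rw [integral_add (i2.const_mul _) (i1.const_mul _), integral_const_mul, integral_const_mul]
    refine (add_le_add (mul_le_mul_of_nonneg_left j2 (by positivity))
      (mul_le_mul_of_nonneg_left j1 (by positivity))).trans (le_of_eq ?_)
    field_simp
    ring

lemma main_est {C₁ : ℝ} {r : ℕ → ℝ} {c L : ℕ → ℂ} {x κ B : ℝ} (hx : 1 ≤ x) (hκ : 0 < κ)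
    (hκx : 1 ≤ κ * x) (hB : 0 ≤ B) (hc : ∀ n, ‖c n‖ ≤ r n)
    (hs : ∀ y : ℕ, ∑ n ∈ range (y + 1), r n ≤ C₁ * y) (hL : ∀ n, ‖L n‖ ≤ 2 * Λ n)
    (hconv : ∀ n : ℕ, (Real.log n : ℂ) * c n = ∑ p ∈ n.divisorsAntidiagonal, L p.1 * c p.2)
    (hD : ∀ t : ℝ, Real.exp (-(1 / 8) * t ^ 2) *
      ‖LSeries c ((1 + 1 / x : ℝ) + t * Complex.I)‖ ≤ B) :
    x * ‖SG c x‖ ≤ 36 * 373248 * B / κ + 432 * 144 * C₁ * (1 / κ + κ * x) + 72 * C₁ := by
  have hr : ∀ n, 0 ≤ r n := fun n => (norm_nonneg _).trans (hc n)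
  have hC := C_nonneg hr hs
  have h0 : 0 < x := by linarith
  have hd0 : 0 < 1 / x := by positivity
  have hd1 : 1 / x ≤ 1 := by rw [div_le_one h0]; exact hx
  have hk0 : 0 < κ * x := by positivity
  have ht0 : 0 < 1 / (κ * x) := by positivity
  have ht1 : 1 / (κ * x) ≤ 1 := by rw [div_le_one hk0]; exact hκx
  have hΛ : ∀ n, 0 ≤ Λ n := fun _ => ArithmeticFunction.vonMangoldt_nonneg
  set c' : ℕ → ℂ := fun n => (Real.log n : ℂ) * c n with hc'
  have econv : c' = LSeries.convolution L c := by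
    rw [LSeries.convolution_def]; funext n; exact hconv n
  set L' : ℕ → ℂ := fun a =>
    if Real.log a ≤ (1 - κ) * x then L a / ((x - Real.log a : ℝ) : ℂ) else 0 with hL'def
  have hL' : ∀ n, ‖L' n‖ ≤ 2 / (κ * x) * Λ n := fun n => by
    have := hΛ n
    simp only [hL'def]
    split_ifs with h
    · have h1 : κ * x ≤ x - Real.log n := by linarith
      rw [norm_div, Complex.norm_real, Real.norm_of_nonneg (by linarith), div_mul_eq_mul_div]
      exact div_le_div₀ (by positivity) (hL n) hk0 h1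
    · rw [norm_zero]; positivity
  have sc := (dir_bound hr hs zero_le_one (fun n => by rw [one_mul]; exact hc n) hd0 hd1).1
  have sL := (dir_bound hΛ vonMangoldt_sum (by norm_num) hL hd0 hd1).1
  have sL' := (dir_bound hΛ vonMangoldt_sum (by positivity) hL' hd0 hd1).1
  have sc' : LSeriesSummable c' ((1 + 1 / x : ℝ) : ℂ) := by
    rw [econv]; exact sL.convolution sc
  have eD : ∀ t : ℝ, LSeries c' ((1 + 1 / x : ℝ) + t * Complex.I) =
      LSeries L ((1 + 1 / x : ℝ) + t * Complex.I) * LSeries c ((1 + 1 / x : ℝ) + t * Complex.I) := by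
    intro t
    rw [econv]
    exact LSeries_convolution' (sL.of_re_le_re (by simp)) (sc.of_re_le_re (by simp))
  obtain ⟨m1, m2⟩ := master2 x (1 / x) sL sc
  obtain ⟨n1, n2⟩ := master2 x (1 / x) sL' sc'
  have eH : SG c' x = ∑' a : ℕ, L a / a * SG c (x - Real.log a) := by
    rw [m2, master1 x (1 / x) sc']
    simp only [eD]
  have bT : ‖∑' a : ℕ, L' a / a * SG c' (x - Real.log a)‖ ≤ 36 * 373248 * B / κ := by
    rw [n2, norm_mul, Complex.norm_real, Real.norm_of_nonneg (kap_le hx).1]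
    simp only [eD]
    refine (mul_le_mul (kap_le hx).2 (trilinear hx hk0 hB hL hL' hD) (norm_nonneg _)
      (by norm_num)).trans (le_of_eq ?_)
    field_simp
    ring
  obtain ⟨u1, u2⟩ := star_sum hΛ vonMangoldt_sum hd0 hd1 0
  obtain ⟨v1, v2⟩ := star_sum hΛ vonMangoldt_sum ht0 ht1 ((1 - κ) * x)
  have hR : ∀ a : ℕ, ‖L a / a * SG c (x - Real.log a) - L' a / a * SG c' (x - Real.log a)‖ ≤
      432 * C₁ / (κ * x) * (Λ a * (Real.exp (-(1 / x * |0 - Real.log a|)) / a)) +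
      432 * C₁ * (Λ a * (Real.exp (-(1 / (κ * x) * |(1 - κ) * x - Real.log a|)) / a)) := by
    intro a
    have hl := hΛ a
    have hLa : ‖L a / a‖ ≤ 2 * Λ a / a := by
      rw [norm_div, Complex.norm_natCast]
      exact div_le_div_of_nonneg_right (hL a) (Nat.cast_nonneg a)
    simp only [hL'def]
    split_ifs with h
    · have h1 : κ * x ≤ x - Real.log a := by linarith
      have h2 : ((x - Real.log a : ℝ) : ℂ) ≠ 0 := by
        rw [Complex.ofReal_ne_zero]; linarith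
      have e : L a / a * SG c (x - Real.log a) -
          L a / ((x - Real.log a : ℝ) : ℂ) / a * SG c' (x - Real.log a) =
          L a / a * ((((x - Real.log a : ℝ) : ℂ) * SG c (x - Real.log a) -
            SG c' (x - Real.log a)) / ((x - Real.log a : ℝ) : ℂ)) := by
        field_simp
      have h3 : ‖(((x - Real.log a : ℝ) : ℂ) * SG c (x - Real.log a) -
            SG c' (x - Real.log a)) / ((x - Real.log a : ℝ) : ℂ)‖ ≤ 72 * C₁ / (κ * x) := by
        rw [norm_div, Complex.norm_real, Real.norm_of_nonneg (by linarith)]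
        exact div_le_div₀ (by positivity) (SG_log hr hs hc _) hk0 h1
      have h4 : 1 ≤ 3 * Real.exp (-(1 / x * |0 - Real.log a|)) := by
        refine le_trans ?_ three_exp
        rw [Real.one_le_exp_iff, zero_sub, abs_neg, abs_of_nonneg (Real.log_natCast_nonneg a),
          sub_nonneg, one_div_mul_eq_div, div_le_one h0]
        linarith
      rw [e, norm_mul]
      refine le_add_of_le_of_nonneg ?_ (by positivity)
      calc _ ≤ 2 * Λ a / a * (72 * C₁ / (κ * x)) * 1 := by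
            rw [mul_one]; exact mul_le_mul hLa h3 (norm_nonneg _) (by positivity)
        _ ≤ 2 * Λ a / a * (72 * C₁ / (κ * x)) * (3 * Real.exp (-(1 / x * |0 - Real.log a|))) :=
            mul_le_mul_of_nonneg_left h4 (by positivity)
        _ = _ := by ring
    · have h3 := (SG_bound hr hs hc ht0.le ht1 (x - Real.log a)).2
      have h4 : Real.exp (1 / (κ * x) * (x - Real.log a)) ≤
          3 * Real.exp (-(1 / (κ * x) * |(1 - κ) * x - Real.log a|)) := by
        refine le_trans (le_of_eq ?_) three_exp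
        rw [abs_of_nonpos (by linarith [not_le.1 h])]
        congr 1
        field_simp
        ring
      rw [zero_div, zero_mul, sub_zero, norm_mul]
      refine le_add_of_nonneg_of_le (by positivity) ?_
      calc _ ≤ 2 * Λ a / a * (72 * C₁ * Real.exp (1 / (κ * x) * (x - Real.log a))) :=
            mul_le_mul hLa h3 (norm_nonneg _) (by positivity)
        _ ≤ 2 * Λ a / a * (72 * C₁ *
              (3 * Real.exp (-(1 / (κ * x) * |(1 - κ) * x - Real.log a|)))) := by gcongr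
        _ = _ := by ring
  have bR : ‖(∑' a : ℕ, L a / a * SG c (x - Real.log a)) -
      ∑' a : ℕ, L' a / a * SG c' (x - Real.log a)‖ ≤ 432 * 144 * C₁ * (1 / κ + κ * x) := by
    rw [← m1.tsum_sub n1]
    refine (tsum_of_norm_bounded ((u1.mul_left _).hasSum.add (v1.mul_left _).hasSum) hR).trans ?_
    rw [tsum_mul_left, tsum_mul_left]
    refine (add_le_add (mul_le_mul_of_nonneg_left u2 (by positivity))
      (mul_le_mul_of_nonneg_left v2 (by positivity))).trans (le_of_eq ?_)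
    field_simp
    ring
  have bE := SG_log hr hs hc x
  rw [← eH] at bR
  have e : (x : ℂ) * SG c x = (∑' a : ℕ, L' a / a * SG c' (x - Real.log a)) +
      (SG c' x - ∑' a : ℕ, L' a / a * SG c' (x - Real.log a)) + (x * SG c x - SG c' x) := by ring
  have h := congrArg norm e
  rw [norm_mul, Complex.norm_real, Real.norm_of_nonneg h0.le] at h
  rw [h]
  exact (norm_add₃_le).trans (add_le_add (add_le_add bT bR) bE)

end Hal

/-- Localised logarithmic sums of a sequence with linearly bounded partial sums. -/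
theorem local_sum_le : ∃ C : ℝ, 0 < C ∧ ∀ (C₁ : ℝ) (r : ℕ → ℝ), (∀ n, 0 ≤ r n) →
    (∀ y : ℕ, ∑ n ∈ range (y + 1), r n ≤ C₁ * y) → ∀ x : ℝ,
    Summable (fun n : ℕ => r n * (Real.exp (-|x - Real.log n|) / n)) ∧
      ∑' n : ℕ, r n * (Real.exp (-|x - Real.log n|) / n) ≤ C * C₁ := by
  refine ⟨24, by norm_num, fun C₁ r hr hs x => ?_⟩
  simpa only [one_mul, div_one] using Hal.star_sum hr hs one_pos le_rfl x

/-- Qualitative Halasz theorem with a Gaussian weight, for an abstract Dirichlet series. -/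
theorem halasz_abstract (C₁ η : ℝ) (hη : 0 < η) : ∃ η₁ T x₀ : ℝ, 0 < η₁ ∧
    ∀ (c L : ℕ → ℂ) (r : ℕ → ℝ) (x : ℝ), x₀ ≤ x → (∀ n, ‖c n‖ ≤ r n) →
      (∀ y : ℕ, ∑ n ∈ range (y + 1), r n ≤ C₁ * y) → (∀ n, ‖L n‖ ≤ 2 * Λ n) →
      (∀ n : ℕ, (Real.log n : ℂ) * c n = ∑ p ∈ n.divisorsAntidiagonal, L p.1 * c p.2) →
      (∀ t : ℝ, |t| ≤ T → ‖LSeries c (1 + 1 / x + t * Complex.I)‖ ≤ η₁ * x) →
      ‖∑' n : ℕ, c n * (gw x n : ℝ)‖ ≤ η := by
  obtain ⟨C, hC0, hC⟩ : ∃ C : ℝ, 0 < C ∧ C₁ ≤ C := ⟨|C₁| + 1, by positivity, by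
    linarith [le_abs_self C₁]⟩
  obtain ⟨κ, hκ, hκe⟩ : ∃ κ : ℝ, 0 < κ ∧ 432 * 144 * C * κ = η / 3 :=
    ⟨η / 3 / (432 * 144 * C), by positivity, by field_simp⟩
  obtain ⟨η₁, hη₁, hη₁e⟩ : ∃ η₁ : ℝ, 0 < η₁ ∧ 36 * 373248 * η₁ / κ = η / 3 :=
    ⟨η / 3 * κ / (36 * 373248), by positivity, by field_simp⟩
  obtain ⟨T, hT1, hT⟩ : ∃ T : ℝ, 8 ≤ T ∧ 24 * C ≤ η₁ * T :=
    ⟨max 8 (24 * C / η₁), le_max_left _ _, by
      rw [mul_comm η₁, ← div_le_iff₀ hη₁]; exact le_max_right _ _⟩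
  refine ⟨η₁, T, max (max 1 (1 / κ)) ((432 * 144 * C / κ + 72 * C) / (η / 3)), hη₁,
    fun c L r x hx hc hs hL hconv hD => ?_⟩
  have hx1 : 1 ≤ x := (le_max_left _ _).trans ((le_max_left _ _).trans hx)
  have hx2 : 1 / κ ≤ x := (le_max_right _ _).trans ((le_max_left _ _).trans hx)
  have hx3 := (le_max_right _ _).trans hx
  have h0 : 0 < x := by linarith
  rw [div_le_iff₀ hκ, mul_comm] at hx2
  rw [div_le_iff₀ (by positivity)] at hx3
  have hr : ∀ n, 0 ≤ r n := fun n => (norm_nonneg _).trans (hc n)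
  have hs' : ∀ y : ℕ, ∑ n ∈ range (y + 1), r n ≤ C * y := fun y =>
    (hs y).trans (mul_le_mul_of_nonneg_right hC (Nat.cast_nonneg y))
  have hd0 : 0 < 1 / x := by positivity
  have hd1 : 1 / x ≤ 1 := by rw [div_le_one h0]; exact hx1
  obtain ⟨d1, d2⟩ := Hal.dir_bound hr hs' zero_le_one
    (fun n => by rw [one_mul]; exact hc n) hd0 hd1
  have key := Hal.main_est (B := η₁ * x) hx1 hκ hx2 (by positivity) hc hs' hL hconv fun t => by
    rcases le_or_gt |t| T with h | h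
    · have h1 := hD t h
      have h2 : Real.exp (-(1 / 8) * t ^ 2) ≤ 1 := by
        rw [Real.exp_le_one_iff]; nlinarith [sq_nonneg t]
      push_cast
      exact (mul_le_of_le_one_left (norm_nonneg _) h2).trans h1
    · have h1 : ‖LSeries c ((1 + 1 / x : ℝ) + t * Complex.I)‖ ≤ 24 * C * x := by
        rw [Hal.LSeries_eq_FS]
        refine (Hal.norm_FS_le d1.norm _ t).trans (d2.trans (le_of_eq ?_))
        field_simp
      have h2 : Real.exp (-(1 / 8) * t ^ 2) ≤ T⁻¹ := by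
        rw [neg_mul, Real.exp_neg]
        refine inv_anti₀ (by linarith) ?_
        have := Real.add_one_le_exp (1 / 8 * t ^ 2)
        rw [← sq_abs] at this ⊢
        nlinarith
      calc _ ≤ T⁻¹ * (24 * C * x) := mul_le_mul h2 h1 (norm_nonneg _) (by positivity)
        _ ≤ T⁻¹ * (η₁ * T * x) := by gcongr
        _ = η₁ * x := by field_simp
  change ‖Hal.SG c x‖ ≤ η
  refine le_of_mul_le_mul_left (key.trans ?_) h0
  have e1 : 36 * 373248 * (η₁ * x) / κ = η / 3 * x := by rw [← hη₁e]; ring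
  have e2 : 432 * 144 * C * (1 / κ + κ * x) = 432 * 144 * C / κ + η / 3 * x := by
    rw [← hκe]; ring
  rw [e1, e2]
  linarith

end Pool.Agent.P.MP_a1177c_nt.MR
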