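import Pool.Agent.P.MP_a1177c_nt.MR.Defs

namespace Pool.Agent.P.MP_a1177c_nt.MR

open Finset Filter

lemma cont_pos {a : G} (ha : a ≠ 0) : 0 < cont a := by
  rw [cont, Int.gcd_pos_iff]
  by_contra h
  push Not at h
  exact ha (Zsqrtd.ext h.1 h.2)

lemma exists_prim {a : G} (ha : a ≠ 0) : ∃ v : G, cont v = 1 ∧ a = ((cont a : ℤ) : G) * v := by
  obtain ⟨x, y, h, hx, hy⟩ := Int.exists_gcd_one (cont_pos ha)
  refine ⟨⟨x, y⟩, h, ?_⟩
  ext
  · simp only [Zsqrtd.re_mul, Zsqrtd.re_intCast, Zsqrtd.im_intCast]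
    rw [cont]; linarith
  · simp only [Zsqrtd.im_mul, Zsqrtd.re_intCast, Zsqrtd.im_intCast]
    rw [cont]; linarith

lemma bezout_of_cont {v : G} (hv : cont v = 1) : ∃ x y : ℤ, v.re * x + v.im * y = 1 := by
  have := Int.gcd_eq_gcd_ab v.re v.im
  rw [cont] at hv
  rw [hv] at this
  exact ⟨_, _, by exact_mod_cast this.symm⟩

lemma eq_mul_of_det_zero {v w : G} (hv : cont v = 1) (h : det v w = 0) :
    ∃ n : ℤ, w = (n : G) * v := by
  obtain ⟨x, y, hxy⟩ := bezout_of_cont hv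
  refine ⟨x * w.re + y * w.im, ?_⟩
  rw [det] at h
  ext
  · simp only [Zsqrtd.re_mul, Zsqrtd.re_intCast, Zsqrtd.im_intCast]
    linear_combination (-w.re) * hxy - y * h
  · simp only [Zsqrtd.im_mul, Zsqrtd.re_intCast, Zsqrtd.im_intCast]
    linear_combination (-w.im) * hxy + x * h

lemma cont_eq_one_of_det {a b : G} (h : det a b = 1) : cont a = 1 ∧ cont b = 1 := by
  rw [det] at h
  constructor
  · exact Int.isCoprime_iff_gcd_eq_one.1 ⟨b.im, -b.re, by linarith⟩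
  · exact Int.isCoprime_iff_gcd_eq_one.1 ⟨-a.im, a.re, by linarith⟩

lemma ne_zero_of_cont {v : G} (hv : cont v = 1) : v ≠ 0 := by
  rintro rfl; simp [cont] at hv

lemma det_intCast_mul (d : ℤ) (v w : G) : det ((d : G) * v) w = d * det v w := by
  simp [det, Zsqrtd.re_mul, Zsqrtd.im_mul]; ring

lemma det_mul_intCast (d : ℤ) (v w : G) : det v ((d : G) * w) = d * det v w := by
  simp [det, Zsqrtd.re_mul, Zsqrtd.im_mul]; ring

lemma dot_intCast_mul (d : ℤ) (v w : G) : dot ((d : G) * v) w = d * dot v w := by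
  simp [dot, Zsqrtd.re_mul, Zsqrtd.im_mul]; ring

lemma dot_mul_intCast (d : ℤ) (v w : G) : dot v ((d : G) * w) = d * dot v w := by
  simp [dot, Zsqrtd.re_mul, Zsqrtd.im_mul]; ring

lemma nm_sub_le (a b : G) : (nm (a - b) : ℝ) ≤ 2 * nm a + 2 * nm b := by
  simp only [nm_real, Zsqrtd.re_sub, Zsqrtd.im_sub]
  push_cast
  nlinarith [sq_nonneg ((a.re : ℝ) + b.re), sq_nonneg ((a.im : ℝ) + b.im)]

/-- Lattice points of a disc on a line parallel to `a`. -/
theorem line_count {a : G} (ha : a ≠ 0) {X : ℝ} (hX : (nm a : ℝ) ≤ X) (j : ℤ) (T : Finset G)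
    (hT : ∀ b ∈ T, det a b = j ∧ (nm b : ℝ) ≤ X) :
    (T.card : ℝ) ≤ 5 * cont a * √(X / nm a) := by
  have hn : (0 : ℝ) < nm a := by exact_mod_cast nm_pos ha
  have hd : (1 : ℝ) ≤ cont a := by exact_mod_cast cont_pos ha
  have hs : 1 ≤ √(X / nm a) := Real.one_le_sqrt.2 ((one_le_div hn).2 hX)
  rcases T.eq_empty_or_nonempty with rfl | ⟨b₀, hb₀⟩
  · simp only [card_empty, Nat.cast_zero]; positivity
  obtain ⟨v, hv, hav⟩ := exists_prim ha
  set d := cont a with hdd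
  set R : ℝ := 2 * d * √(X / nm a) with hR
  have hR0 : 0 ≤ R := by positivity
  have hnv : (nm a : ℝ) = (d : ℝ) ^ 2 * nm v := by
    conv_lhs => rw [hav, nm_mul, nm_intCast]
    simp
  have hv0 : (0 : ℝ) < nm v := by exact_mod_cast nm_pos (ne_zero_of_cont hv)
  have key : ∀ b ∈ T, ∃ n : ℤ, b - b₀ = (n : G) * v ∧ |n| ≤ ⌊R⌋ := by
    intro b hb
    have h1 : det a (b - b₀) = 0 := by
      have := (hT b hb).1; have := (hT b₀ hb₀).1
      simp only [det, Zsqrtd.re_sub, Zsqrtd.im_sub] at *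
      linarith
    rw [hav, det_intCast_mul] at h1
    have h2 : det v (b - b₀) = 0 := by
      rcases mul_eq_zero.1 h1 with h | h
      · exact absurd h (by exact_mod_cast (cont_pos ha).ne')
      · exact h
    obtain ⟨n, hn'⟩ := eq_mul_of_det_zero hv h2
    refine ⟨n, hn', Int.le_floor.2 ?_⟩
    have h3 := nm_sub_le b b₀
    rw [hn', nm_mul, nm_intCast] at h3
    push_cast at h3
    rw [Nat.cast_natAbs] at h3
    have h4 : ((|n| : ℤ) : ℝ) ^ 2 * nm v ≤ 4 * X := by linarith [(hT b hb).2, (hT b₀ hb₀).2]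
    refine (abs_le_of_sq_le_sq' ?_ hR0).2
    have h5 : R ^ 2 = 4 * X / nm v := by
      rw [hR, mul_pow, Real.sq_sqrt (div_nonneg (hn.le.trans hX) hn.le), hnv]; field_simp; ring
    rw [h5, le_div_iff₀ hv0]; exact h4
  choose! f hf using key
  have hc : T.card ≤ (Icc (-⌊R⌋) ⌊R⌋).card := by
    refine card_le_card_of_injOn f (fun b hb => ?_) (fun b hb c hc h => ?_)
    · simpa [abs_le] using (hf b hb).2
    · have h1 := (hf b hb).1
      have h2 := (hf c hc).1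
      rw [h] at h1
      exact sub_left_injective (h1.trans h2.symm)
  rw [Int.card_Icc] at hc
  have h0 : 0 ≤ ⌊R⌋ := Int.floor_nonneg.2 hR0
  have h1 : ((T.card : ℤ) : ℝ) ≤ ((2 * ⌊R⌋ + 1 : ℤ) : ℝ) := by
    exact_mod_cast (by omega : (T.card : ℤ) ≤ 2 * ⌊R⌋ + 1)
  push_cast at h1
  have h2 := Int.floor_le R
  nlinarith

end Pool.Agent.P.MP_a1177c_nt.MR
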