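import Mathlib

/-!
Abstract facts on Dirichlet series: the exponential form and bounds by summation by parts.
-/

namespace Pool.Agent.P.MP_a1177c_nt.MR.Eul

open Finset Filter Complex MeasureTheory
open scoped ArithmeticFunction.vonMangoldt

lemma norm_div_log_le {L : ℕ → ℂ} (hL : ∀ n, ‖L n‖ ≤ 2 * Λ n) (n : ℕ) :
    ‖L n / (Real.log n : ℝ)‖ ≤ 2 := by
  have h0 : 0 ≤ Real.log (n : ℝ) := Real.log_natCast_nonneg n
  rw [norm_div, Complex.norm_real, Real.norm_eq_abs, abs_of_nonneg h0]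
  rcases h0.eq_or_lt with h | h
  · rw [← h, div_zero]; norm_num
  · rw [div_le_iff₀ h]
    have := ArithmeticFunction.vonMangoldt_le_log (n := n)
    linarith [hL n]

lemma absc_div_log {L : ℕ → ℂ} (hL : ∀ n, ‖L n‖ ≤ 2 * Λ n) :
    LSeries.abscissaOfAbsConv (fun n : ℕ => L n / (Real.log n : ℝ)) ≤ 1 :=
  LSeries.abscissaOfAbsConv_le_of_le_const ⟨2, fun n _ => norm_div_log_le hL n⟩

lemma logMul_div_log {L : ℕ → ℂ} (hL : ∀ n, ‖L n‖ ≤ 2 * Λ n) {n : ℕ} (hn : n ≠ 0) :
    LSeries.logMul (fun n : ℕ => L n / (Real.log n : ℝ)) n = L n := by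
  simp only [LSeries.logMul]
  rw [← Complex.natCast_log]
  rcases eq_or_ne n 1 with rfl | h1
  · have := hL 1
    simp only [ArithmeticFunction.vonMangoldt_apply_one, mul_zero, norm_le_zero_iff] at this
    simp [this]
  · have h2 : (1 : ℝ) < n := by exact_mod_cast (by omega : 1 < n)
    have h3 : ((Real.log n : ℝ) : ℂ) ≠ 0 := by exact_mod_cast (Real.log_pos h2).ne'
    field_simp

/-- The exponential form of a Dirichlet series with a logarithmic derivative. -/
theorem exp_form {c L : ℕ → ℂ} (hc : LSeries.abscissaOfAbsConv c ≤ 1)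
    (hL : ∀ n, ‖L n‖ ≤ 2 * Λ n)
    (hconv : ∀ n : ℕ, (Real.log n : ℂ) * c n = ∑ p ∈ n.divisorsAntidiagonal, L p.1 * c p.2)
    {s : ℂ} (hs : 1 < s.re) :
    LSeries c s = c 1 * Complex.exp (LSeries (fun n : ℕ => L n / (Real.log n : ℝ)) s) := by
  set l : ℕ → ℂ := fun n : ℕ => L n / (Real.log n : ℝ) with hl
  have hla : LSeries.abscissaOfAbsConv l ≤ 1 := absc_div_log hL
  have lt1 : ∀ {f : ℕ → ℂ} {z : ℂ}, LSeries.abscissaOfAbsConv f ≤ 1 → 1 < z.re →
      LSeries.abscissaOfAbsConv f < z.re := fun h hz =>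
    h.trans_lt (by exact_mod_cast hz)
  let F : ℂ → ℂ := fun z => LSeries c z * Complex.exp (-LSeries l z)
  have hF : ∀ z : ℂ, 1 < z.re → HasDerivAt F 0 z := by
    intro z hz
    have h1 := LSeries_hasDerivAt (lt1 hc hz)
    have h2 := (LSeries_hasDerivAt (lt1 hla hz)).neg.cexp
    have h3 := h1.mul h2
    have e1 : LSeries (LSeries.logMul l) z = LSeries L z :=
      LSeries_congr (fun hn => logMul_div_log hL hn) z
    have sL : LSeriesSummable L z := by
      have := LSeriesSummable_logMul_of_lt_re (lt1 hla hz)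
      exact (LSeriesSummable_congr z (fun hn => logMul_div_log hL hn)).1 this
    have sc : LSeriesSummable c z := LSeriesSummable_of_abscissaOfAbsConv_lt_re (lt1 hc hz)
    have e2 : LSeries (LSeries.logMul c) z = LSeries L z * LSeries c z := by
      rw [← LSeries_convolution' sL sc, LSeries.convolution_def]
      refine LSeries_congr (fun {n} _ => ?_) z
      simp only [LSeries.logMul]
      rw [← Complex.natCast_log]
      exact hconv n
    rw [e1, e2] at h3
    refine HasDerivAt.congr_deriv (f := F) h3 ?_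
    ring
  obtain ⟨a, ha⟩ := IsOpen.exists_is_const_of_deriv_eq_zero (𝕜 := ℂ) (f := F)
    (s := {z : ℂ | 1 < z.re}) (isOpen_lt continuous_const Complex.continuous_re)
    (convex_halfSpace_re_gt 1).isPreconnected
    (fun z hz => (hF z hz).differentiableAt.differentiableWithinAt)
    (fun z hz => (hF z hz).deriv)
  have t1 := LSeries.tendsto_atTop (f := c) (hc.trans_lt (EReal.coe_lt_top 1))
  have t2 := LSeries.tendsto_atTop (f := l) (hla.trans_lt (EReal.coe_lt_top 1))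
  have hl1 : l 1 = 0 := by simp [hl]
  rw [hl1] at t2
  have t3 : Tendsto (fun x : ℝ => F x) atTop (nhds (c 1 * Complex.exp (-0))) :=
    t1.mul ((Complex.continuous_exp.tendsto _).comp t2.neg)
  have t4 : Tendsto (fun x : ℝ => F x) atTop (nhds a) := by
    refine tendsto_const_nhds.congr' ?_
    filter_upwards [eventually_gt_atTop 1] with x hx
    exact (ha x (by simpa using hx)).symm
  have e : a = c 1 := by simpa using tendsto_nhds_unique t4 t3
  have := ha s hs
  simp only [F] at this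
  rw [← e, ← this, mul_assoc, ← Complex.exp_add]
  simp

/-- A bound for a Dirichlet series from a two term bound for its summatory function. -/
theorem norm_LSeries_le {f : ℕ → ℂ} {C₁ a b α β : ℝ} (ha : 0 ≤ a) (hb : 0 ≤ b)
    (hα0 : 0 ≤ α) (hα : α ≤ 1) (hβ0 : 0 ≤ β) (hβ : β ≤ 1)
    (hO : ∀ n : ℕ, ∑ k ∈ Icc 1 n, ‖f k‖ ≤ C₁ * n)
    (hS : ∀ n : ℕ, 1 ≤ n → ‖∑ k ∈ Icc 1 n, f k‖ ≤ a * (n : ℝ) ^ α + b * (n : ℝ) ^ β)
    {s : ℂ} (hs : 1 < s.re) :
    ‖LSeries f s‖ ≤ ‖s‖ * (a / (s.re - α) + b / (s.re - β)) := by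
  have hO' : (fun n : ℕ => ∑ k ∈ Icc 1 n, ‖f k‖) =O[atTop] fun n : ℕ => (n : ℝ) ^ (1 : ℝ) := by
    refine Asymptotics.IsBigO.of_bound C₁ (Eventually.of_forall fun n => ?_)
    rw [Real.rpow_one, Real.norm_eq_abs, Real.norm_eq_abs,
      abs_of_nonneg (sum_nonneg fun _ _ => norm_nonneg _), abs_of_nonneg (Nat.cast_nonneg n)]
    exact hO n
  rw [LSeries_eq_mul_integral' f zero_le_one hs hO', norm_mul]
  refine mul_le_mul_of_nonneg_left ?_ (norm_nonneg _)
  have i1 : α - (s.re + 1) < -1 := by linarith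
  have i2 : β - (s.re + 1) < -1 := by linarith
  have j1 := integrableOn_Ioi_rpow_of_lt i1 zero_lt_one
  have j2 := integrableOn_Ioi_rpow_of_lt i2 zero_lt_one
  have key : ‖∫ t in Set.Ioi (1 : ℝ), (∑ k ∈ Icc 1 ⌊t⌋₊, f k) * (t : ℂ) ^ (-(s + 1))‖ ≤
      ∫ t in Set.Ioi (1 : ℝ), (a * t ^ (α - (s.re + 1)) + b * t ^ (β - (s.re + 1))) := by
    refine norm_integral_le_of_norm_le ((j1.const_mul a).add (j2.const_mul b)) ?_
    refine (ae_restrict_iff' measurableSet_Ioi).2 (Eventually.of_forall fun t ht => ?_)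
    have ht1 : (1 : ℝ) < t := ht
    have ht0 : (0 : ℝ) < t := by linarith
    have h1 : 1 ≤ ⌊t⌋₊ := (Nat.one_le_floor_iff _).2 ht1.le
    have h2 : (⌊t⌋₊ : ℝ) ≤ t := Nat.floor_le ht0.le
    rw [norm_mul, Complex.norm_cpow_eq_rpow_re_of_pos ht0]
    have e : (-(s + 1)).re = -(s.re + 1) := by simp
    rw [e, sub_eq_add_neg α, sub_eq_add_neg β, Real.rpow_add ht0, Real.rpow_add ht0,
      ← mul_assoc, ← mul_assoc, ← add_mul]
    refine mul_le_mul_of_nonneg_right ((hS _ h1).trans ?_) (Real.rpow_nonneg ht0.le _)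
    gcongr
  refine key.trans (le_of_eq ?_)
  rw [integral_add (j1.const_mul a) (j2.const_mul b), integral_const_mul, integral_const_mul,
    integral_Ioi_rpow_of_lt i1 zero_lt_one, integral_Ioi_rpow_of_lt i2 zero_lt_one,
    Real.one_rpow, Real.one_rpow]
  have k1 : s.re - α ≠ 0 := by linarith
  have k2 : s.re - β ≠ 0 := by linarith
  have k3 : α - (s.re + 1) + 1 = -(s.re - α) := by ring
  have k4 : β - (s.re + 1) + 1 = -(s.re - β) := by ring
  rw [k3, k4, neg_div_neg_eq, neg_div_neg_eq]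
  ring

lemma absc_le_one {f : ℕ → ℂ} {C₁ : ℝ} (hO : ∀ n : ℕ, ∑ k ∈ Icc 1 n, ‖f k‖ ≤ C₁ * n) :
    LSeries.abscissaOfAbsConv f ≤ 1 := by
  have hO' : (fun n : ℕ => ∑ k ∈ Icc 1 n, ‖f k‖) =O[atTop] fun n : ℕ => (n : ℝ) ^ (1 : ℝ) := by
    refine Asymptotics.IsBigO.of_bound C₁ (Eventually.of_forall fun n => ?_)
    rw [Real.rpow_one, Real.norm_eq_abs, Real.norm_eq_abs,
      abs_of_nonneg (sum_nonneg fun _ _ => norm_nonneg _), abs_of_nonneg (Nat.cast_nonneg n)]
    exact hO n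
  exact LSeries.abscissaOfAbsConv_le_of_forall_lt_LSeriesSummable (x := 1) fun y hy =>
    LSeriesSummable_of_sum_norm_bigO hO' zero_le_one (by simpa using hy)

/-- The pointwise inequality behind the three four one argument. -/
lemma three_four_one {w : ℂ} (hw : ‖w‖ = 1) : 4 * (-w).re ≤ 3 + (w ^ 2).re := by
  have h : w.re ^ 2 + w.im ^ 2 = 1 := by
    have := Complex.sq_norm w
    rw [hw, Complex.normSq_apply] at this
    nlinarith
  simp only [Complex.neg_re, sq, Complex.mul_re]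
  nlinarith [sq_nonneg (1 + w.re)]

lemma crude_four {v w : ℂ} (hv : ‖v‖ = 1) (hw : ‖w‖ = 1) : 4 * v.re ≤ 3 + (w ^ 2).re + 2 := by
  have h1 : v.re ≤ 1 := hv ▸ Complex.re_le_norm v
  have h2 : -1 ≤ (w ^ 2).re := by
    have := Complex.abs_re_le_norm (w ^ 2)
    rw [norm_pow, hw, one_pow, abs_le] at this
    exact this.1
  linarith

end Pool.Agent.P.MP_a1177c_nt.MR.Eul
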