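import Pool.Agent.P.MP_a1177c_nt.MR.Defs

namespace Pool.Agent.P.MP_a1177c_nt.MR.ExpL

open Finset Filter Complex

/-- Cutting an interval at finitely many points. -/
lemma cut (z : ℤ → ℂ) (hz : ∀ n, ‖z n‖ ≤ 1) (d β : ℝ) (hd : 0 ≤ d) (hβ : 0 ≤ β) (Z : Finset ℝ) :
    ∀ A B : ℤ, (∀ a b : ℤ, A ≤ a → a < b → b ≤ B →
      (∀ x ∈ Set.Icc (a : ℝ) b, ∀ t ∈ Z, d ≤ |x - t|) → ‖∑ n ∈ Ico a b, z n‖ ≤ β) →
      ‖∑ n ∈ Ico A B, z n‖ ≤ 2 ^ Z.card * (β + (2 * d + 2)) - (2 * d + 2) := by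
  classical
  induction Z using Finset.induction_on with
  | empty =>
    intro A B h
    rcases lt_or_ge A B with hAB | hAB
    · simpa using h A B le_rfl hAB le_rfl (by simp)
    · simp [Ico_eq_empty_of_le hAB, hβ]
  | insert t Z ht ih =>
    intro A B h
    have h2 : (1 : ℝ) ≤ 2 ^ Z.card := one_le_pow₀ (by norm_num)
    rw [card_insert_of_notMem ht, pow_succ]
    rcases lt_or_ge A B with hAB | hAB
    swap
    · rw [Ico_eq_empty_of_le hAB]
      simp only [sum_empty, norm_zero]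
      nlinarith
    set p : ℤ := max A (min B ⌊t - d⌋) with hp
    set q : ℤ := max A (min B ⌈t + d⌉) with hq
    have hfc : ⌊t - d⌋ ≤ ⌈t + d⌉ := by
      have h1 := Int.floor_le (t - d)
      have h3 := Int.le_ceil (t + d)
      have : ((⌊t - d⌋ : ℤ) : ℝ) ≤ (⌈t + d⌉ : ℤ) := by linarith
      exact_mod_cast this
    have hAp : A ≤ p := le_max_left _ _
    have hpq : p ≤ q := by omega
    have hqB : q ≤ B := by omega
    have hqp : q - p ≤ ⌈t + d⌉ - ⌊t - d⌋ := by omega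
    have e1 : ∑ n ∈ Ico A B, z n =
        ∑ n ∈ Ico A p, z n + ∑ n ∈ Ico p q, z n + ∑ n ∈ Ico q B, z n := by
      rw [← sum_union (Ico_disjoint_Ico_consecutive A p q), Ico_union_Ico_eq_Ico hAp hpq,
        ← sum_union (Ico_disjoint_Ico_consecutive A q B), Ico_union_Ico_eq_Ico (hAp.trans hpq) hqB]
    have b1 := ih A p fun a b ha hab hb hx => h a b ha hab (by omega) fun x hx' s hs => by
      rcases mem_insert.1 hs with rfl | hs
      · have h3 : b ≤ ⌊s - d⌋ := by omega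
        have h4 : (b : ℝ) ≤ s - d := Int.le_floor.1 h3
        rw [le_abs]; right; linarith [hx'.2]
      · exact hx x hx' s hs
    have b3 := ih q B fun a b ha hab hb hx => h a b (by omega) hab hb fun x hx' s hs => by
      rcases mem_insert.1 hs with rfl | hs
      · have h3 : ⌈s + d⌉ ≤ a := by omega
        have h4 : s + d ≤ (a : ℝ) := Int.ceil_le.1 h3
        rw [le_abs]; left; linarith [hx'.1]
      · exact hx x hx' s hs
    have b2 : ‖∑ n ∈ Ico p q, z n‖ ≤ 2 * d + 2 := by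
      refine (norm_sum_le _ _).trans ((sum_le_card_nsmul _ _ 1 fun n _ => hz n).trans ?_)
      rw [Int.card_Ico, nsmul_eq_mul, mul_one]
      have h5 : (((q - p).toNat : ℕ) : ℤ) = q - p := Int.toNat_of_nonneg (by omega)
      have h6 : (((q - p).toNat : ℕ) : ℝ) = ((q - p : ℤ) : ℝ) := by exact_mod_cast h5
      have h7 : ((q - p : ℤ) : ℝ) ≤ ((⌈t + d⌉ - ⌊t - d⌋ : ℤ) : ℝ) := by exact_mod_cast hqp
      have h8 := Int.lt_floor_add_one (t - d)
      have h9 := Int.ceil_lt_add_one (t + d)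
      rw [h6]; push_cast at h7 ⊢; linarith
    rw [e1]
    refine (norm_add₃_le).trans ?_
    linarith

/-- The nontrivial `k`-th roots of unity. -/
noncomputable def rts (k : ℕ) : Finset ℂ := by
  classical exact (Polynomial.nthRootsFinset k (1 : ℂ)).erase 1

/-- The bad abscissae on the row at height `b`. -/
noncomputable def bad (k : ℕ) (b : ℝ) : Finset ℝ := by
  classical exact (rts k).image fun ζ => (-(I * b * (1 + ζ)) / (1 - ζ)).re

noncomputable def kap (k : ℕ) : ℝ := ∏ ζ ∈ rts k, ‖1 - ζ‖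

lemma kap_pos (k : ℕ) : 0 < kap k := by
  classical
  refine prod_pos fun ζ hζ => norm_pos_iff.2 (sub_ne_zero.2 ?_)
  exact (mem_erase.1 hζ).1.symm

lemma card_rts (m : ℕ) : (rts (m + 1)).card = m := by
  classical
  have h := Complex.isPrimitiveRoot_exp (m + 1) (Nat.succ_ne_zero m)
  rw [rts, card_erase_of_mem (Polynomial.one_mem_nthRootsFinset (Nat.succ_pos m)),
    h.card_nthRootsFinset]
  rfl

lemma card_bad (m : ℕ) (b : ℝ) : (bad (m + 1) b).card ≤ m := by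
  classical
  exact card_image_le.trans (card_rts m).le

lemma im_pow_ge (m : ℕ) (x b d : ℝ) (hd : 0 ≤ d) (hb : d ≤ |b|)
    (hx : ∀ t ∈ bad (m + 1) b, d ≤ |x - t|) :
    kap (m + 1) * d ^ (m + 1) ≤ |(((x : ℂ) + b * I) ^ (m + 1)).im| := by
  classical
  have h := Complex.isPrimitiveRoot_exp (m + 1) (Nat.succ_ne_zero m)
  have e := h.pow_sub_pow_eq_prod_sub_mul ((x : ℂ) + b * I) ((x : ℂ) - b * I) (Nat.succ_pos m)
  have hc : ((x : ℂ) - b * I) = (starRingEnd ℂ) ((x : ℂ) + b * I) := by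
    simp [sub_eq_add_neg]
  have e2 : ((x : ℂ) + b * I) ^ (m + 1) - ((x : ℂ) - b * I) ^ (m + 1) =
      ((2 * (((x : ℂ) + b * I) ^ (m + 1)).im : ℝ) : ℂ) * I := by
    rw [hc, ← map_pow, Complex.sub_conj]
  rw [← mul_prod_erase _ _ (Polynomial.one_mem_nthRootsFinset (Nat.succ_pos m)), e2] at e
  have e3 := congrArg norm e
  rw [norm_mul, norm_mul, Complex.norm_I, mul_one, Complex.norm_real, Real.norm_eq_abs, abs_mul,
    abs_two, norm_prod] at e3
  have e4 : ‖(x : ℂ) + b * I - 1 * ((x : ℂ) - b * I)‖ = 2 * |b| := by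
    rw [show (x : ℂ) + b * I - 1 * ((x : ℂ) - b * I) = 2 * (b * I) by ring]
    simp
  have e5 : kap (m + 1) * d ^ m ≤
      ∏ ζ ∈ rts (m + 1), ‖(x : ℂ) + b * I - ζ * ((x : ℂ) - b * I)‖ := by
    have : kap (m + 1) * d ^ m = ∏ ζ ∈ rts (m + 1), (‖1 - ζ‖ * d) := by
      rw [prod_mul_distrib, prod_const, card_rts, kap]
    rw [this]
    refine prod_le_prod (fun ζ _ => by positivity) fun ζ hζ => ?_
    have h1 : (1 : ℂ) - ζ ≠ 0 := sub_ne_zero.2 (mem_erase.1 hζ).1.symm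
    have h2 : (x : ℂ) + b * I - ζ * ((x : ℂ) - b * I) =
        (1 - ζ) * ((x : ℂ) - (-(I * b * (1 + ζ)) / (1 - ζ))) := by
      field_simp; ring
    rw [h2, norm_mul]
    refine mul_le_mul_of_nonneg_left ?_ (norm_nonneg _)
    refine (hx _ (mem_image_of_mem _ hζ)).trans ?_
    have := Complex.abs_re_le_norm ((x : ℂ) - (-(I * b * (1 + ζ)) / (1 - ζ)))
    rwa [Complex.sub_re, Complex.ofReal_re] at this
  rw [e4] at e3
  change _ = 2 * |b| * ∏ ζ ∈ rts (m + 1), ‖(x : ℂ) + b * I - ζ * ((x : ℂ) - b * I)‖ at e3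
  have h0 : 0 ≤ kap (m + 1) * d ^ m := mul_nonneg (kap_pos _).le (by positivity)
  have := mul_le_mul hb e5 h0 (abs_nonneg b)
  rw [pow_succ]; nlinarith

/-- The derivatives of the complex logarithm. -/
noncomputable def lg : ℕ → ℂ → ℂ
  | 0, z => Complex.log z
  | (i + 1), z => (-1) ^ i * (i.factorial : ℂ) / z ^ (i + 1)

lemma hasDerivAt_lg (i : ℕ) {z : ℂ} (hz : z.im ≠ 0) : HasDerivAt (lg i) (lg (i + 1) z) z := by
  have hz0 : z ≠ 0 := fun h => hz (by simp [h])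
  cases i with
  | zero =>
    have h1 := Complex.hasDerivAt_log (z := z) (Or.inr hz)
    have e : lg (0 + 1) z = z⁻¹ := by simp [lg]
    rw [e]; exact h1
  | succ i =>
    have h1 := ((hasDerivAt_pow (i + 1) z).inv (pow_ne_zero _ hz0)).const_mul
      ((-1) ^ i * (i.factorial : ℂ))
    have e : lg (i + 1 + 1) z = (-1) ^ i * (i.factorial : ℂ) *
        (-(((i + 1 : ℕ) : ℂ) * z ^ (i + 1 - 1)) / (z ^ (i + 1)) ^ 2) := by
      simp only [lg, Nat.factorial_succ, Nat.add_sub_cancel]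
      push_cast
      field_simp
      ring
    rw [e]; exact h1

/-- The phase along a row and its derivatives. -/
noncomputable def ph (j b : ℝ) (i : ℕ) (x : ℝ) : ℝ := 4 * j * (lg i ((x : ℂ) + b * I)).im

lemma hasDerivAt_ph (j : ℝ) {b : ℝ} (hb : b ≠ 0) (i : ℕ) (x : ℝ) :
    HasDerivAt (ph j b i) (ph j b (i + 1) x) x := by
  have h1 := hasDerivAt_lg i (z := (x : ℂ) + b * I) (by simpa using hb)
  have h2 : HasDerivAt (fun w : ℂ => lg i (w + b * I)) (lg (i + 1) ((x : ℂ) + b * I)) (x : ℂ) :=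
    HasDerivAt.comp_add_const _ _ h1
  have h3 := Complex.imCLM.hasFDerivAt.comp_hasDerivAt x h2.comp_ofReal
  exact h3.const_mul (4 * j)

lemma exp_ph (j b n : ℤ) (hb : b ≠ 0) :
    Complex.exp (I * (ph j b 0 n : ℝ)) = chi j ⟨n, b⟩ := by
  set a : G := ⟨n, b⟩ with ha
  have ha0 : a ≠ 0 := fun h => hb (by simpa [ha] using congrArg Zsqrtd.im h)
  have e1 : ((n : ℝ) : ℂ) + ((b : ℝ) : ℂ) * I = (a : ℂ) := by
    rw [ha, GaussianInt.toComplex_def']; simp
  have hz : (a : ℂ) ≠ 0 := by simpa using ha0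
  have hn : (‖(a : ℂ)‖ : ℂ) ≠ 0 := by simpa using ha0
  have e2 : dir a = Complex.exp (4 * (Complex.arg (a : ℂ) * I)) := by
    have h1 := Complex.norm_mul_exp_arg_mul_I (a : ℂ)
    have h2 : ((nm a : ℕ) : ℂ) = (‖(a : ℂ)‖ : ℂ) ^ 2 := by
      have := norm_sq_coe a
      exact_mod_cast this.symm
    rw [dir, h2, show (4 : ℂ) = ((4 : ℕ) : ℂ) by norm_num, Complex.exp_nat_mul]
    nth_rw 1 [← h1]
    field_simp
  rw [ph, e1, lg, Complex.log_im, chi, e2, ← Complex.exp_int_mul]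
  congr 1
  push_cast; ring

lemma abs_ph_succ (j b : ℝ) (i : ℕ) (x : ℝ) :
    |ph j b (i + 1) x| = 4 * |j| * i.factorial *
      (|(((x : ℂ) + b * I) ^ (i + 1)).im| / (‖(x : ℂ) + b * I‖ ^ (i + 1)) ^ 2) := by
  have e : (-1) ^ i * (i.factorial : ℂ) / ((x : ℂ) + b * I) ^ (i + 1) =
      (((-1) ^ i * (i.factorial : ℝ) : ℝ) : ℂ) * (((x : ℂ) + b * I) ^ (i + 1))⁻¹ := by
    push_cast; rw [div_eq_mul_inv]
  rw [ph, lg, e, Complex.im_ofReal_mul, Complex.inv_im, Complex.normSq_eq_norm_sq, norm_pow]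
  simp only [abs_mul, abs_div, abs_neg, abs_pow, abs_one, one_pow, one_mul, Nat.abs_cast,
    abs_norm]
  norm_num
  ring

lemma abs_ph_le (j b : ℝ) (i : ℕ) (x d : ℝ) (hd : 0 < d) (hb : d ≤ |b|) :
    |ph j b (i + 1) x| ≤ 4 * |j| * i.factorial / d ^ (i + 1) := by
  have h1 : d ≤ ‖(x : ℂ) + b * I‖ := by
    refine hb.trans ?_
    simpa using Complex.abs_im_le_norm ((x : ℂ) + b * I)
  have h2 : d ^ (i + 1) ≤ ‖(x : ℂ) + b * I‖ ^ (i + 1) := pow_le_pow_left₀ hd.le h1 _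
  have h3 := Complex.abs_im_le_norm (((x : ℂ) + b * I) ^ (i + 1))
  rw [norm_pow] at h3
  have h4 : 0 < d ^ (i + 1) := by positivity
  rw [abs_ph_succ, div_eq_mul_one_div _ (d ^ (i + 1))]
  refine mul_le_mul_of_nonneg_left ?_ (by positivity)
  rw [div_le_div_iff₀ (by nlinarith) h4]
  nlinarith [abs_nonneg (((x : ℂ) + b * I) ^ (i + 1)).im]

lemma le_abs_ph (j b : ℝ) (m : ℕ) (x d r : ℝ) (hd : 0 < d) (hb : d ≤ |b|)
    (hx : ∀ t ∈ bad (m + 1) b, d ≤ |x - t|) (hr : 0 ≤ r) (hxr : x ^ 2 + b ^ 2 ≤ r ^ 2) :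
    4 * |j| * m.factorial * (kap (m + 1) * d ^ (m + 1) / (r ^ (m + 1)) ^ 2) ≤
      |ph j b (m + 1) x| := by
  have h1 : d ≤ ‖(x : ℂ) + b * I‖ := by
    refine hb.trans ?_
    simpa using Complex.abs_im_le_norm ((x : ℂ) + b * I)
  have h2 : ‖(x : ℂ) + b * I‖ ≤ r := by
    rw [Complex.norm_add_mul_I]
    exact Real.sqrt_le_iff.2 ⟨hr, hxr⟩
  have h0 : 0 < ‖(x : ℂ) + b * I‖ := hd.trans_le h1
  rw [abs_ph_succ]
  refine mul_le_mul_of_nonneg_left ?_ (by positivity)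
  refine div_le_div₀ (abs_nonneg _) (im_pow_ge m x b d hd.le hb hx) (by positivity) ?_
  gcongr

end Pool.Agent.P.MP_a1177c_nt.MR.ExpL
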