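import Pool.Agent.P.MP_a1177c_nt.MR.Vdc
import Pool.Agent.P.MP_a1177c_nt.MR.ExpSmall
import Pool.Agent.P.MP_a1177c_nt.MR.ExpLargeAux

namespace Pool.Agent.P.MP_a1177c_nt.MR

open Finset Filter
open scoped ArithmeticFunction.vonMangoldt

namespace ExpL

lemma norm_chi_le (j : ℤ) (n b : ℤ) (hb : b ≠ 0) : ‖chi j ⟨n, b⟩‖ ≤ 1 :=
  (norm_chi j (fun h => hb (by simpa using congrArg Zsqrtd.im h))).le

lemma params (m : ℕ) (hm : 1 ≤ m) (u r J : ℝ) (hu : 1 ≤ u) (hr : r = u ^ (64 * m))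
    (h1 : r ^ m ≤ J * u ^ (8 * m)) (h2 : J * u ^ (8 * m) ≤ r ^ (m + 1)) :
    0 < J ∧ ∃ H0 : ℝ, u ^ 2 ≤ H0 ∧ H0 ≤ u ^ 18 ∧ J * H0 ^ (4 * m) = r ^ (m + 1) := by
  have hu0 : 0 < u := by linarith
  have hr0 : 0 < r := by rw [hr]; positivity
  have hJ : 0 < J := by
    have : 0 < J * u ^ (8 * m) := lt_of_lt_of_le (by positivity) h1
    exact (mul_pos_iff_of_pos_right (by positivity)).1 this
  refine ⟨hJ, (r ^ (m + 1) / J) ^ (((4 * m : ℕ) : ℝ)⁻¹), ?_⟩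
  have h4 : 4 * m ≠ 0 := by omega
  set H0 := (r ^ (m + 1) / J) ^ (((4 * m : ℕ) : ℝ)⁻¹) with hH
  have e : H0 ^ (4 * m) = r ^ (m + 1) / J := Real.rpow_inv_natCast_pow (by positivity) h4
  have h0 : 0 ≤ H0 := by rw [hH]; positivity
  refine ⟨?_, ?_, by rw [e]; field_simp⟩
  · rw [← pow_le_pow_iff_left₀ (by positivity) h0 h4, e, le_div_iff₀ hJ, ← pow_mul,
      show 2 * (4 * m) = 8 * m by ring, mul_comm]
    exact h2
  · rw [← pow_le_pow_iff_left₀ h0 (by positivity) h4, e, div_le_iff₀ hJ, ← pow_mul,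
      show 18 * (4 * m) = 64 * m + 8 * m by ring, pow_add u, ← hr, pow_succ]
    nlinarith

/-- The sum over a piece of a row away from the bad points. -/
lemma row_sub (m : ℕ) (hm : 1 ≤ m) : ∃ C : ℝ, 0 < C ∧ ∀ (v u r : ℝ) (j b a' b' : ℤ), 1 ≤ v →
    u = v ^ (2 ^ m) → r = u ^ (64 * m) → r ^ m ≤ |(j : ℝ)| * u ^ (8 * m) →
    |(j : ℝ)| * u ^ (8 * m) ≤ r ^ (m + 1) → r / u ≤ |(b : ℝ)| → a' < b' →
    (∀ x ∈ Set.Icc (a' : ℝ) b', x ^ 2 + (b : ℝ) ^ 2 ≤ r ^ 2) →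
    (∀ x ∈ Set.Icc (a' : ℝ) b', ∀ t ∈ bad (m + 1) b, r / u ≤ |x - t|) →
    ‖∑ n ∈ Ico a' b', chi j ⟨n, b⟩‖ ≤ C * r / v := by
  obtain ⟨C, hC, H⟩ := vdc m
  have hκ := kap_pos (m + 1)
  set κ := kap (m + 1) with hκd
  have hF : (1 : ℝ) ≤ m.factorial := by exact_mod_cast Nat.factorial_pos m
  set F : ℝ := ((m.factorial : ℕ) : ℝ) with hFd
  set C1 : ℝ := (1 + 2 * (m + 1) / κ) / (8 * F * κ) with hC1
  have hC10 : 0 < C1 := by positivity
  refine ⟨C * 2 * (1 + C1) ^ ((1 : ℝ) / 2 ^ m) + 4 * F, by positivity, ?_⟩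
  intro v u r j b a' b' hv hu hr h1 h2 hb hab hdisc hbad
  have hvu : v ≤ u := by rw [hu]; exact le_self_pow₀ hv (by positivity)
  have hu1 : 1 ≤ u := hv.trans hvu
  have hu0 : 0 < u := by linarith
  have hv0 : 0 < v := by linarith
  have hr1 : 1 ≤ r := by rw [hr]; exact one_le_pow₀ hu1
  have hr0 : 0 < r := by linarith
  have hd : 0 < r / u := by positivity
  have hb0 : (b : ℝ) ≠ 0 := abs_pos.1 (hd.trans_le hb)
  have hb0' : b ≠ 0 := by exact_mod_cast hb0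
  have hab' : (a' : ℝ) ≤ b' := by exact_mod_cast hab.le
  have hL : (b' : ℝ) - a' ≤ 2 * r := by
    have e1 := hdisc a' ⟨le_rfl, hab'⟩
    have e2 := hdisc b' ⟨hab', le_rfl⟩
    have e3 := abs_le_of_sq_le_sq' (a := (a' : ℝ)) (b := r) (by nlinarith [sq_nonneg (b : ℝ)]) hr0.le
    have e4 := abs_le_of_sq_le_sq' (a := (b' : ℝ)) (b := r) (by nlinarith [sq_nonneg (b : ℝ)]) hr0.le
    linarith [e3.1, e4.2]
  have hP : 0 ≤ C * 2 * (1 + C1) ^ ((1 : ℝ) / 2 ^ m) := by positivity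
  rcases lt_or_ge u (2 * F) with hsm | hlg
  · have t1 : ‖∑ n ∈ Ico a' b', chi j ⟨n, b⟩‖ ≤ 2 * r := by
      refine (norm_sum_le _ _).trans
        ((sum_le_card_nsmul _ _ 1 fun n _ => norm_chi_le j n b hb0').trans ?_)
      rw [Int.card_Ico, nsmul_eq_mul, mul_one]
      have h5 : (((b' - a').toNat : ℕ) : ℤ) = b' - a' := Int.toNat_of_nonneg (by omega)
      have h6 : (((b' - a').toNat : ℕ) : ℝ) = ((b' - a' : ℤ) : ℝ) := by exact_mod_cast h5
      rw [h6]; push_cast; exact hL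
    refine t1.trans ?_
    rw [le_div_iff₀ hv0]
    nlinarith [mul_nonneg hP hr0.le]
  obtain ⟨hJ, H0, g1, g2, g3⟩ := params m hm u r _ hu1 hr h1 h2
  set J := |(j : ℝ)| with hJd
  have hH1 : u ≤ H0 := by nlinarith
  have hH0 : 0 < H0 := by linarith
  have eJ : J = r ^ (m + 1) / H0 ^ (4 * m) := by rw [← g3]; field_simp
  have key := H (ph j b) a' b' (2 * r) H0 (H0 ^ 2)
    (4 * J * F * (κ * (r / u) ^ (m + 1) / (r ^ (m + 1)) ^ 2)) (u ^ (2 * m + 2) / κ)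
    ((m + 1) * u ^ (2 * m + 3) / (κ * r)) (fun i _ x _ => hasDerivAt_ph j hb0 i x)
    (fun x hx => ⟨le_abs_ph j b m x _ r hd hb (hbad x hx) hr0.le (hdisc x hx), ?_, ?_⟩)
    (by positivity) (by positivity) (by linarith) (by nlinarith) ?_ hL ?_
  · simp only [exp_ph j b _ hb0'] at key
    refine key.trans ?_
    have b1 : H0 / H0 ^ 2 ≤ 1 / u := by
      rw [div_le_div_iff₀ (by positivity) hu0]; nlinarith
    have b2 : (1 + 2 * r * ((m + 1) * u ^ (2 * m + 3) / (κ * r))) /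
        (4 * J * F * (κ * (r / u) ^ (m + 1) / (r ^ (m + 1)) ^ 2) * H0 ^ m * (2 * r)) ≤ C1 / u := by
      have e1 : 4 * J * F * (κ * (r / u) ^ (m + 1) / (r ^ (m + 1)) ^ 2) * H0 ^ m * (2 * r) =
          8 * F * κ * (r / (u ^ (m + 1) * H0 ^ (3 * m))) := by
        rw [eJ, div_pow, show 4 * m = m + 3 * m by ring, pow_add H0]
        field_simp
        ring
      have e2 : u ^ (2 * m + 3) * u ≤ r / (u ^ (m + 1) * H0 ^ (3 * m)) := by
        rw [le_div_iff₀ (by positivity), hr]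
        calc u ^ (2 * m + 3) * u * (u ^ (m + 1) * H0 ^ (3 * m))
            ≤ u ^ (2 * m + 3) * u * (u ^ (m + 1) * (u ^ 18) ^ (3 * m)) := by gcongr
          _ = u ^ (57 * m + 5) := by ring
          _ ≤ u ^ (64 * m) := pow_le_pow_right₀ hu1 (by omega)
      have e3 : 1 + 2 * r * ((m + 1) * u ^ (2 * m + 3) / (κ * r)) ≤
          (1 + 2 * (m + 1) / κ) * u ^ (2 * m + 3) := by
        have : (1 : ℝ) ≤ u ^ (2 * m + 3) := one_le_pow₀ hu1
        have e4 : 2 * r * ((m + 1) * u ^ (2 * m + 3) / (κ * r)) =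
            2 * (m + 1) / κ * u ^ (2 * m + 3) := by field_simp
        rw [e4]; linarith
      rw [e1]
      calc _ ≤ (1 + 2 * (m + 1) / κ) * u ^ (2 * m + 3) / (8 * F * κ * (u ^ (2 * m + 3) * u)) := by
            gcongr
        _ = C1 / u := by rw [hC1]; field_simp
    have b3 : ((1 + C1) / u) ^ ((1 : ℝ) / 2 ^ m) = (1 + C1) ^ ((1 : ℝ) / 2 ^ m) / v := by
      rw [Real.div_rpow (by positivity) hu0.le, hu, one_div (2 ^ m : ℝ),
        show ((2 : ℝ) ^ m) = ((2 ^ m : ℕ) : ℝ) by push_cast; rfl,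
        Real.pow_rpow_inv_natCast hv0.le (by positivity)]
    calc _ ≤ C * (2 * r) * ((1 + C1) / u) ^ ((1 : ℝ) / 2 ^ m) := by
          gcongr
          rw [add_div 1 C1]; exact add_le_add b1 b2
      _ = C * 2 * (1 + C1) ^ ((1 : ℝ) / 2 ^ m) * r / v := by rw [b3]; ring
      _ ≤ _ := by gcongr; linarith
  · refine (abs_ph_le j b m x _ hd hb).trans (le_of_eq ?_)
    rw [div_pow]; field_simp; ring
  · refine (abs_ph_le j b (m + 1) x _ hd hb).trans (le_of_eq ?_)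
    rw [div_pow, div_pow, Nat.factorial_succ]; push_cast; field_simp; ring
  · calc H0 ^ 2 ≤ (u ^ 18) ^ 2 := by gcongr
      _ = u ^ 36 := by ring
      _ ≤ u ^ (64 * m) := pow_le_pow_right₀ hu1 (by omega)
      _ ≤ 2 * r := by rw [← hr]; linarith
  · have e1 : u ^ (2 * m + 2) / κ * (4 * J * F * (κ * (r / u) ^ (m + 1) / (r ^ (m + 1)) ^ 2)) *
        (H0 ^ 2) ^ m = 4 * F * u ^ (m + 1) / H0 ^ (2 * m) := by
      rw [eJ, div_pow, show 4 * m = 2 * m + 2 * m by ring, pow_add H0, ← pow_mul]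
      field_simp
      ring
    have e2 : u ^ (m + 1) * u ≤ H0 ^ (2 * m) := by
      calc u ^ (m + 1) * u = u ^ (m + 2) := by ring
        _ ≤ u ^ (4 * m) := pow_le_pow_right₀ hu1 (by omega)
        _ = (u ^ 2) ^ (2 * m) := by ring
        _ ≤ H0 ^ (2 * m) := by gcongr
    rw [e1, div_le_iff₀ (by positivity)]
    have e3 : 0 < u ^ (m + 1) := by positivity
    have e4 := mul_le_mul_of_nonneg_left hlg e3.le
    have e5 : 0 < H0 ^ (2 * m) := by positivity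
    linarith

lemma row_eq (y : ℕ) (j b : ℤ) (hb : b ≠ 0) (hby : b ^ 2 ≤ y) :
    ∃ s : ℕ, (s : ℤ) ^ 2 + b ^ 2 ≤ y ∧ ∑ a ∈ (disc y).filter (fun a => a.im = b), chi j a =
      ∑ n ∈ Icc (-(s : ℤ)) s, chi j ⟨n, b⟩ := by
  obtain ⟨w, hw⟩ := Int.eq_ofNat_of_zero_le (sub_nonneg.2 hby)
  have h1 : ((w.sqrt : ℕ) : ℤ) ^ 2 ≤ w := by exact_mod_cast Nat.sqrt_le' w
  have h2 : (w : ℤ) < ((w.sqrt : ℕ) + 1) ^ 2 := by exact_mod_cast Nat.lt_succ_sqrt' w
  refine ⟨w.sqrt, by linarith, ?_⟩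
  symm
  refine sum_bij (fun n _ => (⟨n, b⟩ : G)) (fun n hn => ?_) (fun n _ n' _ h => ?_)
    (fun a ha => ?_) (fun _ _ => rfl)
  · refine mem_filter.2 ⟨mem_disc.2 ⟨fun h => hb (by simpa using congrArg Zsqrtd.im h), ?_⟩, rfl⟩
    have h3 : n ^ 2 ≤ ((w.sqrt : ℕ) : ℤ) ^ 2 := sq_le_sq' (mem_Icc.1 hn).1 (mem_Icc.1 hn).2
    have h4 := nm_int (⟨n, b⟩ : G)
    have : ((nm (⟨n, b⟩ : G) : ℕ) : ℤ) ≤ y := by rw [h4]; dsimp only; linarith
    exact_mod_cast this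
  · simpa using congrArg Zsqrtd.re h
  · obtain ⟨h3, h4⟩ := mem_filter.1 ha
    have h5 : ((nm a : ℕ) : ℤ) ≤ y := by exact_mod_cast (mem_disc.1 h3).2
    rw [nm_int, h4] at h5
    have h6 := abs_lt_of_sq_lt_sq' (a := a.re) (b := ((w.sqrt : ℕ) : ℤ) + 1) (by linarith)
      (by positivity)
    exact ⟨a.re, mem_Icc.2 ⟨by omega, by omega⟩, by rw [← h4]⟩

lemma card_Icc_le (s : ℕ) (t : ℝ) (ht : 1 ≤ t) (hs : (s : ℝ) ≤ t) :
    ((Icc (-(s : ℤ)) s).card : ℝ) ≤ 3 * t := by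
  rw [Int.card_Icc, show ((s : ℤ) + 1 - -(s : ℤ)).toNat = 2 * s + 1 by omega]
  push_cast; linarith

lemma card_le_of_abs_le (S : Finset ℤ) (t : ℝ) (ht : 1 ≤ t) (h : ∀ n ∈ S, |(n : ℝ)| ≤ t) :
    (S.card : ℝ) ≤ 3 * t := by
  refine le_trans ?_ (card_Icc_le ⌊t⌋₊ t ht (Nat.floor_le (by linarith)))
  have : S ⊆ Icc (-((⌊t⌋₊ : ℕ) : ℤ)) (⌊t⌋₊ : ℕ) := fun n hn => by
    have h1 : n.natAbs ≤ ⌊t⌋₊ := Nat.le_floor (by rw [Nat.cast_natAbs, Int.cast_abs]; exact h n hn)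
    rw [mem_Icc]; omega
  exact_mod_cast card_le_card this

/-- One range of frequencies. -/
lemma range_bound (m : ℕ) (hm : 1 ≤ m) : ∃ C : ℝ, 0 < C ∧ ∀ (v u r : ℝ) (y : ℕ) (j : ℤ), 1 ≤ v →
    u = v ^ (2 ^ m) → r = u ^ (64 * m) → r ^ 2 = y → r ^ m ≤ |(j : ℝ)| * u ^ (8 * m) →
    |(j : ℝ)| * u ^ (8 * m) ≤ r ^ (m + 1) → ‖∑ a ∈ disc y, chi j a‖ ≤ C * y / v := by
  obtain ⟨C, hC, H⟩ := row_sub m hm
  refine ⟨3 * (2 ^ m * (C + 4) + 1) + 9, by positivity, ?_⟩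
  intro v u r y j hv hu hr hy h1 h2
  have hvu : v ≤ u := by rw [hu]; exact le_self_pow₀ hv (by positivity)
  have hu1 : 1 ≤ u := hv.trans hvu
  have hu0 : 0 < u := by linarith
  have hv0 : 0 < v := by linarith
  have hur : u ≤ r := by rw [hr]; exact le_self_pow₀ hu1 (by omega)
  have hr1 : 1 ≤ r := hu1.trans hur
  have hr0 : 0 < r := by linarith
  have hd1 : 1 ≤ r / u := (one_le_div hu0).2 hur
  have hdv : r / u ≤ r / v := by gcongr
  have hre : ∀ a ∈ disc y, |(a.re : ℝ)| ≤ r ∧ |(a.im : ℝ)| ≤ r := fun a ha => by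
    have e1 : ((nm a : ℕ) : ℝ) ≤ y := by exact_mod_cast (mem_disc.1 ha).2
    rw [nm_real, ← hy] at e1
    exact ⟨abs_le_of_sq_le_sq (by nlinarith [sq_nonneg (a.im : ℝ)]) hr0.le,
      abs_le_of_sq_le_sq (by nlinarith [sq_nonneg (a.re : ℝ)]) hr0.le⟩
  set R := (disc y).image Zsqrtd.im with hR
  have hRc : (R.card : ℝ) ≤ 3 * r := card_le_of_abs_le R r hr1 fun b hb => by
    obtain ⟨a, ha, rfl⟩ := mem_image.1 hb
    exact (hre a ha).2
  have triv : ∀ b : ℤ, ‖∑ a ∈ (disc y).filter (fun a => a.im = b), chi j a‖ ≤ 3 * r := fun b => by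
    refine (norm_sum_le _ _).trans ((sum_le_card_nsmul _ _ 1 fun a ha =>
      (norm_chi j (mem_disc.1 (mem_filter.1 ha).1).1).le).trans ?_)
    rw [nsmul_eq_mul, mul_one, ← card_image_of_injOn (f := Zsqrtd.re) fun a ha a' ha' h =>
      Zsqrtd.ext h ((mem_filter.1 ha).2.trans (mem_filter.1 ha').2.symm)]
    refine card_le_of_abs_le _ r hr1 fun n hn => ?_
    obtain ⟨a, ha, rfl⟩ := mem_image.1 hn
    exact (hre a (mem_filter.1 ha).1).1
  have good : ∀ b ∈ R, r / u ≤ |(b : ℝ)| →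
      ‖∑ a ∈ (disc y).filter (fun a => a.im = b), chi j a‖ ≤ (2 ^ m * (C + 4) + 1) * (r / v) := by
    intro b hb hbd
    have hb0 : b ≠ 0 := by
      rintro rfl
      simp only [Int.cast_zero, abs_zero] at hbd
      linarith
    have hby : b ^ 2 ≤ y := by
      obtain ⟨a, ha, rfl⟩ := mem_image.1 hb
      have e1 : ((nm a : ℕ) : ℤ) ≤ y := by exact_mod_cast (mem_disc.1 ha).2
      rw [nm_int] at e1
      nlinarith [sq_nonneg a.re]
    obtain ⟨s, hs, e⟩ := row_eq y j b hb0 hby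
    have hs' : (s : ℝ) ^ 2 + (b : ℝ) ^ 2 ≤ r ^ 2 := by rw [hy]; exact_mod_cast hs
    have c := cut (fun n => chi j ⟨n, b⟩) (fun n => norm_chi_le j n b hb0) (r / u) (C * r / v)
      (by linarith) (by positivity) (bad (m + 1) b) (-(s : ℤ)) s fun a' b' ha' hab hb' hx =>
        H v u r j b a' b' hv hu hr h1 h2 hbd hab (fun x hx' => by
          have e1 : ((-(s : ℤ) : ℤ) : ℝ) ≤ a' := by exact_mod_cast ha'
          have e2 : (b' : ℝ) ≤ ((s : ℤ) : ℝ) := by exact_mod_cast hb'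
          push_cast at e1 e2
          have e3 : x ^ 2 ≤ (s : ℝ) ^ 2 := sq_le_sq' (e1.trans hx'.1) (hx'.2.trans e2)
          linarith) hx
    rw [e, ← Ico_insert_right (by omega), sum_insert right_notMem_Ico]
    refine (norm_add_le _ _).trans ?_
    have e1 := norm_chi_le j s b hb0
    have e2 : (2 : ℝ) ^ (bad (m + 1) (b : ℝ)).card ≤ 2 ^ m :=
      pow_le_pow_right₀ (by norm_num) (card_bad m b)
    have e3 : C * r / v + (2 * (r / u) + 2) ≤ (C + 4) * (r / v) := by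
      rw [mul_div_assoc]; linarith
    have e4 := mul_le_mul e2 e3 (by positivity) (by positivity)
    linarith
  rw [← sum_fiberwise_of_maps_to (s := disc y) (t := R) (g := Zsqrtd.im)
    (fun a ha => mem_image_of_mem _ ha),
    ← sum_filter_add_sum_filter_not R (fun b : ℤ => r / u ≤ |(b : ℝ)|)]
  have s1 := (norm_sum_le _ _).trans (sum_le_card_nsmul (R.filter fun b : ℤ => r / u ≤ |(b : ℝ)|) _ _
    fun b hb => good b (mem_filter.1 hb).1 (mem_filter.1 hb).2)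
  have s2 := (norm_sum_le _ _).trans (sum_le_card_nsmul (R.filter fun b : ℤ => ¬ r / u ≤ |(b : ℝ)|) _ _
    fun b _ => triv b)
  have c1 : ((R.filter fun b : ℤ => r / u ≤ |(b : ℝ)|).card : ℝ) ≤ 3 * r :=
    le_trans (by exact_mod_cast card_filter_le _ _) hRc
  have c2 : ((R.filter fun b : ℤ => ¬ r / u ≤ |(b : ℝ)|).card : ℝ) ≤ 3 * (r / v) :=
    card_le_of_abs_le _ _ (hd1.trans hdv) fun b hb =>
      ((not_le.1 (mem_filter.1 hb).2).le).trans hdv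
  rw [nsmul_eq_mul] at s1 s2
  have s3 := s1.trans (mul_le_mul_of_nonneg_right c1 (by positivity))
  have s4 := s2.trans (mul_le_mul_of_nonneg_right c2 (by positivity))
  refine (norm_add_le _ _).trans ((add_le_add s3 s4).trans (le_of_eq ?_))
  rw [← hy]; ring

lemma upto (K : ℕ) : ∃ c C : ℝ, 0 < c ∧ c ≤ 1 ∧ 0 < C ∧ ∀ (y : ℕ) (j : ℤ), 1 ≤ y → j ≠ 0 →
    |(j : ℝ)| ≤ (y : ℝ) ^ ((8 * K + 7 : ℝ) / 16) →
    ‖∑ a ∈ disc y, chi j a‖ ≤ C * (y : ℝ) ^ (1 - c) := by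
  induction K with
  | zero =>
    obtain ⟨C, hC, H⟩ := expsum_small
    refine ⟨1 / 24, C * 2 ^ ((2 : ℝ) / 3), by norm_num, by norm_num, by positivity, ?_⟩
    intro y j hy hj h
    have hy1 : (1 : ℝ) ≤ y := by exact_mod_cast hy
    have h1 := H y j hy
    rw [if_neg hj, sub_zero] at h1
    have h2 : (1 : ℝ) ≤ (y : ℝ) ^ ((7 : ℝ) / 16) := Real.one_le_rpow hy1 (by norm_num)
    have h3 : |(j : ℝ)| ≤ (y : ℝ) ^ ((7 : ℝ) / 16) := by simpa using h
    have h4 : (1 + |(j : ℝ)|) * y ≤ 2 * (y : ℝ) ^ ((23 : ℝ) / 16) := by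
      rw [show (23 : ℝ) / 16 = 7 / 16 + 1 by norm_num, Real.rpow_add_one (by positivity)]
      nlinarith
    calc _ ≤ C * (2 * (y : ℝ) ^ ((23 : ℝ) / 16)) ^ ((2 : ℝ) / 3) := by
          refine h1.trans ?_
          gcongr
      _ = _ := by
          rw [Real.mul_rpow (by norm_num) (by positivity), ← Real.rpow_mul (by positivity)]
          norm_num [mul_assoc]
  | succ K ih =>
    obtain ⟨c, C, hc, hc1, hC, H⟩ := ih
    obtain ⟨C', hC', H'⟩ := range_bound (K + 1) (by omega)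
    set e : ℝ := 1 / (128 * (K + 1) * 2 ^ (K + 1)) with he
    have he0 : 0 < e := by positivity
    refine ⟨min c e, C + C', lt_min hc he0, (min_le_left _ _).trans hc1, by positivity, ?_⟩
    intro y j hy hj h
    have hy1 : (1 : ℝ) ≤ y := by exact_mod_cast hy
    have hy0 : (0 : ℝ) < y := by linarith
    rcases le_total |(j : ℝ)| ((y : ℝ) ^ ((8 * K + 7 : ℝ) / 16)) with h1 | h1
    · refine (H y j hy hj h1).trans ?_
      gcongr
      · linarith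
      · exact min_le_left _ _
    have eu : ((y : ℝ) ^ e) ^ (2 ^ (K + 1)) = (y : ℝ) ^ ((1 : ℝ) / (128 * (K + 1))) := by
      rw [← Real.rpow_natCast, ← Real.rpow_mul hy0.le]
      congr 1
      rw [he]; push_cast; field_simp
    have er : ((y : ℝ) ^ ((1 : ℝ) / (128 * (K + 1)))) ^ (64 * (K + 1)) = (y : ℝ) ^ ((1 : ℝ) / 2) := by
      rw [← Real.rpow_natCast, ← Real.rpow_mul hy0.le]
      congr 1
      push_cast; field_simp; norm_num
    have e8 : ((y : ℝ) ^ ((1 : ℝ) / (128 * (K + 1)))) ^ (8 * (K + 1)) = (y : ℝ) ^ ((1 : ℝ) / 16) := by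
      rw [← Real.rpow_natCast, ← Real.rpow_mul hy0.le]
      congr 1
      push_cast; field_simp; norm_num
    have ep : ∀ n : ℕ, ((y : ℝ) ^ ((1 : ℝ) / 2)) ^ n = (y : ℝ) ^ ((n : ℝ) / 2) := fun n => by
      rw [← Real.rpow_natCast, ← Real.rpow_mul hy0.le]
      congr 1
      ring
    have h16 : 0 < (y : ℝ) ^ ((1 : ℝ) / 16) := by positivity
    have key := H' _ _ _ y j (Real.one_le_rpow hy1 he0.le) eu.symm er.symm
      (by rw [ep]; simp) (by
        rw [ep, e8]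
        refine le_trans (le_of_eq ?_) (mul_le_mul_of_nonneg_right h1 h16.le)
        rw [← Real.rpow_add hy0]
        congr 1
        push_cast; ring) (by
        rw [ep, e8]
        refine le_trans (mul_le_mul_of_nonneg_right h h16.le) (le_of_eq ?_)
        rw [← Real.rpow_add hy0]
        congr 1
        push_cast; ring)
    refine key.trans ?_
    rw [mul_div_assoc, show (y : ℝ) / (y : ℝ) ^ e = (y : ℝ) ^ (1 - e) by
      rw [Real.rpow_sub hy0, Real.rpow_one]]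
    gcongr
    · linarith
    · exact min_le_right _ _

end ExpL

/-- Power saving for the sum of a Hecke character of polynomial size over a disc. -/
theorem expsum (A : ℕ) : ∃ c C : ℝ, 0 < c ∧ c ≤ 1 ∧ 0 < C ∧ ∀ (y : ℕ) (j : ℤ), 1 ≤ y → j ≠ 0 →
    |(j : ℝ)| ≤ (y : ℝ) ^ A → ‖∑ a ∈ disc y, chi j a‖ ≤ C * (y : ℝ) ^ (1 - c) := by
  obtain ⟨c, C, hc, hc1, hC, H⟩ := ExpL.upto (2 * A)
  refine ⟨c, C, hc, hc1, hC, fun y j hy hj h => H y j hy hj (h.trans ?_)⟩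
  have hy1 : (1 : ℝ) ≤ y := by exact_mod_cast hy
  rw [← Real.rpow_natCast]
  refine Real.rpow_le_rpow_of_exponent_le hy1 ?_
  push_cast; linarith

end Pool.Agent.P.MP_a1177c_nt.MR
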