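import Pool.Agent.P.MP_a1177c_nt.MR.LamK
import Pool.Agent.P.MP_a1177c_nt.MR.HalaszAbs
import Pool.Agent.P.MP_a1177c_nt.MR.ExpLarge
import Pool.Agent.P.MP_a1177c_nt.MR.EulerAux

namespace Pool.Agent.P.MP_a1177c_nt.MR

open Finset Filter
open scoped ArithmeticFunction.vonMangoldt

namespace Eul

/-- Unimodular multiplicative functions that are trivial on units. -/
structure Good (g : G → ℂ) : Prop where
  mul : ∀ a b, a ≠ 0 → b ≠ 0 → g (a * b) = g a * g b
  norm : ∀ a, a ≠ 0 → ‖g a‖ = 1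
  unit : ∀ a, IsUnit a → g a = 1

lemma good_chi (k : ℤ) : Good (chi k) :=
  ⟨fun a b _ _ => chi_mul k a b, fun _ h => norm_chi k h,
    fun _ h => by rw [chi, dir_of_isUnit h, one_zpow]⟩

lemma good_lam_chi (k : ℤ) : Good (fun a => (lam a : ℂ) * chi k a) := by
  refine ⟨fun a b ha hb => ?_, fun a h => ?_, fun a h => ?_⟩
  · rw [lam_mul ha hb, chi_mul]; push_cast; ring
  · rw [norm_mul, norm_lam, norm_chi k h, mul_one]
  · have h1 : lam a = lam 1 := lam_of_nm_eq (by rw [nm_eq_one_iff.2 h, nm_one])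
    rw [h1, lam_one, (good_chi k).unit a h]; simp

lemma norm_cf_le {g : G → ℂ} (hg : Good g) (n : ℕ) : ‖cf g n‖ ≤ ((shell n).card : ℝ) := by
  refine (norm_sum_le _ _).trans (le_of_eq ?_)
  rw [sum_congr rfl fun a ha => hg.norm a (mem_shell.1 ha).1]
  simp

lemma sum_card_shell_le (y : ℕ) : ∑ n ∈ range (y + 1), ((shell n).card : ℝ) ≤ 9 * y := by
  have h := sum_disc_eq y (fun _ => (1 : ℝ))
  simp only [sum_const, nsmul_eq_mul, mul_one] at h
  rw [← h]
  exact_mod_cast card_disc_le y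

lemma sum_Icc_eq {M : Type*} [AddCommMonoid M] (f : ℕ → M) (h0 : f 0 = 0) (y : ℕ) :
    ∑ n ∈ Icc 1 y, f n = ∑ n ∈ range (y + 1), f n := by
  rw [sum_range_eq_add_Ico _ (Nat.succ_pos y), h0, zero_add]
  rfl

lemma sum_norm_cf_le {g : G → ℂ} (hg : Good g) (y : ℕ) : ∑ n ∈ Icc 1 y, ‖cf g n‖ ≤ 9 * y := by
  rw [sum_Icc_eq _ (by simp [cf])]
  exact (sum_le_sum fun n _ => norm_cf_le hg n).trans (sum_card_shell_le y)

lemma sum_cf_eq (g : G → ℂ) (y : ℕ) : ∑ n ∈ Icc 1 y, cf g n = ∑ a ∈ disc y, g a := by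
  rw [sum_Icc_eq _ (by simp [cf]), sum_disc_eq]
  rfl

lemma norm_lf_le {g : G → ℂ} (hg : Good g) (n : ℕ) : ‖lf g n‖ ≤ 2 * Λ n := by
  refine (norm_sum_le _ _).trans (le_trans (le_of_eq ?_) (sum_shell_LamK_le n))
  refine sum_congr rfl fun a ha => ?_
  rw [norm_mul, hg.norm a (mem_shell.1 ha).1, mul_one, Complex.norm_real, Real.norm_eq_abs,
    abs_of_nonneg (LamK_nonneg a)]

lemma cf_one {g : G → ℂ} (hg : Good g) : cf g 1 = 4 := by
  rw [cf, sum_congr rfl fun a ha => hg.unit a (nm_eq_one_iff.1 (mem_shell.1 ha).2)]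
  simp [card_shell_one]

/-- Coefficients of the logarithm of the Dirichlet series. -/
noncomputable def ll (g : G → ℂ) (n : ℕ) : ℂ := lf g n / (Real.log n : ℝ)

lemma norm_LSeries_cf {g : G → ℂ} (hg : Good g) {s : ℂ} (hs : 1 < s.re) :
    ‖LSeries (cf g) s‖ = 4 * Real.exp (LSeries (ll g) s).re := by
  rw [exp_form (absc_le_one (sum_norm_cf_le hg)) (norm_lf_le hg) (lf_conv g hg.mul) hs,
    cf_one hg, norm_mul, Complex.norm_exp]
  simp only [Complex.norm_ofNat]
  rfl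

lemma summable_ll {g : G → ℂ} (hg : Good g) {s : ℂ} (hs : 1 < s.re) :
    LSeriesSummable (ll g) s :=
  LSeriesSummable_of_abscissaOfAbsConv_lt_re
    ((absc_div_log (norm_lf_le hg)).trans_lt (by exact_mod_cast hs))

lemma hasSum_re_ll {g : G → ℂ} (hg : Good g) {s : ℂ} (hs : 1 < s.re) :
    HasSum (fun n => (LSeries.term (ll g) s n).re) (LSeries (ll g) s).re :=
  Complex.hasSum_re (summable_ll hg hs).hasSum

/-- The twist `n ^ (-i t)`. -/
noncomputable def tw (t : ℝ) (n : ℕ) : ℂ := (n : ℂ) ^ (-(t * Complex.I))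

lemma norm_tw (t : ℝ) {n : ℕ} (hn : n ≠ 0) : ‖tw t n‖ = 1 := by
  rw [tw, Complex.norm_natCast_cpow_of_pos (Nat.pos_of_ne_zero hn)]
  simp

lemma tw_two (t : ℝ) (n : ℕ) : tw (2 * t) n = tw t n ^ 2 := by
  rw [tw, tw, ← Complex.cpow_nat_mul]
  congr 1
  push_cast; ring

@[simp] lemma tw_zero (n : ℕ) : tw 0 n = 1 := by simp [tw]

lemma re_term (g : G → ℂ) (σ t : ℝ) (n : ℕ) :
    (LSeries.term (ll g) (σ + t * Complex.I) n).re =
      ∑ a ∈ shell n, LamK a / (Real.log n * (n : ℝ) ^ σ) * (g a * tw t n).re := by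
  rcases eq_or_ne n 0 with rfl | hn
  · simp
  have hn' : (n : ℂ) ≠ 0 := by exact_mod_cast hn
  have e : LSeries.term (ll g) (σ + t * Complex.I) n =
      ∑ a ∈ shell n, ((LamK a / (Real.log n * (n : ℝ) ^ σ) : ℝ) : ℂ) * (g a * tw t n) := by
    rw [LSeries.term_of_ne_zero hn, ll, lf, sum_div, sum_div]
    refine sum_congr rfl fun a _ => ?_
    rw [Complex.cpow_add _ _ hn', tw, Complex.cpow_neg]
    push_cast
    rw [Complex.ofReal_cpow (Nat.cast_nonneg n)]
    push_cast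
    simp only [div_eq_mul_inv, mul_inv]
    ring
  rw [e, Complex.re_sum]
  exact sum_congr rfl fun a _ => Complex.re_ofReal_mul _ _

/-- The cost of the proper prime powers. -/
noncomputable def np (n : ℕ) : ℝ := (if n.Prime then 0 else Λ n) / (n : ℝ)

lemma term_341 (k : ℤ) {σ : ℝ} (hσ : 1 ≤ σ) (t : ℝ) (n : ℕ) :
    4 * (LSeries.term (ll fun a => (lam a : ℂ) * chi k a) (σ + t * Complex.I) n).re ≤
      3 * (LSeries.term (ll (chi 0)) (σ + (0 : ℝ) * Complex.I) n).re +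
        (LSeries.term (ll (chi (2 * k))) (σ + (2 * t : ℝ) * Complex.I) n).re + 8 * np n := by
  rw [re_term, re_term, re_term, mul_sum, mul_sum, ← sum_add_distrib]
  rcases eq_or_ne n 0 with rfl | hn
  · simp [np]
  have hn1 : (1 : ℝ) ≤ n := by exact_mod_cast Nat.pos_of_ne_zero hn
  have hw : ∀ a ∈ shell n, 0 ≤ LamK a / (Real.log n * (n : ℝ) ^ σ) := fun a _ =>
    div_nonneg (LamK_nonneg a) (mul_nonneg (Real.log_nonneg hn1) (by positivity))
  have hu : ∀ a ∈ shell n, ‖chi k a * tw t n‖ = 1 := fun a ha => by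
    rw [norm_mul, norm_chi k (mem_shell.1 ha).1, norm_tw t hn, mul_one]
  have hsq : ∀ a ∈ shell n, chi (2 * k) a * tw (2 * t) n = (chi k a * tw t n) ^ 2 :=
    fun a ha => by rw [two_mul k, chi_add k k (mem_shell.1 ha).1, tw_two]; ring
  by_cases hp : n.Prime
  · rw [np, if_pos hp, zero_div, mul_zero, add_zero]
    refine sum_le_sum fun a ha => ?_
    have h1 : lam a = -1 := lam_of_prime (by rw [(mem_shell.1 ha).2]; exact hp)
    have h2 := three_four_one (hu a ha)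
    have h3 : ((lam a : ℂ) * chi k a) * tw t n = -(chi k a * tw t n) := by
      rw [h1]; push_cast; ring
    rw [h3, hsq a ha, chi_zero, tw_zero, mul_one, Complex.one_re]
    nlinarith [hw a ha]
  · have h8 : ∑ a ∈ shell n, 2 * (LamK a / (Real.log n * (n : ℝ) ^ σ)) ≤ 8 * np n := by
      rw [← mul_sum, ← sum_div, np, if_neg hp]
      have hL := sum_shell_LamK_le n
      have hΛ : 0 ≤ Λ n := ArithmeticFunction.vonMangoldt_nonneg
      rcases eq_or_ne n 1 with rfl | h1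
      · simp
      have h2 : (2 : ℝ) ≤ n := by exact_mod_cast (by omega : 2 ≤ n)
      have h3 : 1 / 2 ≤ Real.log n :=
        le_trans (by linarith [Real.log_two_gt_d9]) (Real.log_le_log (by norm_num) h2)
      have h4 : (n : ℝ) ≤ (n : ℝ) ^ σ := by
        simpa using Real.rpow_le_rpow_of_exponent_le hn1 hσ
      have h5 : (∑ a ∈ shell n, LamK a) / (Real.log n * (n : ℝ) ^ σ) ≤
          (2 * Λ n) / (1 / 2 * n) := by
        gcongr
      have h6 : (2 * Λ n) / (1 / 2 * (n : ℝ)) = 4 * (Λ n / n) := by field_simp; ring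
      linarith
    refine le_trans ?_ (add_le_add le_rfl h8)
    rw [← sum_add_distrib]
    refine sum_le_sum fun a ha => ?_
    have h1 : ‖((lam a : ℂ) * chi k a) * tw t n‖ = 1 := by
      rw [mul_assoc, norm_mul, norm_lam, hu a ha, mul_one]
    have h2 := crude_four h1 (hu a ha)
    rw [hsq a ha, chi_zero, tw_zero, mul_one, Complex.one_re]
    nlinarith [hw a ha]

/-- The three four one inequality. -/
lemma prod_341 : ∃ E : ℝ, 0 < E ∧ ∀ (k : ℤ) (σ t : ℝ), 1 < σ →
    ‖LSeries (cf fun a => (lam a : ℂ) * chi k a) (σ + t * Complex.I)‖ ^ 4 ≤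
      E * (‖LSeries (cf (chi 0)) (σ + (0 : ℝ) * Complex.I)‖ ^ 3 *
        ‖LSeries (cf (chi (2 * k))) (σ + (2 * t : ℝ) * Complex.I)‖) := by
  have hK : Summable np := Pool.Agent.Lib.Mertens.summable_nonprime_vonMangoldt_div
  refine ⟨Real.exp (8 * ∑' n, np n), Real.exp_pos _, fun k σ t hσ => ?_⟩
  have hs : ∀ u : ℝ, 1 < ((σ : ℂ) + u * Complex.I).re := fun u => by simpa using hσ
  have h1 := (hasSum_re_ll (good_lam_chi k) (hs t)).mul_left 4
  have h2 := (((hasSum_re_ll (good_chi 0) (hs 0)).mul_left 3).add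
    (hasSum_re_ll (good_chi (2 * k)) (hs (2 * t)))).add (hK.hasSum.mul_left 8)
  have h3 := hasSum_le (fun n => term_341 k hσ.le t n) h1 h2
  rw [norm_LSeries_cf (good_lam_chi k) (hs t), norm_LSeries_cf (good_chi 0) (hs 0),
    norm_LSeries_cf (good_chi (2 * k)) (hs (2 * t))]
  have h4 := Real.exp_le_exp.2 h3
  rw [Real.exp_add, Real.exp_add, show (4 : ℝ) = (4 : ℕ) by norm_num,
    show (3 : ℝ) = (3 : ℕ) by norm_num, Real.exp_nat_mul, Real.exp_nat_mul] at h4
  rw [mul_pow, mul_pow]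
  nlinarith

lemma norm_D_one {σ : ℝ} (hσ : 1 < σ) :
    ‖LSeries (cf (chi 0)) (σ + (0 : ℝ) * Complex.I)‖ ≤ 9 * σ / (σ - 1) := by
  have hs : 1 < ((σ : ℂ) + (0 : ℝ) * Complex.I).re := by simpa using hσ
  have h := norm_LSeries_le (f := cf (chi 0)) (a := 9) (b := 0) (α := 1) (β := 1) (by norm_num)
    le_rfl zero_le_one le_rfl zero_le_one le_rfl (sum_norm_cf_le (good_chi 0))
    (fun n _ => by
      have := (norm_sum_le _ _).trans (sum_norm_cf_le (good_chi 0) n)
      simpa using this) hs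
  refine h.trans (le_of_eq ?_)
  simp only [Complex.ofReal_zero, zero_mul, add_zero, Complex.norm_real, Real.norm_eq_abs,
    Complex.ofReal_re, zero_div]
  rw [abs_of_pos (by linarith)]
  ring

lemma norm_D_chi (A : ℕ) (hA : 0 < A) : ∃ B : ℝ, 0 < B ∧ ∀ (x : ℝ) (j : ℤ) (s : ℂ), A ≤ x →
    j ≠ 0 → |(j : ℝ)| ≤ Real.exp (3 * x) → 1 < s.re →
    ‖LSeries (cf (chi j)) s‖ ≤ ‖s‖ * (81 * x / A + B) := by
  obtain ⟨c, C, hc0, hc1, hC, h⟩ := expsum A
  refine ⟨C / c, by positivity, fun x j s hx hj hjx hs => ?_⟩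
  have hA' : (0 : ℝ) < A := by exact_mod_cast hA
  have hx0 : 0 < x := hA'.trans_le hx
  set δ : ℝ := A / (3 * x) with hδ
  have hδ0 : 0 < δ := by positivity
  have hδ1 : δ ≤ 1 := by rw [hδ, div_le_one (by positivity)]; linarith
  have key := norm_LSeries_le (f := cf (chi j)) (a := 27) (b := C) (α := 1 - δ) (β := 1 - c)
    (by norm_num) hC.le (by linarith) (by linarith) (by linarith) (by linarith)
    (sum_norm_cf_le (good_chi j)) (fun n hn => ?_) hs
  · refine key.trans (mul_le_mul_of_nonneg_left (add_le_add ?_ ?_) (norm_nonneg _))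
    · have : 27 / (s.re - (1 - δ)) ≤ 27 / δ := by gcongr; linarith
      refine this.trans (le_of_eq ?_)
      rw [hδ]; field_simp; norm_num
    · gcongr; linarith
  · have hn1 : (1 : ℝ) ≤ n := by exact_mod_cast hn
    have hn0 : (0 : ℝ) < n := by linarith
    by_cases hle : |(j : ℝ)| ≤ (n : ℝ) ^ A
    · rw [sum_cf_eq]
      exact (h n j hn hj hle).trans (le_add_of_nonneg_left (by positivity))
    · refine ((norm_sum_le _ _).trans (sum_norm_cf_le (good_chi j) n)).trans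
        (le_add_of_le_of_nonneg ?_ (by positivity))
      have h1 : (n : ℝ) ^ A ≤ Real.exp (3 * x) := (not_le.1 hle).le.trans hjx
      have h2 : A * Real.log n ≤ 3 * x := by
        have := Real.log_le_log (by positivity) h1
        rwa [Real.log_exp, Real.log_pow] at this
      have h3 : (n : ℝ) ^ δ ≤ 3 := by
        rw [Real.rpow_def_of_pos hn0]
        have h4 : Real.log n * δ ≤ 1 := by
          rw [hδ, ← mul_div_assoc, div_le_one (by positivity)]; linarith
        exact (Real.exp_le_exp.2 h4).trans (by linarith [Real.exp_one_lt_d9])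
      have h5 : (n : ℝ) = (n : ℝ) ^ (1 - δ) * (n : ℝ) ^ δ := by
        rw [← Real.rpow_add hn0]; simp
      have h6 : 0 ≤ (n : ℝ) ^ (1 - δ) := by positivity
      calc (9 : ℝ) * n = 9 * ((n : ℝ) ^ (1 - δ) * (n : ℝ) ^ δ) := by rw [← h5]
        _ ≤ 9 * ((n : ℝ) ^ (1 - δ) * 3) := by gcongr
        _ = _ := by ring

lemma small_D (η T : ℝ) (hη : 0 < η) : ∀ᶠ x : ℝ in atTop, ∀ k : ℤ, k ≠ 0 →
    |(k : ℝ)| ≤ Real.exp (2 * x) → ∀ t : ℝ, |t| ≤ T →
    ‖LSeries (cf fun a => (lam a : ℂ) * chi k a) (1 + 1 / x + t * Complex.I)‖ ≤ η * x := by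
  obtain ⟨E, hE, h341⟩ := prod_341
  set W : ℝ := E * 18 ^ 3 * (2 + 2 * |T|) with hW
  have hW0 : 0 < W := by positivity
  obtain ⟨A, hA⟩ := exists_nat_gt (2 * 81 * W / η ^ 4)
  have hA0' : (0 : ℝ) < A := lt_trans (by positivity) hA
  have hA0 : 0 < A := by exact_mod_cast hA0'
  obtain ⟨B, hB, hD⟩ := norm_D_chi A hA0
  filter_upwards [eventually_ge_atTop (A : ℝ), eventually_ge_atTop (1 : ℝ),
    eventually_ge_atTop (2 * W * B / η ^ 4)] with x hxA hx1 hxB k hk hkx t ht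
  have hx0 : 0 < x := by linarith
  have hσ : 1 < 1 + 1 / x := by have : 0 < 1 / x := by positivity
                                linarith
  have hσ2 : 1 + 1 / x ≤ 2 := by
    have : 1 / x ≤ 1 := by rw [div_le_one hx0]; exact hx1
    linarith
  have e : (1 + 1 / x + t * Complex.I : ℂ) = ((1 + 1 / x : ℝ) : ℂ) + t * Complex.I := by
    push_cast; ring
  rw [e]
  have h1 := h341 k (1 + 1 / x) t hσ
  have h2 : ‖LSeries (cf (chi 0)) (((1 + 1 / x : ℝ) : ℂ) + (0 : ℝ) * Complex.I)‖ ≤ 18 * x := by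
    refine (norm_D_one hσ).trans ?_
    rw [add_sub_cancel_left, div_div_eq_mul_div, div_one]
    nlinarith
  have hk2 : |((2 * k : ℤ) : ℝ)| ≤ Real.exp (3 * x) := by
    push_cast
    rw [abs_mul, abs_two, show 3 * x = x + 2 * x by ring, Real.exp_add]
    have : 2 ≤ Real.exp x := by linarith [Real.add_one_le_exp x]
    gcongr
  have h3 := hD x (2 * k) (((1 + 1 / x : ℝ) : ℂ) + (2 * t : ℝ) * Complex.I) hxA
    (mul_ne_zero two_ne_zero hk) hk2 (by simpa using hσ)
  have h4 : ‖((1 + 1 / x : ℝ) : ℂ) + (2 * t : ℝ) * Complex.I‖ ≤ 2 + 2 * |T| := by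
    refine (norm_add_le _ _).trans (add_le_add ?_ ?_)
    · rw [Complex.norm_real, Real.norm_eq_abs, abs_of_pos (by linarith)]; exact hσ2
    · rw [norm_mul, Complex.norm_I, mul_one, Complex.norm_real, Real.norm_eq_abs, abs_mul, abs_two]
      linarith [le_abs_self T]
  have h5 : ‖LSeries (cf (chi (2 * k))) (((1 + 1 / x : ℝ) : ℂ) + (2 * t : ℝ) * Complex.I)‖ ≤
      (2 + 2 * |T|) * (81 * x / A + B) := h3.trans (by gcongr)
  have h6 : W * (81 / A) ≤ η ^ 4 / 2 := by
    rw [div_lt_iff₀ (by positivity)] at hA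
    rw [← mul_div_assoc, div_le_iff₀ hA0']
    linarith
  have h7 : W * B ≤ η ^ 4 / 2 * x := by
    rw [div_le_iff₀ (by positivity)] at hxB
    linarith
  refine le_of_pow_le_pow_left₀ (n := 4) (by norm_num) (by positivity) (h1.trans ?_)
  calc _ ≤ E * ((18 * x) ^ 3 * ((2 + 2 * |T|) * (81 * x / A + B))) := by gcongr
    _ = x ^ 3 * (W * (81 / A) * x + W * B) := by rw [hW]; ring
    _ ≤ x ^ 3 * (η ^ 4 / 2 * x + η ^ 4 / 2 * x) := by gcongr
    _ = (η * x) ^ 4 := by ring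

end Eul

open Eul

/-- The twisted Liouville function has small Gaussian weighted mean value. -/
theorem halasz (η : ℝ) (hη : 0 < η) : ∀ᶠ x : ℝ in atTop, ∀ k : ℤ, k ≠ 0 →
    |(k : ℝ)| ≤ Real.exp (2 * x) →
    ‖∑' n : ℕ, cf (fun a => (lam a : ℂ) * chi k a) n * (gw x n : ℝ)‖ ≤ η := by
  obtain ⟨η₁, T, x₀, hη₁, h⟩ := halasz_abstract 9 η hη
  filter_upwards [small_D η₁ T hη₁, eventually_ge_atTop x₀] with x hx hx₀ k hk hkx
  exact h _ (lf fun a => (lam a : ℂ) * chi k a) (fun n => ((shell n).card : ℝ)) x hx₀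
    (norm_cf_le (good_lam_chi k)) sum_card_shell_le (norm_lf_le (good_lam_chi k))
    (lf_conv _ (good_lam_chi k).mul) (hx k hk hkx)

/-- Upper bound in Mertens' second theorem for the Gaussian integers. -/
theorem mertensK : ∃ C : ℝ, ∀ y : ℕ, 2 ≤ y →
    ∑ a ∈ disc y, LamK a / (nm a * Real.log (nm a)) ≤ Real.log (Real.log y) + C := by
  refine ⟨Real.log 7 + (2 + 4 * (Real.log 4 + 4)), fun y hy => ?_⟩
  have hy2 : (2 : ℝ) ≤ y := by exact_mod_cast hy
  have hl : 1 / 2 ≤ Real.log y :=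
    le_trans (by linarith [Real.log_two_gt_d9]) (Real.log_le_log (by norm_num) hy2)
  have hl0 : 0 < Real.log y := by linarith
  set ε : ℝ := 1 / Real.log y with hε
  have hε0 : 0 < ε := by positivity
  have hε2 : ε ≤ 2 := by rw [hε, div_le_iff₀ hl0]; linarith
  have hσ : 1 < 1 + ε := by linarith
  have hs : 1 < (((1 + ε : ℝ) : ℂ) + (0 : ℝ) * Complex.I).re := by simpa using hε0
  have hS := hasSum_re_ll (good_chi 0) hs
  have hterm : ∀ n : ℕ, (LSeries.term (ll (chi 0)) (((1 + ε : ℝ) : ℂ) + (0 : ℝ) * Complex.I) n).re =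
      ∑ a ∈ shell n, LamK a / (Real.log n * (n : ℝ) ^ (1 + ε)) := fun n => by
    rw [re_term]; simp
  have hnn : ∀ n : ℕ, 0 ≤ ∑ a ∈ shell n, LamK a / (Real.log n * (n : ℝ) ^ (1 + ε)) := fun n =>
    sum_nonneg fun a _ => div_nonneg (LamK_nonneg a)
      (mul_nonneg (Real.log_natCast_nonneg n) (by positivity))
  simp only [hterm] at hS
  have h1 := sum_le_hasSum (range (y + 1)) (fun n _ => hnn n) hS
  have h2 : (LSeries (ll (chi 0)) (((1 + ε : ℝ) : ℂ) + (0 : ℝ) * Complex.I)).re ≤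
      Real.log (Real.log y) + Real.log 7 := by
    have h3 := norm_D_one hσ
    rw [norm_LSeries_cf (good_chi 0) hs, add_sub_cancel_left] at h3
    rw [← Real.log_mul hl0.ne' (by norm_num), Real.le_log_iff_exp_le (by positivity)]
    have h4 : 9 * (1 + ε) / ε = 9 * (Real.log y + 1) := by rw [hε]; field_simp
    rw [h4] at h3
    linarith
  have h3 : ∀ n ∈ range (y + 1), ∑ a ∈ shell n, LamK a / (nm a * Real.log (nm a)) ≤
      ∑ a ∈ shell n, LamK a / (Real.log n * (n : ℝ) ^ (1 + ε)) + ε * (2 * (Λ n / n)) := by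
    intro n _
    rcases eq_or_ne n 0 with rfl | hn
    · simp
    have hn0 : (0 : ℝ) < n := by exact_mod_cast Nat.pos_of_ne_zero hn
    have h4 : ∑ a ∈ shell n, ε * (LamK a / n) ≤ ε * (2 * (Λ n / n)) := by
      rw [← mul_sum, ← sum_div, ← mul_div_assoc 2]
      gcongr
      exact sum_shell_LamK_le n
    refine le_trans ?_ (add_le_add le_rfl h4)
    rw [← sum_add_distrib]
    refine sum_le_sum fun a ha => ?_
    rw [(mem_shell.1 ha).2]
    have hL := LamK_nonneg a
    rcases (Real.log_natCast_nonneg n).eq_or_lt with h0 | h0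
    · rw [← h0]; simp only [mul_zero, div_zero, zero_mul, zero_add]; positivity
    have h5 : 1 - ε * Real.log n ≤ ((n : ℝ) ^ ε)⁻¹ := by
      rw [Real.rpow_def_of_pos hn0, ← Real.exp_neg]
      linarith [Real.add_one_le_exp (-(Real.log n * ε))]
    have h6 : LamK a / (Real.log n * (n : ℝ) ^ (1 + ε)) =
        LamK a / (n * Real.log n) * ((n : ℝ) ^ ε)⁻¹ := by
      rw [Real.rpow_add hn0, Real.rpow_one]; field_simp
    have h7 : ε * (LamK a / n) = LamK a / (n * Real.log n) * (ε * Real.log n) := by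
      field_simp
    have h8 : 0 ≤ LamK a / (n * Real.log n) := by positivity
    rw [h6, h7]
    nlinarith
  have h4 : ∑ n ∈ range (y + 1), ε * (2 * (Λ n / n)) ≤ 2 + 4 * (Real.log 4 + 4) := by
    rw [← mul_sum, ← mul_sum, ← sum_Icc_eq _ (by simp)]
    have h5 := Pool.Agent.Lib.Mertens.sum_vonMangoldt_div_le_nat (N := y) (by omega)
    have h6 : Icc 1 y = Ioc 0 y := rfl
    rw [h6]
    have h7 : ε * Real.log y = 1 := by rw [hε]; field_simp
    have h8 : 0 ≤ Real.log 4 := Real.log_nonneg (by norm_num)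
    calc _ ≤ ε * (2 * (Real.log y + (Real.log 4 + 4))) := by gcongr
      _ = 2 * (ε * Real.log y) + ε * (2 * (Real.log 4 + 4)) := by ring
      _ ≤ 2 * 1 + 2 * (2 * (Real.log 4 + 4)) := by rw [h7]; gcongr
      _ = _ := by ring
  rw [sum_disc_eq]
  have h5 := sum_le_sum h3
  rw [sum_add_distrib] at h5
  linarith

end Pool.Agent.P.MP_a1177c_nt.MR
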