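import Pool.Agent.P.MP_a1177c_nt.MR.Defs

/-!
A Selberg majorant for the Gaussian primes.
-/

namespace Pool.Agent.P.MP_a1177c_nt.MR.Selb

open Finset Filter
open scoped Classical

lemma two_le_nm {p : G} (hp : Prime p) : 2 ≤ nm p := by
  have h0 := nm_pos hp.ne_zero
  have h1 : nm p ≠ 1 := fun h => hp.not_isUnit (nm_eq_one_iff.1 h)
  omega

lemma eq_of_dvd {p q : G} (hp : IsP p) (hq : IsP q) (h : p ∣ q) : p = q := by
  have h1 : Associated p q := hp.1.irreducible.associated_of_dvd hq.1.irreducible h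
  rw [← hp.2, ← hq.2]
  exact normalize_eq_normalize_iff_associated.2 h1

lemma prod_dvd_iff {T : Finset G} (hT : ∀ p ∈ T, IsP p) (a : G) :
    (∏ p ∈ T, p) ∣ a ↔ ∀ p ∈ T, p ∣ a := by
  refine ⟨fun h p hp => (dvd_prod_of_mem (fun p => p) hp).trans h, fun h => ?_⟩
  refine Finset.prod_dvd_of_coprime (fun p hp q hq hne => ?_) h
  exact (hT p hp).1.irreducible.coprime_iff_not_dvd.2
    fun hd => hne (eq_of_dvd (hT p hp) (hT q hq) hd)

lemma prod_ne_zero {T : Finset G} (hT : ∀ p ∈ T, IsP p) : (∏ p ∈ T, p) ≠ 0 :=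
  Finset.prod_ne_zero_iff.2 fun p hp => (hT p hp).1.ne_zero

lemma two_pow_card_le {T : Finset G} (hT : ∀ p ∈ T, IsP p) : 2 ^ T.card ≤ ∏ p ∈ T, nm p :=
  Finset.pow_card_le_prod T nm 2 fun p hp => two_le_nm (hT p hp).1

lemma prod_nm_mono {T W : Finset G} (hW : ∀ p ∈ W, IsP p) (h : T ⊆ W) :
    ∏ p ∈ T, nm p ≤ ∏ p ∈ W, nm p :=
  Finset.prod_le_prod_of_subset_of_one_le' h fun p hp _ => nm_pos (hW p hp).1.ne_zero

/-- squarefree part -/
lemma exists_decomp {a : G} (ha : a ≠ 0) :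
    ∃ (u g : G) (S : Finset G), IsUnit u ∧ (∀ p ∈ S, IsP p) ∧ a = u * g ^ 2 * ∏ p ∈ S, p := by
  induction a using UniqueFactorizationMonoid.induction_on_prime with
  | h₁ => exact absurd rfl ha
  | h₂ x hx => exact ⟨x, 1, ∅, hx, by simp, by simp⟩
  | h₃ a p ha0 hp ih =>
    obtain ⟨u, g, S, hu, hS, rfl⟩ := ih ha0
    obtain ⟨v, hv⟩ := (normalize_associated p)
    have hp0 : IsP (normalize p) :=
      ⟨(associated_normalize p).prime hp, normalize_idem p⟩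
    generalize normalize p = p0 at hv hp0
    subst hv
    by_cases hm : p0 ∈ S
    · refine ⟨u * v, g * p0, S.erase p0, hu.mul v.isUnit,
        fun q hq => hS q (mem_of_mem_erase hq), ?_⟩
      rw [← Finset.mul_prod_erase S (fun p => p) hm]
      ring
    · refine ⟨u * v, g, insert p0 S, hu.mul v.isUnit, fun q hq => ?_, ?_⟩
      · rcases mem_insert.1 hq with rfl | hq
        · exact hp0
        · exact hS q hq
      · rw [prod_insert hm]
        ring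

/-- indicator of divisibility -/
noncomputable def X (p a : G) : ℝ := if p ∣ a then 1 else 0

/-- model density -/
noncomputable def hh (p : G) : ℝ := (nm p : ℝ)⁻¹

lemma hh_nonneg (p : G) : 0 ≤ hh p := by unfold hh; positivity

lemma hh_le_one (p : G) : hh p ≤ 1 := Nat.cast_inv_le_one _

/-- sets of normalised primes with product of norms at most `z` -/
noncomputable def J (z : ℕ) : Finset (Finset G) :=
  ((disc z).filter IsP).powerset.filter fun S => ∏ p ∈ S, nm p ≤ z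

lemma mem_J {z : ℕ} {S : Finset G} : S ∈ J z ↔ (∀ p ∈ S, IsP p) ∧ ∏ p ∈ S, nm p ≤ z := by
  simp only [J, mem_filter, mem_powerset]
  constructor
  · rintro ⟨h, h'⟩
    exact ⟨fun p hp => (mem_filter.1 (h hp)).2, h'⟩
  · rintro ⟨h, h'⟩
    refine ⟨fun p hp => mem_filter.2 ⟨mem_disc.2 ⟨(h p hp).1.ne_zero, ?_⟩, h p hp⟩, h'⟩
    have := prod_nm_mono h (singleton_subset_iff.2 hp)
    rw [prod_singleton] at this
    exact this.trans h'

lemma card_J_le (z : ℕ) : (J z).card ≤ 9 * z := by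
  refine le_trans ?_ (card_disc_le z)
  have key : ∀ S S' : Finset G, (∀ p ∈ S, IsP p) → (∀ p ∈ S', IsP p) →
      (∏ p ∈ S, p) = ∏ p ∈ S', p → S ⊆ S' := by
    intro S S' h h' e p hp
    have h1 : p ∣ ∏ p ∈ S', p := e ▸ dvd_prod_of_mem (fun p => p) hp
    obtain ⟨q, hq, hd⟩ := (h p hp).1.exists_mem_finset_dvd h1
    rwa [eq_of_dvd (h p hp) (h' q hq) hd]
  refine card_le_card_of_injOn (fun S => ∏ p ∈ S, p) (fun S hS => ?_) (fun S hS S' hS' e => ?_)
  · obtain ⟨h1, h2⟩ := mem_J.1 hS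
    exact mem_coe.2 (mem_disc.2 ⟨prod_ne_zero h1, by rw [nm_prod]; exact h2⟩)
  · exact Subset.antisymm (key S S' (mem_J.1 hS).1 (mem_J.1 hS').1 e)
      (key S' S (mem_J.1 hS').1 (mem_J.1 hS).1 e.symm)

noncomputable def phi (S : Finset G) (a : G) : ℝ := ∏ p ∈ S, (hh p - X p a)

noncomputable def Js (z : ℕ) : ℝ := ∑ S ∈ J z, ∏ p ∈ S, hh p

noncomputable def nu (z : ℕ) (a : G) : ℝ := (∑ S ∈ J z, phi S a) ^ 2 / Js z ^ 2

lemma nu_nonneg (z : ℕ) (a : G) : 0 ≤ nu z a := by unfold nu; positivity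

lemma one_le_Js {z : ℕ} (hz : 1 ≤ z) : 1 ≤ Js z := by
  have h : (∅ : Finset G) ∈ J z := mem_J.2 ⟨by simp, by simpa using hz⟩
  have := single_le_sum (f := fun S : Finset G => ∏ p ∈ S, hh p)
    (fun S _ => prod_nonneg fun p _ => hh_nonneg p) h
  rwa [prod_empty] at this

lemma nu_prime {z : ℕ} (hz : 1 ≤ z) {a : G} (ha : (nm a).Prime) (hza : z < nm a) :
    nu z a = 1 := by
  have h : ∑ S ∈ J z, phi S a = Js z := by
    refine sum_congr rfl fun S hS => prod_congr rfl fun p hp => ?_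
    obtain ⟨h1, h2⟩ := mem_J.1 hS
    have h3 := prod_nm_mono h1 (singleton_subset_iff.2 hp)
    rw [prod_singleton] at h3
    have h4 := two_le_nm (h1 p hp).1
    have : ¬ p ∣ a := fun hd => by
      rcases ha.eq_one_or_self_of_dvd _ (nm_dvd hd) with h | h <;> omega
    simp [X, this]
  have := one_le_Js hz
  rw [nu, h, div_self (by positivity)]

lemma prod_X {T : Finset G} (hT : ∀ p ∈ T, IsP p) (a : G) :
    ∏ p ∈ T, X p a = if (∏ p ∈ T, p) ∣ a then 1 else 0 := by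
  simp only [X, prod_ite_zero, prod_const_one, prod_dvd_iff hT]

lemma prod_hh (T : Finset G) : ∏ p ∈ T, hh p = (nm (∏ p ∈ T, p) : ℝ)⁻¹ := by
  simp only [hh, nm_prod, Nat.cast_prod, prod_inv_distrib]

/-- expansion of a product of affine functions of the indicators -/
lemma sum_prod_expand (s : Finset G) (f : G → ℂ) (m : ℂ) (R : ℝ) (W : Finset G)
    (hW : ∀ p ∈ W, IsP p) (e c : G → ℝ) (he : ∀ p, |e p| ≤ 1) (hc : ∀ p, |c p| ≤ 1)
    (hR : ∀ T ⊆ W, ‖∑ a ∈ s.filter (fun a => (∏ p ∈ T, p) ∣ a), f a -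
      m / nm (∏ p ∈ T, p)‖ ≤ R) :
    ‖∑ a ∈ s, ((∏ p ∈ W, (e p * X p a + c p) : ℝ) : ℂ) * f a -
      m * ((∏ p ∈ W, (e p * hh p + c p) : ℝ) : ℂ)‖ ≤ 2 ^ W.card * R := by
  have h1 : ∑ a ∈ s, ((∏ p ∈ W, (e p * X p a + c p) : ℝ) : ℂ) * f a -
      m * ((∏ p ∈ W, (e p * hh p + c p) : ℝ) : ℂ) =
      ∑ T ∈ W.powerset, (((∏ p ∈ T, e p) * ∏ p ∈ W \ T, c p : ℝ) : ℂ) *
        (∑ a ∈ s.filter (fun a => (∏ p ∈ T, p) ∣ a), f a - m / nm (∏ p ∈ T, p)) := by
    simp only [prod_add, Complex.ofReal_sum, sum_mul, mul_sum, mul_sub, sum_sub_distrib]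
    congr 1
    · rw [sum_comm]
      refine sum_congr rfl fun T hT => ?_
      have hT' : ∀ p ∈ T, IsP p := fun p hp => hW p (mem_powerset.1 hT hp)
      rw [sum_filter]
      refine sum_congr rfl fun a _ => ?_
      rw [prod_mul_distrib, prod_X hT']
      split_ifs <;> simp
    · refine sum_congr rfl fun T _ => ?_
      rw [prod_mul_distrib, prod_hh]
      push_cast
      ring
  rw [h1]
  refine (norm_sum_le _ _).trans ?_
  have h2 : ∀ T ∈ W.powerset, ‖(((∏ p ∈ T, e p) * ∏ p ∈ W \ T, c p : ℝ) : ℂ) *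
      (∑ a ∈ s.filter (fun a => (∏ p ∈ T, p) ∣ a), f a - m / nm (∏ p ∈ T, p))‖ ≤ R := by
    intro T hT
    rw [norm_mul, Complex.norm_real, Real.norm_eq_abs, abs_mul, abs_prod, abs_prod]
    have h3 : ∏ p ∈ T, |e p| ≤ 1 := prod_le_one (fun p _ => abs_nonneg _) fun p _ => he p
    have h4 : ∏ p ∈ W \ T, |c p| ≤ 1 := prod_le_one (fun p _ => abs_nonneg _) fun p _ => hc p
    have h5 : 0 ≤ ∏ p ∈ W \ T, |c p| := prod_nonneg fun p _ => abs_nonneg _
    calc _ ≤ 1 * 1 * R := by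
          have := hR T (mem_powerset.1 hT)
          gcongr
      _ = R := by ring
  refine (sum_le_card_nsmul _ _ _ h2).trans ?_
  rw [card_powerset, nsmul_eq_mul]
  push_cast
  exact le_rfl

lemma phi_mul (S S' : Finset G) (a : G) : phi S a * phi S' a =
    ∏ p ∈ S ∪ S', ((if p ∈ S ∩ S' then 1 - 2 * hh p else -1) * X p a +
      (if p ∈ S ∩ S' then hh p ^ 2 else hh p)) := by
  have h1 : phi S a = ∏ p ∈ S ∪ S', if p ∈ S then hh p - X p a else 1 := by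
    rw [prod_ite_mem, union_inter_cancel_left, phi]
  have h2 : phi S' a = ∏ p ∈ S ∪ S', if p ∈ S' then hh p - X p a else 1 := by
    rw [prod_ite_mem, union_inter_cancel_right, phi]
  rw [h1, h2, ← prod_mul_distrib]
  refine prod_congr rfl fun p hp => ?_
  by_cases h : p ∈ S <;> by_cases h' : p ∈ S'
  · simp only [h, h', mem_inter, and_self, if_true, X]
    split_ifs <;> ring
  · simp only [h, h', mem_inter, and_false, if_true, if_false]; ring
  · simp only [h, h', mem_inter, false_and, if_true, if_false]; ring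
  · simp [h, h'] at hp

lemma model_mean (S S' : Finset G) :
    ∏ p ∈ S ∪ S', ((if p ∈ S ∩ S' then 1 - 2 * hh p else -1) * hh p +
      (if p ∈ S ∩ S' then hh p ^ 2 else hh p)) =
      if S = S' then ∏ p ∈ S, hh p * (1 - hh p) else 0 := by
  split_ifs with h
  · subst h
    rw [union_self, inter_self]
    refine prod_congr rfl fun p hp => ?_
    simp only [hp, if_true]; ring
  · have : ∃ p ∈ S ∪ S', p ∉ S ∩ S' := by
      by_contra hc
      push Not at hc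
      refine h (Subset.antisymm (fun p hp => ?_) (fun p hp => ?_))
      · exact (mem_inter.1 (hc p (mem_union_left _ hp))).2
      · exact (mem_inter.1 (hc p (mem_union_right _ hp))).1
    obtain ⟨p, hp, hp'⟩ := this
    refine prod_eq_zero hp ?_
    simp only [hp', if_false]; ring

/-- the mean of the majorant in the model -/
noncomputable def mm (z : ℕ) : ℝ := (∑ S ∈ J z, ∏ p ∈ S, hh p * (1 - hh p)) / Js z ^ 2

lemma mm_nonneg (z : ℕ) : 0 ≤ mm z :=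
  div_nonneg (sum_nonneg fun _ _ => prod_nonneg fun p _ =>
    mul_nonneg (hh_nonneg p) (sub_nonneg.2 (hh_le_one p))) (sq_nonneg _)

lemma mm_le {z : ℕ} (hz : 1 ≤ z) : mm z ≤ 1 / Js z := by
  have h := one_le_Js hz
  have h1 : ∑ S ∈ J z, ∏ p ∈ S, hh p * (1 - hh p) ≤ Js z := by
    refine sum_le_sum fun S _ => prod_le_prod (fun p _ =>
      mul_nonneg (hh_nonneg p) (sub_nonneg.2 (hh_le_one p))) fun p _ => ?_
    nlinarith [hh_nonneg p]
  rw [mm, div_le_div_iff₀ (by positivity) (by positivity)]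
  nlinarith

lemma nu_sum {z : ℕ} (hz : 1 ≤ z) (s : Finset G) (f : G → ℂ) (m : ℂ) {R : ℝ} (hR0 : 0 ≤ R)
    (hR : ∀ d : G, d ≠ 0 → nm d ≤ z ^ 2 →
      ‖∑ a ∈ s.filter (fun a => d ∣ a), f a - m / nm d‖ ≤ R) :
    ‖∑ a ∈ s, (nu z a : ℂ) * f a - m * mm z‖ ≤ 81 * (z : ℝ) ^ 4 * R := by
  have hJ := one_le_Js hz
  have key : ∀ S ∈ J z, ∀ S' ∈ J z, ‖∑ a ∈ s, ((phi S a * phi S' a : ℝ) : ℂ) * f a -
      m * ((if S = S' then ∏ p ∈ S, hh p * (1 - hh p) else 0 : ℝ) : ℂ)‖ ≤ (z : ℝ) ^ 2 * R := by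
    intro S hS S' hS'
    obtain ⟨h1, h2⟩ := mem_J.1 hS
    obtain ⟨h1', h2'⟩ := mem_J.1 hS'
    have hW : ∀ p ∈ S ∪ S', IsP p := fun p hp => (mem_union.1 hp).elim (h1 p) (h1' p)
    have hN : ∏ p ∈ S ∪ S', nm p ≤ z ^ 2 := by
      have h3 := prod_union_inter (s₁ := S) (s₂ := S') (f := nm)
      have h4 : 1 ≤ ∏ p ∈ S ∩ S', nm p :=
        Finset.one_le_prod' fun p hp => nm_pos (h1 p (mem_inter.1 hp).1).1.ne_zero
      calc _ ≤ (∏ p ∈ S ∪ S', nm p) * ∏ p ∈ S ∩ S', nm p := Nat.le_mul_of_pos_right _ h4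
        _ ≤ z * z := by rw [h3]; exact Nat.mul_le_mul h2 h2'
        _ = z ^ 2 := (sq z).symm
    simp only [phi_mul, ← model_mean]
    refine (sum_prod_expand s f m R (S ∪ S') hW _ _ (fun p => ?_) (fun p => ?_)
      (fun T hT => hR _ (prod_ne_zero fun p hp => hW p (hT hp)) ?_)).trans ?_
    · have := hh_nonneg p
      have := hh_le_one p
      split_ifs
      · rw [abs_le]; constructor <;> linarith
      · simp
    · have := hh_nonneg p
      have := hh_le_one p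
      split_ifs
      · rw [abs_le]; constructor <;> nlinarith
      · rw [abs_le]; constructor <;> linarith
    · rw [nm_prod]; exact (prod_nm_mono hW hT).trans hN
    · have : (2 : ℝ) ^ (S ∪ S').card ≤ (z : ℝ) ^ 2 := by
        exact_mod_cast (two_pow_card_le hW).trans hN
      gcongr
  have h1 : ∑ a ∈ s, (nu z a : ℂ) * f a - m * mm z =
      (∑ S ∈ J z, ∑ S' ∈ J z, (∑ a ∈ s, ((phi S a * phi S' a : ℝ) : ℂ) * f a -
        m * ((if S = S' then ∏ p ∈ S, hh p * (1 - hh p) else 0 : ℝ) : ℂ))) /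
          ((Js z ^ 2 : ℝ) : ℂ) := by
    simp only [sum_sub_distrib, sub_div]
    congr 1
    · have e : ∀ a, (nu z a : ℂ) * f a = (∑ S ∈ J z, ∑ S' ∈ J z,
          ((phi S a * phi S' a : ℝ) : ℂ) * f a) / ((Js z ^ 2 : ℝ) : ℂ) := fun a => by
        rw [nu, sq (∑ S ∈ J z, phi S a), sum_mul_sum, Complex.ofReal_div, div_mul_eq_mul_div]
        simp only [Complex.ofReal_sum, sum_mul]
      simp only [e]
      rw [← sum_div, sum_comm]
      congr 1
      exact sum_congr rfl fun S _ => sum_comm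
    · simp only [← mul_sum, ← Complex.ofReal_sum, mm, Complex.ofReal_div, mul_div_assoc]
      congr 3
      refine sum_congr rfl fun S hS => ?_
      rw [sum_ite_eq, if_pos hS]
  rw [h1, norm_div, Complex.norm_real, Real.norm_eq_abs, abs_of_nonneg (sq_nonneg _)]
  have hc : ((J z).card : ℝ) ≤ 9 * z := by exact_mod_cast card_J_le z
  have h2 : ‖∑ S ∈ J z, ∑ S' ∈ J z, (∑ a ∈ s, ((phi S a * phi S' a : ℝ) : ℂ) * f a -
        m * ((if S = S' then ∏ p ∈ S, hh p * (1 - hh p) else 0 : ℝ) : ℂ))‖ ≤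
      81 * (z : ℝ) ^ 4 * R := by
    refine (norm_sum_le _ _).trans ((sum_le_card_nsmul _ _ (9 * z * ((z : ℝ) ^ 2 * R))
      fun S hS => ?_).trans ?_)
    · refine (norm_sum_le _ _).trans ((sum_le_card_nsmul _ _ _ (key S hS)).trans ?_)
      rw [nsmul_eq_mul]
      gcongr
    · rw [nsmul_eq_mul]
      calc _ ≤ 9 * z * (9 * z * ((z : ℝ) ^ 2 * R)) := by gcongr
        _ = _ := by ring
  refine le_trans (div_le_self (norm_nonneg _) (one_le_pow₀ hJ)) h2

/-! ### lower bound for `Js` -/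

lemma sum_inv_one_add_sq (n : ℕ) :
    ∑ x ∈ Icc (-(n : ℤ)) n, (1 / (1 + (x : ℝ) ^ 2)) ≤ 5 - 4 / ((n : ℝ) + 1) := by
  induction n with
  | zero => norm_num
  | succ n ih =>
    have e : Icc (-((n + 1 : ℕ) : ℤ)) ((n + 1 : ℕ) : ℤ) =
        insert (-((n : ℤ) + 1)) (insert ((n : ℤ) + 1) (Icc (-(n : ℤ)) n)) := by
      ext x; simp only [mem_Icc, mem_insert]; push_cast; omega
    rw [e, sum_insert (by simp only [mem_Icc, mem_insert]; omega),
      sum_insert (by simp only [mem_Icc]; omega)]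
    push_cast
    have h0 : (0 : ℝ) ≤ n := Nat.cast_nonneg n
    have h1 : 1 / (1 + ((n : ℝ) + 1) ^ 2) ≤ 2 / ((n : ℝ) + 1) - 2 / ((n : ℝ) + 1 + 1) := by
      rw [div_sub_div _ _ (by positivity) (by positivity),
        div_le_div_iff₀ (by positivity) (by positivity)]
      nlinarith
    have h2 : 4 / ((n : ℝ) + 1) = 2 * (2 / ((n : ℝ) + 1)) := by ring
    have h3 : 4 / ((n : ℝ) + 1 + 1) = 2 * (2 / ((n : ℝ) + 1 + 1)) := by ring
    rw [neg_sq]
    linarith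

lemma sum_inv_nm_sq (y : ℕ) : ∑ g ∈ disc y, ((nm g : ℝ) ^ 2)⁻¹ ≤ 75 := by
  have h1 : ∑ g ∈ disc y, ((nm g : ℝ) ^ 2)⁻¹ ≤
      ∑ g ∈ disc y, 3 * ((1 / (1 + (g.re : ℝ) ^ 2)) * (1 / (1 + (g.im : ℝ) ^ 2))) := by
    refine sum_le_sum fun g hg => ?_
    have h0 : (1 : ℝ) ≤ nm g := by exact_mod_cast nm_pos (mem_disc.1 hg).1
    have h2 := nm_real g
    rw [one_div_mul_one_div, mul_one_div, inv_eq_one_div,
      div_le_div_iff₀ (by positivity) (by positivity)]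
    have h3 : 4 * ((g.re : ℝ) ^ 2 * (g.im : ℝ) ^ 2) ≤ (nm g : ℝ) ^ 2 := by
      rw [h2]; nlinarith [sq_nonneg ((g.re : ℝ) ^ 2 - (g.im : ℝ) ^ 2)]
    nlinarith
  refine h1.trans ?_
  have h2 : ∑ g ∈ disc y, 3 * ((1 / (1 + (g.re : ℝ) ^ 2)) * (1 / (1 + (g.im : ℝ) ^ 2))) ≤
      ∑ q ∈ Icc (-(y : ℤ)) y ×ˢ Icc (-(y : ℤ)) y,
        3 * ((1 / (1 + (q.1 : ℝ) ^ 2)) * (1 / (1 + (q.2 : ℝ) ^ 2))) := by
    refine (sum_le_sum_of_subset_of_nonneg (filter_subset _ _) fun _ _ _ => by positivity).trans ?_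
    rw [sum_image fun p _ q _ h => Prod.ext (congrArg Zsqrtd.re h) (congrArg Zsqrtd.im h)]
  refine h2.trans ?_
  rw [← mul_sum, sum_product]
  simp only
  rw [← sum_mul_sum]
  have h3 := sum_inv_one_add_sq y
  have h4 : 0 ≤ ∑ x ∈ Icc (-(y : ℤ)) y, (1 / (1 + (x : ℝ) ^ 2)) :=
    sum_nonneg fun _ _ => by positivity
  have h5 : (0 : ℝ) ≤ 4 / ((y : ℝ) + 1) := by positivity
  nlinarith

lemma sum_inv_nm_ge (m : ℕ) :
    Real.log (m + 1) / 2 ≤ ∑ a ∈ disc (2 * m ^ 2), (nm a : ℝ)⁻¹ := by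
  have h1 : Real.log (m + 1) ≤ ∑ x ∈ Icc 1 m, (x : ℝ)⁻¹ := by
    have := log_add_one_le_harmonic m
    rw [harmonic_eq_sum_Icc] at this
    push_cast at this
    exact this
  let P : Finset (Σ _ : ℕ, ℕ) := (Icc 1 m).sigma fun x => Icc 1 x
  let F : (Σ _ : ℕ, ℕ) → G := fun q => ⟨q.1, q.2⟩
  have hF : Set.InjOn F P := by
    rintro ⟨x, y⟩ _ ⟨x', y'⟩ _ h
    have h1 : (x : ℤ) = x' := congrArg Zsqrtd.re h
    have h2 : (y : ℤ) = y' := congrArg Zsqrtd.im h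
    obtain rfl : x = x' := by exact_mod_cast h1
    obtain rfl : y = y' := by exact_mod_cast h2
    rfl
  have hn : ∀ q : (Σ _ : ℕ, ℕ), nm (F q) = q.1 ^ 2 + q.2 ^ 2 := fun q => by
    have : (nm (F q) : ℤ) = (q.1 : ℤ) ^ 2 + (q.2 : ℤ) ^ 2 := nm_int (F q)
    exact_mod_cast this
  have hsub : P.image F ⊆ disc (2 * m ^ 2) := by
    intro a ha
    obtain ⟨⟨x, y⟩, hq, rfl⟩ := mem_image.1 ha
    simp only [P, mem_sigma, mem_Icc] at hq
    refine mem_disc.2 ⟨?_, ?_⟩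
    · rw [Ne, ← nm_eq_zero, hn]
      have := hq.1.1
      positivity
    · rw [hn]
      have h1 : x ^ 2 ≤ m ^ 2 := Nat.pow_le_pow_left hq.1.2 2
      have h2 : y ^ 2 ≤ m ^ 2 := Nat.pow_le_pow_left (hq.2.2.trans hq.1.2) 2
      simp only
      omega
  refine le_trans ?_ (sum_le_sum_of_subset_of_nonneg hsub fun _ _ _ => by positivity)
  rw [sum_image hF, sum_sigma, div_le_iff₀ (by norm_num), sum_mul]
  refine h1.trans (sum_le_sum fun x hx => ?_)
  have hx1 : (1 : ℝ) ≤ x := by exact_mod_cast (mem_Icc.1 hx).1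
  have h2 : ∀ y ∈ Icc 1 x, (2 * (x : ℝ) ^ 2)⁻¹ ≤ (nm (F ⟨x, y⟩) : ℝ)⁻¹ := fun y hy => by
    rw [hn]
    have h3 : (y : ℝ) ≤ x := by exact_mod_cast (mem_Icc.1 hy).2
    have h4 : (0 : ℝ) ≤ y := Nat.cast_nonneg y
    push_cast
    refine inv_anti₀ (by positivity) (by nlinarith)
  have h3 := card_nsmul_le_sum _ _ _ h2
  rw [Nat.card_Icc, nsmul_eq_mul, Nat.add_sub_cancel] at h3
  calc (x : ℝ)⁻¹ = x * (2 * (x : ℝ) ^ 2)⁻¹ * 2 := by field_simp
    _ ≤ _ := by gcongr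

lemma sum_inv_nm_le (z : ℕ) : ∑ a ∈ disc z, (nm a : ℝ)⁻¹ ≤ 675 * Js z := by
  let F : G × G × Finset G → G := fun q => q.1 * q.2.1 ^ 2 * ∏ p ∈ q.2.2, p
  have hsub : disc z ⊆ (disc 1 ×ˢ disc z ×ˢ J z).image F := by
    intro a ha
    obtain ⟨h0, hz⟩ := mem_disc.1 ha
    obtain ⟨u, g, S, hu, hS, rfl⟩ := exists_decomp h0
    have hg : g ≠ 0 := by rintro rfl; simp at h0
    have h1 := nm_eq_one_iff.2 hu
    rw [nm_mul, nm_mul, h1, one_mul, nm_pow, nm_prod] at hz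
    have h2 : 0 < ∏ p ∈ S, nm p := by rw [← nm_prod]; exact nm_pos (prod_ne_zero hS)
    have h3 := nm_pos hg
    refine mem_image.2 ⟨(u, g, S), ?_, rfl⟩
    simp only [mem_product]
    refine ⟨mem_disc.2 ⟨hu.ne_zero, h1.le⟩, mem_disc.2 ⟨hg, ?_⟩, mem_J.2 ⟨hS, ?_⟩⟩
    · calc nm g ≤ nm g ^ 2 := Nat.le_self_pow (by norm_num) _
        _ ≤ _ := Nat.le_mul_of_pos_right _ h2
        _ ≤ z := hz
    · exact (Nat.le_mul_of_pos_left _ (by positivity)).trans hz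
  refine (sum_le_sum_of_subset_of_nonneg hsub fun _ _ _ => by positivity).trans ?_
  refine (sum_image_le_of_nonneg fun _ _ => by positivity).trans ?_
  have h1 : ∀ u ∈ disc 1, ∑ q ∈ disc z ×ˢ J z, (nm (F (u, q)) : ℝ)⁻¹ ≤ 75 * Js z := by
    intro u hu
    have hu1 : nm u = 1 := le_antisymm (mem_disc.1 hu).2 (nm_pos (mem_disc.1 hu).1)
    have : ∑ q ∈ disc z ×ˢ J z, (nm (F (u, q)) : ℝ)⁻¹ =
        (∑ g ∈ disc z, ((nm g : ℝ) ^ 2)⁻¹) * Js z := by
      rw [Js, sum_mul_sum, sum_product]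
      refine sum_congr rfl fun g _ => sum_congr rfl fun S _ => ?_
      simp only [F, nm_mul, hu1, nm_pow, prod_hh]
      push_cast
      rw [one_mul, mul_inv]
    rw [this]
    have h2 : 0 ≤ Js z := sum_nonneg fun S _ => prod_nonneg fun p _ => hh_nonneg p
    exact mul_le_mul_of_nonneg_right (sum_inv_nm_sq z) h2
  rw [sum_product]
  refine (sum_le_card_nsmul _ _ _ h1).trans ?_
  have h2 : ((disc 1).card : ℝ) ≤ 9 := by exact_mod_cast card_disc_le 1
  have h3 : 0 ≤ Js z := sum_nonneg fun S _ => prod_nonneg fun p _ => hh_nonneg p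
  rw [nsmul_eq_mul]
  nlinarith

lemma Js_ge {z : ℕ} (hz : 1 ≤ z) : Real.log (z / 2) / 2700 ≤ Js z := by
  set m := (z / 2).sqrt with hm
  have h1 : m * m ≤ z / 2 := Nat.sqrt_le _
  have h2 : z / 2 < (m + 1) * (m + 1) := Nat.lt_succ_sqrt _
  have h3 : 2 * m ^ 2 ≤ z := by rw [sq]; omega
  have h4 : z ≤ 2 * ((m + 1) * (m + 1)) := by omega
  have h5 : (z : ℝ) / 2 ≤ ((m : ℝ) + 1) ^ 2 := by
    have : (z : ℝ) ≤ 2 * (((m : ℝ) + 1) * (m + 1)) := by exact_mod_cast h4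
    nlinarith
  have h6 : Real.log (z / 2) ≤ 2 * Real.log (m + 1) := by
    have h0 : (0 : ℝ) < z := by exact_mod_cast hz
    have := Real.log_le_log (by positivity) h5
    rwa [Real.log_pow] at this
  have h7 := sum_inv_nm_ge m
  have h8 : ∑ a ∈ disc (2 * m ^ 2), (nm a : ℝ)⁻¹ ≤ ∑ a ∈ disc z, (nm a : ℝ)⁻¹ :=
    sum_le_sum_of_subset_of_nonneg (disc_mono h3) fun _ _ _ => by positivity
  have h9 := sum_inv_nm_le z
  linarith

end Pool.Agent.P.MP_a1177c_nt.MR.Selb
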