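import Pool.Agent.P.MP_a1177c_nt.MR.ExpLarge
import Pool.Agent.P.MP_a1177c_nt.MR.SelbergAux

namespace Pool.Agent.P.MP_a1177c_nt.MR

open Finset Filter
open scoped ArithmeticFunction.vonMangoldt ComplexConjugate

namespace Selb
open scoped Classical

lemma sum_chi_dvd (y : ℕ) {d : G} (hd : d ≠ 0) (j : ℤ) :
    ∑ a ∈ (disc y).filter (fun a => d ∣ a), chi j a = chi j d * ∑ b ∈ disc (y / nm d), chi j b := by
  rw [sum_disc_dvd y hd, mul_sum]
  exact sum_congr rfl fun b _ => chi_mul _ _ _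

lemma quot_ge {Y D : ℕ} (hD : 1 ≤ D) (h : D ^ 2 ≤ Y) : Y ≤ (2 * Y / D) ^ 2 := by
  set q := 2 * Y / D with hq
  have h1 : 2 * Y < D * (q + 1) := Nat.lt_mul_div_succ _ hD
  have h2 : D ≤ Y := le_trans (Nat.le_self_pow (by norm_num) D) h
  have h3 : Y ≤ D * q := by rw [mul_add] at h1; omega
  have h4 : Y * Y ≤ Y * q ^ 2 := by
    calc Y * Y ≤ (D * q) * (D * q) := Nat.mul_le_mul h3 h3
      _ = D ^ 2 * q ^ 2 := by ring
      _ ≤ Y * q ^ 2 := Nat.mul_le_mul_right _ h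
  exact Nat.le_of_mul_le_mul_left h4 (by omega)

/-- sums of characters over multiples of `d` -/
lemma multiples (A : ℕ) : ∃ c C : ℝ, 0 < c ∧ c ≤ 1 ∧ 0 < C ∧ ∀ (Y : ℕ) (d : G) (j : ℤ), d ≠ 0 →
    nm d ^ 2 ≤ Y → (j : ℝ) ^ 2 ≤ (Y : ℝ) ^ A →
    ‖∑ a ∈ (disc (2 * Y)).filter (fun a => d ∣ a), chi j a -
      (if j = 0 then ((Real.pi * (2 * Y) : ℝ) : ℂ) else 0) / nm d‖ ≤ C * (Y : ℝ) ^ (1 - c) := by
  obtain ⟨c, C2, hc0, hc1, hC2, h2⟩ := expsum A
  obtain ⟨C1, hC1, h1⟩ := expsum_small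
  refine ⟨min c (1 / 3), 2 * C1 + 2 * C2 + 4, by positivity, (min_le_left _ _).trans hc1,
    by positivity, fun Y d j hd hY hj => ?_⟩
  have hD := nm_pos hd
  have hY1 : 1 ≤ Y := le_trans (Nat.one_le_pow _ _ hD) hY
  have hY1' : (1 : ℝ) ≤ Y := by exact_mod_cast hY1
  have hq := quot_ge hD hY
  set q := 2 * Y / nm d with hqd
  have hq1 : 1 ≤ q := by
    refine Nat.pos_of_ne_zero fun h => ?_
    rw [h] at hq
    omega
  have hq2 : (q : ℝ) ≤ 2 * Y := by exact_mod_cast Nat.div_le_self _ _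
  have hpow : ∀ t : ℝ, 0 ≤ t → t ≤ 1 - min c (1 / 3) →
      (q : ℝ) ^ t ≤ 2 * (Y : ℝ) ^ (1 - min c (1 / 3)) := by
    intro t ht ht'
    have h0 : 0 < min c (1 / 3) := by positivity
    calc (q : ℝ) ^ t ≤ (2 * Y : ℝ) ^ t := Real.rpow_le_rpow (by positivity) hq2 ht
      _ = 2 ^ t * (Y : ℝ) ^ t := Real.mul_rpow (by norm_num) (by positivity)
      _ ≤ 2 ^ (1 : ℝ) * (Y : ℝ) ^ (1 - min c (1 / 3)) := by
          gcongr
          · norm_num
          · linarith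
      _ = _ := by rw [Real.rpow_one]
  have hone : 1 ≤ (Y : ℝ) ^ (1 - min c (1 / 3)) :=
    Real.one_le_rpow hY1' (by have := min_le_right c (1 / 3); linarith)
  rw [sum_chi_dvd _ hd, ← hqd]
  by_cases hj0 : j = 0
  · subst hj0
    have h3 := h1 q 0 hq1
    simp only [if_true, chi_zero, one_mul, Int.cast_zero, abs_zero, add_zero] at h3 ⊢
    have h4 := hpow (2 / 3) (by norm_num) (by have := min_le_right c (1 / 3); linarith)
    have hDr : (0 : ℝ) < nm d := by exact_mod_cast hD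
    have h5 : ‖((Real.pi * q : ℝ) : ℂ) - ((Real.pi * (2 * Y) : ℝ) : ℂ) / nm d‖ ≤ 4 := by
      have e : ((Real.pi * q : ℝ) : ℂ) - ((Real.pi * (2 * Y) : ℝ) : ℂ) / nm d =
          ((Real.pi * (q - 2 * Y / nm d) : ℝ) : ℂ) := by push_cast; ring
      rw [e, Complex.norm_real, Real.norm_eq_abs, abs_mul, abs_of_pos Real.pi_pos]
      have h6 : (q : ℝ) ≤ 2 * Y / nm d := by
        have : ((2 * Y / nm d : ℕ) : ℝ) ≤ ((2 * Y : ℕ) : ℝ) / nm d := Nat.cast_div_le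
        push_cast at this
        exact this
      have h7 : (2 * Y : ℝ) / nm d ≤ q + 1 := by
        rw [div_le_iff₀ hDr]
        have : 2 * Y < nm d * (q + 1) := Nat.lt_mul_div_succ _ hD
        have : (2 * Y : ℝ) < nm d * (q + 1) := by exact_mod_cast this
        linarith
      have h8 : |(q : ℝ) - 2 * Y / nm d| ≤ 1 := by rw [abs_le]; constructor <;> linarith
      have := Real.pi_le_four
      have := Real.pi_pos
      nlinarith [abs_nonneg ((q : ℝ) - 2 * Y / nm d)]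
    refine (norm_sub_le_norm_sub_add_norm_sub _ ((Real.pi * q : ℝ) : ℂ) _).trans ?_
    nlinarith
  · simp only [hj0, if_false, zero_div, sub_zero, norm_mul, norm_chi j hd, one_mul]
    have h3 : |(j : ℝ)| ≤ (q : ℝ) ^ A := by
      refine abs_le_of_sq_le_sq' ?_ (by positivity) |> fun h => abs_le.2 h
      have h4 : (Y : ℝ) ≤ (q : ℝ) ^ 2 := by exact_mod_cast hq
      calc (j : ℝ) ^ 2 ≤ (Y : ℝ) ^ A := hj
        _ ≤ ((q : ℝ) ^ 2) ^ A := by gcongr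
        _ = ((q : ℝ) ^ A) ^ 2 := by ring
    refine (h2 q j hq1 hj0 h3).trans ?_
    have h4 := hpow (1 - c) (by linarith) (by have := min_le_left c (1 / 3); linarith)
    nlinarith

lemma eventually_small {δ K ε : ℝ} (hδ : 0 < δ) (hK : 0 < K) (hε : 0 < ε) :
    ∀ᶠ Y : ℕ in atTop, K * (Y : ℝ) ^ (1 - δ) ≤ ε * Y / Real.log Y := by
  have h := (isLittleO_log_rpow_atTop hδ).bound (show 0 < ε / K by positivity)
  filter_upwards [tendsto_natCast_atTop_atTop.eventually h, eventually_ge_atTop 2] with Y hY h2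
  have h2' : (2 : ℝ) ≤ Y := by exact_mod_cast h2
  have hl : 0 < Real.log Y := Real.log_pos (by linarith)
  rw [Real.norm_eq_abs, Real.norm_eq_abs, abs_of_pos hl, abs_of_pos (by positivity)] at hY
  rw [le_div_iff₀ hl]
  have e : (Y : ℝ) ^ (1 - δ) * (Y : ℝ) ^ δ = Y := by
    rw [← Real.rpow_add (by positivity)]; simp
  calc K * (Y : ℝ) ^ (1 - δ) * Real.log Y ≤ K * (Y : ℝ) ^ (1 - δ) * (ε / K * (Y : ℝ) ^ δ) := by
        gcongr
    _ = ε * ((Y : ℝ) ^ (1 - δ) * (Y : ℝ) ^ δ) := by field_simp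
    _ = ε * Y := by rw [e]

/-- the majorant -/
lemma majorant (A : ℕ) : ∃ C : ℝ, 0 < C ∧ ∀ ε : ℝ, 0 < ε → ∀ᶠ Y : ℕ in atTop, ∃ ν : G → ℝ,
    (∀ a, 0 ≤ ν a) ∧ (∀ p ∈ PS Y, ν (gp p) = 1) ∧
    ∑ a ∈ disc (2 * Y), ν a ≤ C * Y / Real.log Y ∧
    ∀ j : ℤ, j ≠ 0 → (j : ℝ) ^ 2 ≤ (Y : ℝ) ^ A →
      ‖∑ a ∈ disc (2 * Y), (ν a : ℂ) * chi j a‖ ≤ ε * Y / Real.log Y := by
  obtain ⟨c, C, hc0, hc1, hC, h⟩ := multiples A
  refine ⟨8 * 5400 / (c / 8) + 1, by positivity, fun ε hε => ?_⟩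
  have hbig : ∀ᶠ Y : ℕ in atTop, (4 : ℝ) ≤ (Y : ℝ) ^ (c / 16) :=
    ((tendsto_rpow_atTop (by positivity)).comp tendsto_natCast_atTop_atTop).eventually_ge_atTop 4
  filter_upwards [eventually_small (δ := c / 2) (K := 81 * C) (by positivity) (by positivity) hε,
    eventually_small (δ := c / 2) (K := 81 * C) (by positivity) (by positivity) one_pos,
    hbig, eventually_ge_atTop 2] with Y hs1 hs2 hb hY2
  have hY : (2 : ℝ) ≤ Y := by exact_mod_cast hY2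
  have hl : 0 < Real.log Y := Real.log_pos (by linarith)
  set z := ⌊(Y : ℝ) ^ (c / 8)⌋₊ with hz
  have e1 : (Y : ℝ) ^ (c / 8) = (Y : ℝ) ^ (c / 16) * (Y : ℝ) ^ (c / 16) := by
    rw [← Real.rpow_add (by positivity)]; ring_nf
  have hz1 : (z : ℝ) ≤ (Y : ℝ) ^ (c / 8) := Nat.floor_le (by positivity)
  have hz2 : (Y : ℝ) ^ (c / 8) < z + 1 := Nat.lt_floor_add_one _
  have hz3 : (Y : ℝ) ^ (c / 16) ≤ (z : ℝ) / 2 := by nlinarith
  have hz4 : 1 ≤ z := by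
    have : (1 : ℝ) ≤ z := by linarith
    exact_mod_cast this
  have hz5 : (z : ℝ) ^ 4 ≤ (Y : ℝ) ^ (c / 2) := by
    calc (z : ℝ) ^ 4 ≤ ((Y : ℝ) ^ (c / 8)) ^ 4 := by gcongr
      _ = (Y : ℝ) ^ (c / 2) := by
          rw [← Real.rpow_natCast, ← Real.rpow_mul (by positivity)]; ring_nf
  have hz6 : z ^ 4 ≤ Y := by
    have : (z : ℝ) ^ 4 ≤ Y := by
      calc _ ≤ (Y : ℝ) ^ (c / 2) := hz5
        _ ≤ (Y : ℝ) ^ (1 : ℝ) := Real.rpow_le_rpow_of_exponent_le (by linarith) (by linarith)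
        _ = Y := Real.rpow_one _
    exact_mod_cast this
  have hJ : c / 16 * Real.log Y / 2700 ≤ Js z := by
    refine le_trans ?_ (Js_ge hz4)
    rw [← Real.log_rpow (by positivity)]
    gcongr
  have key : ∀ j : ℤ, (j : ℝ) ^ 2 ≤ (Y : ℝ) ^ A →
      ‖∑ a ∈ disc (2 * Y), (nu z a : ℂ) * chi j a -
        (if j = 0 then ((Real.pi * (2 * Y) : ℝ) : ℂ) else 0) * mm z‖ ≤
        81 * C * (Y : ℝ) ^ (1 - c / 2) := by
    intro j hj
    refine (nu_sum hz4 (disc (2 * Y)) (chi j) _ (R := C * (Y : ℝ) ^ (1 - c)) (by positivity)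
      fun d hd hdz => h Y d j hd ?_ hj).trans ?_
    · calc nm d ^ 2 ≤ (z ^ 2) ^ 2 := Nat.pow_le_pow_left hdz 2
        _ = z ^ 4 := by ring
        _ ≤ Y := hz6
    · have e2 : (Y : ℝ) ^ (1 - c / 2) = (Y : ℝ) ^ (c / 2) * (Y : ℝ) ^ (1 - c) := by
        rw [← Real.rpow_add (by positivity)]; ring_nf
      rw [e2]
      calc 81 * (z : ℝ) ^ 4 * (C * (Y : ℝ) ^ (1 - c)) ≤
            81 * (Y : ℝ) ^ (c / 2) * (C * (Y : ℝ) ^ (1 - c)) := by gcongr
        _ = _ := by ring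
  refine ⟨nu z, nu_nonneg z, fun p hp => ?_, ?_, fun j hj0 hj => ?_⟩
  · obtain ⟨⟨h1, -⟩, h2, h3⟩ := mem_PS.1 hp
    refine nu_prime hz4 (by rwa [nm_gp h2 h3]) ?_
    rw [nm_gp h2 h3]
    exact lt_of_le_of_lt ((Nat.le_self_pow (by norm_num) z).trans hz6) h1
  · have h1 := key 0 (by simp)
    simp only [chi_zero, mul_one, if_true] at h1
    rw [← Complex.ofReal_sum, ← Complex.ofReal_mul, ← Complex.ofReal_sub, Complex.norm_real,
      Real.norm_eq_abs] at h1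
    have h2 := (abs_le.1 h1).2
    have h3 : mm z ≤ 1 / (c / 16 * Real.log Y / 2700) :=
      (mm_le hz4).trans (one_div_le_one_div_of_le (by positivity) hJ)
    have h4 : Real.pi * (2 * Y) * mm z ≤ 4 * (2 * Y) * (1 / (c / 16 * Real.log Y / 2700)) := by
      have := mm_nonneg z
      gcongr
      exact Real.pi_le_four
    have e3 : (8 * 5400 / (c / 8) + 1) * Y / Real.log Y =
        4 * (2 * Y) * (1 / (c / 16 * Real.log Y / 2700)) + 1 * Y / Real.log Y := by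
      field_simp; ring
    rw [e3]
    linarith
  · have h1 := key j hj
    simp only [hj0, if_false, zero_mul, sub_zero] at h1
    exact h1.trans hs1

/-- duality -/
lemma duality {Y : ℕ} (ν : G → ℝ) (h0 : ∀ a, 0 ≤ ν a) (h1 : ∀ p ∈ PS Y, ν (gp p) = 1)
    (U : Finset ℤ) {M E : ℝ} (hE0 : 0 ≤ E) (hM : ∑ a ∈ disc (2 * Y), ν a ≤ M)
    (hE : ∀ k ∈ U, ∀ l ∈ U, k ≠ l → ‖∑ a ∈ disc (2 * Y), (ν a : ℂ) * chi (k - l) a‖ ≤ E) :
    (∑ k ∈ U, ‖∑ p ∈ PS Y, chi k (gp p)‖) ^ 2 ≤ M * (U.card * M + (U.card : ℝ) ^ 2 * E) := by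
  have hb : ∀ k : ℤ, ∃ b : ℂ, ‖b‖ ≤ 1 ∧
      b * ∑ p ∈ PS Y, chi k (gp p) = ‖∑ p ∈ PS Y, chi k (gp p)‖ := fun k => by
    set Q := ∑ p ∈ PS Y, chi k (gp p)
    by_cases hQ : Q = 0
    · exact ⟨0, by simp, by simp [hQ]⟩
    · have h2 : (‖Q‖ : ℂ) ≠ 0 := by exact_mod_cast norm_ne_zero_iff.2 hQ
      refine ⟨‖Q‖ / Q, ?_, by field_simp⟩
      rw [norm_div, Complex.norm_real, norm_norm, div_self (norm_ne_zero_iff.2 hQ)]
  choose b hb1 hb2 using hb
  set W : G → ℂ := fun a => ∑ k ∈ U, b k * chi k a with hW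
  have hinj : Set.InjOn gp (PS Y) := fun p hp q hq h => by
    obtain ⟨-, h2, h3⟩ := mem_PS.1 hp
    obtain ⟨-, h2', h3'⟩ := mem_PS.1 hq
    rw [← nm_gp h2 h3, h, nm_gp h2' h3']
  have hsub : (PS Y).image gp ⊆ disc (2 * Y) := fun a ha => by
    obtain ⟨p, hp, rfl⟩ := mem_image.1 ha
    obtain ⟨⟨-, h4⟩, h2, h3⟩ := mem_PS.1 hp
    exact mem_disc.2 ⟨gp_ne_zero h2 h3, by rwa [nm_gp h2 h3]⟩
  have hmaj : ∀ f : G → ℝ, (∀ a, 0 ≤ f a) →
      ∑ p ∈ PS Y, f (gp p) ≤ ∑ a ∈ disc (2 * Y), ν a * f a := fun f hf => by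
    refine le_trans ?_ (sum_le_sum_of_subset_of_nonneg hsub fun a _ _ => mul_nonneg (h0 a) (hf a))
    rw [sum_image hinj]
    exact le_of_eq (sum_congr rfl fun p hp => by rw [h1 p hp, one_mul])
  have hM0 : 0 ≤ M := (sum_nonneg fun a _ => h0 a).trans hM
  have s1 : ∑ k ∈ U, ‖∑ p ∈ PS Y, chi k (gp p)‖ ≤ ∑ p ∈ PS Y, ‖W (gp p)‖ := by
    have e : ((∑ k ∈ U, ‖∑ p ∈ PS Y, chi k (gp p)‖ : ℝ) : ℂ) = ∑ p ∈ PS Y, W (gp p) := by
      simp only [Complex.ofReal_sum, ← hb2, mul_sum, hW]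
      exact sum_comm
    refine le_trans ?_ (norm_sum_le _ _)
    rw [← e, Complex.norm_real]
    exact le_abs_self _
  have s2 : ((PS Y).card : ℝ) ≤ M := by
    have := hmaj (fun _ => 1) fun _ => zero_le_one
    simp only [sum_const, nsmul_eq_mul, mul_one] at this
    exact this.trans hM
  have s3 : ∑ a ∈ disc (2 * Y), ν a * ‖W a‖ ^ 2 ≤ U.card * M + (U.card : ℝ) ^ 2 * E := by
    have e : ((∑ a ∈ disc (2 * Y), ν a * ‖W a‖ ^ 2 : ℝ) : ℂ) =
        ∑ k ∈ U, ∑ l ∈ U, b k * conj (b l) *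
          ∑ a ∈ disc (2 * Y), (ν a : ℂ) * chi (k - l) a := by
      have e1 : ∀ a ∈ disc (2 * Y), ((ν a * ‖W a‖ ^ 2 : ℝ) : ℂ) =
          ∑ k ∈ U, ∑ l ∈ U, b k * conj (b l) * ((ν a : ℂ) * chi (k - l) a) := fun a ha => by
        push_cast
        rw [← Complex.mul_conj', hW]
        simp only [map_sum, map_mul]
        rw [sum_mul_sum]
        simp only [mul_sum]
        refine sum_congr rfl fun k _ => sum_congr rfl fun l _ => ?_
        rw [← chi_mul_conj k l (mem_disc.1 ha).1]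
        ring
      rw [Complex.ofReal_sum, sum_congr rfl e1, sum_comm]
      refine sum_congr rfl fun k _ => ?_
      rw [sum_comm]
      exact sum_congr rfl fun l _ => by rw [mul_sum]
    have h2 : ∀ k ∈ U, ∀ l ∈ U, ‖b k * conj (b l) *
        ∑ a ∈ disc (2 * Y), (ν a : ℂ) * chi (k - l) a‖ ≤ (if k = l then M else 0) + E := by
      intro k hk l hl
      have h3 : ‖b k * conj (b l)‖ ≤ 1 := by
        rw [norm_mul, Complex.norm_conj]
        exact mul_le_one₀ (hb1 k) (norm_nonneg _) (hb1 l)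
      rw [norm_mul]
      refine (mul_le_of_le_one_left (norm_nonneg _) h3).trans ?_
      split_ifs with hkl
      · subst hkl
        simp only [sub_self, chi_zero, mul_one]
        rw [← Complex.ofReal_sum, Complex.norm_real, Real.norm_eq_abs,
          abs_of_nonneg (sum_nonneg fun a _ => h0 a)]
        linarith
      · rw [zero_add]; exact hE k hk l hl hkl
    refine (le_abs_self _).trans ?_
    rw [← Real.norm_eq_abs, ← Complex.norm_real, e]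
    refine (norm_sum_le _ _).trans ((sum_le_card_nsmul _ _ (M + U.card * E)
      fun k hk => ?_).trans ?_)
    · refine (norm_sum_le _ _).trans ((sum_le_sum (h2 k hk)).trans ?_)
      rw [sum_add_distrib, sum_ite_eq, if_pos hk, sum_const, nsmul_eq_mul]
    · rw [nsmul_eq_mul]; exact le_of_eq (by ring)
  calc _ ≤ (∑ p ∈ PS Y, ‖W (gp p)‖) ^ 2 := by gcongr
    _ ≤ (PS Y).card * ∑ p ∈ PS Y, ‖W (gp p)‖ ^ 2 := sq_sum_le_card_mul_sum_sq
    _ ≤ M * (U.card * M + (U.card : ℝ) ^ 2 * E) := by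
        have := (hmaj (fun a => ‖W a‖ ^ 2) fun _ => sq_nonneg _).trans s3
        gcongr

end Selb

/-- Large values of prime polynomials (Halasz-Montgomery with a Selberg majorant). -/
theorem large_values_primes (A : ℕ) : ∃ C : ℝ, 0 < C ∧ ∀ η : ℝ, 0 < η →
    ∀ᶠ Y : ℕ in atTop, ∀ U : Finset ℤ,
      (∀ k ∈ U, ∀ l ∈ U, ((k : ℝ) - l) ^ 2 ≤ (Y : ℝ) ^ A) →
      (∀ k ∈ U, η * Y / Real.log Y ≤ ‖∑ p ∈ PS Y, chi k (gp p)‖) →
      (U.card : ℝ) ≤ C / η ^ 2 := by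
  obtain ⟨C, hC, h⟩ := Selb.majorant A
  refine ⟨2 * C ^ 2, by positivity, fun η hη => ?_⟩
  filter_upwards [h (η ^ 2 / (2 * C)) (by positivity), eventually_ge_atTop 2] with Y hY hY2 U hU hQ
  obtain ⟨ν, h0, h1, hM, hE⟩ := hY
  have hY : (2 : ℝ) ≤ Y := by exact_mod_cast hY2
  have hl : 0 < Real.log Y := Real.log_pos (by linarith)
  have hd := Selb.duality ν h0 h1 U (E := η ^ 2 / (2 * C) * Y / Real.log Y) (by positivity) hM
    fun k hk l hl hkl => hE (k - l) (sub_ne_zero.2 hkl) (by push_cast; exact hU k hk l hl)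
  have h2 : (U.card : ℝ) * (η * Y / Real.log Y) ≤ ∑ k ∈ U, ‖∑ p ∈ PS Y, chi k (gp p)‖ := by
    have := card_nsmul_le_sum _ _ _ hQ
    rwa [nsmul_eq_mul] at this
  simp only [mul_div_assoc] at hd h2
  set t := (Y : ℝ) / Real.log Y with ht
  have ht0 : 0 < t := by positivity
  set n : ℝ := (U.card : ℝ) with hn
  have hn0 : 0 ≤ n := Nat.cast_nonneg _
  have h3 : (n * (η * t)) ^ 2 ≤ C * t * (n * (C * t) + n ^ 2 * (η ^ 2 / (2 * C) * t)) :=
    le_trans (by gcongr) hd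
  have e : C * t * (n * (C * t) + n ^ 2 * (η ^ 2 / (2 * C) * t)) =
      t ^ 2 * (n * C ^ 2 + n ^ 2 * η ^ 2 / 2) := by field_simp
  rw [e, show (n * (η * t)) ^ 2 = t ^ 2 * (n ^ 2 * η ^ 2) by ring] at h3
  have h4 := le_of_mul_le_mul_left h3 (by positivity)
  rw [le_div_iff₀ (by positivity)]
  rcases hn0.eq_or_lt with h5 | h5
  · rw [← h5, zero_mul]; positivity
  · have : n * (n * η ^ 2) ≤ n * (2 * C ^ 2) := by nlinarith
    exact le_of_mul_le_mul_left this h5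

end Pool.Agent.P.MP_a1177c_nt.MR
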