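import Pool.Agent.P.MP_a1177c_nt.MR.Defs
import Pool.Agent.Lib.PNT.Main

namespace Pool.Agent.P.MP_a1177c_nt.MR

open Finset Filter
open scoped ArithmeticFunction.vonMangoldt

namespace StructAux

lemma ofFn_perm {n : ℕ} {S : Finset ℕ} (hS : ∀ p ∈ S, p.Prime ∧ p % 4 = 1) {z b : G}
    {t : Fin n → ℕ} (ht : ∀ i, t i ∈ S) (hb : ∀ p ∈ S, ¬ p ∣ nm b) (hb0 : b ≠ 0)
    (hz : (∏ i, gp (t i)) * b = z) :
    (List.ofFn t).Perm ((nm z).primeFactorsList.filter fun p => p ∈ S) := by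
  have h1 : nm z = (∏ i, t i) * nm b := by
    rw [← hz, nm_mul, nm_prod]
    congr 1
    exact prod_congr rfl fun i _ => nm_gp (hS _ (ht i)).1 (hS _ (ht i)).2
  have h0 : (∏ i, t i) ≠ 0 := prod_ne_zero_iff.2 fun i _ => (hS _ (ht i)).1.ne_zero
  have h2 : (List.ofFn t).Perm (∏ i, t i).primeFactorsList :=
    Nat.primeFactorsList_unique (List.prod_ofFn) (by
      intro p hp
      obtain ⟨i, rfl⟩ := List.mem_ofFn.1 hp
      exact (hS _ (ht i)).1)
  have h3 := (Nat.perm_primeFactorsList_mul h0 (nm_pos hb0).ne').trans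
    (h2.symm.append_right (nm b).primeFactorsList)
  rw [← h1] at h3
  have h4 := h3.filter fun p => p ∈ S
  have h5 : (List.ofFn t).filter (fun p => p ∈ S) = List.ofFn t := by
    refine List.filter_eq_self.2 fun p hp => ?_
    obtain ⟨i, rfl⟩ := List.mem_ofFn.1 hp
    simpa using ht i
  have h6 : (nm b).primeFactorsList.filter (fun p => p ∈ S) = [] :=
    List.filter_eq_nil_iff.2 fun p hp hpS =>
      hb p (by simpa using hpS) (Nat.dvd_of_mem_primeFactorsList hp)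
  rw [List.filter_append, h5, h6, List.append_nil] at h4
  exact h4.symm

lemma cont_dvd (a : G) : ((cont a : ℤ) : G) ∣ a :=
  (Zsqrtd.intCast_dvd _ _).2 ⟨Int.gcd_dvd_left _ _, Int.gcd_dvd_right _ _⟩

lemma dvd_cont {d : ℕ} {a : G} (h : ((d : ℤ) : G) ∣ a) : d ∣ cont a := by
  obtain ⟨h1, h2⟩ := (Zsqrtd.intCast_dvd _ _).1 h
  exact Int.dvd_gcd h1 h2

lemma cont_pos {a : G} (h : a ≠ 0) : 0 < cont a := (Zsqrtd.gcd_pos_iff a).2 h

lemma cont_mul_le {π g : G} (hp : (nm π).Prime) (hg : ¬ star π ∣ g) : cont (π * g) ≤ cont g := by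
  have hg0 : g ≠ 0 := fun h => hg (h ▸ dvd_zero _)
  have hπ : π ≠ 0 := fun h => hp.ne_zero (by simp [h])
  have hd := cont_dvd (π * g)
  set d := cont (π * g)
  have hc : Nat.Coprime d (nm π) := by
    rw [Nat.coprime_comm, hp.coprime_iff_not_dvd]
    intro h
    have h1 : ((nm π : ℕ) : G) ∣ π * g := by
      refine Dvd.dvd.trans ?_ hd
      rw [Int.cast_natCast]
      exact Nat.cast_dvd_cast h
    rw [← mul_star_eq] at h1
    exact hg ((mul_dvd_mul_iff_left hπ).1 h1)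
  have h2 : ((d : ℤ) : G) ∣ ((nm π : ℤ) : G) * g := by
    rw [Int.cast_natCast (nm π), ← mul_star_eq, mul_comm π, mul_assoc]
    exact hd.mul_left _
  obtain ⟨h3, h4⟩ := (Zsqrtd.intCast_dvd _ _).1 h2
  simp only [Zsqrtd.re_mul, Zsqrtd.im_mul, Zsqrtd.re_intCast, Zsqrtd.im_intCast, mul_zero,
    zero_mul, add_zero] at h3 h4
  have hc' : IsCoprime (d : ℤ) (nm π : ℤ) := Nat.isCoprime_iff_coprime.2 hc
  exact Nat.le_of_dvd (cont_pos hg0)
    (Int.dvd_gcd (hc'.dvd_of_dvd_mul_left h3) (hc'.dvd_of_dvd_mul_left h4))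

lemma not_star_dvd_self {π : G} (hp : (nm π).Prime) (h2 : nm π ≠ 2) : ¬ star π ∣ π := by
  intro h
  have hp' : Prime (nm π : ℤ) := Nat.prime_iff_prime_int.1 hp
  have key : ∀ x : ℤ, (nm π : ℤ) ∣ (2 * x) ^ 2 → (nm π : ℤ) ∣ x := by
    intro x hx
    rcases hp'.dvd_or_dvd (hp'.dvd_of_dvd_pow hx) with h1 | h1
    · exact absurd ((Nat.prime_dvd_prime_iff_eq hp Nat.prime_two).1 (by exact_mod_cast h1)) h2
    · exact h1
  have h1 : (nm π : ℤ) ∣ π.re := key _ (by
    have := Int.natCast_dvd_natCast.2 (nm_dvd (h.add (dvd_refl _)))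
    rw [nm_star, nm_int (π + star π)] at this
    convert this using 1
    simp; ring)
  have h3 : (nm π : ℤ) ∣ π.im := key _ (by
    have := Int.natCast_dvd_natCast.2 (nm_dvd (h.sub (dvd_refl _)))
    rw [nm_star, nm_int (π - star π)] at this
    convert this using 1
    simp; ring)
  have h4 : (nm π : ℤ) ^ 2 ∣ (nm π : ℤ) := by
    have := (pow_dvd_pow_of_dvd h1 2).add (pow_dvd_pow_of_dvd h3 2)
    rwa [← nm_int] at this
  have h5 : nm π ^ 2 ∣ nm π := by exact_mod_cast h4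
  have := Nat.le_of_dvd hp.pos h5
  nlinarith [hp.two_le]

lemma not_star_gp_dvd {p q : ℕ} (hp : p.Prime) (hp4 : p % 4 = 1) (hq : q.Prime) (hq4 : q % 4 = 1) :
    ¬ star (gp p) ∣ gp q := by
  intro h
  have h1 := nm_dvd h
  rw [nm_star, nm_gp hp hp4, nm_gp hq hq4] at h1
  obtain rfl := (Nat.prime_dvd_prime_iff_eq hp hq).1 h1
  refine not_star_dvd_self ?_ ?_ h <;> rw [nm_gp hp hp4]
  · exact hp
  · omega

lemma sum_log_PS (Y : ℕ) : ∑ p ∈ PS Y, Real.log p =
    Lib.PNT.thetaAP (1 : ZMod 4) ((2 * Y : ℕ) : ℝ) - Lib.PNT.thetaAP (1 : ZMod 4) (Y : ℝ) := by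
  simp only [Lib.PNT.thetaAP, Nat.floor_natCast]
  rw [eq_sub_iff_add_eq, ← sum_union]
  · refine sum_congr ?_ fun _ _ => rfl
    ext p
    have e : (p : ZMod 4) = 1 ↔ p % 4 = 1 := by
      rw [show (1 : ZMod 4) = ((1 : ℕ) : ZMod 4) by simp, ZMod.natCast_eq_natCast_iff']
    simp only [mem_union, mem_PS, mem_filter, mem_Icc, e]
    constructor
    · rintro (⟨h1, h2⟩ | ⟨h1, h2⟩)
      · exact ⟨by omega, h2⟩
      · exact ⟨by omega, h2⟩
    · rintro ⟨h1, h2⟩
      by_cases h : Y < p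
      · exact Or.inl ⟨by omega, h2⟩
      · exact Or.inr ⟨by omega, h2⟩
  · rw [disjoint_left]
    intro p h1 h2
    have := (mem_PS.1 h1).1
    have := mem_Icc.1 (mem_filter.1 h2).1
    omega

end StructAux

open StructAux

theorem fibre_le (n : ℕ) (S : Finset ℕ) (hS : ∀ p ∈ S, p.Prime ∧ p % 4 = 1) (z : G)
    (T : Finset ((Fin n → ℕ) × G))
    (hT : ∀ q ∈ T, (∀ i, q.1 i ∈ S) ∧ (∀ p ∈ S, ¬ p ∣ nm q.2) ∧ q.2 ≠ 0 ∧
      (∏ i, gp (q.1 i)) * q.2 = z) : T.card ≤ n.factorial := by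
  classical
  rcases T.eq_empty_or_nonempty with rfl | ⟨q0, hq0⟩
  · simp
  set L := (nm z).primeFactorsList.filter fun p => p ∈ S with hL
  have hP : ∀ q ∈ T, (List.ofFn q.1).Perm L := fun q hq =>
    ofFn_perm hS (hT q hq).1 (hT q hq).2.1 (hT q hq).2.2.1 (hT q hq).2.2.2
  have hn : L.length = n := by rw [← (hP q0 hq0).length_eq, List.length_ofFn]
  calc T.card ≤ L.permutations.toFinset.card := by
        refine card_le_card_of_injOn (fun q => List.ofFn q.1) (fun q hq => ?_) fun q hq r hr h => ?_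
        · simpa using hP q hq
        · have h1 : q.1 = r.1 := List.ofFn_injective h
          refine Prod.ext h1 ?_
          have h2 := (hT q hq).2.2.2
          rw [← (hT r hr).2.2.2, h1] at h2
          exact mul_left_cancel₀ (prod_ne_zero_iff.2 fun i _ =>
            gp_ne_zero (hS _ ((hT r hr).1 i)).1 (hS _ ((hT r hr).1 i)).2) h2
    _ ≤ L.permutations.length := List.toFinset_card_le _
    _ = n.factorial := by rw [List.length_permutations, hn]

theorem cont_prod_mul {ι : Type*} (s : Finset ι) (t : ι → ℕ)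
    (ht : ∀ i ∈ s, (t i).Prime ∧ t i % 4 = 1) (b : G) (hb : ∀ i ∈ s, ¬ t i ∣ nm b) :
    cont ((∏ i ∈ s, gp (t i)) * b) ≤ cont b := by
  classical
  induction s using Finset.induction_on with
  | empty => simp
  | insert i s hi ih =>
    obtain ⟨hp, hp4⟩ := ht i (mem_insert_self _ _)
    have hn := nm_gp hp hp4
    rw [prod_insert hi, mul_assoc]
    refine (cont_mul_le (by rwa [hn]) fun h => ?_).trans
      (ih (fun j hj => ht j (mem_insert_of_mem hj)) fun j hj => hb j (mem_insert_of_mem hj))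
    have hπ : Prime (star (gp (t i))) := prime_of_nm_prime (by rwa [nm_star, hn])
    rcases hπ.dvd_or_dvd h with h1 | h1
    · obtain ⟨j, hj, h2⟩ := (hπ.dvd_finsetProd_iff _).1 h1
      exact not_star_gp_dvd hp hp4 (ht j (mem_insert_of_mem hj)).1 (ht j (mem_insert_of_mem hj)).2 h2
    · have := nm_dvd h1
      rw [nm_star, hn] at this
      exact hb i (mem_insert_self _ _) this

lemma cont_one_add_I_mul (b : G) : cont ((⟨1, 1⟩ : G) * b) ≤ 2 * cont b := by
  rcases eq_or_ne b 0 with rfl | hb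
  · simp [cont]
  have h := (cont_dvd ((⟨1, 1⟩ : G) * b)).mul_left (⟨1, -1⟩ : G)
  rw [← mul_assoc, show (⟨1, -1⟩ : G) * ⟨1, 1⟩ = ((2 : ℤ) : G) by decide] at h
  have h1 := dvd_cont h
  have h2 : cont (((2 : ℤ) : G) * b) = 2 * cont b := by
    simp only [cont, Zsqrtd.re_mul, Zsqrtd.im_mul, Zsqrtd.re_intCast, Zsqrtd.im_intCast, mul_zero,
      zero_mul, add_zero, Int.gcd_mul_left]
    rfl
  rw [h2] at h1
  exact Nat.le_of_dvd (by have := cont_pos hb; omega) h1

theorem card_PS_lower : ∀ᶠ Y : ℕ in atTop, (Y : ℝ) / (8 * Real.log Y) ≤ (PS Y).card := by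
  have h := Lib.PNT.thetaAP_tendsto (q := 4) (a := 1) isUnit_one
  rw [show ((Nat.totient 4 : ℕ) : ℝ)⁻¹ = 1 / 2 by
    rw [show Nat.totient 4 = 2 by decide]; norm_num] at h
  have h1 := (h.comp tendsto_natCast_atTop_atTop).eventually (gt_mem_nhds (show (1 / 2 : ℝ) < 7 / 12 by norm_num))
  have h2 := ((h.comp tendsto_natCast_atTop_atTop).comp
    (tendsto_id.const_mul_atTop' (show 0 < 2 by norm_num))).eventually
      (lt_mem_nhds (show (5 / 12 : ℝ) < 1 / 2 by norm_num))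
  filter_upwards [h1, h2, eventually_ge_atTop 2] with Y a1 a2 hY
  simp only [Function.comp, id] at a1 a2
  have hY' : (2 : ℝ) ≤ Y := by exact_mod_cast hY
  have hl : 0 < Real.log Y := Real.log_pos (by linarith)
  rw [div_lt_iff₀ (by linarith)] at a1
  rw [lt_div_iff₀ (by push_cast; linarith)] at a2
  have h3 : ∑ p ∈ PS Y, Real.log p ≤ (PS Y).card * (2 * Real.log Y) := by
    rw [← nsmul_eq_mul]
    refine sum_le_card_nsmul _ _ _ fun p hp => ?_
    obtain ⟨⟨h4, h5⟩, -⟩ := mem_PS.1 hp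
    have h6 : (p : ℝ) ≤ (Y : ℝ) ^ 2 := by
      have : p ≤ Y ^ 2 := by nlinarith
      exact_mod_cast this
    have := Real.log_le_log (by have : 0 < p := by omega
                                exact_mod_cast this) h6
    simpa using this
  rw [sum_log_PS] at h3
  rw [div_le_iff₀ (by positivity)]
  push_cast at a2 h3
  nlinarith

theorem card_PS_upper {Y : ℕ} (hY : 2 ≤ Y) : ((PS Y).card : ℝ) ≤ 3 * Y / Real.log Y := by
  have hY' : (2 : ℝ) ≤ Y := by exact_mod_cast hY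
  have hl : 0 < Real.log Y := Real.log_pos (by linarith)
  rw [le_div_iff₀ hl]
  have h1 : ((PS Y).card : ℝ) * Real.log Y ≤ ∑ p ∈ PS Y, Real.log p := by
    rw [← nsmul_eq_mul]
    refine card_nsmul_le_sum _ _ _ fun p hp => Real.log_le_log (by linarith) ?_
    exact_mod_cast (mem_PS.1 hp).1.1.le
  have h2 : ∑ p ∈ PS Y, Real.log p ≤ Chebyshev.theta ((2 * Y : ℕ) : ℝ) := by
    rw [Chebyshev.theta, Nat.floor_natCast]
    refine sum_le_sum_of_subset_of_nonneg (fun p hp => ?_) fun p _ _ => Real.log_natCast_nonneg p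
    obtain ⟨⟨h4, h5⟩, h6, -⟩ := mem_PS.1 hp
    exact mem_filter.2 ⟨mem_Ioc.2 ⟨by omega, h5⟩, h6⟩
  have h3 := Chebyshev.theta_le_log4_mul_x (x := ((2 * Y : ℕ) : ℝ)) (by positivity)
  have h4 : Real.log 4 ≤ 3 / 2 := by
    rw [show (4 : ℝ) = 2 ^ 2 by norm_num, Real.log_pow]
    have := Real.log_two_lt_d9
    push_cast; linarith
  push_cast at h2 h3
  nlinarith

end Pool.Agent.P.MP_a1177c_nt.MR
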