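import Pool.Agent.P.MP_a1177c_nt.MR.Kernel
import Pool.Agent.P.MP_a1177c_nt.MR.Struct
import Pool.Agent.Lib.LargeSieve.Additive

/-!
Products of prime polynomials with a bilinear core: mean values, the three range split, and
the passage to unimodular pairs.
-/

namespace Pool.Agent.P.MP_a1177c_nt.MR

open Finset
open scoped ComplexConjugate

/-- The prime polynomial. -/
noncomputable def Q (Y : ℕ) (k : ℤ) : ℂ := ∑ p ∈ PS Y, chi k (gp p)

lemma norm_Q_le (Y : ℕ) (k : ℤ) : ‖Q Y k‖ ≤ (PS Y).card := by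
  refine (norm_sum_le _ _).trans ?_
  rw [card_eq_sum_ones, Nat.cast_sum]
  exact sum_le_sum fun p hp => by
    rw [norm_chi k (gp_ne_zero (mem_PS.1 hp).2.1 (mem_PS.1 hp).2.2)]; simp

/-- A weighted family of products of one prime and a cofactor. -/
structure Core {τ : Type*} (T : Finset τ) (π : τ → ℕ) (β : τ → G) (w : τ → ℝ) (S : Finset ℕ)
    (Z C₀ : ℝ) (D : ℕ) : Prop where
  hS : ∀ p ∈ S, p.Prime ∧ p % 4 = 1
  Z1 : 1 ≤ Z
  C1 : 1 ≤ C₀
  mem : ∀ t ∈ T, π t ∈ S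
  cop : ∀ t ∈ T, ∀ p ∈ S, ¬ p ∣ nm (β t)
  inj : ∀ t ∈ T, ∀ t' ∈ T, π t = π t' → β t = β t' → t = t'
  lo : ∀ t ∈ T, Z / C₀ ≤ π t * nm (β t)
  hi : ∀ t ∈ T, (π t * nm (β t) : ℝ) ≤ 2 * C₀ * Z
  co : ∀ t ∈ T, cont (β t) ≤ D
  w0 : ∀ t ∈ T, 0 ≤ w t ∧ w t ≤ 2

/-- The core polynomial. -/
noncomputable def Vp {τ : Type*} (T : Finset τ) (π : τ → ℕ) (β : τ → G) (w : τ → ℝ) (k : ℤ) : ℂ :=
  ∑ t ∈ T, ((w t * lam (β t) : ℝ) : ℂ) * chi k (gp (π t) * β t)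

/-- The primes of a tuple. -/
def tup {τ : Type*} {n : ℕ} (π : τ → ℕ) (q : (Fin n → ℕ) × τ) : Fin (n + 1) → ℕ :=
  Fin.cons (π q.2) q.1

/-- The Gaussian integer of a tuple. -/
noncomputable def gt {τ : Type*} {n : ℕ} (π : τ → ℕ) (β : τ → G) (q : (Fin n → ℕ) × τ) : G :=
  (∏ i, gp (tup π q i)) * β q.2

variable {τ : Type*} {T : Finset τ} {π : τ → ℕ} {β : τ → G} {w : τ → ℝ} {S : Finset ℕ}
  {Z C₀ : ℝ} {D : ℕ}

lemma gt_eq {n : ℕ} (q : (Fin n → ℕ) × τ) :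
    gt π β q = (∏ i, gp (q.1 i)) * (gp (π q.2) * β q.2) := by
  simp only [gt, tup, Fin.prod_univ_succ, Fin.cons_zero, Fin.cons_succ]; ring

lemma Core.ne (h : Core T π β w S Z C₀ D) {t : τ} (ht : t ∈ T) : β t ≠ 0 := fun h0 =>
  h.cop t ht _ (h.mem t ht) (by simp [h0])

lemma Core.fam (h : Core T π β w S Z C₀ D) {n : ℕ} (Y : Fin n → ℕ) (hY : ∀ i, 0 < Y i)
    (hYS : ∀ i, PS (Y i) ⊆ S) :
    Fam (Fintype.piFinset (fun i => PS (Y i)) ×ˢ T) (gt π β) ((∏ i, (Y i : ℝ)) * Z / C₀)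
      (2 ^ (n + 1) * C₀ * ((∏ i, (Y i : ℝ)) * Z)) D (n + 1).factorial := by
  classical
  have hZ := h.Z1
  have hC := h.C1
  have hP : (0 : ℝ) < ∏ i, (Y i : ℝ) := prod_pos fun i _ => by exact_mod_cast hY i
  have hm : ∀ q ∈ Fintype.piFinset (fun i => PS (Y i)) ×ˢ T, ∀ i, tup π q i ∈ S := fun q hq i => by
    obtain ⟨h1, h2⟩ := mem_product.1 hq
    refine Fin.cases ?_ (fun j => ?_) i
    · exact h.mem _ h2
    · exact hYS j (Fintype.mem_piFinset.1 h1 j)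
  have hn : ∀ q ∈ Fintype.piFinset (fun i => PS (Y i)) ×ˢ T,
      (nm (gt π β q) : ℝ) = (∏ i, (q.1 i : ℝ)) * (π q.2 * nm (β q.2)) := fun q hq => by
    obtain ⟨h1, h2⟩ := mem_product.1 hq
    have e := h.hS _ (h.mem _ h2)
    rw [gt_eq, nm_mul, nm_mul, nm_prod, nm_gp e.1 e.2, prod_congr rfl fun i _ =>
      nm_gp (h.hS _ (hYS i (Fintype.mem_piFinset.1 h1 i))).1
        (h.hS _ (hYS i (Fintype.mem_piFinset.1 h1 i))).2]
    push_cast; ring
  refine ⟨by positivity, fun q hq => ?_, fun q hq => ?_, fun q hq => ?_, fun z => ?_⟩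
  · obtain ⟨h1, h2⟩ := mem_product.1 hq
    rw [hn q hq, mul_div_assoc]
    refine mul_le_mul (prod_le_prod (fun i _ => by positivity) fun i _ => ?_) (h.lo _ h2)
      (by positivity) (by positivity)
    exact_mod_cast (mem_PS.1 (Fintype.mem_piFinset.1 h1 i)).1.1.le
  · obtain ⟨h1, h2⟩ := mem_product.1 hq
    have : ∏ i, (q.1 i : ℝ) ≤ 2 ^ n * ∏ i, (Y i : ℝ) := by
      refine (prod_le_prod (g := fun i => 2 * (Y i : ℝ)) (fun i _ => by positivity)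
        fun i _ => ?_).trans (by rw [prod_mul_distrib]; simp)
      exact_mod_cast (mem_PS.1 (Fintype.mem_piFinset.1 h1 i)).1.2
    rw [hn q hq]
    refine (mul_le_mul this (h.hi _ h2) (by positivity) (by positivity)).trans (le_of_eq ?_)
    ring
  · obtain ⟨h1, h2⟩ := mem_product.1 hq
    exact (cont_prod_mul univ (tup π q) (fun i _ => h.hS _ (hm q hq i)) _
      fun i _ => h.cop _ h2 _ (hm q hq i)).trans (h.co _ h2)
  · rw [← card_image_of_injOn (f := fun q => (tup π q, β q.2))]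
    · refine fibre_le (n + 1) S h.hS z _ fun r hr => ?_
      obtain ⟨q, hq, rfl⟩ := mem_image.1 hr
      obtain ⟨hq1, hq2⟩ := mem_filter.1 hq
      exact ⟨hm q hq1, h.cop _ (mem_product.1 hq1).2, h.ne (mem_product.1 hq1).2, hq2⟩
    · intro q hq r hr e
      obtain ⟨e1, e2⟩ := Prod.mk.inj e
      obtain ⟨e3, e4⟩ := Fin.cons_inj.1 e1
      exact Prod.ext e4 (h.inj _ (mem_product.1 (mem_filter.1 hq).1).2 _
        (mem_product.1 (mem_filter.1 hr).1).2 e3 e2)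

lemma sum_tuples {n : ℕ} (Y : Fin n → ℕ) (c : τ → ℂ) (k : ℤ) :
    ∑ q ∈ Fintype.piFinset (fun i => PS (Y i)) ×ˢ T, c q.2 * chi k (gt π β q) =
      (∏ i, Q (Y i) k) * ∑ t ∈ T, c t * chi k (gp (π t) * β t) := by
  simp only [Q, prod_univ_sum, sum_product, sum_mul_sum]
  refine sum_congr rfl fun x _ => sum_congr rfl fun t _ => ?_
  rw [gt_eq, chi_mul, chi_prod]; ring

lemma sum_tuples_real {n : ℕ} (Y : Fin n → ℕ) (c : τ → ℝ) :
    ∑ q ∈ Fintype.piFinset (fun i => PS (Y i)) ×ˢ T, c q.2 =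
      (∏ i, ((PS (Y i)).card : ℝ)) * ∑ t ∈ T, c t := by
  simp [sum_product, Fintype.card_piFinset]

lemma Core.mv (h : Core T π β w S Z C₀ D) (n : ℕ) {Y : ℕ} (hY : 0 < Y) (hYS : PS Y ⊆ S) {K : ℕ}
    (hK : (K : ℝ) ≤ Y ^ n * Z) :
    ∑ k ∈ Icc (-(K : ℤ)) K, ‖Q Y k ^ n * Vp T π β w k‖ ^ 2 ≤
      1080 * (n + 1).factorial * D * 4 ^ (n + 1) * C₀ ^ 2 * (Y ^ n * Z) *
        ((PS Y).card ^ n * ∑ t ∈ T, w t) := by
  have hZ := h.Z1
  have hC := h.C1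
  have hY' : (1 : ℝ) ≤ Y ^ n := one_le_pow₀ (by exact_mod_cast hY)
  have h2 : (1 : ℝ) ≤ 2 ^ (n + 1) := one_le_pow₀ (by norm_num)
  have F := h.fam (n := n) (fun _ => Y) (fun _ => hY) (fun _ => hYS)
  simp only [prod_const, card_univ, Fintype.card_fin] at F
  have hW : (1 : ℝ) ≤ Y ^ n * Z := one_le_mul_of_one_le_of_one_le hY' hZ
  have hA : (1 : ℝ) ≤ 2 ^ (n + 1) * C₀ := one_le_mul_of_one_le_of_one_le h2 hC
  have M := F.mean_value (one_le_mul_of_one_le_of_one_le hA hW) K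
    fun q => ((w q.2 * lam (β q.2) : ℝ) : ℂ)
  simp only [sum_tuples (fun _ : Fin n => Y) fun t => ((w t * lam (β t) : ℝ) : ℂ), prod_const,
    card_univ, Fintype.card_fin] at M
  refine M.trans ?_
  set W := (Y : ℝ) ^ n * Z
  have s1 : √(2 ^ (n + 1) * C₀ * W / (W / C₀)) ≤ 2 ^ (n + 1) * C₀ := by
    rw [Real.sqrt_le_left (by positivity), div_le_iff₀ (by positivity)]
    have : (2 ^ (n + 1) * C₀) ^ 2 * (W / C₀) = 2 ^ (n + 1) * (2 ^ (n + 1) * C₀ * W) := by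
      field_simp
    rw [this]
    exact le_mul_of_one_le_left (by positivity) h2
  have s2 : K + 2 ^ (n + 1) * C₀ * W ≤ 2 * (2 ^ (n + 1) * C₀ * W) := by
    have := le_mul_of_one_le_left (show 0 ≤ W by positivity) hA
    linarith
  have s3 : ∑ q ∈ Fintype.piFinset (fun _ : Fin n => PS Y) ×ˢ T,
      ‖((w q.2 * lam (β q.2) : ℝ) : ℂ)‖ ^ 2 ≤ 2 * ((PS Y).card ^ n * ∑ t ∈ T, w t) := by
    have e := sum_tuples_real (T := T) (fun _ : Fin n => Y) w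
    simp only [prod_const, card_univ, Fintype.card_fin] at e
    rw [← e, mul_sum]
    refine sum_le_sum fun q hq => ?_
    obtain ⟨a, b⟩ := h.w0 _ (mem_product.1 hq).2
    rw [Complex.norm_real, Real.norm_eq_abs, abs_mul, abs_lam, mul_one, sq_abs]
    nlinarith
  calc _ ≤ 270 * ((n + 1).factorial : ℝ) * D * (2 ^ (n + 1) * C₀) * (2 * (2 ^ (n + 1) * C₀ * W)) *
        (2 * ((PS Y).card ^ n * ∑ t ∈ T, w t)) := by gcongr
    _ = _ := by rw [show (4 : ℝ) = 2 * 2 by norm_num, mul_pow]; ring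

/-- The trivial core. -/
lemma core_triv {Y : ℕ} (hY : 0 < Y) :
    Core (PS Y) id (fun _ => 1) (fun _ => 1) (PS Y) Y 1 1 := by
  refine ⟨fun p hp => (mem_PS.1 hp).2, by exact_mod_cast hY, le_rfl, fun _ h => h,
    fun _ _ p hp => ?_, fun _ _ _ _ e _ => e, fun t ht => ?_, fun t ht => ?_,
    fun _ _ => by simp [cont], fun _ _ => by norm_num⟩
  · simpa using (mem_PS.1 hp).2.1.ne_one
  · simpa using (mem_PS.1 ht).1.1.le
  · have : (t : ℝ) ≤ ((2 * Y : ℕ) : ℝ) := by exact_mod_cast (mem_PS.1 ht).1.2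
    simpa using this

/-- Large values of a short prime polynomial are rare. -/
lemma card_large {Y N : ℕ} (hY : 2 ≤ Y) (hYN : Y ≤ N) (hn : Y / (8 * Real.log Y) ≤ (PS Y).card)
    {α : ℝ} (hα : 0 < α) (hl : 64 * Real.log N ≤ (Y : ℝ) ^ α) (U : Finset ℤ)
    (hU : ∀ k ∈ U, k ∈ Icc (-(N : ℤ)) N ∧ (PS Y).card * (Y : ℝ) ^ (-(2 * α)) < ‖Q Y k‖) :
    (U.card : ℝ) ≤ 1080 * (N : ℝ) ^ (10 * α) := by
  have hY' : (2 : ℝ) ≤ Y := by exact_mod_cast hY
  have hYN' : (Y : ℝ) ≤ N := by exact_mod_cast hYN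
  have hL : 0 < Real.log Y := Real.log_pos (by linarith)
  set n := Nat.log Y N with hn'
  have h1 : (Y : ℝ) ^ n ≤ N := by exact_mod_cast Nat.pow_log_le_self Y (by omega : N ≠ 0)
  have h2 : (N : ℝ) ≤ Y ^ n * Y := by
    rw [← pow_succ]; exact_mod_cast (Nat.lt_pow_succ_log_self (by omega) N).le
  have M := (core_triv (by omega : 0 < Y)).mv n (by omega : 0 < Y) Subset.rfl h2
  have hV : ∀ k, Vp (PS Y) id (fun _ => 1) (fun _ => 1) k = Q Y k := fun k => by simp [Vp, Q]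
  simp only [hV, ← pow_succ, sum_const, nsmul_eq_mul, mul_one, Nat.cast_one, one_pow] at M
  set m : ℝ := ((PS Y).card : ℝ)
  have hm : 0 < m := lt_of_lt_of_le (by positivity) hn
  set σ := (Y : ℝ) ^ (-(2 * α)) with hσ
  have hσ0 : 0 < σ := by positivity
  have h3 : U.card * ((m * σ) ^ (n + 1)) ^ 2 ≤ ∑ k ∈ Icc (-(N : ℤ)) N, ‖Q Y k ^ (n + 1)‖ ^ 2 := by
    rw [← nsmul_eq_mul]
    refine (card_nsmul_le_sum U (fun k => ‖Q Y k ^ (n + 1)‖ ^ 2) _ fun k hk => ?_).trans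
      (sum_le_sum_of_subset_of_nonneg (fun k hk => (hU k hk).1) fun _ _ _ => by positivity)
    rw [norm_pow]
    have := (hU k hk).2.le
    gcongr
  have h4 : ((n + 1).factorial : ℝ) ≤ ((n : ℝ) + 1) ^ (n + 1) := by
    exact_mod_cast Nat.factorial_le_pow (n + 1)
  have h5 : ((n : ℝ) + 1) * Real.log Y ≤ 2 * Real.log N := by
    have a := Real.log_le_log (by positivity) h1
    have b := Real.log_le_log (by positivity) hYN'
    rw [Real.log_pow] at a; linarith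
  have h6 : ((n : ℝ) + 1) * 4 * Y ≤ (Y : ℝ) ^ (5 * α) * (m * σ ^ 2) := by
    have e : (Y : ℝ) ^ (5 * α) * σ ^ 2 = (Y : ℝ) ^ α := by
      rw [hσ, ← Real.rpow_natCast, ← Real.rpow_mul (by positivity), ← Real.rpow_add (by positivity)]
      congr 1; push_cast; ring
    rw [div_le_iff₀ (by positivity)] at hn
    calc ((n : ℝ) + 1) * 4 * Y ≤ ((n : ℝ) + 1) * 4 * (m * (8 * Real.log Y)) := by gcongr
      _ = 32 * m * (((n : ℝ) + 1) * Real.log Y) := by ring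
      _ ≤ 32 * m * (2 * Real.log N) := by gcongr
      _ = m * (64 * Real.log N) := by ring
      _ ≤ m * (Y : ℝ) ^ α := by gcongr
      _ = _ := by rw [← e]; ring
  have h7 : ((Y : ℝ) ^ (5 * α)) ^ (n + 1) ≤ (N : ℝ) ^ (10 * α) := by
    rw [← Real.rpow_natCast, ← Real.rpow_mul (by positivity), mul_comm,
      Real.rpow_mul (by positivity), Real.rpow_natCast, show 10 * α = 2 * (5 * α) by ring,
      Real.rpow_mul (x := N) (by positivity)]
    refine Real.rpow_le_rpow (by positivity) ?_ (by positivity)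
    rw [pow_succ, Real.rpow_two, sq]
    gcongr
  refine le_of_mul_le_mul_right (h3.trans (M.trans ?_)) (by positivity)
  calc _ ≤ 1080 * ((n : ℝ) + 1) ^ (n + 1) * 4 ^ (n + 1) * Y ^ (n + 1) * m ^ (n + 1) := by gcongr
    _ = 1080 * (((n : ℝ) + 1) * 4 * Y) ^ (n + 1) * m ^ (n + 1) := by simp only [mul_pow]; ring
    _ ≤ 1080 * ((Y : ℝ) ^ (5 * α) * (m * σ ^ 2)) ^ (n + 1) * m ^ (n + 1) := by gcongr
    _ = 1080 * ((Y : ℝ) ^ (5 * α)) ^ (n + 1) * ((m * σ) ^ (n + 1)) ^ 2 := by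
      simp only [mul_pow]; ring
    _ ≤ _ := by gcongr

lemma split_pt {a b v n₁ n₂ u : ℝ} (ℓ : ℕ) (ha : 0 ≤ a) (hb : 0 ≤ b) (h1 : a ≤ n₁) (h2 : b ≤ n₂)
    (n1 : 0 < n₁) (hu : 0 < u) :
    (a * b * v) ^ 2 ≤ (n₁ * u) ^ 2 * (b * v) ^ 2 +
      n₁ ^ 2 * n₂ ^ 2 * u ^ (2 * ℓ) / n₁ ^ (2 * ℓ) * (a ^ ℓ * v) ^ 2 +
        n₁ ^ 2 * n₂ ^ 2 * if n₂ * u ^ (2 * ℓ) < b then v ^ 2 else 0 := by
  have p1 : 0 ≤ (n₁ * u) ^ 2 * (b * v) ^ 2 := by positivity
  have p2 : 0 ≤ n₁ ^ 2 * n₂ ^ 2 * u ^ (2 * ℓ) / n₁ ^ (2 * ℓ) * (a ^ ℓ * v) ^ 2 := by positivity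
  have hv : 0 ≤ v ^ 2 := by positivity
  split_ifs with c
  · have : (a * b * v) ^ 2 ≤ n₁ ^ 2 * n₂ ^ 2 * v ^ 2 := by
      rw [mul_pow, mul_pow]; gcongr
    linarith
  rcases le_total a (n₁ * u) with d | d
  · have : (a * b * v) ^ 2 ≤ (n₁ * u) ^ 2 * (b * v) ^ 2 := by
      rw [mul_assoc, mul_pow]; gcongr
    linarith
  · have : (a * b * v) ^ 2 ≤
        n₁ ^ 2 * n₂ ^ 2 * u ^ (2 * ℓ) / n₁ ^ (2 * ℓ) * (a ^ ℓ * v) ^ 2 := by
      calc (a * b * v) ^ 2 = a ^ 2 * b ^ 2 * v ^ 2 := by ring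
        _ ≤ n₁ ^ 2 * (n₂ * u ^ (2 * ℓ)) ^ 2 * v ^ 2 := by gcongr; exact not_lt.1 c
        _ = n₁ ^ 2 * n₂ ^ 2 * u ^ (2 * ℓ) / n₁ ^ (2 * ℓ) * (((n₁ * u) ^ ℓ) ^ 2 * v ^ 2) := by
          field_simp; ring
        _ ≤ n₁ ^ 2 * n₂ ^ 2 * u ^ (2 * ℓ) / n₁ ^ (2 * ℓ) * ((a ^ ℓ) ^ 2 * v ^ 2) := by gcongr
        _ = _ := by rw [mul_pow]
    linarith

/-- The three range split. -/
lemma Core.spectral (h : Core T π β w S Z C₀ D) {P ℓ K : ℕ} (hP : 2 ≤ P) (hℓ : 1 ≤ ℓ)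
    (S1 : PS P ⊆ S) (S2 : PS (P ^ ℓ) ⊆ S) (hK : (K : ℝ) ≤ P ^ ℓ * Z) {κ u : ℝ} (κ0 : 0 < κ)
    (κ1 : κ ≤ 1) (hD : 1 ≤ D) (hm : κ * Z ≤ ∑ t ∈ T, w t) (hu : 0 < u)
    (n1 : P / (8 * Real.log P) ≤ (PS P).card)
    (n2 : P ^ ℓ / (8 * (ℓ * Real.log P)) ≤ (PS (P ^ ℓ)).card)
    (hs : u ^ 2 * (8 * Real.log P) * ℓ *
      (8 * (1080 * (ℓ + 1).factorial * D * 4 ^ (ℓ + 1) * C₀ ^ 2)) ≤ κ)
    (hU : ∑ k ∈ ((Icc (-(K : ℤ)) K).erase 0).filter
      (fun k => (PS (P ^ ℓ)).card * u ^ (2 * ℓ) < ‖Q (P ^ ℓ) k‖), ‖Vp T π β w k‖ ^ 2 ≤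
        (∑ t ∈ T, w t) ^ 2 / 4) :
    ∑ k ∈ (Icc (-(K : ℤ)) K).erase 0, ‖Q P k * Q (P ^ ℓ) k * Vp T π β w k‖ ^ 2 ≤
      ((PS P).card * (PS (P ^ ℓ)).card * ∑ t ∈ T, w t) ^ 2 / 2 := by
  have hZ := h.Z1
  have hC := h.C1
  have hP' : (2 : ℝ) ≤ P := by exact_mod_cast hP
  have hℓ' : (1 : ℝ) ≤ ℓ := by exact_mod_cast hℓ
  have hD' : (1 : ℝ) ≤ D := by exact_mod_cast hD
  have hL : 0 < Real.log P := Real.log_pos (by linarith)
  have M1 := h.mv 1 (Y := P ^ ℓ) (by positivity) S2 (K := K) (by simpa using hK)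
  have M2 := h.mv ℓ (Y := P) (by omega) S1 hK
  simp only [pow_one, Nat.cast_pow] at M1
  set m := ∑ t ∈ T, w t
  set a : ℝ := ((PS P).card : ℝ)
  set b : ℝ := ((PS (P ^ ℓ)).card : ℝ)
  set L := 8 * Real.log P
  set B : ℝ := 1080 * (ℓ + 1).factorial * D * 4 ^ (ℓ + 1) * C₀ ^ 2 with hB
  set W := (P : ℝ) ^ ℓ
  have a0 : 0 < a := lt_of_lt_of_le (by positivity) n1
  have b0 : 0 < b := lt_of_lt_of_le (by positivity) n2
  have m0 : 0 < m := lt_of_lt_of_le (by positivity) hm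
  have hf : ((1 + 1).factorial : ℝ) ≤ (ℓ + 1).factorial := by
    exact_mod_cast Nat.factorial_le (by omega)
  have hB1 : 1080 * ((1 + 1).factorial : ℝ) * D * 4 ^ (1 + 1) * C₀ ^ 2 ≤ B := by
    rw [hB]; gcongr; norm_num
  have B1 : 1 ≤ B := le_trans (by
    have : (1 : ℝ) ≤ D * C₀ ^ 2 := one_le_mul_of_one_le_of_one_le hD' (one_le_pow₀ hC)
    norm_num [Nat.factorial]; nlinarith) hB1
  have M1' : ∑ k ∈ (Icc (-(K : ℤ)) K).erase 0, (‖Q (P ^ ℓ) k‖ * ‖Vp T π β w k‖) ^ 2 ≤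
      B * (W * Z) * (b * m) := by
    simp only [← norm_mul]
    refine (sum_le_sum_of_subset_of_nonneg (erase_subset _ _) fun _ _ _ => by positivity).trans
      (M1.trans ?_)
    gcongr
  have M2' : ∑ k ∈ (Icc (-(K : ℤ)) K).erase 0, (‖Q P k‖ ^ ℓ * ‖Vp T π β w k‖) ^ 2 ≤
      B * (W * Z) * (a ^ ℓ * m) := by
    simp only [← norm_pow, ← norm_mul]
    simp only [norm_pow]
    exact (sum_le_sum_of_subset_of_nonneg (erase_subset _ _) fun _ _ _ => by positivity).trans M2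
  have s0 : 0 ≤ u ^ 2 * L := by positivity
  have s1 : u ^ 2 * L * (8 * B) ≤ κ := le_trans
    (mul_le_mul_of_nonneg_right (le_mul_of_one_le_right s0 hℓ') (by positivity)) hs
  have s2 : u ^ 2 * L ≤ 1 := by nlinarith
  have t1 : 8 * B * u ^ 2 * (W * Z) ≤ b * m := by
    rw [div_le_iff₀ (by positivity)] at n2
    calc 8 * B * u ^ 2 * (W * Z) ≤ 8 * B * u ^ 2 * (b * (8 * (ℓ * Real.log P)) * Z) := by gcongr
      _ = b * ((u ^ 2 * L * ℓ * (8 * B)) * Z) := by simp only [L]; ring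
      _ ≤ b * (κ * Z) := by gcongr
      _ ≤ _ := by gcongr
  have t2 : 8 * B * u ^ (2 * ℓ) * (W * Z) ≤ a ^ ℓ * m := by
    rw [div_le_iff₀ (by positivity)] at n1
    calc 8 * B * u ^ (2 * ℓ) * (W * Z) ≤ 8 * B * u ^ (2 * ℓ) * ((a * L) ^ ℓ * Z) := by
          simp only [W]; gcongr
      _ = a ^ ℓ * (((u ^ 2 * L) ^ ℓ * (8 * B)) * Z) := by simp only [mul_pow, pow_mul]; ring
      _ ≤ a ^ ℓ * (((u ^ 2 * L) * (8 * B)) * Z) := by
          gcongr; exact pow_le_of_le_one s0 s2 (by omega)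
      _ ≤ a ^ ℓ * (κ * Z) := by gcongr
      _ ≤ _ := by gcongr
  simp only [norm_mul]
  refine (sum_le_sum fun k _ => split_pt ℓ (norm_nonneg _) (norm_nonneg _) (norm_Q_le P k)
    (norm_Q_le (P ^ ℓ) k) a0 hu).trans ?_
  rw [sum_add_distrib, sum_add_distrib, ← mul_sum, ← mul_sum, ← mul_sum, ← sum_filter]
  have e1 : (a * u) ^ 2 * (B * (W * Z) * (b * m)) ≤ (a * b * m) ^ 2 / 8 := by
    calc _ = a ^ 2 * (b * m) / 8 * (8 * B * u ^ 2 * (W * Z)) := by ring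
      _ ≤ a ^ 2 * (b * m) / 8 * (b * m) := by gcongr
      _ = _ := by ring
  have e2 : a ^ 2 * b ^ 2 * u ^ (2 * ℓ) / a ^ (2 * ℓ) * (B * (W * Z) * (a ^ ℓ * m)) ≤
      (a * b * m) ^ 2 / 8 := by
    calc _ = a ^ 2 * b ^ 2 * m / a ^ ℓ / 8 * (8 * B * u ^ (2 * ℓ) * (W * Z)) := by
          field_simp; ring
      _ ≤ a ^ 2 * b ^ 2 * m / a ^ ℓ / 8 * (a ^ ℓ * m) := by gcongr
      _ = _ := by field_simp
  calc _ ≤ (a * u) ^ 2 * (B * (W * Z) * (b * m)) +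
        a ^ 2 * b ^ 2 * u ^ (2 * ℓ) / a ^ (2 * ℓ) * (B * (W * Z) * (a ^ ℓ * m)) +
          a ^ 2 * b ^ 2 * (m ^ 2 / 4) := by gcongr
    _ ≤ (a * b * m) ^ 2 / 8 + (a * b * m) ^ 2 / 8 + a ^ 2 * b ^ 2 * (m ^ 2 / 4) := by gcongr
    _ = _ := by ring

lemma Fam.double {ι : Type*} {s : Finset ι} {g : ι → G} {X₀ X : ℝ} {μ : ℕ}
    (h : Fam s g X₀ X D μ) :
    Fam ((univ : Finset Bool) ×ˢ s) (fun q => (if q.1 then (⟨1, 1⟩ : G) else 1) * g q.2) X₀ (2 * X)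
      (2 * D) (2 * μ) := by
  classical
  have e : nm (⟨1, 1⟩ : G) = 2 := by decide
  refine ⟨h.pos, ?_, ?_, ?_, fun z => ?_⟩
  · rintro ⟨b, i⟩ hq
    have := h.lo i (mem_product.1 hq).2
    have := h.pos
    cases b <;> simp [nm_mul, e] <;> linarith
  · rintro ⟨b, i⟩ hq
    have := h.hi i (mem_product.1 hq).2
    have : (0 : ℝ) ≤ nm (g i) := by positivity
    cases b <;> simp [nm_mul, e] <;> linarith
  · rintro ⟨b, i⟩ hq
    have := h.co i (mem_product.1 hq).2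
    have := cont_one_add_I_mul (g i)
    cases b <;> simp <;> omega
  · rw [card_filter, sum_product, Fintype.sum_bool, ← card_filter, ← card_filter, two_mul]
    refine add_le_add ?_ (by simpa using h.fib z)
    rcases (s.filter fun i => (if true then (⟨1, 1⟩ : G) else 1) * g i = z).eq_empty_or_nonempty
      with h0 | ⟨j, hj⟩
    · rw [h0]; simp
    · refine (card_le_card fun i hi => ?_).trans (h.fib (g j))
      refine mem_filter.2 ⟨(mem_filter.1 hi).1, mul_left_cancel₀ (a := (⟨1, 1⟩ : G)) (by decide) ?_⟩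
      exact (mem_filter.1 hi).2.trans (mem_filter.1 hj).2.symm

/-- From a small mean square to unimodular pairs. -/
lemma Core.geom (h : Core T π β w S Z C₀ D) {P₁ P₂ K H : ℕ} (h1 : 0 < P₁) (h2 : 0 < P₂)
    (S1 : PS P₁ ⊆ S) (S2 : PS P₂ ⊆ S) (hD : 0 < D) (hK : 0 < K) (hH : 0 < H)
    (hup : ∑ k ∈ (Icc (-(K : ℤ)) K).erase 0, ‖Q P₁ k * Q P₂ k * Vp T π β w k‖ ^ 2 ≤
      ((PS P₁).card * (PS P₂).card * ∑ t ∈ T, w t) ^ 2 / 2)
    (hfar : 30720 * D * C₀ * (16 * C₀ * (P₁ * P₂ * Z)) ^ 2 ≤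
      K * H * (2 * ((PS P₁).card * (PS P₂).card * ∑ t ∈ T, w t))) :
    ∃ E : Finset (G × G),
      (∀ e ∈ E, BadEdge (P₁ * P₂ * Z / C₀ / (2 * D * H) ^ 2) (16 * C₀ * (P₁ * P₂ * Z)) e) ∧
      (2 * ((PS P₁).card * (PS P₂).card * ∑ t ∈ T, w t)) ^ 2 ≤
        1492992 * K * (2 * D * H) ^ 4 * E.card := by
  have hZ := h.Z1
  have hC := h.C1
  have hYS : ∀ i, PS (![P₁, P₂] i) ⊆ S := fun i => by fin_cases i <;> assumption
  have F0 := h.fam ![P₁, P₂] (fun i => by fin_cases i <;> assumption) hYS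
  have F := F0.double
  simp only [Fin.prod_univ_two, Matrix.cons_val_zero, Matrix.cons_val_one] at F
  have em : ∑ q ∈ (univ : Finset Bool) ×ˢ (Fintype.piFinset (fun i => PS (![P₁, P₂] i)) ×ˢ T),
      w q.2.2 = 2 * ((PS P₁).card * (PS P₂).card * ∑ t ∈ T, w t) := by
    rw [sum_product, Fintype.sum_bool]
    simp only [sum_tuples_real ![P₁, P₂] w, Fin.prod_univ_two, Matrix.cons_val_zero,
      Matrix.cons_val_one]
    ring
  have eX : 2 * (2 ^ (2 + 1) * C₀ * (P₁ * P₂ * Z)) = 16 * C₀ * (P₁ * P₂ * Z) := by ring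
  have hP₁ : (0 : ℝ) < P₁ := by exact_mod_cast h1
  have hP₂ : (0 : ℝ) < P₂ := by exact_mod_cast h2
  rw [eX, show 2 * ((Nat.succ 0).succ + 1).factorial = 12 from rfl] at F
  obtain ⟨E, hE, hc⟩ := F.geom (fun q => w q.2.2) (a₀ := 2)
    (fun q hq => h.w0 _ (mem_product.1 (mem_product.1 hq).2).2) hK hH (by omega) (by norm_num)
    (by
      have e1 : lam (⟨1, 1⟩ : G) = -1 := lam_of_prime (by decide)
      have key : ∀ k : ℤ, ∑ q ∈ (univ : Finset Bool) ×ˢ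
          (Fintype.piFinset (fun i => PS (![P₁, P₂] i)) ×ˢ T),
          ((w q.2.2 * lam ((if q.1 then (⟨1, 1⟩ : G) else 1) * gt π β q.2) : ℝ) : ℂ) *
            chi k ((if q.1 then (⟨1, 1⟩ : G) else 1) * gt π β q.2) =
          (chi k ⟨1, 1⟩ - 1) * (Q P₁ k * Q P₂ k * Vp T π β w k) := fun k => by
        have e := sum_tuples (T := T) (π := π) (β := β) ![P₁, P₂]
          (fun t => ((w t * lam (β t) : ℝ) : ℂ)) k
        simp only [Fin.prod_univ_two, Matrix.cons_val_zero, Matrix.cons_val_one] at e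
        rw [Vp, ← e, sum_product, Fintype.sum_bool, ← sum_add_distrib, mul_sum]
        refine sum_congr rfl fun q hq => ?_
        obtain ⟨q1, q2⟩ := mem_product.1 hq
        have a := h.hS _ (S1 (Fintype.mem_piFinset.1 q1 0))
        have b := h.hS _ (S2 (Fintype.mem_piFinset.1 q1 1))
        have c := h.hS _ (h.mem _ q2)
        have a' := gp_ne_zero a.1 a.2
        have b' := gp_ne_zero b.1 b.2
        have c' := gp_ne_zero c.1 c.2
        have d' := h.ne q2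
        have el : lam (gt π β q) = -lam (β q.2) := by
          rw [gt_eq, Fin.prod_univ_two, lam_mul (mul_ne_zero a' b') (mul_ne_zero c' d'),
            lam_mul a' b', lam_mul c' d', lam_gp a.1 a.2, lam_gp b.1 b.2, lam_gp c.1 c.2]
          ring
        simp only [if_true, Bool.false_eq_true, if_false, one_mul]
        rw [lam_mul (by decide) (F0.ne hq), chi_mul, e1, el]
        push_cast; ring
      simp only [key]
      rw [em, ← add_sum_erase _ _ (show (0 : ℤ) ∈ Icc (-(K : ℤ)) K by simp)]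
      have : ∑ k ∈ (Icc (-(K : ℤ)) K).erase 0,
          ‖(chi k ⟨1, 1⟩ - 1) * (Q P₁ k * Q P₂ k * Vp T π β w k)‖ ^ 2 ≤
          4 * ∑ k ∈ (Icc (-(K : ℤ)) K).erase 0, ‖Q P₁ k * Q P₂ k * Vp T π β w k‖ ^ 2 := by
        rw [mul_sum]
        refine sum_le_sum fun k _ => ?_
        have : ‖chi k ⟨1, 1⟩ - 1‖ ≤ 2 := (norm_sub_le _ _).trans (by
          rw [norm_chi k (by decide)]; norm_num)
        rw [norm_mul, mul_pow, show (4 : ℝ) = 2 ^ 2 by norm_num]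
        gcongr
      simp only [chi_zero, sub_self, zero_mul, norm_zero]
      linarith)
    (by
      have : √(16 * C₀ * (P₁ * P₂ * Z) / (P₁ * P₂ * Z / C₀)) = 4 * C₀ := by
        rw [Real.sqrt_eq_iff_mul_self_eq (by positivity) (by positivity)]; field_simp; norm_num
      rw [em, this]
      refine le_trans (le_of_eq ?_) hfar
      push_cast; ring)
  refine ⟨E, by simpa using hE, ?_⟩
  rw [em] at hc
  refine hc.trans (le_of_eq ?_)
  push_cast; ring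

/-- The exceptional frequencies, one dyadic range at a time. -/
lemma onU (U : Finset ℤ) (B : Finset G) (c : G → ℂ) {y : ℕ} (hB : B ⊆ disc y)
    (hc : ∀ b ∈ B, ‖c b‖ ≤ 2) {E : ℝ} (E0 : 0 ≤ E) (hE : ∀ k ∈ U, ∀ l ∈ U, k ≠ l →
      ‖∑ a ∈ disc y, chi (k - l) a‖ ≤ E) (hU : U.card * E ≤ y) (q : ℤ → ℂ) {s l n ρ : ℝ}
    (hl : ∀ k, ‖q k‖ ≤ l) (hn : ((U.filter fun k => s ≤ ‖q k‖).card : ℝ) ≤ n)
    (hρ : ∀ k ∈ U, ‖∑ b ∈ B, c b * chi k b‖ ≤ ρ) :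
    ∑ k ∈ U, ‖q k * ∑ b ∈ B, c b * chi k b‖ ^ 2 ≤ s ^ 2 * (360 * y ^ 2) + n * (l * ρ) ^ 2 := by
  classical
  have hd : ((disc y).card : ℝ) ≤ 9 * y := by exact_mod_cast card_disc_le y
  have H := Lib.LargeSieve.halasz U (disc y) (fun k a => chi k a) (fun a => if a ∈ B then c a else 0)
    (10 * y) (by positivity) fun k hk => by
      rw [← add_sum_erase _ _ hk]
      have a : ‖∑ m ∈ disc y, chi k m * conj (chi k m)‖ ≤ 9 * y := by
        rw [sum_congr rfl fun m hm => chi_mul_conj k k (mem_disc.1 hm).1]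
        simpa using hd
      have b : ∑ l ∈ U.erase k, ‖∑ m ∈ disc y, chi k m * conj (chi l m)‖ ≤ U.card * E := by
        refine (sum_le_card_nsmul _ _ E fun l hl => ?_).trans ?_
        · rw [sum_congr rfl fun m hm => chi_mul_conj k l (mem_disc.1 hm).1]
          exact hE k hk l (mem_of_mem_erase hl) (ne_of_mem_erase hl).symm
        · rw [nsmul_eq_mul]; gcongr; exact erase_subset _ _
      linarith
  have e : ∀ k, ∑ m ∈ disc y, (if m ∈ B then c m else 0) * chi k m = ∑ b ∈ B, c b * chi k b :=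
    fun k => by simp only [ite_mul, zero_mul, sum_ite_mem, inter_eq_right.2 hB]
  have h4 : ∑ m ∈ disc y, ‖if m ∈ B then c m else 0‖ ^ 2 ≤ 36 * y := by
    refine (sum_le_card_nsmul _ _ 4 fun m _ => ?_).trans (by rw [nsmul_eq_mul]; linarith)
    split_ifs with h
    · have := hc m h; have := norm_nonneg (c m); nlinarith
    · simp
  simp only [e] at H
  have H' : ∑ k ∈ U, ‖∑ b ∈ B, c b * chi k b‖ ^ 2 ≤ 360 * y ^ 2 :=
    H.trans ((mul_le_mul_of_nonneg_left h4 (by positivity)).trans (le_of_eq (by ring)))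
  calc _ ≤ ∑ k ∈ U, (s ^ 2 * ‖∑ b ∈ B, c b * chi k b‖ ^ 2 +
        if s ≤ ‖q k‖ then (l * ρ) ^ 2 else 0) := by
        refine sum_le_sum fun k hk => ?_
        rw [norm_mul]
        split_ifs with h
        · have := hl k
          have := hρ k hk
          have : (‖q k‖ * ‖∑ b ∈ B, c b * chi k b‖) ^ 2 ≤ (l * ρ) ^ 2 := by
            gcongr; exact (norm_nonneg _).trans (hl k)
          exact this.trans (le_add_of_nonneg_left (by positivity))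
        · rw [mul_pow, add_zero]; gcongr; exact (not_le.1 h).le
    _ ≤ _ := by
        rw [sum_add_distrib, ← mul_sum, ← sum_filter, sum_const, nsmul_eq_mul]
        gcongr

end Pool.Agent.P.MP_a1177c_nt.MR
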