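import Pool.Agent.P.MP_a1177c_nt.MR.Euler

namespace Pool.Agent.P.MP_a1177c_nt.MR

open Finset Filter
open scoped ArithmeticFunction.vonMangoldt

open Classical in
/-- The cofactors at logarithmic scale `x`. -/
noncomputable def Bset (x C₀ : ℝ) (D : ℕ) (S : Finset ℕ) : Finset G :=
  (disc ⌊C₀ * Real.exp x⌋₊).filter fun b =>
    Real.exp x / C₀ ≤ nm b ∧ cont b ≤ D ∧ ∀ p ∈ S, ¬ p ∣ nm b

/-- The weight of a cofactor. -/
noncomputable def om (x : ℝ) (b : G) : ℝ := Real.exp x * gw x (nm b)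

lemma om_nonneg (x : ℝ) (b : G) : 0 ≤ om x b := by
  unfold om gw; positivity

lemma om_le_two (x : ℝ) (b : G) : om x b ≤ 2 := by
  unfold om gw
  rcases Nat.eq_zero_or_pos (nm b) with h | h
  · simp [h]
  have hn : (0 : ℝ) < nm b := by exact_mod_cast h
  have e : Real.exp x * (Real.exp (-(x - Real.log (nm b)) ^ 2) / nm b) =
      Real.exp (x - Real.log (nm b) - (x - Real.log (nm b)) ^ 2) := by
    rw [sub_eq_add_neg (x - Real.log (nm b)), Real.exp_add, Real.exp_sub, Real.exp_log hn]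
    ring
  rw [e]
  set u := x - Real.log (nm b)
  have h1 : u - u ^ 2 ≤ 1 / 4 := by nlinarith [sq_nonneg (u - 1 / 2)]
  have h2 : Real.exp (1 / 4) ≤ 2 := by
    have := Real.exp_bound_div_one_sub_of_interval' (x := 1 / 4) (by norm_num) (by norm_num)
    linarith
  exact (Real.exp_le_exp.2 h1).trans h2

namespace BetaAux

open Classical in
/-- The full window. -/
noncomputable def Wset (x C₀ : ℝ) : Finset G :=
  (disc ⌊C₀ * Real.exp x⌋₊).filter fun b => Real.exp x / C₀ ≤ nm b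

lemma norm_cf_le (g : G → ℂ) (hg : ∀ a, a ≠ 0 → ‖g a‖ ≤ 1) (n : ℕ) :
    ‖cf g n‖ ≤ ((shell n).card : ℝ) := by
  unfold cf
  calc ‖∑ a ∈ shell n, g a‖ ≤ ∑ a ∈ shell n, ‖g a‖ := norm_sum_le _ _
    _ ≤ ∑ a ∈ shell n, (1 : ℝ) := sum_le_sum fun a ha => hg a (mem_shell.1 ha).1
    _ = _ := by simp

lemma sum_card_shell_le (y : ℕ) : ∑ n ∈ range (y + 1), ((shell n).card : ℝ) ≤ 9 * y := by
  have h := sum_disc_eq y (fun _ => (1 : ℝ))
  simp only [sum_const, nsmul_eq_mul, mul_one] at h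
  rw [← h]
  exact_mod_cast card_disc_le y

lemma gw_le (x : ℝ) (n : ℕ) {l : ℝ} (hl : n ≠ 0 → l ≤ |x - Real.log n|) :
    gw x n ≤ Real.exp (4 - 3 * l) * (Real.exp (-|x - Real.log n|) / n) := by
  rcases Nat.eq_zero_or_pos n with h | h
  · simp [h, gw]
  have hl' := hl h.ne'
  unfold gw
  rw [← mul_div_assoc, ← Real.exp_add]
  refine div_le_div_of_nonneg_right (Real.exp_le_exp.2 ?_) (Nat.cast_nonneg _)
  set u := x - Real.log n
  rw [← sq_abs u]
  nlinarith [sq_nonneg (|u| - 2)]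

lemma gw_nonneg (x : ℝ) (n : ℕ) : 0 ≤ gw x n := by unfold gw; positivity

open Classical in
lemma tail_bound : ∃ C : ℝ, 0 < C ∧ ∀ (g : G → ℂ), (∀ a, a ≠ 0 → ‖g a‖ ≤ 1) →
    ∀ (x C₀ : ℝ), 1 ≤ C₀ →
    ‖∑' n : ℕ, cf g n * (gw x n : ℝ) -
      ∑ n ∈ (range (⌊C₀ * Real.exp x⌋₊ + 1)).filter (fun n : ℕ => Real.exp x / C₀ ≤ n),
        cf g n * (gw x n : ℝ)‖ ≤ C / C₀ ^ 3 := by
  obtain ⟨C, hC, H⟩ := local_sum_le
  refine ⟨Real.exp 4 * (C * 9), by positivity, fun g hg x C₀ hC₀ => ?_⟩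
  obtain ⟨hs, hb⟩ := H 9 (fun n => ((shell n).card : ℝ)) (fun n => Nat.cast_nonneg _)
    sum_card_shell_le x
  set h : ℕ → ℝ := fun n => ((shell n).card : ℝ) * (Real.exp (-|x - Real.log n|) / n) with hh
  set f : ℕ → ℂ := fun n => cf g n * (gw x n : ℝ) with hf
  set s := (range (⌊C₀ * Real.exp x⌋₊ + 1)).filter (fun n : ℕ => Real.exp x / C₀ ≤ n) with hsdef
  have hC0pos : 0 < C₀ := by linarith
  have hfb : ∀ (n : ℕ) (l : ℝ), (n ≠ 0 → l ≤ |x - Real.log n|) →
      ‖f n‖ ≤ Real.exp (4 - 3 * l) * h n := by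
    intro n l hl
    simp only [hf, hh, norm_mul, Complex.norm_real, Real.norm_eq_abs,
      abs_of_nonneg (gw_nonneg x n)]
    calc ‖cf g n‖ * gw x n
        ≤ ((shell n).card : ℝ) * (Real.exp (4 - 3 * l) * (Real.exp (-|x - Real.log n|) / n)) :=
          mul_le_mul (norm_cf_le g hg n) (gw_le x n hl) (gw_nonneg x n) (Nat.cast_nonneg _)
      _ = _ := by ring
  have hfs : Summable f :=
    Summable.of_norm_bounded (hs.mul_left (Real.exp (4 - 3 * 0)))
      (fun n => hfb n 0 fun _ => abs_nonneg _)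
  set f' : ℕ → ℂ := fun n => if n ∈ s then 0 else f n with hf'
  have hsplit : ∑' n, f n - ∑ n ∈ s, f n = ∑' n, f' n := by
    have h1 : HasSum (fun n => if n ∈ s then f n else 0) (∑ n ∈ s, f n) := by
      have := hasSum_sum_of_ne_finset_zero (f := fun n => if n ∈ s then f n else 0) (s := s)
        (L := SummationFilter.unconditional ℕ) (fun n hn => if_neg hn)
      rwa [sum_congr rfl (fun n hn => if_pos hn)] at this
    have h2 := hfs.hasSum.sub h1
    rw [← h2.tsum_eq]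
    refine tsum_congr fun n => ?_
    by_cases hn : n ∈ s <;> simp [hf', hn]
  rw [hsplit]
  have hexp : Real.exp (4 - 3 * Real.log C₀) = Real.exp 4 / C₀ ^ 3 := by
    rw [Real.exp_sub, show 3 * Real.log C₀ = Real.log (C₀ ^ 3) by rw [Real.log_pow]; norm_num,
      Real.exp_log (by positivity)]
  have hb' : ∀ n, ‖f' n‖ ≤ Real.exp (4 - 3 * Real.log C₀) * h n := by
    intro n
    by_cases hn : n ∈ s
    · simp only [hf', if_pos hn, norm_zero, hh]; positivity
    simp only [hf', if_neg hn]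
    refine hfb n _ fun h0 => ?_
    have hnpos : (0 : ℝ) < n := by exact_mod_cast Nat.pos_of_ne_zero h0
    simp only [hsdef, mem_filter, mem_range, not_and_or, not_lt, not_le] at hn
    rcases hn with hn | hn
    · have h1 : C₀ * Real.exp x < n := by
        have := Nat.lt_floor_add_one (C₀ * Real.exp x)
        have h2 : ((⌊C₀ * Real.exp x⌋₊ + 1 : ℕ) : ℝ) ≤ n := by exact_mod_cast hn
        push_cast at h2; linarith
      have h2 := Real.log_le_log (by positivity) h1.le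
      rw [Real.log_mul hC0pos.ne' (Real.exp_pos x).ne', Real.log_exp] at h2
      rw [abs_sub_comm]
      exact le_trans (by linarith) (le_abs_self _)
    · have h2 := Real.log_le_log hnpos hn.le
      rw [Real.log_div (Real.exp_pos x).ne' hC0pos.ne', Real.log_exp] at h2
      exact le_trans (by linarith) (le_abs_self _)
  have h3 := tsum_of_norm_bounded (hs.hasSum.mul_left (Real.exp (4 - 3 * Real.log C₀))) hb'
  refine h3.trans ?_
  rw [hexp, div_mul_eq_mul_div]
  gcongr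

open Classical in
lemma sum_Wset (g : G → ℂ) (x C₀ : ℝ) :
    ∑ b ∈ Wset x C₀, ((om x b : ℝ) : ℂ) * g b = (Real.exp x : ℝ) *
      ∑ n ∈ (range (⌊C₀ * Real.exp x⌋₊ + 1)).filter (fun n : ℕ => Real.exp x / C₀ ≤ n),
        cf g n * (gw x n : ℝ) := by
  rw [Wset, sum_filter, sum_disc_eq, sum_filter, mul_sum]
  refine sum_congr rfl fun n _ => ?_
  by_cases hn : Real.exp x / C₀ ≤ n
  · rw [if_pos hn, cf, sum_mul, mul_sum]
    refine sum_congr rfl fun a ha => ?_
    have := (mem_shell.1 ha).2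
    rw [this, if_pos hn, om, this]; push_cast; ring
  · rw [if_neg hn, mul_zero]
    refine sum_eq_zero fun a ha => ?_
    rw [(mem_shell.1 ha).2, if_neg hn]

lemma cont_dvd (b : G) : ((cont b : ℕ) : G) ∣ b := by
  have h : (((cont b : ℕ) : ℤ) : G) ∣ b :=
    (Zsqrtd.intCast_dvd _ _).2 ⟨Int.gcd_dvd_left .., Int.gcd_dvd_right ..⟩
  simpa using h

open Classical in
lemma card_cont_gt (Y D : ℕ) (hD : 1 ≤ D) :
    (((disc Y).filter fun b => D < cont b).card : ℝ) ≤ 9 * Y / D := by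
  have hDpos : (0 : ℝ) < D := by exact_mod_cast hD
  have hsub : (disc Y).filter (fun b => D < cont b) ⊆
      (Ioc D (D + Y)).biUnion fun d => (disc Y).filter fun b => ((d : ℕ) : G) ∣ b := by
    intro b hb
    obtain ⟨h1, h2⟩ := mem_filter.1 hb
    refine mem_biUnion.2 ⟨cont b, mem_Ioc.2 ⟨h2, ?_⟩, mem_filter.2 ⟨h1, cont_dvd b⟩⟩
    have h3 := nm_le_of_dvd (mem_disc.1 h1).1 (cont_dvd b)
    rw [nm_natCast] at h3
    have h4 := (mem_disc.1 h1).2
    nlinarith [Nat.zero_le D, Nat.le_self_pow (two_ne_zero) (cont b)]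
  calc (((disc Y).filter fun b => D < cont b).card : ℝ)
      ≤ ((∑ d ∈ Ioc D (D + Y), ((disc Y).filter fun b => ((d : ℕ) : G) ∣ b).card : ℕ) : ℝ) := by
        exact_mod_cast (card_le_card hsub).trans card_biUnion_le
    _ ≤ ∑ d ∈ Ioc D (D + Y), 9 * Y * (((d : ℝ)) ^ 2)⁻¹ := by
        push_cast
        refine sum_le_sum fun d hd => ?_
        have hd0 : ((d : ℕ) : G) ≠ 0 := by
          have : d ≠ 0 := by have := (mem_Ioc.1 hd).1; omega
          exact_mod_cast this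
        have := card_disc_dvd_le Y hd0
        rw [nm_natCast] at this
        push_cast at this
        rw [← div_eq_mul_inv]; exact this
    _ ≤ 9 * Y * (D : ℝ)⁻¹ := by
        rw [← mul_sum]
        refine mul_le_mul_of_nonneg_left ?_ (by positivity)
        have := sum_Ioc_inv_sq_le_sub (α := ℝ) (k := D) (n := D + Y) (by omega) (by omega)
        have h2 : (0 : ℝ) ≤ (((D + Y : ℕ) : ℝ))⁻¹ := by positivity
        linarith
    _ = _ := by rw [div_eq_mul_inv]

open Classical in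
lemma card_prime_dvd (Y p : ℕ) (hp : p.Prime) (h4 : p % 4 = 1) :
    (((disc Y).filter fun b => p ∣ nm b).card : ℝ) ≤ 18 * Y / p := by
  have hπ : Prime (gp p) := prime_of_nm_prime (by rw [nm_gp hp h4]; exact hp)
  have hsub : (disc Y).filter (fun b => p ∣ nm b) ⊆
      ((disc Y).filter fun b => gp p ∣ b) ∪ (disc Y).filter fun b => star (gp p) ∣ b := by
    intro b hb
    obtain ⟨h1, h2⟩ := mem_filter.1 hb
    have h3 : gp p ∣ b * star b := by
      rw [mul_star_eq]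
      have h5 : gp p ∣ ((p : ℕ) : G) := ⟨star (gp p), by rw [mul_star_eq, nm_gp hp h4]⟩
      exact h5.trans (Nat.cast_dvd_cast h2)
    rcases hπ.dvd_or_dvd h3 with h | h
    · exact mem_union_left _ (mem_filter.2 ⟨h1, h⟩)
    · refine mem_union_right _ (mem_filter.2 ⟨h1, ?_⟩)
      obtain ⟨c, hc⟩ := h
      refine ⟨star c, ?_⟩
      rw [← star_star b, hc, star_mul, mul_comm]
  have h1 := card_disc_dvd_le Y (gp_ne_zero hp h4)
  have h2 := card_disc_dvd_le Y (star_ne_zero.2 (gp_ne_zero hp h4))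
  rw [nm_star] at h2
  rw [nm_gp hp h4] at h1 h2
  have h3 : (((disc Y).filter fun b => p ∣ nm b).card : ℝ) ≤
      (((disc Y).filter fun b => gp p ∣ b).card : ℝ) +
        (((disc Y).filter fun b => star (gp p) ∣ b).card : ℝ) := by
    exact_mod_cast (card_le_card hsub).trans (card_union_le _ _)
  calc _ ≤ 9 * (Y : ℝ) / p + 9 * Y / p := by linarith
    _ = _ := by ring

lemma Bset_subset (x C₀ : ℝ) (D : ℕ) (S : Finset ℕ) : Bset x C₀ D S ⊆ Wset x C₀ := by
  intro b hb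
  simp only [Bset, Wset, mem_filter] at hb ⊢
  exact ⟨hb.1, hb.2.1⟩

open Classical in
lemma card_sdiff_le (x C₀ : ℝ) (hC₀ : 0 ≤ C₀) (D : ℕ) (hD : 1 ≤ D) (S : Finset ℕ)
    (hS : ∀ p ∈ S, p.Prime ∧ p % 4 = 1) :
    ((Wset x C₀ \ Bset x C₀ D S).card : ℝ) ≤
      C₀ * Real.exp x * (9 / D + 18 * ∑ p ∈ S, (1 : ℝ) / p) := by
  set Y := ⌊C₀ * Real.exp x⌋₊ with hY
  have hYle : (Y : ℝ) ≤ C₀ * Real.exp x := Nat.floor_le (by positivity)
  have hsub : Wset x C₀ \ Bset x C₀ D S ⊆ ((disc Y).filter fun b => D < cont b) ∪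
      S.biUnion fun p => (disc Y).filter fun b => p ∣ nm b := by
    intro b hb
    obtain ⟨hb1, h3⟩ := Finset.mem_sdiff.1 hb
    simp only [Bset, Wset, mem_filter, ← hY, not_and, not_forall, not_not] at hb1 h3
    obtain ⟨h1, h2⟩ := hb1
    by_cases hc : cont b ≤ D
    · obtain ⟨p, hp, hpb⟩ := h3 h1 h2 hc
      exact mem_union_right _ (mem_biUnion.2 ⟨p, hp, mem_filter.2 ⟨h1, hpb⟩⟩)
    · exact mem_union_left _ (mem_filter.2 ⟨h1, not_le.1 hc⟩)
  have h1 : ((Wset x C₀ \ Bset x C₀ D S).card : ℝ) ≤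
      (((disc Y).filter fun b => D < cont b).card : ℝ) +
        ∑ p ∈ S, (((disc Y).filter fun b => p ∣ nm b).card : ℝ) := by
    exact_mod_cast (card_le_card hsub).trans
      ((card_union_le _ _).trans (Nat.add_le_add_left card_biUnion_le _))
  have h2 := card_cont_gt Y D hD
  have h3 : ∑ p ∈ S, (((disc Y).filter fun b => p ∣ nm b).card : ℝ) ≤
      Y * (18 * ∑ p ∈ S, (1 : ℝ) / p) := by
    rw [mul_sum, mul_sum]
    refine sum_le_sum fun p hp => (card_prime_dvd Y p (hS p hp).1 (hS p hp).2).trans (le_of_eq ?_)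
    ring
  have h4 : 0 ≤ 9 / (D : ℝ) + 18 * ∑ p ∈ S, (1 : ℝ) / p := by positivity
  calc _ ≤ (Y : ℝ) * (9 / D + 18 * ∑ p ∈ S, (1 : ℝ) / p) := by
        rw [mul_add]
        have : 9 * (Y : ℝ) / D = Y * (9 / D) := by ring
        linarith
    _ ≤ _ := mul_le_mul_of_nonneg_right hYle h4

lemma mass_Wset (x C₀ : ℝ) (hx : 0 ≤ x) (hC₀ : 32 ≤ C₀) :
    Real.exp (-(Real.log 32) ^ 2) / 32 * Real.exp x ≤ ∑ b ∈ Wset x C₀, om x b := by
  classical
  set M := Real.exp x with hM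
  have hM1 : 1 ≤ M := Real.one_le_exp hx
  set s := ⌈√M⌉₊ with hs
  have hsq : √M ^ 2 = M := Real.sq_sqrt (by linarith)
  have hr1 : 1 ≤ √M := Real.one_le_sqrt.2 hM1
  have hs1 : √M ≤ s := Nat.le_ceil _
  have hs2 : (s : ℝ) ≤ 2 * √M := by
    have := (Nat.ceil_lt_add_one (a := √M) (by linarith)).le
    linarith
  set Q : Finset G := ((Ico (s : ℤ) (2 * s)) ×ˢ (Ico (s : ℤ) (2 * s))).image
    fun p => (⟨p.1, p.2⟩ : G) with hQ
  have hcard : (Q.card : ℝ) = (s : ℝ) ^ 2 := by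
    rw [hQ, card_image_of_injective _ (fun p q h => by
      simp only [Zsqrtd.mk.injEq] at h; exact Prod.ext h.1 h.2), card_product, Int.card_Ico]
    have : (2 * (s : ℤ) - s).toNat = s := by omega
    rw [this]; push_cast; ring
  have hmem : ∀ b ∈ Q, M ≤ nm b ∧ (nm b : ℝ) ≤ 32 * M := by
    intro b hb
    obtain ⟨p, hp, rfl⟩ := mem_image.1 hb
    simp only [mem_product, mem_Ico] at hp
    obtain ⟨⟨h1, h2⟩, h3, h4⟩ := hp
    have h1' : (s : ℝ) ≤ p.1 := by exact_mod_cast h1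
    have h2' : (p.1 : ℝ) ≤ 2 * s := by exact_mod_cast h2.le
    have h3' : (s : ℝ) ≤ p.2 := by exact_mod_cast h3
    have h4' : (p.2 : ℝ) ≤ 2 * s := by exact_mod_cast h4.le
    rw [nm_real]
    simp only
    constructor <;> nlinarith
  have hsub : Q ⊆ Wset x C₀ := by
    intro b hb
    obtain ⟨h1, h2⟩ := hmem b hb
    simp only [Wset, mem_filter, mem_disc, ← hM]
    refine ⟨⟨?_, ?_⟩, ?_⟩
    · rintro rfl
      simp at h1; linarith
    · refine Nat.le_floor (h2.trans ?_)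
      gcongr
    · exact (div_le_self (by linarith) (by linarith)).trans h1
  have hlow : ∀ b ∈ Q, Real.exp (-(Real.log 32) ^ 2) / 32 ≤ om x b := by
    intro b hb
    obtain ⟨h1, h2⟩ := hmem b hb
    have hn : (0 : ℝ) < nm b := by linarith
    have h3 : x ≤ Real.log (nm b) := by
      rw [Real.le_log_iff_exp_le hn]; exact h1
    have h4 : Real.log (nm b) ≤ Real.log 32 + x := by
      have := Real.log_le_log hn h2
      rwa [Real.log_mul (by norm_num) (by linarith), hM, Real.log_exp] at this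
    have h5 : Real.exp (-(Real.log 32) ^ 2) ≤ Real.exp (-(x - Real.log (nm b)) ^ 2) := by
      refine Real.exp_le_exp.2 ?_
      nlinarith
    unfold om gw
    rw [← hM, ← mul_div_assoc, div_le_div_iff₀ (by norm_num) hn]
    have h6 := Real.exp_pos (-(Real.log 32) ^ 2)
    nlinarith
  calc Real.exp (-(Real.log 32) ^ 2) / 32 * M
      ≤ Real.exp (-(Real.log 32) ^ 2) / 32 * Q.card := by
        refine mul_le_mul_of_nonneg_left ?_ (by positivity)
        rw [hcard]; nlinarith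
    _ = ∑ _b ∈ Q, Real.exp (-(Real.log 32) ^ 2) / 32 := by
        rw [sum_const, nsmul_eq_mul, mul_comm]
    _ ≤ ∑ b ∈ Q, om x b := sum_le_sum hlow
    _ ≤ _ := sum_le_sum_of_subset_of_nonneg hsub fun b _ _ => om_nonneg x b

end BetaAux

open BetaAux in
theorem beta_facts : ∃ c₀ : ℝ, 0 < c₀ ∧ ∀ c₂ : ℝ, 0 < c₂ → ∃ (C₀ : ℝ) (D : ℕ) (σ₀ : ℝ),
    1 ≤ C₀ ∧ 1 ≤ D ∧ 0 < σ₀ ∧ ∀ᶠ x : ℝ in atTop, ∀ S : Finset ℕ,
      (∀ p ∈ S, p.Prime ∧ p % 4 = 1) → ∑ p ∈ S, (1 : ℝ) / p ≤ σ₀ →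
      c₀ * Real.exp x ≤ ∑ b ∈ Bset x C₀ D S, om x b ∧
      ∀ k : ℤ, k ≠ 0 → |(k : ℝ)| ≤ Real.exp (2 * x) →
        ‖∑ b ∈ Bset x C₀ D S, ((om x b * lam b : ℝ) : ℂ) * chi k b‖ ≤ c₂ / C₀ * Real.exp x := by
  classical
  obtain ⟨C, hC, HT⟩ := tail_bound
  set m := Real.exp (-(Real.log 32) ^ 2) / 32 with hm
  have hm0 : 0 < m := by positivity
  refine ⟨m / 2, by positivity, fun c₂ hc₂ => ?_⟩
  set c := min c₂ (m / 2) with hc
  have hc0 : 0 < c := lt_min hc₂ (by positivity)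
  have hc1 : c ≤ c₂ := min_le_left _ _
  have hc2 : c ≤ m / 2 := min_le_right _ _
  set C₀ := max 32 (4 * C / c) with hC₀
  have h32 : 32 ≤ C₀ := le_max_left _ _
  have hCc : 4 * C / c ≤ C₀ := le_max_right _ _
  have hC0 : 0 < C₀ := by linarith
  set D := ⌈72 * C₀ ^ 2 / c⌉₊ + 1 with hD
  have hD1 : 72 * C₀ ^ 2 / c ≤ (D : ℝ) := by
    have := Nat.le_ceil (72 * C₀ ^ 2 / c)
    rw [hD]; push_cast; linarith
  have hDpos : (0 : ℝ) < D := by rw [hD]; positivity
  refine ⟨C₀, D, c / (144 * C₀ ^ 2), by linarith, by omega, by positivity, ?_⟩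
  filter_upwards [halasz (c / (4 * C₀)) (by positivity), eventually_ge_atTop (0 : ℝ)]
    with x hH hx S hS hσ
  have hM := Real.exp_pos x
  have hbad : 2 * ((Wset x C₀ \ Bset x C₀ D S).card : ℝ) ≤ c / (2 * C₀) * Real.exp x := by
    have h1 := card_sdiff_le x C₀ hC0.le D (by omega) S hS
    have h2 : 9 / (D : ℝ) ≤ c / (8 * C₀ ^ 2) := by
      rw [div_le_div_iff₀ hDpos (by positivity)]
      rw [div_le_iff₀ hc0] at hD1
      linarith
    have h3 : 9 / (D : ℝ) + 18 * ∑ p ∈ S, (1 : ℝ) / p ≤ c / (4 * C₀ ^ 2) := by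
      have : c / (4 * C₀ ^ 2) = c / (8 * C₀ ^ 2) + 18 * (c / (144 * C₀ ^ 2)) := by
        field_simp; ring
      rw [this]; linarith
    have h4 := mul_le_mul_of_nonneg_left h3 (show 0 ≤ C₀ * Real.exp x by positivity)
    have h5 : c / (2 * C₀) * Real.exp x = 2 * (C₀ * Real.exp x * (c / (4 * C₀ ^ 2))) := by
      field_simp; ring
    rw [h5]; linarith
  have hsub := Bset_subset x C₀ D S
  constructor
  · have h1 := mass_Wset x C₀ hx h32
    rw [← hm, ← sum_sdiff hsub] at h1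
    have h2 : ∑ b ∈ Wset x C₀ \ Bset x C₀ D S, om x b ≤
        2 * ((Wset x C₀ \ Bset x C₀ D S).card : ℝ) := by
      have := sum_le_card_nsmul (Wset x C₀ \ Bset x C₀ D S) (om x) 2 fun b _ => om_le_two x b
      rw [nsmul_eq_mul] at this; linarith
    have h3 : c / (2 * C₀) ≤ m / 2 := (div_le_self hc0.le (by linarith)).trans hc2
    have h4 := mul_le_mul_of_nonneg_right h3 hM.le
    linarith
  · intro k hk hkx
    set g : G → ℂ := fun a => (lam a : ℂ) * chi k a with hg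
    have hg1 : ∀ a, a ≠ 0 → ‖g a‖ ≤ 1 := fun a ha => by
      simp only [hg, norm_mul, norm_lam, norm_chi k ha, mul_one, le_refl]
    have h1 := hH k hk hkx
    have h2 := HT g hg1 x C₀ (by linarith)
    have h3 := sum_Wset g x C₀
    set A := ∑' n : ℕ, cf g n * (gw x n : ℝ)
    set B := ∑ n ∈ (range (⌊C₀ * Real.exp x⌋₊ + 1)).filter
      (fun n : ℕ => Real.exp x / C₀ ≤ n), cf g n * (gw x n : ℝ)
    have h4 : C / C₀ ^ 3 ≤ c / (4 * C₀) := by
      rw [div_le_iff₀ hc0] at hCc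
      rw [div_le_div_iff₀ (by positivity) (by positivity)]
      have : C₀ * c * C₀ ≤ c * C₀ ^ 3 := by
        have h : 0 ≤ c * C₀ ^ 2 * (C₀ - 1) := mul_nonneg (by positivity) (by linarith)
        nlinarith
      nlinarith
    have h5 : ‖B‖ ≤ c / (2 * C₀) := by
      have : B = A - (A - B) := by ring
      rw [this]
      refine (norm_sub_le _ _).trans ?_
      have e : c / (2 * C₀) = c / (4 * C₀) + c / (4 * C₀) := by field_simp; ring
      rw [e]; linarith
    have h6 : ‖∑ b ∈ Wset x C₀, ((om x b : ℝ) : ℂ) * g b‖ ≤ c / (2 * C₀) * Real.exp x := by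
      rw [h3, norm_mul, Complex.norm_real, Real.norm_eq_abs, abs_of_pos hM, mul_comm]
      exact mul_le_mul_of_nonneg_right h5 hM.le
    have h7 : ‖∑ b ∈ Wset x C₀ \ Bset x C₀ D S, ((om x b : ℝ) : ℂ) * g b‖ ≤
        2 * ((Wset x C₀ \ Bset x C₀ D S).card : ℝ) := by
      refine (norm_sum_le _ _).trans ?_
      have := sum_le_card_nsmul (Wset x C₀ \ Bset x C₀ D S)
        (fun b => ‖((om x b : ℝ) : ℂ) * g b‖) 2 fun b hb => by
          have hb0 : b ≠ 0 := by
            have := (mem_sdiff.1 hb).1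
            simp only [Wset, mem_filter, mem_disc] at this
            exact this.1.1
          rw [norm_mul, Complex.norm_real, Real.norm_eq_abs, abs_of_nonneg (om_nonneg x b)]
          have := mul_le_mul (om_le_two x b) (hg1 b hb0) (norm_nonneg _) (by norm_num)
          linarith
      rw [nsmul_eq_mul] at this; linarith
    have h8 : ∑ b ∈ Bset x C₀ D S, ((om x b * lam b : ℝ) : ℂ) * chi k b =
        ∑ b ∈ Wset x C₀, ((om x b : ℝ) : ℂ) * g b -
          ∑ b ∈ Wset x C₀ \ Bset x C₀ D S, ((om x b : ℝ) : ℂ) * g b := by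
      rw [← sum_sdiff hsub, add_sub_cancel_left]
      refine sum_congr rfl fun b _ => ?_
      simp only [hg]; push_cast; ring
    rw [h8]
    refine (norm_sub_le _ _).trans ?_
    have h9 : c / (2 * C₀) * Real.exp x + c / (2 * C₀) * Real.exp x ≤ c₂ / C₀ * Real.exp x := by
      have e : c / (2 * C₀) * Real.exp x + c / (2 * C₀) * Real.exp x = c / C₀ * Real.exp x := by
        field_simp; ring
      rw [e]; gcongr
    linarith

end Pool.Agent.P.MP_a1177c_nt.MR
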