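import Pool.Agent.P.MP_a1177c_nt.MR.Typical
import Pool.Agent.P.MP_a1177c_nt.MR.Line

namespace Pool.Agent.P.MP_a1177c_nt.MR

open Finset Filter
open scoped ArithmeticFunction.vonMangoldt

namespace Cnt

lemma card_match {α β : Type*} (S : Finset α) (T : Finset β) (f : α → ℕ) (g : β → ℕ)
    (I : Finset ℕ) (hI : ∀ x ∈ S, f x ∈ I) :
    ((S ×ˢ T).filter fun p => f p.1 = g p.2).card =
      ∑ i ∈ I, (S.filter fun x => f x = i).card * (T.filter fun y => g y = i).card := by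
  rw [card_eq_sum_card_fiberwise (f := fun p : α × β => f p.1) (t := I)
    fun p hp => hI _ (mem_product.1 (mem_filter.1 hp).1).1]
  refine sum_congr rfl fun i _ => ?_
  rw [← card_product]
  congr 1
  ext p
  simp only [mem_filter, mem_product]
  constructor
  · rintro ⟨⟨⟨h1, h2⟩, h3⟩, h4⟩
    exact ⟨⟨h1, h4⟩, h2, h3 ▸ h4⟩
  · rintro ⟨⟨h1, h4⟩, h2, h3⟩
    exact ⟨⟨⟨h1, h2⟩, h4.trans h3.symm⟩, h4⟩

lemma two_card_match_le {α β : Type*} (S : Finset α) (T : Finset β) (f : α → ℕ) (g : β → ℕ) :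
    2 * ((S ×ˢ T).filter fun p => f p.1 = g p.2).card ≤
      ((S ×ˢ S).filter fun p => f p.1 = f p.2).card +
        ((T ×ˢ T).filter fun p => g p.1 = g p.2).card := by
  have h1 : ∀ x ∈ S, f x ∈ S.image f ∪ T.image g := fun x hx =>
    mem_union_left _ (mem_image_of_mem _ hx)
  have h2 : ∀ x ∈ T, g x ∈ S.image f ∪ T.image g := fun x hx =>
    mem_union_right _ (mem_image_of_mem _ hx)
  rw [card_match S T f g _ h1, card_match S S f f _ h1, card_match T T g g _ h2, mul_sum,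
    ← sum_add_distrib]
  refine sum_le_sum fun i _ => ?_
  generalize (S.filter fun x => f x = i).card = a
  generalize (T.filter fun y => g y = i).card = b
  zify
  nlinarith [sq_nonneg ((a : ℤ) - b)]

open Classical in
/-- The divisors. -/
noncomputable def dv (a : G) : Finset G := (disc (nm a)).filter fun d => d ∣ a

lemma mem_dv {a d : G} (ha : a ≠ 0) : d ∈ dv a ↔ d ∣ a := by
  simp only [dv, mem_filter, mem_disc, and_iff_right_iff_imp]
  exact fun h => ⟨ne_zero_of_dvd_ne_zero ha h, nm_le_of_dvd ha h⟩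

lemma le_of_log_eq {w m n : ℕ} (hw : 2 ≤ w) (hn : n ≠ 0) (h : Nat.log w m = Nat.log w n) :
    m ≤ w * n := by
  have h1 := Nat.lt_pow_succ_log_self (b := w) hw m
  have h2 := Nat.pow_log_le_self w hn
  rw [h, pow_succ'] at h1
  exact h1.le.trans (Nat.mul_le_mul_left _ h2)

lemma log_le_succ {w m n : ℕ} (hw : 2 ≤ w) (hn : n ≠ 0) (h : m ≤ w * n) :
    Nat.log w m ≤ Nat.log w n + 1 := by
  rw [← Nat.log_mul_base hw hn, mul_comm]
  exact Nat.log_mono_right h

lemma self_le {w : ℕ} (hw : 2 ≤ w) {a : G} (ha : a ≠ 0) (k : ℕ) :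
    ((dv a ×ˢ dv a).filter fun p =>
      Nat.log w (nm p.1) + k = Nat.log w (nm p.2) + k).card ≤ Delta2 w a := by
  classical
  refine card_le_card fun p hp => ?_
  obtain ⟨h1, h2⟩ := mem_filter.1 hp
  obtain ⟨h3, h4⟩ := mem_product.1 h1
  have h5 := (mem_dv ha).1 h3
  have h6 := (mem_dv ha).1 h4
  have n1 := ne_zero_of_dvd_ne_zero ha h5
  have n2 := ne_zero_of_dvd_ne_zero ha h6
  have h7 : Nat.log w (nm p.1) = Nat.log w (nm p.2) := by omega
  simp only [mem_filter, mem_product, mem_disc]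
  exact ⟨⟨⟨n1, nm_le_of_dvd ha h5⟩, n2, nm_le_of_dvd ha h6⟩, h5, h6,
    le_of_log_eq hw (nm_pos n2).ne' h7, le_of_log_eq hw (nm_pos n1).ne' h7.symm⟩

lemma pairs_le {w : ℕ} (hw : 2 ≤ w) {a b : G} (ha : a ≠ 0) (hb : b ≠ 0) :
    2 * ((dv a ×ˢ dv b).filter fun p => nm p.1 ≤ w * nm p.2 ∧ nm p.2 ≤ w * nm p.1).card ≤
      3 * (Delta2 w a + Delta2 w b) := by
  classical
  have key : ∀ k l : ℕ, 2 * ((dv a ×ˢ dv b).filter fun p =>
      Nat.log w (nm p.1) + k = Nat.log w (nm p.2) + l).card ≤ Delta2 w a + Delta2 w b :=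
    fun k l => (two_card_match_le (dv a) (dv b) (fun x => Nat.log w (nm x) + k)
      (fun x => Nat.log w (nm x) + l)).trans (add_le_add (self_le hw ha k) (self_le hw hb l))
  have hsub : ((dv a ×ˢ dv b).filter fun p => nm p.1 ≤ w * nm p.2 ∧ nm p.2 ≤ w * nm p.1) ⊆
      (((dv a ×ˢ dv b).filter fun p => Nat.log w (nm p.1) + 0 = Nat.log w (nm p.2) + 0) ∪
      ((dv a ×ˢ dv b).filter fun p => Nat.log w (nm p.1) + 1 = Nat.log w (nm p.2) + 0)) ∪
      ((dv a ×ˢ dv b).filter fun p => Nat.log w (nm p.1) + 0 = Nat.log w (nm p.2) + 1) := by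
    intro p hp
    obtain ⟨h1, h2, h3⟩ := mem_filter.1 hp
    obtain ⟨h4, h5⟩ := mem_product.1 h1
    have n1 := ne_zero_of_dvd_ne_zero ha ((mem_dv ha).1 h4)
    have n2 := ne_zero_of_dvd_ne_zero hb ((mem_dv hb).1 h5)
    have h6 := log_le_succ hw (nm_pos n2).ne' h2
    have h7 := log_le_succ hw (nm_pos n1).ne' h3
    simp only [mem_union, mem_filter, h1, true_and]
    omega
  have h1 := (card_le_card hsub).trans ((card_union_le _ _).trans
    (add_le_add_left (card_union_le _ _) _))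
  have := key 0 0
  have := key 1 0
  have := key 0 1
  omega

lemma fibre_le {w : ℕ} (hw : 2 ≤ w) {α β : G} (hαβ : det α β = 1) (F : Finset (G × G))
    (hF : ∀ e ∈ F, det e.1 e.2 = 1 ∧ dot e.1 e.2 = dot α β ∧ nm e.1 ≤ w * nm α ∧
      nm α ≤ w * nm e.1) :
    2 * F.card ≤ 3 * (Delta2 w (star α) + Delta2 w β) := by
  have hα : α ≠ 0 := ne_zero_of_cont (cont_eq_one_of_det hαβ).1
  have hβ : β ≠ 0 := ne_zero_of_cont (cont_eq_one_of_det hαβ).2
  have hα' : star α ≠ 0 := star_ne_zero.2 hα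
  have hmul : ∀ e ∈ F, star e.1 * e.2 = star α * β := fun e he => by
    rw [star_mul_eq, star_mul_eq, (hF e he).1, (hF e he).2.1, hαβ]
  have hex : ∀ e ∈ F, ∃ p : G × G, ∃ q : G, star α = q * p.1 ∧ p.2 ∣ β ∧ star e.1 = q * p.2 := by
    intro e he
    obtain ⟨q, r, ⟨q', hq⟩, hr, h⟩ := exists_dvd_and_dvd_of_dvd_mul
      (show star e.1 ∣ star α * β from ⟨e.2, (hmul e he).symm⟩)
    exact ⟨(q', r), q, hq, hr, h⟩
  choose! φ q h1 h2 h3 using hex
  refine le_trans (Nat.mul_le_mul_left 2 (card_le_card_of_injOn φ (fun e he => ?_)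
    fun e he e' he' h => ?_)) (pairs_le hw hα' hβ)
  · have he : e ∈ F := he
    have e1 : nm α = nm (q e) * nm (φ e).1 := by rw [← nm_mul, ← h1 e he, nm_star]
    have e2 : nm e.1 = nm (q e) * nm (φ e).2 := by rw [← nm_mul, ← h3 e he, nm_star]
    have hq : 0 < nm (q e) := nm_pos (left_ne_zero_of_mul (h1 e he ▸ hα'))
    obtain ⟨-, -, a1, a2⟩ := hF e he
    rw [e1, e2, mul_left_comm] at a1 a2
    simp only [coe_filter, Set.mem_setOf_eq, mem_product, mem_dv hα', mem_dv hβ]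
    exact ⟨⟨Dvd.intro_left _ (h1 e he).symm, h2 e he⟩, Nat.le_of_mul_le_mul_left a2 hq,
      Nat.le_of_mul_le_mul_left a1 hq⟩
  · have he : e ∈ F := he
    have he' : e' ∈ F := he'
    have hp : (φ e).1 ≠ 0 := right_ne_zero_of_mul (h1 e he ▸ hα')
    have e1 : q e = q e' := mul_right_cancel₀ hp (by rw [← h1 e he, h, ← h1 e' he'])
    have e2 : star e.1 = star e'.1 := by rw [h3 e he, h3 e' he', e1, h]
    have hne : star e.1 ≠ 0 :=
      star_ne_zero.2 (ne_zero_of_cont (cont_eq_one_of_det (hF e he).1).1)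
    refine Prod.ext (star_injective e2) (mul_left_cancel₀ hne ?_)
    rw [hmul e he, e2, hmul e' he']

lemma card_le_of_fibres {α β : Type*} [DecidableEq β] (F : Finset α) (T : Finset β) (f : α → β)
    (hf : ∀ e ∈ F, f e ∈ T) {K : ℝ}
    (hK : ∀ b ∈ T, ((F.filter fun e => f e = b).card : ℝ) ≤ K) : (F.card : ℝ) ≤ T.card * K := by
  rw [card_eq_sum_card_fiberwise (f := f) (t := T) hf, ← nsmul_eq_mul]
  push_cast
  exact sum_le_card_nsmul _ _ _ hK

lemma partners {X R : ℝ} (hR : 1 ≤ R) {a : G} (ha : cont a = 1) (h1 : X / R ≤ nm a)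
    (h2 : (nm a : ℝ) ≤ X) (j : ℤ) (T : Finset G) (hT : ∀ b ∈ T, det a b = j ∧ (nm b : ℝ) ≤ X) :
    (T.card : ℝ) ≤ 5 * R := by
  have h0 := ne_zero_of_cont ha
  have hn : (0 : ℝ) < nm a := by exact_mod_cast nm_pos h0
  refine (line_count h0 h2 j T hT).trans ?_
  rw [ha, Nat.cast_one, mul_one]
  gcongr
  rw [Real.sqrt_le_left (by linarith), div_le_iff₀ hn]
  rw [div_le_iff₀ (by linarith)] at h1
  nlinarith [mul_nonneg hn.le (mul_nonneg (sub_nonneg.2 hR) (zero_le_one.trans hR))]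

lemma bad_le {X R : ℝ} (hR : 1 ≤ R) (E : Finset (G × G)) (T : Finset G) (f g : G × G → G)
    (u : G → G) (hinj : ∀ e e', f e = f e' → g e = g e' → e = e') (hu : Function.Injective u)
    (j : ℤ) (hE : ∀ e ∈ E, cont (f e) = 1 ∧ X / R ≤ nm (f e) ∧ (nm (f e) : ℝ) ≤ X ∧
      det (f e) (g e) = j ∧ (nm (g e) : ℝ) ≤ X ∧ u (f e) ∈ T) :
    (E.card : ℝ) ≤ T.card * (5 * R) := by
  classical
  refine card_le_of_fibres E T (fun e => u (f e)) (fun e he => (hE e he).2.2.2.2.2)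
    fun b _ => ?_
  rcases (E.filter fun e => u (f e) = b).eq_empty_or_nonempty with h | ⟨e0, he0⟩
  · rw [h, card_empty, Nat.cast_zero]; positivity
  have m0 := (mem_filter.1 he0).1
  have hfst : ∀ e ∈ E.filter fun e => u (f e) = b, f e = f e0 := fun e he =>
    hu ((mem_filter.1 he).2.trans (mem_filter.1 he0).2.symm)
  rw [← card_image_of_injOn (f := g) fun e he e' he' h =>
    hinj e e' ((hfst e he).trans (hfst e' he').symm) h]
  refine partners hR (hE e0 m0).1 (hE e0 m0).2.1 (hE e0 m0).2.2.1 j _ fun b hb => ?_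
  obtain ⟨e, he, rfl⟩ := mem_image.1 hb
  have m := (mem_filter.1 he).1
  exact ⟨hfst e he ▸ (hE e m).2.2.2.1, (hE e m).2.2.2.2.1⟩

lemma tendsto_rpow {a : ℝ} (ha : 0 < a) :
    Tendsto (fun X : ℕ => Real.log X ^ a) atTop atTop :=
  (tendsto_rpow_atTop ha).comp (Real.tendsto_log_atTop.comp tendsto_natCast_atTop_atTop)

end Cnt

open Cnt in
/-- Many unimodular pairs of comparable size give many different inner products. -/
theorem count_of_edges (ε : ℝ) (hε : 0 < ε) : ∃ θ : ℝ, 0 < θ ∧ ∀ᶠ X : ℕ in atTop,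
    ∀ E : Finset (G × G),
      (∀ e ∈ E, det e.1 e.2 = 1 ∧ X / Real.log X ^ θ ≤ nm e.1 ∧ nm e.1 ≤ X ∧
        X / Real.log X ^ θ ≤ nm e.2 ∧ nm e.2 ≤ X) →
      X / Real.log X ^ θ ≤ E.card →
      X / Real.log X ^ (Real.log 2 + ε) ≤ (E.image fun e => dot e.1 e.2).card := by
  classical
  obtain ⟨c, hc, hat⟩ := atypical (ε / 2) (half_pos hε)
  obtain ⟨θ, hθ, hθ1, hθ2, hθ3⟩ : ∃ θ : ℝ, 0 < θ ∧ θ ≤ c / 4 ∧ θ ≤ ε / 4 ∧ θ ≤ 1 / 2 :=
    ⟨min (c / 4) (min (ε / 4) (1 / 2)), by positivity, min_le_left _ _,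
      (min_le_right _ _).trans (min_le_left _ _), (min_le_right _ _).trans (min_le_right _ _)⟩
  refine ⟨θ, hθ, ?_⟩
  filter_upwards [hat, (tendsto_rpow hθ).eventually_ge_atTop 2,
    (tendsto_rpow (half_pos hc)).eventually_ge_atTop 20,
    (tendsto_rpow (show 0 < ε / 4 by positivity)).eventually_ge_atTop 6,
    (Real.tendsto_log_atTop.comp tendsto_natCast_atTop_atTop).eventually_ge_atTop 1]
    with X hat g1 g2 g3 hL E hE hcard
  change 1 ≤ Real.log X at hL
  set L := Real.log X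
  have hL0 : 0 < L := by linarith
  set R := L ^ θ with hR
  have hR0 : 0 < R := by linarith
  have hRR : R * R ≤ L := by
    rw [hR, ← Real.rpow_add hL0]
    exact (Real.rpow_le_rpow_of_exponent_le hL (by linarith)).trans (Real.rpow_one L).le
  set w := ⌈R⌉₊
  have hw1 : R ≤ w := Nat.le_ceil _
  have hw2 : 2 ≤ w := by exact_mod_cast g1.trans hw1
  have hw3 : (w : ℝ) ≤ L := by
    have := Nat.ceil_lt_add_one hR0.le
    nlinarith
  set B := L ^ (Real.log 2 + ε / 2) with hB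
  have hT := hat w (by omega) hw3
  obtain ⟨T, hT, hmem⟩ : ∃ T : Finset G, (T.card : ℝ) ≤ X / L ^ c ∧
      ∀ a, a ≠ 0 → nm a ≤ X → a ∉ T → (Delta2 w a : ℝ) ≤ B :=
    ⟨_, hT, fun a h1 h2 h3 => not_lt.1 fun h => h3 (mem_filter.2 ⟨mem_disc.2 ⟨h1, h2⟩, h⟩)⟩
  clear hat
  clear_value w
  have hX0 : (0 : ℝ) ≤ X := Nat.cast_nonneg X
  have hcont := fun e he => cont_eq_one_of_det (hE e he).1
  have b1 : ((E.filter fun e => star e.1 ∈ T).card : ℝ) ≤ T.card * (5 * R) := by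
    refine bad_le (X := X) (by linarith) _ T Prod.fst Prod.snd star
      (fun e e' h1 h2 => Prod.ext h1 h2) star_injective 1 fun e he => ?_
    obtain ⟨m, ht⟩ := mem_filter.1 he
    exact ⟨(hcont e m).1, (hE e m).2.1, by exact_mod_cast (hE e m).2.2.1, (hE e m).1,
      by exact_mod_cast (hE e m).2.2.2.2, ht⟩
  have b2 : ((E.filter fun e => e.2 ∈ T).card : ℝ) ≤ T.card * (5 * R) := by
    refine bad_le (X := X) (by linarith) _ T Prod.snd Prod.fst id
      (fun e e' h1 h2 => Prod.ext h2 h1) Function.injective_id (-1) fun e he => ?_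
    obtain ⟨m, ht⟩ := mem_filter.1 he
    refine ⟨(hcont e m).2, (hE e m).2.2.2.1, by exact_mod_cast (hE e m).2.2.2.2, ?_,
      by exact_mod_cast (hE e m).2.2.1, ht⟩
    have := (hE e m).1
    simp only [det] at this ⊢
    linarith
  have b3 : (T.card : ℝ) * (5 * R) ≤ X / R / 4 := by
    have h1 : R * R * 20 ≤ L ^ c := by
      calc R * R * 20 ≤ L ^ (c / 2) * L ^ (c / 2) := by
            gcongr
            rw [hR, ← Real.rpow_add hL0]
            exact Real.rpow_le_rpow_of_exponent_le hL (by linarith)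
        _ = L ^ c := by rw [← Real.rpow_add hL0, add_halves]
    calc (T.card : ℝ) * (5 * R) ≤ X / (R * R * 20) * (5 * R) := by
          gcongr
          exact hT.trans (by gcongr)
      _ = X / R / 4 := by field_simp; ring
  set E' := E.filter fun e => star e.1 ∉ T ∧ e.2 ∉ T
  have b4 : E.card ≤ (E.filter fun e => star e.1 ∈ T).card + (E.filter fun e => e.2 ∈ T).card +
      E'.card := by
    refine le_trans (card_le_card fun e he => ?_) ((card_union_le _ _).trans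
      (add_le_add_left (card_union_le _ _) _))
    simp only [mem_union, mem_filter, E', he, true_and]
    tauto
  have b5 : X / R / 2 ≤ E'.card := by
    have : (E.card : ℝ) ≤ _ := Nat.cast_le.2 b4
    push_cast at this
    linarith
  have hcmp : ∀ a b : G, X / R ≤ nm a → nm b ≤ X → nm b ≤ w * nm a := by
    intro a b h1 h2
    rw [div_le_iff₀ hR0] at h1
    have h3 : (nm b : ℝ) ≤ X := by exact_mod_cast h2
    have : (nm b : ℝ) ≤ w * nm a := by nlinarith [Nat.cast_nonneg (α := ℝ) (nm a)]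
    exact_mod_cast this
  have b6 : (E'.card : ℝ) ≤ (E.image fun e => dot e.1 e.2).card * (3 * B) := by
    refine card_le_of_fibres E' _ (fun e : G × G => dot e.1 e.2)
      (fun e he => mem_image_of_mem (fun e : G × G => dot e.1 e.2) (mem_filter.1 he).1)
      fun s _ => ?_
    rcases (E'.filter fun e => dot e.1 e.2 = s).eq_empty_or_nonempty with h | ⟨e0, he0⟩
    · rw [h, card_empty, Nat.cast_zero]; positivity
    obtain ⟨m0, t1, t2⟩ := mem_filter.1 (mem_filter.1 he0).1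
    have h1 := fibre_le hw2 (hE e0 m0).1 (E'.filter fun e => dot e.1 e.2 = s) fun e he => by
      have m := (mem_filter.1 (mem_filter.1 he).1).1
      exact ⟨(hE e m).1, (mem_filter.1 he).2.trans (mem_filter.1 he0).2.symm,
        hcmp _ _ (hE e0 m0).2.1 (hE e m).2.2.1, hcmp _ _ (hE e m).2.1 (hE e0 m0).2.2.1⟩
    have t3 := hmem _ (star_ne_zero.2 (ne_zero_of_cont (hcont e0 m0).1))
      (by rw [nm_star]; exact (hE e0 m0).2.2.1) t1
    have t4 := hmem _ (ne_zero_of_cont (hcont e0 m0).2) (hE e0 m0).2.2.2.2 t2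
    have h2 := (Nat.cast_le (α := ℝ)).2 h1
    push_cast at h2
    linarith
  have hB0 : 0 < B := by positivity
  have b7 : R * 6 * B ≤ L ^ (Real.log 2 + ε) := by
    calc R * 6 * B ≤ L ^ (ε / 4) * L ^ (ε / 4) * B := by
          gcongr
          exact Real.rpow_le_rpow_of_exponent_le hL hθ2
      _ = _ := by rw [hB, ← Real.rpow_add hL0, ← Real.rpow_add hL0]; congr 1; ring
  calc X / L ^ (Real.log 2 + ε) ≤ X / (R * 6 * B) := by gcongr
    _ = X / R / 2 / (3 * B) := by field_simp; ring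
    _ ≤ _ := by rw [div_le_iff₀ (by positivity)]; exact b5.trans b6

namespace Cnt

lemma image_le (X r : ℕ) (E : Finset (G × G))
    (hE : ∀ e ∈ E, det e.1 e.2 = 1 ∧ nm e.1 ≤ X ∧ nm e.2 ≤ X ∧ 1 ≤ dot e.1 e.2 ∧
      lam e.1 * lam e.2 = (-1) ^ r) :
    (E.image fun e => dot e.1 e.2).card ≤ ((Icc 1 X).filter fun n : ℕ =>
        ArithmeticFunction.cardFactors (n ^ 2 + 1) % 2 = r % 2).card := by
  refine le_trans (card_le_card fun s hs => ?_) (card_image_le (f := fun n : ℕ => (n : ℤ)))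
  obtain ⟨e, he, rfl⟩ := mem_image.1 hs
  obtain ⟨h1, h2, h3, h4, h5⟩ := hE e he
  have h6 := dot_sq_add_det_sq e.1 e.2
  obtain ⟨n, hn⟩ := Int.eq_ofNat_of_zero_le (zero_le_one.trans h4)
  rw [h1, hn] at h6
  have h7 : n ^ 2 + 1 = nm e.1 * nm e.2 := by exact_mod_cast h6
  refine mem_image.2 ⟨n, mem_filter.2 ⟨mem_Icc.2 ⟨by omega, ?_⟩, ?_⟩, hn.symm⟩
  · have := Nat.mul_le_mul h2 h3
    nlinarith
  · rw [← lam_mul (ne_zero_of_cont (cont_eq_one_of_det h1).1)
      (ne_zero_of_cont (cont_eq_one_of_det h1).2), lam, nm_mul, ← h7,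
      neg_one_pow_eq_pow_mod_two, neg_one_pow_eq_pow_mod_two r] at h5
    rcases Nat.mod_two_eq_zero_or_one r with h | h <;>
      rcases Nat.mod_two_eq_zero_or_one (ArithmeticFunction.cardFactors (n ^ 2 + 1)) with h' | h' <;>
      rw [h, h'] at h5 ⊢ <;> norm_num at h5

lemma nm_add_int (a b : G) : (nm (a + b) : ℤ) = nm a + nm b + 2 * dot a b := by
  simp only [nm_int, dot, Zsqrtd.re_add, Zsqrtd.im_add]
  ring

lemma nm_add_bounds {a b : G} {X : ℕ} (h : 0 ≤ dot a b) (ha : 4 * nm a ≤ X) (hb : 4 * nm b ≤ X) :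
    nm a ≤ nm (a + b) ∧ nm (a + b) ≤ X := by
  have h1 := nm_add_int a b
  have h2 : 2 * dot a b ≤ nm a + nm b := by
    simp only [nm_int, dot]
    nlinarith [sq_nonneg (a.re - b.re), sq_nonneg (a.im - b.im)]
  omega

lemma lam_aux {a b c : ℝ} (ha : a = 1 ∨ a = -1) (hb : b = 1 ∨ b = -1) (hc : c = 1 ∨ c = -1)
    (h1 : a ≠ b) (h2 : ¬ c = a) : c * b = 1 := by
  rcases ha with rfl | rfl <;> rcases hb with rfl | rfl <;> rcases hc with rfl | rfl <;> simp_all

lemma lam_aux' {a b : ℝ} (ha : a = 1 ∨ a = -1) (hb : b = 1 ∨ b = -1) (h1 : a ≠ b) :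
    a * b = -1 := by
  rcases ha with rfl | rfl <;> rcases hb with rfl | rfl <;> simp_all

lemma lam_mul_self (a : G) : lam a * lam a = 1 := by rcases lam_eq a with h | h <;> simp [h]

end Cnt

open Cnt in
/-- The final deduction from many unimodular pairs of opposite parity. -/
theorem final_of_bad_edges
    (h : ∀ θ : ℝ, 0 < θ → ∀ᶠ X : ℕ in atTop, ∃ E : Finset (G × G),
      (∀ e ∈ E, det e.1 e.2 = 1 ∧ 0 ≤ dot e.1 e.2 ∧ lam e.1 ≠ lam e.2 ∧
        X / Real.log X ^ θ ≤ nm e.1 ∧ 4 * nm e.1 ≤ X ∧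
        X / Real.log X ^ θ ≤ nm e.2 ∧ 4 * nm e.2 ≤ X) ∧
      2 * (X / Real.log X ^ θ) ≤ E.card)
    (r : ℕ) (ε : ℝ) (hε : 0 < ε) :
    ∀ᶠ x : ℕ in atTop, (x : ℝ) / Real.log x ^ (Real.log 2 + ε) ≤
      (((Icc 1 x).filter fun n : ℕ =>
        ArithmeticFunction.cardFactors (n ^ 2 + 1) % 2 = r % 2).card : ℝ) := by
  classical
  obtain ⟨θ, hθ, hc⟩ := count_of_edges ε hε
  filter_upwards [hc, h θ hθ] with X hc ⟨E, hE, hcard⟩
  have hY : (0 : ℝ) ≤ X / Real.log X ^ θ :=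
    div_nonneg (Nat.cast_nonneg _) (Real.rpow_nonneg (Real.log_natCast_nonneg X) _)
  set Y := X / Real.log X ^ θ
  have fin : ∀ F : Finset (G × G), (∀ e ∈ F, det e.1 e.2 = 1 ∧ Y ≤ nm e.1 ∧ nm e.1 ≤ X ∧
      Y ≤ nm e.2 ∧ nm e.2 ≤ X ∧ 1 ≤ dot e.1 e.2 ∧ lam e.1 * lam e.2 = (-1) ^ r) → Y ≤ F.card →
      (X : ℝ) / Real.log X ^ (Real.log 2 + ε) ≤ (((Icc 1 X).filter fun n : ℕ =>
        ArithmeticFunction.cardFactors (n ^ 2 + 1) % 2 = r % 2).card : ℝ) := by
    intro F hF hcF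
    refine (hc F (fun e he => ?_) hcF).trans (Nat.cast_le.2 (image_le X r F fun e he => ?_))
    · obtain ⟨a, b, c, d, e, -⟩ := hF e he
      exact ⟨a, b, c, d, e⟩
    · obtain ⟨a, -, c, -, e, f, g⟩ := hF e he
      exact ⟨a, c, e, f, g⟩
  rcases Nat.even_or_odd r with hr | hr
  · have hs := card_filter_add_card_filter_not (s := E) fun e => lam (e.1 + e.2) = lam e.1
    have hs' := congrArg (Nat.cast (R := ℝ)) hs
    push_cast at hs'
    rw [hr.neg_one_pow] at fin
    by_cases h1 : Y ≤ (E.filter fun e => lam (e.1 + e.2) = lam e.1).card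
    · refine fin ((E.filter fun e => lam (e.1 + e.2) = lam e.1).image fun e => (e.1, e.1 + e.2))
        (fun e' he' => ?_) ?_
      · obtain ⟨e, he, rfl⟩ := mem_image.1 he'
        obtain ⟨he, hl⟩ := mem_filter.1 he
        obtain ⟨a1, a2, -, a4, a5, -, a7⟩ := hE e he
        obtain ⟨c1, c2⟩ := nm_add_bounds a2 a5 a7
        have hp := nm_pos (ne_zero_of_cont (cont_eq_one_of_det a1).1)
        have hi := nm_int e.1
        refine ⟨?_, a4, by simp only; omega, a4.trans (Nat.cast_le.2 c1), c2, ?_, ?_⟩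
        · simp only [det, Zsqrtd.re_add, Zsqrtd.im_add] at a1 ⊢
          linarith
        · simp only [dot, Zsqrtd.re_add, Zsqrtd.im_add] at a2 ⊢
          have : (1 : ℤ) ≤ nm e.1 := by exact_mod_cast hp
          nlinarith
        · simp only [hl, lam_mul_self]
      · rwa [card_image_of_injective]
        intro e e' h
        obtain ⟨h1, h2⟩ := Prod.mk.inj h
        exact Prod.ext h1 (add_left_cancel (h1 ▸ h2))
    · refine fin ((E.filter fun e => ¬ lam (e.1 + e.2) = lam e.1).image fun e => (e.1 + e.2, e.2))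
        (fun e' he' => ?_) ?_
      · obtain ⟨e, he, rfl⟩ := mem_image.1 he'
        obtain ⟨he, hl⟩ := mem_filter.1 he
        obtain ⟨a1, a2, a3, a4, a5, a6, a7⟩ := hE e he
        obtain ⟨c1, c2⟩ := nm_add_bounds a2 a5 a7
        have hp := nm_pos (ne_zero_of_cont (cont_eq_one_of_det a1).2)
        have hi := nm_int e.2
        refine ⟨?_, a4.trans (Nat.cast_le.2 c1), c2, a6, by simp only; omega, ?_, ?_⟩
        · simp only [det, Zsqrtd.re_add, Zsqrtd.im_add] at a1 ⊢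
          linarith
        · simp only [dot, Zsqrtd.re_add, Zsqrtd.im_add] at a2 ⊢
          have : (1 : ℤ) ≤ nm e.2 := by exact_mod_cast hp
          nlinarith
        · exact lam_aux (lam_eq _) (lam_eq _) (lam_eq _) a3 hl
      · rw [card_image_of_injective]
        · linarith
        intro e e' h
        obtain ⟨h1, h2⟩ := Prod.mk.inj h
        exact Prod.ext (add_right_cancel (h2 ▸ h1)) h2
  · rw [hr.neg_one_pow] at fin
    refine fin E (fun e he => ?_) (by linarith)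
    obtain ⟨a1, a2, a3, a4, a5, a6, a7⟩ := hE e he
    refine ⟨a1, a4, by omega, a6, by omega, ?_, ?_⟩
    · by_contra h0
      have h1 : dot e.1 e.2 = 0 := by omega
      have h2 := dot_sq_add_det_sq e.1 e.2
      rw [h1, a1] at h2
      have h3 : nm e.1 * nm e.2 = 1 := by exact_mod_cast h2.symm
      exact a3 (lam_of_nm_eq ((Nat.eq_one_of_mul_eq_one_right h3).trans
        (Nat.eq_one_of_mul_eq_one_left h3).symm))
    · exact lam_aux' (lam_eq _) (lam_eq _) a3

end Pool.Agent.P.MP_a1177c_nt.MR
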