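import Mathlib

/-!
Definitions and basic facts for the sector mean value argument on the Gaussian integers.
-/

namespace Pool.Agent.P.MP_a1177c_nt.MR

open Finset
open scoped ComplexConjugate

abbrev G := GaussianInt

/-- The norm as a natural number. -/
def nm (a : G) : ℕ := a.norm.natAbs

/-- The direction `(a/|a|)^4`. -/
noncomputable def dir (a : G) : ℂ := (a : ℂ) ^ 4 / (nm a : ℂ) ^ 2

/-- The Hecke character `(a/|a|)^(4k)`. -/
noncomputable def chi (k : ℤ) (a : G) : ℂ := dir a ^ k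

/-- The Liouville function of the norm. -/
def lam (a : G) : ℝ := (-1) ^ (ArithmeticFunction.cardFactors (nm a))

/-- Nonzero Gaussian integers of norm at most `y`. -/
noncomputable def disc (y : ℕ) : Finset G :=
  (((Icc (-(y : ℤ)) y) ×ˢ (Icc (-(y : ℤ)) y)).image fun p => (⟨p.1, p.2⟩ : G)).filter
    fun a => a ≠ 0 ∧ nm a ≤ y

/-- Nonzero Gaussian integers of norm exactly `n`. -/
noncomputable def shell (n : ℕ) : Finset G := (disc n).filter fun a => nm a = n

/-- The content. -/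
def cont (a : G) : ℕ := Int.gcd a.re a.im

def det (a b : G) : ℤ := a.re * b.im - a.im * b.re

def dot (a b : G) : ℤ := a.re * b.re + a.im * b.im

noncomputable instance instNorm : StrongNormalizationMonoid G :=
  UniqueFactorizationMonoid.strongNormalizationMonoid

/-- The number of Gaussian prime factors, with multiplicity. -/
noncomputable def Om (a : G) : ℕ := (UniqueFactorizationMonoid.normalizedFactors a).card

/-- Normalised Gaussian primes: one from each class of associates. -/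
def IsP (p : G) : Prop := Prime p ∧ normalize p = p

open Classical in
/-- The von Mangoldt function, supported on the powers of normalised primes. -/
noncomputable def LamK (d : G) : ℝ :=
  if ∃ p : G, ∃ j : ℕ, IsP p ∧ 0 < j ∧ d = p ^ j then Real.log (nm d) / Om d else 0

/-- Coefficients of the Dirichlet series of `g`. -/
noncomputable def cf (g : G → ℂ) (n : ℕ) : ℂ := ∑ a ∈ shell n, g a

/-- Coefficients of the logarithmic derivative. -/
noncomputable def lf (g : G → ℂ) (n : ℕ) : ℂ := ∑ a ∈ shell n, (LamK a : ℂ) * g a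

open Classical in
/-- A chosen Gaussian integer of norm `p`. -/
noncomputable def gp (p : ℕ) : G := if h : ∃ a : G, nm a = p then h.choose else 1

/-- Primes `1 mod 4` in `(Y, 2Y]`. -/
def PS (Y : ℕ) : Finset ℕ := (Ioc Y (2 * Y)).filter fun p => p.Prime ∧ p % 4 = 1

open Classical in
/-- Pairs of divisors whose norms are within a factor `w`. -/
noncomputable def Delta2 (w : ℕ) (a : G) : ℕ :=
  ((disc (nm a) ×ˢ disc (nm a)).filter fun q =>
    q.1 ∣ a ∧ q.2 ∣ a ∧ nm q.1 ≤ w * nm q.2 ∧ nm q.2 ≤ w * nm q.1).card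

/-- The Gaussian weight at logarithmic scale `x`. -/
noncomputable def gw (x : ℝ) (n : ℕ) : ℝ := Real.exp (-(x - Real.log n) ^ 2) / n

/-! ### Norm -/

lemma nm_int (a : G) : (nm a : ℤ) = a.re ^ 2 + a.im ^ 2 := by
  rw [nm, GaussianInt.abs_natCast_norm, Zsqrtd.norm_def]; ring

lemma nm_real (a : G) : (nm a : ℝ) = (a.re : ℝ) ^ 2 + (a.im : ℝ) ^ 2 := by
  exact_mod_cast nm_int a

lemma nm_mul (a b : G) : nm (a * b) = nm a * nm b := by
  simp [nm, Zsqrtd.norm_mul, Int.natAbs_mul]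

@[simp] lemma nm_one : nm 1 = 1 := by simp [nm]

@[simp] lemma nm_zero : nm 0 = 0 := by simp [nm]

lemma nm_eq_zero {a : G} : nm a = 0 ↔ a = 0 := by simp [nm]

lemma nm_pos {a : G} (h : a ≠ 0) : 0 < nm a := Nat.pos_of_ne_zero (by simpa [nm_eq_zero])

lemma nm_pow (a : G) (j : ℕ) : nm (a ^ j) = nm a ^ j := by
  induction j with
  | zero => simp
  | succ j ih => rw [pow_succ, nm_mul, ih, pow_succ]

lemma nm_prod {ι : Type*} (s : Finset ι) (f : ι → G) : nm (∏ i ∈ s, f i) = ∏ i ∈ s, nm (f i) := by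
  classical
  induction s using Finset.induction_on with
  | empty => simp
  | insert i s hi ih => rw [prod_insert hi, prod_insert hi, nm_mul, ih]

@[simp] lemma nm_star (a : G) : nm (star a) = nm a := by simp [nm]

@[simp] lemma nm_neg (a : G) : nm (-a) = nm a := by simp [nm]

lemma nm_intCast (d : ℤ) : nm (d : G) = d.natAbs ^ 2 := by
  simp [nm, Zsqrtd.norm_intCast, Int.natAbs_mul, sq]

lemma nm_natCast (d : ℕ) : nm (d : G) = d ^ 2 := by
  simpa using nm_intCast d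

lemma nm_eq_one_iff {a : G} : nm a = 1 ↔ IsUnit a := by
  rw [nm, Zsqrtd.norm_eq_one_iff]

lemma nm_dvd {a b : G} (h : a ∣ b) : nm a ∣ nm b := by
  obtain ⟨c, rfl⟩ := h
  exact ⟨nm c, nm_mul _ _⟩

lemma nm_le_of_dvd {a b : G} (hb : b ≠ 0) (h : a ∣ b) : nm a ≤ nm b :=
  Nat.le_of_dvd (nm_pos hb) (nm_dvd h)

lemma mul_star_eq (a : G) : a * star a = (nm a : G) := by
  have := Zsqrtd.norm_eq_mul_conj a
  rw [← this, nm, GaussianInt.natCast_natAbs_norm]

lemma norm_sq_coe (a : G) : ‖(a : ℂ)‖ ^ 2 = nm a := by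
  rw [← Complex.normSq_eq_norm_sq, ← GaussianInt.intCast_real_norm, nm,
    GaussianInt.natCast_natAbs_norm]

lemma star_mul_eq (a b : G) : star a * b = ⟨dot a b, det a b⟩ := by
  ext
  · simp [dot, Zsqrtd.re_mul]
  · simp [det, Zsqrtd.im_mul]; ring

lemma dot_sq_add_det_sq (a b : G) : dot a b ^ 2 + det a b ^ 2 = (nm a : ℤ) * nm b := by
  rw [nm_int, nm_int, dot, det]; ring

/-! ### Discs -/

lemma mem_disc {y : ℕ} {a : G} : a ∈ disc y ↔ a ≠ 0 ∧ nm a ≤ y := by
  simp only [disc, mem_filter, mem_image, mem_product, mem_Icc, and_iff_right_iff_imp]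
  rintro ⟨-, h⟩
  have h1 : a.re ^ 2 + a.im ^ 2 ≤ y := by rw [← nm_int]; exact_mod_cast h
  refine ⟨(a.re, a.im), ⟨⟨?_, ?_⟩, ⟨?_, ?_⟩⟩, rfl⟩ <;> nlinarith [sq_nonneg (a.re - 1), sq_nonneg (a.re + 1), sq_nonneg (a.im - 1), sq_nonneg (a.im + 1), sq_nonneg a.re, sq_nonneg a.im, Int.natCast_nonneg y]

lemma mem_shell {n : ℕ} {a : G} : a ∈ shell n ↔ a ≠ 0 ∧ nm a = n := by
  simp only [shell, mem_filter, mem_disc]
  constructor
  · rintro ⟨⟨h, -⟩, h'⟩; exact ⟨h, h'⟩
  · rintro ⟨h, h'⟩; exact ⟨⟨h, h'.le⟩, h'⟩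

lemma disc_mono {y z : ℕ} (h : y ≤ z) : disc y ⊆ disc z := fun _ ha =>
  mem_disc.2 ⟨(mem_disc.1 ha).1, (mem_disc.1 ha).2.trans h⟩

@[simp] lemma disc_zero : disc 0 = ∅ := by
  ext a
  simp only [mem_disc, Nat.le_zero, nm_eq_zero, notMem_empty, iff_false, not_and]
  exact fun h => h

@[simp] lemma shell_zero : shell 0 = ∅ := by simp [shell]

lemma sum_disc_eq {M : Type*} [AddCommMonoid M] (y : ℕ) (f : G → M) :
    ∑ a ∈ disc y, f a = ∑ n ∈ range (y + 1), ∑ a ∈ shell n, f a := by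
  rw [← sum_fiberwise_of_maps_to (s := disc y) (t := range (y + 1)) (g := nm)
    (fun a ha => mem_range.2 (Nat.lt_succ_of_le (mem_disc.1 ha).2))]
  refine sum_congr rfl fun n hn => sum_congr ?_ fun _ _ => rfl
  ext a
  simp only [mem_filter, mem_disc, mem_shell]
  have := mem_range.1 hn
  constructor
  · rintro ⟨⟨h, -⟩, h'⟩; exact ⟨h, h'⟩
  · rintro ⟨h, h'⟩; exact ⟨⟨h, by omega⟩, h'⟩

lemma card_disc_le (y : ℕ) : (disc y).card ≤ 9 * y := by
  rcases Nat.eq_zero_or_pos y with rfl | hy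
  · simp
  set s := y.sqrt with hs
  have hs1 : 1 ≤ s := Nat.sqrt_pos.2 hy
  have hs2 : s * s ≤ y := Nat.sqrt_le y
  have hs3 : y < (s + 1) * (s + 1) := Nat.lt_succ_sqrt y
  have h : (disc y).card ≤ ((Icc (-(s : ℤ)) s) ×ˢ (Icc (-(s : ℤ)) s)).card := by
    refine card_le_card_of_injOn (fun a => (a.re, a.im)) (fun a ha => ?_) (fun a _ b _ h => ?_)
    · have h1 : a.re ^ 2 + a.im ^ 2 ≤ y := by
        rw [← nm_int]; exact_mod_cast (mem_disc.1 ha).2
      have h2 : (y : ℤ) < (s + 1) * (s + 1) := by exact_mod_cast hs3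
      simp only [coe_product, coe_Icc, Set.mem_prod, Set.mem_Icc]
      refine ⟨⟨?_, ?_⟩, ⟨?_, ?_⟩⟩ <;> by_contra hc <;> push Not at hc <;>
        nlinarith [sq_nonneg a.re, sq_nonneg a.im, Int.natCast_nonneg s]
    · simp only [Prod.mk.injEq] at h
      exact Zsqrtd.ext h.1 h.2
  rw [card_product, Int.card_Icc] at h
  have e : ((s : ℤ) + 1 - -(s : ℤ)).toNat = 2 * s + 1 := by omega
  rw [e] at h
  nlinarith

/-- Multiples of `d` in a disc. -/
lemma sum_disc_dvd {M : Type*} [AddCommMonoid M] (y : ℕ) {d : G} (hd : d ≠ 0) (f : G → M)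
    [DecidablePred fun a : G => d ∣ a] :
    ∑ a ∈ (disc y).filter (fun a => d ∣ a), f a = ∑ b ∈ disc (y / nm d), f (d * b) := by
  symm
  refine sum_bij (fun b _ => d * b) (fun b hb => ?_) (fun b _ c _ h => mul_left_cancel₀ hd h)
    (fun a ha => ?_) (fun _ _ => rfl)
  · obtain ⟨h1, h2⟩ := mem_disc.1 hb
    rw [Nat.le_div_iff_mul_le (nm_pos hd)] at h2
    exact mem_filter.2 ⟨mem_disc.2 ⟨mul_ne_zero hd h1, by rw [nm_mul, mul_comm]; exact h2⟩,
      dvd_mul_right _ _⟩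
  · obtain ⟨h1, b, rfl⟩ := mem_filter.1 ha
    obtain ⟨h2, h3⟩ := mem_disc.1 h1
    refine ⟨b, mem_disc.2 ⟨right_ne_zero_of_mul h2, ?_⟩, rfl⟩
    rw [Nat.le_div_iff_mul_le (nm_pos hd), mul_comm, ← nm_mul]; exact h3

lemma card_disc_dvd_le (y : ℕ) {d : G} (hd : d ≠ 0) [DecidablePred fun a : G => d ∣ a] :
    (((disc y).filter (fun a => d ∣ a)).card : ℝ) ≤ 9 * y / nm d := by
  have h := sum_disc_dvd y hd (fun _ => (1 : ℕ))
  simp only [sum_const, smul_eq_mul, mul_one] at h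
  rw [h]
  have h1 : ((disc (y / nm d)).card : ℝ) ≤ 9 * ((y / nm d : ℕ) : ℝ) := by
    exact_mod_cast card_disc_le _
  have h2 : ((y / nm d : ℕ) : ℝ) ≤ y / nm d := Nat.cast_div_le
  rw [mul_div_assoc]; linarith

/-! ### Characters -/

lemma dir_mul (a b : G) : dir (a * b) = dir a * dir b := by
  simp only [dir, nm_mul, GaussianInt.toComplex_mul]; push_cast; ring

@[simp] lemma dir_one : dir 1 = 1 := by simp [dir]

lemma norm_dir {a : G} (h : a ≠ 0) : ‖dir a‖ = 1 := by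
  have h1 : (0 : ℝ) < nm a := by exact_mod_cast nm_pos h
  rw [dir, norm_div, norm_pow, norm_pow, Complex.norm_natCast,
    show ‖(a : ℂ)‖ ^ 4 = (‖(a : ℂ)‖ ^ 2) ^ 2 by ring, norm_sq_coe, div_self (by positivity)]

lemma dir_ne_zero {a : G} (h : a ≠ 0) : dir a ≠ 0 := by
  rw [← norm_ne_zero_iff, norm_dir h]; exact one_ne_zero

lemma dir_star (a : G) : dir (star a) = conj (dir a) := by
  simp [dir, GaussianInt.toComplex_star]

lemma dir_intCast {d : ℤ} (hd : d ≠ 0) : dir (d : G) = 1 := by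
  have h : (d : ℂ) ≠ 0 := by exact_mod_cast hd
  have h2 : ((d.natAbs : ℕ) : ℂ) ^ 2 = (d : ℂ) ^ 2 := by
    have : ((d.natAbs : ℕ) : ℤ) ^ 2 = d ^ 2 := Int.natAbs_sq d
    have h3 := congrArg (fun z : ℤ => (z : ℂ)) this
    simpa only [Int.cast_pow, Int.cast_natCast] using h3
  rw [dir, nm_intCast]
  push_cast
  rw [h2, map_intCast]
  field_simp

lemma chi_mul (k : ℤ) (a b : G) : chi k (a * b) = chi k a * chi k b := by
  simp only [chi, dir_mul, mul_zpow]

@[simp] lemma chi_one (k : ℤ) : chi k 1 = 1 := by simp [chi]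

@[simp] lemma chi_zero (a : G) : chi 0 a = 1 := by simp [chi]

lemma chi_prod {ι : Type*} (k : ℤ) (s : Finset ι) (f : ι → G) :
    chi k (∏ i ∈ s, f i) = ∏ i ∈ s, chi k (f i) := by
  classical
  induction s using Finset.induction_on with
  | empty => simp
  | insert i s hi ih => rw [prod_insert hi, prod_insert hi, chi_mul, ih]

lemma norm_chi (k : ℤ) {a : G} (h : a ≠ 0) : ‖chi k a‖ = 1 := by
  rw [chi, norm_zpow, norm_dir h, one_zpow]

lemma chi_add (k l : ℤ) {a : G} (h : a ≠ 0) : chi (k + l) a = chi k a * chi l a := by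
  simp only [chi, zpow_add₀ (dir_ne_zero h)]

lemma conj_chi (k : ℤ) {a : G} (h : a ≠ 0) : conj (chi k a) = chi (-k) a := by
  have h1 : conj (dir a) = (dir a)⁻¹ := (Complex.inv_eq_conj (norm_dir h)).symm
  simp only [chi, map_zpow₀, h1, inv_zpow', ]

lemma chi_mul_conj (k l : ℤ) {a : G} (h : a ≠ 0) :
    chi k a * conj (chi l a) = chi (k - l) a := by
  rw [conj_chi l h, ← chi_add k (-l) h, sub_eq_add_neg]

/-! ### The Liouville function of the norm -/

lemma lam_mul {a b : G} (ha : a ≠ 0) (hb : b ≠ 0) : lam (a * b) = lam a * lam b := by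
  rw [lam, nm_mul, ArithmeticFunction.cardFactors_mul (nm_pos ha).ne' (nm_pos hb).ne', pow_add,
    lam, lam]

@[simp] lemma lam_one : lam 1 = 1 := by simp [lam]

lemma lam_eq (a : G) : lam a = 1 ∨ lam a = -1 := neg_one_pow_eq_or ℝ _

lemma abs_lam (a : G) : |lam a| = 1 := by rcases lam_eq a with h | h <;> simp [h]

lemma norm_lam (a : G) : ‖((lam a : ℝ) : ℂ)‖ = 1 := by
  rw [Complex.norm_real, Real.norm_eq_abs, abs_lam]

lemma lam_of_nm_eq {a b : G} (h : nm a = nm b) : lam a = lam b := by rw [lam, h, lam]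

lemma lam_intCast (d : ℤ) : lam (d : G) = 1 := by
  rw [lam, nm_intCast, ArithmeticFunction.cardFactors_pow, pow_mul]; simp

lemma lam_of_prime {a : G} (h : (nm a).Prime) : lam a = -1 := by
  rw [lam, ArithmeticFunction.cardFactors_apply_prime h, pow_one]

/-! ### Chosen primes -/

lemma nm_gp {p : ℕ} (hp : p.Prime) (h4 : p % 4 = 1) : nm (gp p) = p := by
  have h : ∃ a : G, nm a = p := by
    have := Fact.mk hp
    obtain ⟨a, b, hab⟩ := Nat.Prime.sq_add_sq (p := p) (by omega)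
    refine ⟨⟨a, b⟩, ?_⟩
    have h1 := nm_int (⟨a, b⟩ : G)
    have h2 : (a : ℤ) ^ 2 + (b : ℤ) ^ 2 = p := by exact_mod_cast hab
    exact_mod_cast h1.trans h2
  rw [gp, dif_pos h]; exact h.choose_spec

lemma gp_ne_zero {p : ℕ} (hp : p.Prime) (h4 : p % 4 = 1) : gp p ≠ 0 := by
  rw [Ne, ← nm_eq_zero, nm_gp hp h4]; exact hp.ne_zero

lemma lam_gp {p : ℕ} (hp : p.Prime) (h4 : p % 4 = 1) : lam (gp p) = -1 :=
  lam_of_prime (by rw [nm_gp hp h4]; exact hp)

lemma prime_of_nm_prime {a : G} (h : (nm a).Prime) : Prime a := by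
  refine Irreducible.prime ⟨fun hu => h.ne_one (nm_eq_one_iff.2 hu), fun b c hbc => ?_⟩
  have := h.eq_one_or_self_of_dvd (nm b) (nm_dvd ⟨c, hbc⟩)
  rcases this with h1 | h1
  · exact Or.inl (nm_eq_one_iff.1 h1)
  · right
    rw [← nm_eq_one_iff]
    have h2 : nm a = nm b * nm c := by rw [hbc, nm_mul]
    rw [h1] at h2
    exact (Nat.mul_eq_left h.ne_zero).1 h2.symm

lemma mem_PS {Y p : ℕ} : p ∈ PS Y ↔ (Y < p ∧ p ≤ 2 * Y) ∧ p.Prime ∧ p % 4 = 1 := by
  simp [PS]

end Pool.Agent.P.MP_a1177c_nt.MR
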