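import Pool.Agent.P.MP_a1177c_nt.MR.Line

/-!
Farey chains: two close directions of opposite sign give a unimodular pair of opposite sign.
-/

namespace Pool.Agent.P.MP_a1177c_nt.MR

open Finset

/-- `u` lies in the triangle spanned by `0`, `v`, `w`. -/
def InCone (v w u : G) : Prop := 0 ≤ det v u ∧ 0 ≤ det u w ∧ det v u + det u w ≤ det v w

lemma det_self (v : G) : det v v = 0 := by simp [det, mul_comm]

lemma det_swap (v w : G) : det v w = -det w v := by simp [det]; ring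

lemma dot_swap (v w : G) : dot v w = dot w v := by simp [dot]; ring

lemma farey (F : G → ℝ) (h : ℕ) : ∀ v w : G, cont v = 1 → cont w = 1 → det v w = h → 0 < h →
    F v ≠ F w → ∃ u u' : G, det u u' = 1 ∧ F u ≠ F u' ∧ InCone v w u ∧ InCone v w u' := by
  induction h using Nat.strong_induction_on with
  | _ h ih =>
  intro v w hv hw hd h0 hF
  have h0' : (0 : ℤ) < h := by exact_mod_cast h0
  have cv : InCone v w v := ⟨by rw [det_self], by omega, by rw [det_self]; omega⟩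
  by_cases h1 : h = 1
  · subst h1
    exact ⟨v, w, by simpa using hd, hF, cv, by omega, by rw [det_self], by rw [det_self]; omega⟩
  obtain ⟨x, y, hxy⟩ := bezout_of_cont hv
  set t : ℤ := det ⟨-y, x⟩ w with ht
  set u₁ : G := ⟨-y, x⟩ + ((-(t / h) : ℤ) : G) * v with hu₁
  have e1 : det v u₁ = 1 := by
    simp only [hu₁, det, Zsqrtd.re_add, Zsqrtd.im_add, Zsqrtd.re_mul, Zsqrtd.im_mul,
      Zsqrtd.re_intCast, Zsqrtd.im_intCast]
    linear_combination hxy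
  have e2 : det u₁ w = t % h := by
    have : det u₁ w = t - (t / h) * det v w := by
      simp only [hu₁, ht, det, Zsqrtd.re_add, Zsqrtd.im_add, Zsqrtd.re_mul, Zsqrtd.im_mul,
        Zsqrtd.re_intCast, Zsqrtd.im_intCast]
      ring
    rw [this, hd, Int.emod_def]; ring
  have s0 : 0 ≤ t % h := Int.emod_nonneg _ h0'.ne'
  have s1 : t % h < h := Int.emod_lt_of_pos _ h0'
  have hu : cont u₁ = 1 := (cont_eq_one_of_det e1).2
  have cu : InCone v w u₁ := ⟨by omega, by omega, by omega⟩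
  by_cases hF1 : F v = F u₁
  swap
  · exact ⟨v, u₁, e1, hF1, cv, cu⟩
  have s2 : t % h ≠ 0 := by
    intro hs
    obtain ⟨n, hn⟩ := eq_mul_of_det_zero hu (e2.trans hs)
    have h2 : (h : ℤ) = n := by rw [← hd, hn, det_mul_intCast, e1, mul_one]
    obtain ⟨x', y', hb⟩ := bezout_of_cont hw
    rw [hn] at hb
    simp only [Zsqrtd.re_mul, Zsqrtd.im_mul, Zsqrtd.re_intCast, Zsqrtd.im_intCast] at hb
    have : (h : ℤ) ∣ 1 := ⟨u₁.re * x' + u₁.im * y', by rw [h2]; linear_combination -hb⟩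
    exact h1 (by exact_mod_cast Int.eq_one_of_dvd_one h0'.le this)
  obtain ⟨s, hs⟩ := Int.eq_ofNat_of_zero_le s0
  obtain ⟨u, u', a1, a2, a3, a4⟩ := ih s (by omega) u₁ w hu hw (e2.trans hs) (by omega)
    (hF1 ▸ hF)
  have tr : ∀ z : G, InCone u₁ w z → InCone v w z := by
    rintro z ⟨b1, b2, b3⟩
    have pl : det u₁ w * det v z = det z w * det v u₁ + det u₁ z * det v w := by
      simp only [det]; ring
    rw [e2, hs, e1, hd] at pl
    rw [e2, hs] at b3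
    have sp : (0 : ℤ) < s := by omega
    refine ⟨?_, b2, ?_⟩
    · by_contra hc
      push Not at hc
      nlinarith [mul_nonneg b1 h0'.le]
    · rw [hd]
      by_contra hc
      push Not at hc
      have : (s : ℤ) + 1 ≤ h := by omega
      nlinarith [mul_nonneg b2 (sub_nonneg.2 this), mul_le_mul_of_nonneg_right b3 h0'.le]
  exact ⟨u, u', a1, a2, tr u a3, tr u' a4⟩

lemma cone_nm (v w u : G) : (det v w : ℝ) ^ 2 * nm u =
    (det u w : ℝ) ^ 2 * nm v + 2 * det u w * det v u * dot v w + (det v u : ℝ) ^ 2 * nm w := by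
  simp only [nm_real, det, dot]; push_cast; ring

lemma cone_dot (v w u u' : G) : det v w ^ 2 * dot u u' =
    det u w * det u' w * nm v + (det u w * det v u' + det u' w * det v u) * dot v w +
      det v u * det v u' * nm w := by
  simp only [nm_int, det, dot]; ring

lemma two_dot_le (v w : G) : 2 * (dot v w : ℝ) ≤ nm v + nm w := by
  simp only [nm_real, dot]; push_cast
  nlinarith [sq_nonneg ((v.re : ℝ) - w.re), sq_nonneg ((v.im : ℝ) - w.im)]

lemma InCone.nm_le {v w u : G} (h : InCone v w u) (hd : 0 < det v w) {X : ℝ}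
    (hv : (nm v : ℝ) ≤ X) (hw : (nm w : ℝ) ≤ X) : (nm u : ℝ) ≤ X := by
  obtain ⟨b1, b2, b3⟩ := h
  have e := cone_nm v w u
  have d := two_dot_le v w
  have b1' : (0 : ℝ) ≤ det v u := by exact_mod_cast b1
  have b2' : (0 : ℝ) ≤ det u w := by exact_mod_cast b2
  have b3' : (det v u : ℝ) + det u w ≤ det v w := by exact_mod_cast b3
  have hd' : (0 : ℝ) < det v w := by exact_mod_cast hd
  have hX : 0 ≤ X := (Nat.cast_nonneg _).trans hv
  have h1 : (det v w : ℝ) ^ 2 * nm u ≤ ((det v u : ℝ) + det u w) ^ 2 * X := by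
    rw [e]
    have := mul_le_mul_of_nonneg_left (show (dot v w : ℝ) ≤ X by linarith) (mul_nonneg b1' b2')
    nlinarith [mul_le_mul_of_nonneg_left hv (sq_nonneg (det u w : ℝ)),
      mul_le_mul_of_nonneg_left hw (sq_nonneg (det v u : ℝ))]
  have h2 : ((det v u : ℝ) + det u w) ^ 2 * X ≤ (det v w : ℝ) ^ 2 * X := by gcongr
  exact le_of_mul_le_mul_left (h1.trans h2) (by positivity)

lemma InCone.le_nm {v w u : G} (h : InCone v w u) (hd : 0 < det v w) (hu : u ≠ 0)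
    (hdot : 0 ≤ dot v w) {Y : ℝ} (hv : Y ≤ nm v) (hw : Y ≤ nm w) :
    Y ≤ (det v w : ℝ) ^ 2 * nm u := by
  obtain ⟨b1, b2, -⟩ := h
  have e := cone_nm v w u
  have b1' : (0 : ℝ) ≤ det v u := by exact_mod_cast b1
  have b2' : (0 : ℝ) ≤ det u w := by exact_mod_cast b2
  have hd' : (0 : ℝ) < det v w := by exact_mod_cast hd
  have hdot' : (0 : ℝ) ≤ dot v w := by exact_mod_cast hdot
  have hu' : (0 : ℝ) < nm u := by exact_mod_cast nm_pos hu
  have p1 := mul_nonneg (mul_nonneg b2' b1') hdot'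
  have n1 : (0 : ℝ) ≤ nm v := Nat.cast_nonneg _
  have n2 : (0 : ℝ) ≤ nm w := Nat.cast_nonneg _
  rcases b1.eq_or_lt with c1 | c1
  · rcases b2.eq_or_lt with c2 | c2
    · rw [← c1, ← c2] at e
      have : 0 < (det v w : ℝ) ^ 2 * nm u := by positivity
      simp only [Int.cast_zero] at e
      nlinarith
    · have : (1 : ℝ) ≤ det u w := by exact_mod_cast c2
      have h2 : (1 : ℝ) ≤ (det u w : ℝ) ^ 2 := by nlinarith
      nlinarith [mul_le_mul_of_nonneg_right h2 n1, mul_nonneg (sq_nonneg (det v u : ℝ)) n2]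
  · have : (1 : ℝ) ≤ det v u := by exact_mod_cast c1
    have h2 : (1 : ℝ) ≤ (det v u : ℝ) ^ 2 := by nlinarith
    nlinarith [mul_le_mul_of_nonneg_right h2 n2, mul_nonneg (sq_nonneg (det u w : ℝ)) n1]

lemma InCone.dot_nonneg {v w u u' : G} (h : InCone v w u) (h' : InCone v w u') (hd : 0 < det v w)
    (hdot : 0 ≤ dot v w) : 0 ≤ dot u u' := by
  obtain ⟨b1, b2, -⟩ := h
  obtain ⟨c1, c2, -⟩ := h'
  have e := cone_dot v w u u'
  have : 0 ≤ det v w ^ 2 * dot u u' := by rw [e]; positivity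
  exact nonneg_of_mul_nonneg_right this (by positivity)

lemma eq_comb {u u' : G} (h : det u u' = 1) (z : G) :
    z = ((det z u' : ℤ) : G) * u + ((det u z : ℤ) : G) * u' := by
  rw [det] at h
  ext
  · simp only [det, Zsqrtd.re_add, Zsqrtd.re_mul, Zsqrtd.re_intCast, Zsqrtd.im_intCast]
    linear_combination (-z.re) * h
  · simp only [det, Zsqrtd.im_add, Zsqrtd.im_mul, Zsqrtd.re_intCast, Zsqrtd.im_intCast]
    linear_combination (-z.im) * h

/-- Short combinations of a pair, and their rotations by a right angle. -/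
noncomputable def near (R : ℕ) (e : G × G) : Finset G :=
  (({1, ⟨0, 1⟩} : Finset G) ×ˢ (Icc (-(R : ℤ)) R ×ˢ Icc (-(R : ℤ)) R)).image
    fun q => q.1 * ((q.2.1 : G) * e.1 + (q.2.2 : G) * e.2)

lemma card_near_le {R : ℕ} (hR : 1 ≤ R) (e : G × G) : (near R e).card ≤ 18 * R ^ 2 := by
  refine card_image_le.trans ?_
  rw [card_product, card_product, Int.card_Icc]
  have e : ((R : ℤ) + 1 - -(R : ℤ)).toNat = 2 * R + 1 := by omega
  have h2 : ({1, ⟨0, 1⟩} : Finset G).card ≤ 2 := card_le_two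
  rw [e]
  calc _ ≤ 2 * ((3 * R) * (3 * R)) := by gcongr <;> omega
    _ = _ := by ring

lemma mem_near {R : ℕ} {e : G × G} {ε : G} (hε : ε = 1 ∨ ε = ⟨0, 1⟩) {c₁ c₂ : ℤ}
    (h1 : |c₁| ≤ R) (h2 : |c₂| ≤ R) : ε * ((c₁ : G) * e.1 + (c₂ : G) * e.2) ∈ near R e := by
  refine mem_image.2 ⟨(ε, c₁, c₂), ?_, rfl⟩
  simp only [mem_product, mem_insert, mem_singleton, mem_Icc]
  exact ⟨hε, abs_le.1 h1, abs_le.1 h2⟩

/-- The unimodular pairs of opposite sign in a window of norms. -/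
def BadEdge (Y X : ℝ) (e : G × G) : Prop :=
  det e.1 e.2 = 1 ∧ 0 ≤ dot e.1 e.2 ∧ lam e.1 ≠ lam e.2 ∧
    Y ≤ nm e.1 ∧ (nm e.1 : ℝ) ≤ X ∧ Y ≤ nm e.2 ∧ (nm e.2 : ℝ) ≤ X

lemma edge_of_prim {v w : G} (hv : cont v = 1) (hw : cont w = 1) {H : ℕ} (hd : 0 < det v w)
    (hH : det v w ≤ H) (hdot : 0 ≤ dot v w) (hF : lam v ≠ lam w) {Y X : ℝ}
    (v1 : Y ≤ nm v) (v2 : (nm v : ℝ) ≤ X) (w1 : Y ≤ nm w) (w2 : (nm w : ℝ) ≤ X) :
    ∃ e : G × G, BadEdge (Y / (H : ℝ) ^ 2) X e ∧ ∀ z, z = v ∨ z = w →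
      ∃ c₁ c₂ : ℤ, |c₁| ≤ H ∧ |c₂| ≤ H ∧ z = (c₁ : G) * e.1 + (c₂ : G) * e.2 := by
  obtain ⟨h, hh⟩ := Int.eq_ofNat_of_zero_le hd.le
  obtain ⟨u, u', a1, a2, a3, a4⟩ := farey lam h v w hv hw hh (by omega) hF
  have hu := ne_zero_of_cont (cont_eq_one_of_det a1).1
  have hu' := ne_zero_of_cont (cont_eq_one_of_det a1).2
  have hd' : (0 : ℝ) < det v w := by exact_mod_cast hd
  have hH' : (det v w : ℝ) ≤ H := by exact_mod_cast hH
  have low : ∀ z, InCone v w z → z ≠ 0 → Y / (H : ℝ) ^ 2 ≤ nm z := fun z hz hz0 => by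
    rw [div_le_iff₀ (by nlinarith)]
    refine (hz.le_nm hd hz0 hdot v1 w1).trans ?_
    rw [mul_comm]; gcongr
  refine ⟨(u, u'), ⟨a1, a3.dot_nonneg a4 hd hdot, a2, low u a3 hu, a3.nm_le hd v2 w2,
    low u' a4 hu', a4.nm_le hd v2 w2⟩, ?_⟩
  obtain ⟨b1, b2, b3⟩ := a3
  obtain ⟨c1, c2, c3⟩ := a4
  rintro z (rfl | rfl)
  · refine ⟨_, _, ?_, ?_, eq_comb a1 z⟩
    · rw [abs_le]; omega
    · rw [det_swap, abs_le]; omega
  · refine ⟨_, _, ?_, ?_, eq_comb a1 z⟩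
    · rw [det_swap, abs_le]; omega
    · rw [abs_le]; omega

lemma lam_intCast_mul {d : ℤ} (hd : d ≠ 0) {v : G} (hv : v ≠ 0) : lam ((d : G) * v) = lam v := by
  rw [lam_mul (by exact_mod_cast hd) hv, lam_intCast, one_mul]

lemma edge_of_pos {a b : G} {D H : ℕ} {X₀ X : ℝ} (hX₀ : 0 < X₀) (hF : lam a ≠ lam b)
    (hd : |det a b| ≤ H) (hdot : 0 ≤ dot a b)
    (a1 : X₀ ≤ nm a) (a2 : (nm a : ℝ) ≤ X) (a3 : cont a ≤ D)
    (b1 : X₀ ≤ nm b) (b2 : (nm b : ℝ) ≤ X) (b3 : cont b ≤ D) :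
    ∃ e : G × G, BadEdge (X₀ / ((D : ℝ) * H) ^ 2) X e ∧ ∀ z, z = a ∨ z = b →
      ∃ c₁ c₂ : ℤ, |c₁| ≤ (D * H : ℕ) ∧ |c₂| ≤ (D * H : ℕ) ∧
        z = (c₁ : G) * e.1 + (c₂ : G) * e.2 := by
  have ne : ∀ z : G, X₀ ≤ nm z → z ≠ 0 := by
    rintro z hz rfl; simp at hz; linarith
  have ha := ne a a1
  have hb := ne b b1
  obtain ⟨v, hv, hav⟩ := exists_prim ha
  obtain ⟨w, hw, hbw⟩ := exists_prim hb
  have hv0 := ne_zero_of_cont hv
  have hw0 := ne_zero_of_cont hw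
  have ca := cont_pos ha
  have cb := cont_pos hb
  generalize cont a = d at *
  generalize cont b = d' at *
  have ca' : (0 : ℤ) < d := by exact_mod_cast ca
  have cb' : (0 : ℤ) < d' := by exact_mod_cast cb
  have la : lam a = lam v := by rw [hav, lam_intCast_mul ca'.ne' hv0]
  have lb : lam b = lam w := by rw [hbw, lam_intCast_mul cb'.ne' hw0]
  have hF' : lam v ≠ lam w := by rwa [← la, ← lb]
  have edet : det a b = d * (d' * det v w) := by rw [hav, hbw, det_intCast_mul, det_mul_intCast]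
  have edot : dot a b = d * (d' * dot v w) := by rw [hav, hbw, dot_intCast_mul, dot_mul_intCast]
  have hdot' : 0 ≤ dot v w := by
    rw [edot] at hdot
    exact nonneg_of_mul_nonneg_right (nonneg_of_mul_nonneg_right hdot ca') cb'
  have hd' : |det v w| ≤ H := by
    rw [edet, abs_mul, abs_mul, abs_of_pos ca', abs_of_pos cb'] at hd
    have := abs_nonneg (det v w)
    nlinarith [mul_nonneg cb'.le this]
  have bd : ∀ (z y : G) (c : ℕ), 0 < c → c ≤ D → z = ((c : ℤ) : G) * y → X₀ ≤ nm z →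
      (nm z : ℝ) ≤ X → X₀ / (D : ℝ) ^ 2 ≤ nm y ∧ (nm y : ℝ) ≤ X := by
    intro z y c hc hcD hz h1 h2
    have e : (nm z : ℝ) = (c : ℝ) ^ 2 * nm y := by rw [hz, nm_mul, nm_intCast]; simp
    have c1 : (1 : ℝ) ≤ c := by exact_mod_cast hc
    have c2 : (c : ℝ) ≤ D := by exact_mod_cast hcD
    have n : (0 : ℝ) ≤ nm y := Nat.cast_nonneg _
    constructor
    · rw [div_le_iff₀ (by nlinarith)]
      refine h1.trans ?_
      rw [e, mul_comm]; gcongr
    · nlinarith [mul_le_mul_of_nonneg_right (show (1 : ℝ) ≤ (c : ℝ) ^ 2 by nlinarith) n]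
  obtain ⟨v1, v2⟩ := bd a v d ca a3 hav a1 a2
  obtain ⟨w1, w2⟩ := bd b w d' cb b3 hbw b1 b2
  have main : ∃ e : G × G, BadEdge (X₀ / (D : ℝ) ^ 2 / (H : ℝ) ^ 2) X e ∧ ∀ z, z = v ∨ z = w →
      ∃ c₁ c₂ : ℤ, |c₁| ≤ H ∧ |c₂| ≤ H ∧ z = (c₁ : G) * e.1 + (c₂ : G) * e.2 := by
    rcases lt_trichotomy (det v w) 0 with h | h | h
    · obtain ⟨e, h1, h2⟩ := edge_of_prim hw hv (H := H) (by rw [det_swap]; omega)
        (by rw [det_swap]; have := (abs_le.1 hd').1; omega) (by rwa [dot_swap]) hF'.symm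
        w1 w2 v1 v2
      exact ⟨e, h1, fun z hz => h2 z hz.symm⟩
    · obtain ⟨n, hn⟩ := eq_mul_of_det_zero hv h
      have : n ≠ 0 := by rintro rfl; simp at hn; exact hw0 hn
      exact absurd (by rw [hn, lam_intCast_mul this hv0]) hF'
    · exact edge_of_prim hv hw h (abs_le.1 hd').2 hdot' hF' v1 v2 w1 w2
  obtain ⟨e, h1, h2⟩ := main
  refine ⟨e, by rwa [mul_pow, ← div_div], ?_⟩
  have sc : ∀ (z y : G) (c : ℕ), c ≤ D → z = ((c : ℤ) : G) * y → y = v ∨ y = w →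
      ∃ c₁ c₂ : ℤ, |c₁| ≤ (D * H : ℕ) ∧ |c₂| ≤ (D * H : ℕ) ∧
        z = (c₁ : G) * e.1 + (c₂ : G) * e.2 := by
    intro z y c hc hz hy
    obtain ⟨c₁, c₂, g1, g2, g3⟩ := h2 y hy
    have hc' : (c : ℤ) ≤ D := by exact_mod_cast hc
    refine ⟨c * c₁, c * c₂, ?_, ?_, by rw [hz, g3]; push_cast; ring⟩ <;>
    · rw [abs_mul, Nat.abs_cast]; push_cast; gcongr
  rintro z (rfl | rfl)
  · exact sc z v d a3 hav (Or.inl rfl)
  · exact sc z w d' b3 hbw (Or.inr rfl)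

lemma nm_I_mul (b : G) : nm ((⟨0, 1⟩ : G) * b) = nm b := by
  rw [nm_mul]; simp [nm, Zsqrtd.norm_def]

lemma cont_I_mul (b : G) : cont ((⟨0, 1⟩ : G) * b) = cont b := by
  simp [cont, Zsqrtd.re_mul, Zsqrtd.im_mul, Int.gcd_comm]

lemma cont_neg (b : G) : cont (-b) = cont b := by simp [cont]

theorem edge_of_pair {a b : G} {D H : ℕ} {X₀ X : ℝ} (hX₀ : 0 < X₀) (hF : lam a ≠ lam b)
    (hd : |dot a b| ≤ H ∨ |det a b| ≤ H)
    (a1 : X₀ ≤ nm a) (a2 : (nm a : ℝ) ≤ X) (a3 : cont a ≤ D)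
    (b1 : X₀ ≤ nm b) (b2 : (nm b : ℝ) ≤ X) (b3 : cont b ≤ D) :
    ∃ e : G × G, BadEdge (X₀ / ((D : ℝ) * H) ^ 2) X e ∧ a ∈ near (D * H) e ∧
      b ∈ near (D * H) e := by
  have step : ∀ b : G, lam a ≠ lam b → |det a b| ≤ H → X₀ ≤ nm b → (nm b : ℝ) ≤ X → cont b ≤ D →
      ∃ e : G × G, BadEdge (X₀ / ((D : ℝ) * H) ^ 2) X e ∧ a ∈ near (D * H) e ∧
        ∃ c₁ c₂ : ℤ, |c₁| ≤ (D * H : ℕ) ∧ |c₂| ≤ (D * H : ℕ) ∧
          b = (c₁ : G) * e.1 + (c₂ : G) * e.2 := by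
    intro b hF hd b1 b2 b3
    rcases le_total 0 (dot a b) with h | h
    · obtain ⟨e, h1, h2⟩ := edge_of_pos hX₀ hF hd h a1 a2 a3 b1 b2 b3
      obtain ⟨c₁, c₂, g1, g2, g3⟩ := h2 a (Or.inl rfl)
      exact ⟨e, h1, by simpa [← g3] using mem_near (e := e) (Or.inl rfl) g1 g2, h2 b (Or.inr rfl)⟩
    · obtain ⟨e, h1, h2⟩ := edge_of_pos (b := -b) hX₀ (by rwa [lam_of_nm_eq (nm_neg b)])
        (by simpa [det, abs_sub_comm, sub_eq_add_neg, add_comm] using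
          (show |-det a b| ≤ H by rwa [abs_neg]))
        (by simp only [dot, Zsqrtd.re_neg, Zsqrtd.im_neg] at h ⊢; linarith)
        a1 a2 a3 (by rwa [nm_neg]) (by rwa [nm_neg]) (by rwa [cont_neg])
      obtain ⟨c₁, c₂, g1, g2, g3⟩ := h2 a (Or.inl rfl)
      obtain ⟨d₁, d₂, k1, k2, k3⟩ := h2 (-b) (Or.inr rfl)
      refine ⟨e, h1, by simpa [← g3] using mem_near (e := e) (Or.inl rfl) g1 g2, -d₁, -d₂,
        by rwa [abs_neg], by rwa [abs_neg], ?_⟩
      push_cast; linear_combination -k3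
  rcases hd with hd | hd
  · obtain ⟨e, h1, h2, c₁, c₂, g1, g2, g3⟩ := step ((⟨0, 1⟩ : G) * b)
      (by rwa [lam_of_nm_eq (nm_I_mul b)])
      (by simpa [det, dot, Zsqrtd.re_mul, Zsqrtd.im_mul] using hd)
      (by rwa [nm_I_mul]) (by rwa [nm_I_mul]) (by rwa [cont_I_mul])
    refine ⟨e, h1, h2, ?_⟩
    have := mem_near (e := e) (Or.inr rfl) (c₁ := -c₁) (c₂ := -c₂) (R := D * H)
      (by rwa [abs_neg]) (by rwa [abs_neg])
    convert this using 1
    have hI : (⟨0, 1⟩ : G) * ⟨0, 1⟩ = -1 := by decide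
    push_cast
    linear_combination (-(⟨0, 1⟩ : G)) * g3 + b * hI
  · obtain ⟨e, h1, h2, c₁, c₂, g1, g2, g3⟩ := step b hF hd b1 b2 b3
    exact ⟨e, h1, h2, by simpa [← g3] using mem_near (e := e) (Or.inl rfl) g1 g2⟩

end Pool.Agent.P.MP_a1177c_nt.MR
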