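import Pool.Agent.P.MP_a1177c_nt.MR.Main
import Pool.Agent.P.MP_a1177c_nt.MR.Count

/-!
The choice of parameters and the final theorem.
-/

namespace Pool.Agent.P.MP_a1177c_nt.MR

open Finset Filter

lemma ev_log (C r : ℝ) {β : ℝ} (hβ : 0 < β) :
    ∀ᶠ P : ℕ in atTop, C * Real.log P ^ r ≤ (P : ℝ) ^ β := by
  have h := (((isLittleO_log_rpow_rpow_atTop r hβ).const_mul_left C).comp_tendsto
    tendsto_natCast_atTop_atTop).eventuallyLE
  filter_upwards [h] with P hP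
  exact (le_abs_self _).trans (hP.trans (le_of_eq (abs_of_nonneg (by simp; positivity))))

theorem core_thm : ∃ α : ℝ, 0 < α ∧ ∃ C₀ : ℝ, 1 ≤ C₀ ∧ ∀ ℓ : ℕ, 1 ≤ ℓ → ∃ P₀ N₀ : ℕ,
    ∀ N P : ℕ, N₀ ≤ N → P₀ ≤ P → 64 * Real.log N ≤ ((P ^ ℓ : ℕ) : ℝ) ^ α → (P * P ^ ℓ) ^ 10 ≤ N →
      ∃ E : Finset (G × G), (∀ e ∈ E, BadEdge (N / P ^ 5) (16 * C₀ * N) e) ∧
        (N : ℝ) / P ^ 9 ≤ E.card := by
  obtain ⟨α, α0, -, C₀, D, κ, σ, hC, hD, κ0, κ1, σ0, h⟩ := exists_core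
  refine ⟨α, α0, C₀, hC, fun ℓ hℓ => ?_⟩
  obtain ⟨N₀, hN₀⟩ := eventually_atTop.1 h
  obtain ⟨Y₀, hY₀⟩ := eventually_atTop.1 card_PS_lower
  set B : ℝ := 1080 * (ℓ + 1).factorial * D * 4 ^ (ℓ + 1) * C₀ ^ 2 with hB
  obtain ⟨P₀, hP₀⟩ := eventually_atTop.1 ((eventually_ge_atTop (max Y₀ 2)).and
    ((tendsto_natCast_atTop_atTop.eventually_ge_atTop (Real.exp (6 / σ))).and
    ((ev_log (64 * ℓ * B / κ) 1 (show 0 < 2 * α by positivity)).and
    ((ev_log (30720 * 256 * 64 * D * C₀ ^ 3 * ℓ / κ) 2 one_pos).and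
    ((tendsto_natCast_atTop_atTop.eventually_ge_atTop (4 * C₀ * D ^ 2)).and
    (ev_log (64 * 2444 * ℓ * D ^ 2 / κ) 2 one_pos))))))
  refine ⟨P₀, N₀, fun N P hN hP hl hW => ?_⟩
  obtain ⟨p1, p2, p3, p4, p5, p6⟩ := hP₀ P hP
  simp only [Real.rpow_one, Real.rpow_two] at p3 p4 p6
  obtain ⟨PY, P2⟩ := max_le_iff.1 p1
  have P2' : (2 : ℝ) ≤ P := by exact_mod_cast P2
  have hℓ' : (1 : ℝ) ≤ ℓ := by exact_mod_cast hℓ
  have hD' : (1 : ℝ) ≤ D := by exact_mod_cast hD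
  have Pℓ : P ≤ P ^ ℓ := Nat.le_self_pow (by omega) P
  have WN : P * P ^ ℓ ≤ N := (Nat.le_self_pow (by norm_num) _).trans hW
  have PN : P ≤ N := (Nat.le_mul_of_pos_right _ (by positivity)).trans WN
  have ℓN : P ^ ℓ ≤ N := (Nat.le_mul_of_pos_left _ (by omega)).trans WN
  have N0 : (0 : ℝ) < N := by exact_mod_cast (show 0 < N by omega)
  set L := Real.log P with hL
  have L0 : 0 < L := Real.log_pos (by linarith)
  have eL : Real.log (P ^ ℓ : ℕ) = ℓ * L := by rw [Nat.cast_pow, Real.log_pow]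
  obtain ⟨T, π, β, w, S, hc, hS, hm, hU⟩ := hN₀ N hN (P * P ^ ℓ) (PS P ∪ PS (P ^ ℓ))
    (by positivity) hW (fun p hp => (mem_union.1 hp).elim (fun h => (mem_PS.1 h).2)
      fun h => (mem_PS.1 h).2) (by
      refine (sum_union_le' _ _ _ fun i => by positivity).trans ?_
      have a := sum_inv_PS P2
      have b := sum_inv_PS (P2.trans Pℓ)
      have c : 3 / (ℓ * L) ≤ 3 / L := by gcongr; exact le_mul_of_one_le_left L0.le hℓ'
      have d : 6 / L ≤ σ := by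
        rw [div_le_comm₀ L0 σ0]; exact (Real.le_log_iff_exp_le (by linarith)).2 p2
      rw [eL] at b
      have : 6 / L = 3 / L + 3 / L := by ring
      linarith)
  have S1 : PS P ⊆ S := subset_union_left.trans hS
  have S2 : PS (P ^ ℓ) ⊆ S := subset_union_right.trans hS
  have n1 := hY₀ P PY
  have n2 := hY₀ _ (PY.trans Pℓ)
  have hcard := card_large (P2.trans Pℓ) ℓN n2 α0 hl
  rw [eL, Nat.cast_pow] at n2
  set K := N / P with hK
  have K0 : 0 < K := Nat.div_pos PN (by omega)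
  have K1 : (K : ℝ) ≤ N / P := Nat.cast_div_le
  have K2 : N / (2 * P) ≤ (K : ℝ) := by
    have a : (N : ℝ) < P * (K + 1) := by exact_mod_cast Nat.lt_mul_div_succ N (show 0 < P by omega)
    have b : (1 : ℝ) ≤ K := by exact_mod_cast K0
    rw [div_le_iff₀ (by positivity)]; nlinarith
  have KN : K ≤ N := Nat.div_le_self _ _
  push_cast at hc hm
  have eZ : (P : ℝ) * (P ^ ℓ : ℕ) * (N / (P * P ^ ℓ)) = N := by push_cast; field_simp
  have hup := hc.spectral P2 hℓ S1 S2 (K := K) (K1.trans (le_of_eq (by field_simp))) κ0 κ1 hD hm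
    (u := (P : ℝ) ^ (-α)) (by positivity) n1 n2 (by
      have e : ((P : ℝ) ^ (-α)) ^ 2 = ((P : ℝ) ^ (2 * α))⁻¹ := by
        rw [← Real.rpow_natCast, ← Real.rpow_mul (by positivity), ← Real.rpow_neg (by positivity)]
        congr 1; push_cast; ring
      rw [e, ← hB, mul_assoc, mul_assoc, inv_mul_le_iff₀ (by positivity), ← div_le_iff₀ κ0]
      exact le_trans (le_of_eq (by ring)) p3) (by
      have hsub : (Icc (-(K : ℤ)) K) ⊆ Icc (-(N : ℤ)) N := Icc_subset_Icc (by omega) (by omega)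
      refine hU _ ((filter_subset _ _).trans (erase_subset_erase _ hsub))
        (hcard _ fun k hk => ⟨hsub (mem_of_mem_erase (mem_filter.1 hk).1), ?_⟩)
      refine lt_of_eq_of_lt ?_ (mem_filter.1 hk).2
      rw [Nat.cast_pow, ← Real.rpow_natCast, ← Real.rpow_natCast, ← Real.rpow_mul (by positivity),
        ← Real.rpow_mul (by positivity)]
      congr 2; push_cast; ring)
  have m1 : κ * N / (64 * ℓ * L ^ 2) ≤ (PS P).card * (PS (P ^ ℓ)).card * ∑ t ∈ T, w t := by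
    refine le_trans (le_of_eq ?_) (mul_le_mul (mul_le_mul n1 n2 (by positivity) (Nat.cast_nonneg _))
      hm (by positivity) (mul_nonneg (Nat.cast_nonneg _) (Nat.cast_nonneg _)))
    rw [← hL]; field_simp; norm_num
  obtain ⟨E, hE, hE'⟩ := hc.geom (H := P ^ 2) (by omega) (by positivity) S1 S2 hD K0
    (by positivity) hup (by
      rw [eZ]
      calc 30720 * D * C₀ * (16 * C₀ * N) ^ 2 = (N : ℝ) ^ 2 * κ / (64 * ℓ * L ^ 2) *
            (30720 * 256 * 64 * D * C₀ ^ 3 * ℓ / κ * L ^ 2) := by field_simp; norm_num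
        _ ≤ (N : ℝ) ^ 2 * κ / (64 * ℓ * L ^ 2) * P := by gcongr
        _ = N / (2 * P) * (P ^ 2 : ℕ) * (2 * (κ * N / (64 * ℓ * L ^ 2))) := by
            push_cast; field_simp
        _ ≤ _ := by gcongr)
  rw [eZ] at hE
  refine ⟨E, fun e he => ?_, ?_⟩
  · obtain ⟨a1, a2, a3, a4, a5, a6, a7⟩ := hE e he
    have : (N : ℝ) / P ^ 5 ≤ N / C₀ / (2 * D * (P ^ 2 : ℕ)) ^ 2 := by
      rw [div_div]
      gcongr
      calc C₀ * (2 * D * (P ^ 2 : ℕ)) ^ 2 = 4 * C₀ * D ^ 2 * P ^ 4 := by push_cast; ring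
        _ ≤ (P : ℝ) * P ^ 4 := by gcongr
        _ = _ := by ring
    exact ⟨a1, a2, a3, this.trans a4, a5, this.trans a6, a7⟩
  · refine le_of_mul_le_mul_left (a := 1492992 * (N / P : ℝ) * (2 * D * (P ^ 2 : ℕ)) ^ 4) ?_
      (by positivity)
    calc _ = 1492992 * 16 * ((N : ℝ) * D ^ 2 / P) ^ 2 := by push_cast; field_simp; norm_num
      _ ≤ (2 * 2444) ^ 2 * ((N : ℝ) * D ^ 2 / (64 * 2444 * ℓ * D ^ 2 / κ * L ^ 2)) ^ 2 := by
          gcongr; norm_num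
      _ = (2 * (κ * N / (64 * ℓ * L ^ 2))) ^ 2 := by field_simp
      _ ≤ _ := le_trans (by gcongr) (hE'.trans (by gcongr))

theorem exists_bad_edges (θ : ℝ) (hθ : 0 < θ) : ∀ᶠ X : ℕ in atTop, ∃ E : Finset (G × G),
    (∀ e ∈ E, det e.1 e.2 = 1 ∧ 0 ≤ dot e.1 e.2 ∧ lam e.1 ≠ lam e.2 ∧
      X / Real.log X ^ θ ≤ nm e.1 ∧ 4 * nm e.1 ≤ X ∧
      X / Real.log X ^ θ ≤ nm e.2 ∧ 4 * nm e.2 ≤ X) ∧
    2 * (X / Real.log X ^ θ) ≤ E.card := by
  obtain ⟨α, α0, C₀, hC, h⟩ := core_thm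
  set a := θ / 10 with ha
  have a0 : 0 < a := by positivity
  set ℓ := ⌈2 / (a * α)⌉₊ with hℓ
  have ℓ1 : 2 ≤ a * (ℓ * α) := by
    have := (div_le_iff₀ (by positivity)).1 (Nat.le_ceil (2 / (a * α))); linarith
  obtain ⟨P₀, N₀, h⟩ := h ℓ (Nat.ceil_pos.2 (by positivity))
  have t1 := Real.tendsto_log_atTop.comp tendsto_natCast_atTop_atTop
  have t2 := (tendsto_rpow_atTop a0).comp t1
  filter_upwards [t1.eventually_ge_atTop 64, t2.eventually_ge_atTop P₀,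
    t2.eventually_ge_atTop (2 ^ 17 * C₀),
    tendsto_natCast_atTop_atTop.eventually_ge_atTop (64 * C₀ * (N₀ + 1)),
    ev_log (128 * C₀ * 2 ^ ((1 + ℓ) * 10)) (a * ((1 + ℓ) * 10 : ℕ)) one_pos] with X x1 x2 x3 x4 x5
  simp only [Function.comp, Real.rpow_one] at x1 x2 x3 x5
  set L := Real.log X with hL
  have L0 : 0 < L := by linarith
  set N := ⌊X / (64 * C₀)⌋₊ with hN
  set P := ⌈L ^ a⌉₊ with hP
  have x6 : N₀ + 1 ≤ X / (64 * C₀) := by rwa [le_div_iff₀' (by positivity)]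
  have N1 : 64 * C₀ * N ≤ X := by
    rw [← le_div_iff₀' (by positivity)]; exact Nat.floor_le (by positivity)
  have N3 : N₀ + 1 ≤ N := Nat.le_floor (by exact_mod_cast x6)
  have N4 : (1 : ℝ) ≤ N := by exact_mod_cast (show 1 ≤ N by omega)
  have N2 : X ≤ 128 * C₀ * N := by
    have := (div_lt_iff₀ (by positivity)).1 (Nat.lt_floor_add_one (X / (64 * C₀) : ℝ))
    nlinarith
  have P1 : L ^ a ≤ P := Nat.le_ceil _
  have P2 : P ≤ 2 * L ^ a := by
    have := Nat.ceil_lt_add_one (show 0 ≤ L ^ a by positivity); nlinarith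
  have P3 : (1 : ℝ) ≤ P := by nlinarith
  obtain ⟨E, hE, hE'⟩ := h N P (by omega) (by exact_mod_cast x2.trans P1) (by
      calc 64 * Real.log N ≤ L * L := by
            gcongr; exact Real.log_le_log (by linarith) (by nlinarith)
        _ = L ^ (2 : ℝ) := by rw [Real.rpow_two, sq]
        _ ≤ L ^ (a * (ℓ * α)) := Real.rpow_le_rpow_of_exponent_le (by linarith) ℓ1
        _ = ((L ^ a) ^ ℓ) ^ α := by
            rw [Real.rpow_mul L0.le, Real.rpow_mul (by positivity), Real.rpow_natCast]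
        _ ≤ _ := by push_cast; gcongr) (by
      have : (P : ℝ) ^ ((1 + ℓ) * 10) ≤ N := by
        refine le_of_mul_le_mul_left (a := 128 * C₀) (le_trans ?_ (x5.trans N2)) (by positivity)
        rw [Real.rpow_mul L0.le, Real.rpow_natCast, mul_assoc (128 * C₀), ← mul_pow]
        gcongr
      rw [← pow_succ', add_comm, ← pow_mul]
      exact_mod_cast this)
  have key : 2 * (X / L ^ θ) ≤ N / P ^ 9 := by
    have e : L ^ θ = L ^ a * (L ^ a) ^ 9 := by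
      rw [← pow_succ', ← Real.rpow_natCast, ← Real.rpow_mul L0.le]; congr 1; rw [ha]; push_cast; ring
    calc 2 * (X / L ^ θ) ≤ 2 * (128 * C₀ * N / (2 ^ 17 * C₀ * (L ^ a) ^ 9)) := by rw [e]; gcongr
      _ = N / (2 * L ^ a) ^ 9 := by field_simp; norm_num
      _ ≤ _ := by gcongr
  have key2 : X / L ^ θ ≤ N / P ^ 5 := by
    have : (N : ℝ) / P ^ 9 ≤ N / P ^ 5 := by gcongr; norm_num
    have : 0 ≤ X / L ^ θ := by positivity
    linarith
  refine ⟨E, fun e he => ?_, key.trans hE'⟩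
  obtain ⟨a1, a2, a3, a4, a5, a6, a7⟩ := hE e he
  refine ⟨a1, a2, a3, key2.trans a4, ?_, key2.trans a6, ?_⟩
  · exact_mod_cast (show (4 * nm e.1 : ℝ) ≤ X by linarith)
  · exact_mod_cast (show (4 * nm e.2 : ℝ) ≤ X by linarith)

/-- Both parities of the number of prime factors of `n ^ 2 + 1` occur often. -/
theorem polylog_parity (r : ℕ) (ε : ℝ) (hε : 0 < ε) :
    ∀ᶠ x : ℕ in atTop, (x : ℝ) / Real.log x ^ (Real.log 2 + ε) ≤
      (((Icc 1 x).filter fun n : ℕ =>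
        ArithmeticFunction.cardFactors (n ^ 2 + 1) % 2 = r % 2).card : ℝ) :=
  final_of_bad_edges exists_bad_edges r ε hε

end Pool.Agent.P.MP_a1177c_nt.MR
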