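import Pool.Agent.P.MP_a1177c_nt.MR.Defs

/-!
Auxiliary lemmas for the abstract Halasz theorem: localised logarithmic sums and the Gaussian
Fourier lemma.
-/

namespace Pool.Agent.P.MP_a1177c_nt.MR.Hal

open Finset Filter MeasureTheory
open scoped ComplexConjugate

lemma geom_inj {q : ℝ} (h0 : 0 ≤ q) (h1 : q < 1) (s : Finset ℕ) (f : ℕ → ℕ)
    (hf : Set.InjOn f s) : ∑ m ∈ s, q ^ f m ≤ (1 - q)⁻¹ := by
  rw [← sum_image (f := fun k => q ^ k) hf, ← tsum_geometric_of_lt_one h0 h1]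
  exact (summable_geometric_of_lt_one h0 h1).sum_le_tsum _ fun _ _ => by positivity

lemma geom_dist {q : ℝ} (h0 : 0 ≤ q) (h1 : q < 1) (s : Finset ℕ) (m0 : ℕ) :
    ∑ m ∈ s, q ^ (m - m0 + (m0 - m)) ≤ 2 * (1 - q)⁻¹ := by
  rw [← sum_filter_add_sum_filter_not s (fun m => m0 ≤ m), two_mul]
  refine add_le_add (geom_inj h0 h1 _ _ ?_) (geom_inj h0 h1 _ _ ?_)
  · intro a ha b hb hab
    simp only [coe_filter, Set.mem_ofPred_eq] at ha hb hab
    omega
  · intro a ha b hb hab
    simp only [coe_filter, Set.mem_ofPred_eq] at ha hb hab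
    omega

variable {C₁ : ℝ} {r : ℕ → ℝ}

lemma C_nonneg (hr : ∀ n, 0 ≤ r n) (hs : ∀ y : ℕ, ∑ n ∈ range (y + 1), r n ≤ C₁ * y) :
    0 ≤ C₁ := by
  have h := hs 1
  have h2 : 0 ≤ ∑ n ∈ range (1 + 1), r n := sum_nonneg fun n _ => hr n
  simp only [Nat.cast_one, mul_one] at h
  linarith

lemma block (hr : ∀ n, 0 ≤ r n) (hs : ∀ y : ℕ, ∑ n ∈ range (y + 1), r n ≤ C₁ * y)
    (s : Finset ℕ) (m : ℕ) :
    ∑ n ∈ s.filter (fun n => Nat.log 2 n = m), r n / n ≤ 2 * C₁ := by
  have h1 : ∑ n ∈ s.filter (fun n => Nat.log 2 n = m), r n / n ≤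
      ∑ n ∈ s.filter (fun n => Nat.log 2 n = m), r n / 2 ^ m := by
    refine sum_le_sum fun n hn => ?_
    rcases Nat.eq_zero_or_pos n with rfl | hn0
    · simp only [Nat.cast_zero, div_zero]; have := hr 0; positivity
    · have h2 : 2 ^ m ≤ n := by
        rw [← (mem_filter.1 hn).2]; exact Nat.pow_log_le_self 2 hn0.ne'
      have h3 : (2 : ℝ) ^ m ≤ n := by exact_mod_cast h2
      exact div_le_div_of_nonneg_left (hr n) (by positivity) h3
  have h2 : ∑ n ∈ s.filter (fun n => Nat.log 2 n = m), r n ≤ ∑ n ∈ range (2 ^ (m + 1) + 1), r n := by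
    refine sum_le_sum_of_subset_of_nonneg (fun n hn => ?_) fun n _ _ => hr n
    have := Nat.lt_pow_succ_log_self (b := 2) (by norm_num) n
    rw [(mem_filter.1 hn).2] at this
    exact mem_range.2 (by omega)
  have h3 := hs (2 ^ (m + 1))
  rw [← sum_div] at h1
  refine h1.trans ?_
  rw [div_le_iff₀ (by positivity)]
  push_cast at h3
  rw [pow_succ (2 : ℝ)] at h3
  linarith

lemma exp_le_block {θ : ℝ} (h0 : 0 < θ) (h1 : θ ≤ 1) (u : ℝ) {n : ℕ} (hn : n ≠ 0) :
    Real.exp (-(θ * |u - Real.log n|)) ≤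
      2 * Real.exp (-(θ * Real.log 2)) ^
        (Nat.log 2 n - ⌊u / Real.log 2⌋₊ + (⌊u / Real.log 2⌋₊ - Nat.log 2 n)) := by
  set m := Nat.log 2 n with hm
  set m0 := ⌊u / Real.log 2⌋₊ with hm0
  have hl : 0 < Real.log 2 := Real.log_pos (by norm_num)
  have a1 : (m : ℝ) * Real.log 2 ≤ Real.log n := by
    rw [← Real.log_pow]
    refine Real.log_le_log (by positivity) ?_
    exact_mod_cast Nat.pow_log_le_self 2 hn
  have a2 : Real.log n ≤ ((m : ℝ) + 1) * Real.log 2 := by
    have h : (n : ℝ) ≤ 2 ^ (m + 1) := by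
      exact_mod_cast (Nat.lt_pow_succ_log_self (b := 2) (by norm_num) n).le
    have h' := Real.log_le_log (by positivity) h
    rw [Real.log_pow] at h'
    exact_mod_cast h'
  have a3 : u ≤ ((m0 : ℝ) + 1) * Real.log 2 := by
    have := Nat.lt_floor_add_one (u / Real.log 2)
    rw [div_lt_iff₀ hl] at this
    exact this.le
  have key : (((m - m0 + (m0 - m) : ℕ) : ℝ) - 1) * Real.log 2 ≤ |u - Real.log n| := by
    rcases le_or_gt m0 m with h | h
    · have e : ((m - m0 + (m0 - m) : ℕ) : ℝ) = m - m0 := by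
        rw [Nat.sub_eq_zero_of_le h, add_zero, Nat.cast_sub h]
      rw [e]
      have := neg_le_abs (u - Real.log n)
      nlinarith
    · have e : ((m - m0 + (m0 - m) : ℕ) : ℝ) = m0 - m := by
        rw [Nat.sub_eq_zero_of_le h.le, zero_add, Nat.cast_sub h.le]
      rw [e]
      have hu : 0 ≤ u / Real.log 2 := by
        by_contra hc
        have : m0 = 0 := Nat.floor_eq_zero.2 (by linarith [not_le.1 hc])
        omega
      have a4 : (m0 : ℝ) * Real.log 2 ≤ u := by
        have := Nat.floor_le hu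
        rwa [le_div_iff₀ hl] at this
      have := le_abs_self (u - Real.log n)
      nlinarith
  rw [← Real.exp_nat_mul]
  have e2 : (2 : ℝ) = Real.exp (Real.log 2) := (Real.exp_log (by norm_num)).symm
  nth_rw 1 [e2]
  rw [← Real.exp_add]
  refine Real.exp_le_exp.2 ?_
  nlinarith [mul_le_mul_of_nonneg_left key h0.le]

lemma inv_one_sub_le {θ : ℝ} (h0 : 0 < θ) (h1 : θ ≤ 1) :
    (1 - Real.exp (-(θ * Real.log 2)))⁻¹ ≤ 3 / θ := by
  have hl : 0.6931471803 < Real.log 2 := Real.log_two_gt_d9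
  have hl2 : Real.log 2 < 0.6931471808 := Real.log_two_lt_d9
  set s := θ * Real.log 2 with hs
  have hs0 : 0 < s := by positivity
  have h2 : Real.exp (-s) ≤ (1 + s)⁻¹ := by
    rw [Real.exp_neg]
    exact inv_anti₀ (by positivity) (by linarith [Real.add_one_le_exp s])
  have h3 : θ / 3 ≤ 1 - (1 + s)⁻¹ := by
    rw [show 1 - (1 + s)⁻¹ = s / (1 + s) by field_simp; ring, div_le_div_iff₀ (by norm_num)
      (by positivity)]
    have : s ≤ 0.7 := by nlinarith
    nlinarith
  rw [← inv_div]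
  exact inv_anti₀ (by positivity) (by linarith)

/-- The basic localised estimate. -/
lemma star_sum (hr : ∀ n, 0 ≤ r n) (hs : ∀ y : ℕ, ∑ n ∈ range (y + 1), r n ≤ C₁ * y)
    {θ : ℝ} (h0 : 0 < θ) (h1 : θ ≤ 1) (u : ℝ) :
    Summable (fun n : ℕ => r n * (Real.exp (-(θ * |u - Real.log n|)) / n)) ∧
      ∑' n : ℕ, r n * (Real.exp (-(θ * |u - Real.log n|)) / n) ≤ 24 * C₁ / θ := by
  have hC := C_nonneg hr hs
  set q := Real.exp (-(θ * Real.log 2)) with hq
  have hq0 : 0 ≤ q := (Real.exp_pos _).le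
  have hq1 : q < 1 := by
    rw [hq, Real.exp_lt_one_iff]
    have := Real.log_pos (show (1 : ℝ) < 2 by norm_num)
    nlinarith
  set m0 := ⌊u / Real.log 2⌋₊
  have hpos : ∀ n : ℕ, 0 ≤ r n * (Real.exp (-(θ * |u - Real.log n|)) / n) := fun n => by
    have := hr n; positivity
  have key : ∀ N, ∑ n ∈ range N, r n * (Real.exp (-(θ * |u - Real.log n|)) / n) ≤
      24 * C₁ / θ := by
    intro N
    calc ∑ n ∈ range N, r n * (Real.exp (-(θ * |u - Real.log n|)) / n)
        ≤ ∑ n ∈ range N, 2 * q ^ (Nat.log 2 n - m0 + (m0 - Nat.log 2 n)) * (r n / n) := by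
          refine sum_le_sum fun n _ => ?_
          rcases Nat.eq_zero_or_pos n with rfl | hn
          · simp
          · have h := exp_le_block h0 h1 u hn.ne'
            have h2 : 0 ≤ r n / n := by have := hr n; positivity
            calc r n * (Real.exp (-(θ * |u - Real.log n|)) / n)
                = Real.exp (-(θ * |u - Real.log n|)) * (r n / n) := by ring
              _ ≤ _ := mul_le_mul_of_nonneg_right h h2
      _ = ∑ m ∈ (range N).image (Nat.log 2), ∑ n ∈ (range N).filter (fun n => Nat.log 2 n = m),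
            2 * q ^ (Nat.log 2 n - m0 + (m0 - Nat.log 2 n)) * (r n / n) :=
          (sum_fiberwise_of_maps_to (fun n hn => mem_image_of_mem _ hn) _).symm
      _ ≤ ∑ m ∈ (range N).image (Nat.log 2), 2 * q ^ (m - m0 + (m0 - m)) * (2 * C₁) := by
          refine sum_le_sum fun m _ => ?_
          rw [sum_congr rfl (g := fun n => 2 * q ^ (m - m0 + (m0 - m)) * (r n / n))
            (fun n hn => by rw [(mem_filter.1 hn).2]), ← mul_sum]
          exact mul_le_mul_of_nonneg_left (block hr hs _ m) (by positivity)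
      _ = 4 * C₁ * ∑ m ∈ (range N).image (Nat.log 2), q ^ (m - m0 + (m0 - m)) := by
          rw [mul_sum]; exact sum_congr rfl fun _ _ => by ring
      _ ≤ 4 * C₁ * (2 * (3 / θ)) := by
          refine mul_le_mul_of_nonneg_left ((geom_dist hq0 hq1 _ m0).trans ?_) (by positivity)
          exact mul_le_mul_of_nonneg_left (inv_one_sub_le h0 h1) (by norm_num)
      _ = 24 * C₁ / θ := by ring
  exact ⟨summable_of_sum_range_le hpos key, Real.tsum_le_of_sum_range_le hpos key⟩

/-! ### The Gaussian Fourier lemma -/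

/-- A generalised trigonometric series. -/
noncomputable def FS {ι : Type*} (a : ι → ℂ) (l : ι → ℝ) (t : ℝ) : ℂ :=
  ∑' i, a i * Complex.exp (Complex.I * l i * t)

lemma norm_cexp (l t : ℝ) : ‖Complex.exp (Complex.I * l * t)‖ = 1 := by
  rw [show Complex.I * l * t = ((l * t : ℝ) : ℂ) * Complex.I by push_cast; ring]
  exact Complex.norm_exp_ofReal_mul_I _

section
variable {ι κ : Type*} {a : ι → ℂ} {b : κ → ℂ}

lemma summable_FS (ha : Summable fun i => ‖a i‖) (l : ι → ℝ) (t : ℝ) :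
    Summable fun i => ‖a i * Complex.exp (Complex.I * l i * t)‖ := by
  simpa only [norm_mul, norm_cexp, mul_one] using ha

lemma norm_FS_le (ha : Summable fun i => ‖a i‖) (l : ι → ℝ) (t : ℝ) :
    ‖FS a l t‖ ≤ ∑' i, ‖a i‖ := by
  have := norm_tsum_le_tsum_norm (summable_FS ha l t)
  unfold FS
  simpa only [norm_mul, norm_cexp, mul_one] using this

lemma continuous_FS (ha : Summable fun i => ‖a i‖) (l : ι → ℝ) : Continuous (FS a l) := by
  refine continuous_tsum (fun i => by fun_prop) ha fun i t => ?_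
  rw [norm_mul, norm_cexp, mul_one]

lemma summable_pair (ha : Summable fun i => ‖a i‖) (hb : Summable fun i => ‖b i‖) :
    Summable fun p : ι × κ => ‖a p.1 * b p.2‖ := by
  simpa only [norm_mul] using ha.mul_of_nonneg hb (fun _ => norm_nonneg _) fun _ => norm_nonneg _

lemma FS_mul (ha : Summable fun i => ‖a i‖) (hb : Summable fun i => ‖b i‖) (l : ι → ℝ)
    (m : κ → ℝ) (t : ℝ) :
    FS a l t * FS b m t = FS (fun p : ι × κ => a p.1 * b p.2) (fun p => l p.1 + m p.2) t := by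
  unfold FS
  rw [tsum_mul_tsum_of_summable_norm (summable_FS ha l t) (summable_FS hb m t)]
  refine tsum_congr fun p => ?_
  push_cast
  rw [mul_add, add_mul, Complex.exp_add]; ring

lemma conj_FS (l : ι → ℝ) (t : ℝ) :
    conj (FS a l t) = FS (fun i => conj (a i)) (fun i => -l i) t := by
  unfold FS
  rw [Complex.conj_tsum]
  refine tsum_congr fun i => ?_
  rw [map_mul, ← Complex.exp_conj]
  simp

lemma FS_shift (y : ℝ) (l : ι → ℝ) (t : ℝ) :
    Complex.exp (Complex.I * y * t) * FS a l t = FS a (fun i => y + l i) t := by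
  unfold FS
  rw [← tsum_mul_left]
  refine tsum_congr fun i => ?_
  push_cast
  rw [mul_add, add_mul, Complex.exp_add]; ring

lemma gauss [Countable ι] (ha : Summable fun i => ‖a i‖) (l : ι → ℝ) {τ : ℝ} (hτ : 0 < τ) :
    ∫ t : ℝ, (Real.exp (-τ * t ^ 2) : ℂ) * FS a l t =
      (√(Real.pi / τ) : ℝ) * ∑' i, a i * (Real.exp (-(l i) ^ 2 / (4 * τ)) : ℝ) := by
  have hn : ∀ i (t : ℝ), ‖(Real.exp (-τ * t ^ 2) : ℂ) * (a i * Complex.exp (Complex.I * l i * t))‖
      = ‖a i‖ * Real.exp (-τ * t ^ 2) := fun i t => by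
    rw [norm_mul, norm_mul, norm_cexp, Complex.norm_real, Real.norm_of_nonneg (Real.exp_pos _).le]
    ring
  have hint : ∀ i, Integrable fun t : ℝ =>
      (Real.exp (-τ * t ^ 2) : ℂ) * (a i * Complex.exp (Complex.I * l i * t)) := fun i => by
    refine ((integrable_exp_neg_mul_sq hτ).const_mul ‖a i‖).mono' (by fun_prop) ?_
    exact Eventually.of_forall fun t => (hn i t).le
  have hsum : Summable fun i => ∫ t : ℝ,
      ‖(Real.exp (-τ * t ^ 2) : ℂ) * (a i * Complex.exp (Complex.I * l i * t))‖ := by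
    simp only [hn, integral_const_mul]
    exact ha.mul_right _
  have h := integral_tsum_of_summable_integral_norm hint hsum
  unfold FS
  simp only [← tsum_mul_left]
  rw [← h]
  refine tsum_congr fun i => ?_
  have h2 := fourierIntegral_gaussian (b := (τ : ℂ)) (by simpa using hτ) (l i)
  have e : (fun t : ℝ => (Real.exp (-τ * t ^ 2) : ℂ) * (a i * Complex.exp (Complex.I * l i * t)))
      = fun t : ℝ => a i * (Complex.exp (Complex.I * l i * t) * Complex.exp (-τ * t ^ 2)) := by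
    funext t; push_cast; ring
  rw [e, integral_const_mul, h2, Real.sqrt_eq_rpow,
    Complex.ofReal_cpow (by have := Real.pi_pos; positivity)]
  push_cast; ring

lemma integrable_sq (ha : Summable fun i => ‖a i‖) (l : ι → ℝ) {τ : ℝ} (hτ : 0 < τ) :
    Integrable fun t : ℝ => Real.exp (-τ * t ^ 2) * ‖FS a l t‖ ^ 2 := by
  have hc := continuous_FS ha l
  refine ((integrable_exp_neg_mul_sq hτ).mul_const ((∑' i, ‖a i‖) ^ 2)).mono' (by fun_prop) ?_
  refine Eventually.of_forall fun t => ?_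
  rw [Real.norm_of_nonneg (by positivity)]
  have := norm_FS_le ha l t
  gcongr

/-- Mean square. -/
lemma mean_sq [Countable ι] (ha : Summable fun i => ‖a i‖) (l : ι → ℝ) {W : ℝ}
    (hW : ∀ i, ∑' j, ‖a j‖ * Real.exp (-(l i + -l j) ^ 2 / (4 * (1 / 8))) ≤ W) :
    ∫ t : ℝ, Real.exp (-(1 / 8) * t ^ 2) * ‖FS a l t‖ ^ 2 ≤ 6 * ((∑' i, ‖a i‖) * W) := by
  have ha' : Summable fun i => ‖conj (a i)‖ := by simpa only [Complex.norm_conj] using ha
  have hp := summable_pair ha ha'
  have h := gauss hp (fun p => l p.1 + -l p.2) (τ := 1 / 8) (by norm_num)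
  have e : ∀ t : ℝ, (Real.exp (-(1 / 8) * t ^ 2) : ℂ) *
      FS (fun p : ι × ι => a p.1 * conj (a p.2)) (fun p => l p.1 + -l p.2) t =
      ((Real.exp (-(1 / 8) * t ^ 2) * ‖FS a l t‖ ^ 2 : ℝ) : ℂ) := fun t => by
    rw [← FS_mul ha ha' l (fun i => -l i), ← conj_FS, Complex.mul_conj, Complex.normSq_eq_norm_sq]
    push_cast; ring
  simp only [e] at h
  rw [integral_complex_ofReal] at h
  have h2 := congrArg norm h
  rw [norm_mul, Complex.norm_real, Complex.norm_real] at h2
  have hs : √(Real.pi / (1 / 8)) ≤ 6 := by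
    rw [Real.sqrt_le_iff]
    exact ⟨by norm_num, by linarith [Real.pi_lt_four]⟩
  have hle : ∀ p : ι × ι, ‖a p.1 * conj (a p.2) *
      (Real.exp (-(l p.1 + -l p.2) ^ 2 / (4 * (1 / 8))) : ℝ)‖ =
      ‖a p.1‖ * (‖a p.2‖ * Real.exp (-(l p.1 + -l p.2) ^ 2 / (4 * (1 / 8)))) := fun p => by
    rw [norm_mul, norm_mul, Complex.norm_conj, Complex.norm_real,
      Real.norm_of_nonneg (Real.exp_pos _).le, mul_assoc]
  have hex : ∀ x : ℝ, Real.exp (-x ^ 2 / (4 * (1 / 8))) ≤ 1 := fun x => by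
    rw [Real.exp_le_one_iff, show -x ^ 2 / (4 * (1 / 8)) = -2 * x ^ 2 by ring]
    nlinarith [sq_nonneg x]
  have hq : Summable fun p : ι × ι =>
      ‖a p.1‖ * (‖a p.2‖ * Real.exp (-(l p.1 + -l p.2) ^ 2 / (4 * (1 / 8)))) := by
    refine hp.of_nonneg_of_le (fun p => by positivity) fun p => ?_
    rw [norm_mul, Complex.norm_conj]
    have := hex (l p.1 + -l p.2)
    have h3 := mul_le_mul_of_nonneg_left this (norm_nonneg (a p.2))
    rw [mul_one] at h3
    exact mul_le_mul_of_nonneg_left h3 (norm_nonneg _)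
  have h3 : ‖∑' p : ι × ι, a p.1 * conj (a p.2) *
      (Real.exp (-(l p.1 + -l p.2) ^ 2 / (4 * (1 / 8))) : ℝ)‖ ≤ (∑' i, ‖a i‖) * W := by
    refine (norm_tsum_le_tsum_norm (by simpa only [hle] using hq)).trans ?_
    simp only [hle]
    rw [hq.tsum_prod, ← tsum_mul_right]
    refine (hq.prod).tsum_le_tsum (fun i => ?_) (ha.mul_right _)
    simp only [tsum_mul_left]
    exact mul_le_mul_of_nonneg_left (hW i) (norm_nonneg _)
  refine (le_abs_self _).trans ?_
  rw [← Real.norm_eq_abs, h2, Real.norm_of_nonneg (Real.sqrt_nonneg _)]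
  exact mul_le_mul hs h3 (norm_nonneg _) (by norm_num)

end

end Pool.Agent.P.MP_a1177c_nt.MR.Hal
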