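import Pool.Agent.P.MP_a1177c_nt.MR.Spectral
import Pool.Agent.P.MP_a1177c_nt.MR.Beta
import Pool.Agent.P.MP_a1177c_nt.MR.Selberg

/-!
The bilinear core, the choice of parameters, and the existence of many unimodular pairs of
opposite sign.
-/

namespace Pool.Agent.P.MP_a1177c_nt.MR

open Finset Filter

/-- The logarithmic scale of the cofactors in the range `v`. -/
noncomputable def xv (Z : ℝ) (P v : ℕ) : ℝ := Real.log (Z / (P * 2 ^ v : ℕ))

/-- The index set of the core. -/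
noncomputable def T3 (Z C₀ : ℝ) (D P J : ℕ) (S : Finset ℕ) : Finset (Σ _ : ℕ, ℕ × G) :=
  (range J).sigma fun v => PS (P * 2 ^ v) ×ˢ Bset (xv Z P v) C₀ D S

lemma mem_Bset {x C₀ : ℝ} {D : ℕ} {S : Finset ℕ} {b : G} (h : b ∈ Bset x C₀ D S) :
    b ∈ disc ⌊C₀ * Real.exp x⌋₊ ∧ Real.exp x / C₀ ≤ nm b ∧ cont b ≤ D ∧ ∀ p ∈ S, ¬ p ∣ nm b := by
  classical
  simpa only [Bset, mem_filter] using h

lemma core_T3 {Z C₀ : ℝ} {D P J : ℕ} {S : Finset ℕ} (hS : ∀ p ∈ S, p.Prime ∧ p % 4 = 1)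
    (hZ : 1 ≤ Z) (hC : 1 ≤ C₀) (hP : 0 < P) (hJ : ∀ v < J, PS (P * 2 ^ v) ⊆ S) :
    Core (T3 Z C₀ D P J S) (fun t => t.2.1) (fun t => t.2.2) (fun t => om (xv Z P t.1) t.2.2)
      S Z C₀ D := by
  have hm : ∀ t ∈ T3 Z C₀ D P J S, t.1 < J ∧ t.2.1 ∈ PS (P * 2 ^ t.1) ∧
      t.2.2 ∈ Bset (xv Z P t.1) C₀ D S := fun t ht => by
    simpa only [T3, mem_sigma, mem_range, mem_product] using ht
  have hY : ∀ v : ℕ, (0 : ℝ) < (P * 2 ^ v : ℕ) := fun v => by positivity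
  have hx : ∀ v, Real.exp (xv Z P v) = Z / (P * 2 ^ v : ℕ) := fun v =>
    Real.exp_log (div_pos (by linarith) (hY v))
  refine ⟨hS, hZ, hC, fun t ht => hJ _ (hm t ht).1 (hm t ht).2.1,
    fun t ht => (mem_Bset (hm t ht).2.2).2.2.2, ?_, fun t ht => ?_, fun t ht => ?_,
    fun t ht => (mem_Bset (hm t ht).2.2).2.2.1, fun t _ => ⟨om_nonneg _ _, om_le_two _ _⟩⟩
  · rintro ⟨v, p, b⟩ ht ⟨v', p', b'⟩ ht' e1 e2
    simp only at e1 e2
    subst e1 e2
    have a := (mem_PS.1 (hm _ ht).2.1).1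
    have a' := (mem_PS.1 (hm _ ht').2.1).1
    simp only at a a'
    have key : ∀ {i j : ℕ}, P * 2 ^ i < p → p ≤ 2 * (P * 2 ^ j) → i ≤ j := fun {i j} h1 h2 => by
      have : P * 2 ^ i < P * 2 ^ (j + 1) := by rw [pow_succ]; linarith
      have := (Nat.pow_lt_pow_iff_right (by norm_num)).1 (lt_of_mul_lt_mul_left this (Nat.zero_le _))
      omega
    rw [le_antisymm (key a.1 a'.2) (key a'.1 a.2)]
  · have a : ((P * 2 ^ t.1 : ℕ) : ℝ) ≤ t.2.1 := by exact_mod_cast (mem_PS.1 (hm t ht).2.1).1.1.le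
    have b := (mem_Bset (hm t ht).2.2).2.1
    have := hY t.1
    rw [hx] at b
    refine le_trans (le_of_eq ?_) (mul_le_mul a b (by positivity) (by positivity))
    field_simp
  · have a : (t.2.1 : ℝ) ≤ 2 * (P * 2 ^ t.1 : ℕ) := by exact_mod_cast (mem_PS.1 (hm t ht).2.1).1.2
    have b : (nm t.2.2 : ℝ) ≤ C₀ * Real.exp (xv Z P t.1) :=
      (Nat.le_floor_iff (by positivity)).1 (mem_disc.1 (mem_Bset (hm t ht).2.2).1).2
    have := hY t.1
    rw [hx] at b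
    refine (mul_le_mul a b (by positivity) (by positivity)).trans (le_of_eq ?_)
    field_simp

lemma Vp_T3 (Z C₀ : ℝ) (D P J : ℕ) (S : Finset ℕ) (k : ℤ) :
    Vp (T3 Z C₀ D P J S) (fun t => t.2.1) (fun t => t.2.2) (fun t => om (xv Z P t.1) t.2.2) k =
      ∑ v ∈ range J, Q (P * 2 ^ v) k *
        ∑ b ∈ Bset (xv Z P v) C₀ D S, ((om (xv Z P v) b * lam b : ℝ) : ℂ) * chi k b := by
  simp only [Vp, T3, sum_sigma, sum_product, Q, sum_mul_sum, chi_mul]
  exact sum_congr rfl fun _ _ => sum_congr rfl fun _ _ => sum_congr rfl fun _ _ => by ring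

lemma mass_T3 (Z C₀ : ℝ) (D P J : ℕ) (S : Finset ℕ) :
    ∑ t ∈ T3 Z C₀ D P J S, om (xv Z P t.1) t.2.2 =
      ∑ v ∈ range J, (PS (P * 2 ^ v)).card * ∑ b ∈ Bset (xv Z P v) C₀ D S, om (xv Z P v) b := by
  simp [T3, sum_sigma, sum_product]

lemma sum_union_le' (s t : Finset ℕ) (f : ℕ → ℝ) (hf : ∀ i, 0 ≤ f i) :
    ∑ i ∈ s ∪ t, f i ≤ ∑ i ∈ s, f i + ∑ i ∈ t, f i := by
  rw [← sum_union_inter]; exact le_add_of_nonneg_right (sum_nonneg fun i _ => hf i)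

lemma sum_inv_PS {Y : ℕ} (hY : 2 ≤ Y) : ∑ p ∈ PS Y, (1 : ℝ) / p ≤ 3 / Real.log Y := by
  have hY' : (0 : ℝ) < Y := by positivity
  refine (sum_le_card_nsmul _ _ (1 / Y : ℝ) fun p hp => ?_).trans ?_
  · have : (Y : ℝ) ≤ p := by exact_mod_cast (mem_PS.1 hp).1.1.le
    gcongr
  · rw [nsmul_eq_mul]
    refine (mul_le_mul_of_nonneg_right (card_PS_upper hY) (by positivity)).trans (le_of_eq ?_)
    field_simp

lemma sum_inv_biUnion {P : ℕ} (hP : 2 ≤ P) (J : ℕ) :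
    ∑ p ∈ (range J).biUnion (fun v => PS (P * 2 ^ v)), (1 : ℝ) / p ≤ J * (3 / Real.log P) := by
  induction J with
  | zero => simp
  | succ J ih =>
    have h : P ≤ P * 2 ^ J := Nat.le_mul_of_pos_right _ (by positivity)
    have hP' : (1 : ℝ) < P := by exact_mod_cast hP
    have h' : (P : ℝ) ≤ (P * 2 ^ J : ℕ) := by exact_mod_cast h
    have hl := Real.log_pos hP'
    have : 3 / Real.log (P * 2 ^ J : ℕ) ≤ 3 / Real.log P := by gcongr
    rw [range_add_one, biUnion_insert]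
    refine (sum_union_le' _ _ _ fun i => by positivity).trans ?_
    have := sum_inv_PS (hP.trans h)
    push_cast at *
    linarith

theorem exists_core : ∃ α : ℝ, 0 < α ∧ α ≤ 1 / 2 ∧ ∃ (C₀ : ℝ) (D : ℕ) (κ σ : ℝ),
    1 ≤ C₀ ∧ 1 ≤ D ∧ 0 < κ ∧ κ ≤ 1 ∧ 0 < σ ∧ ∀ᶠ N : ℕ in atTop, ∀ (W : ℕ) (S₀ : Finset ℕ),
      0 < W → W ^ 10 ≤ N → (∀ p ∈ S₀, p.Prime ∧ p % 4 = 1) → ∑ p ∈ S₀, (1 : ℝ) / p ≤ σ →
      ∃ (T : Finset (Σ _ : ℕ, ℕ × G)) (π : _) (β : _) (w : _) (S : Finset ℕ),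
        Core T π β w S (N / W) C₀ D ∧ S₀ ⊆ S ∧ κ * (N / W) ≤ ∑ t ∈ T, w t ∧
        ∀ U : Finset ℤ, U ⊆ (Icc (-(N : ℤ)) N).erase 0 → (U.card : ℝ) ≤ 1080 * (N : ℝ) ^ (10 * α) →
          ∑ k ∈ U, ‖Vp T π β w k‖ ^ 2 ≤ (∑ t ∈ T, w t) ^ 2 / 4 := by
  obtain ⟨c, CE, c0, c1, CE0, hE⟩ := expsum 3
  obtain ⟨C', C'0, hL⟩ := large_values_primes 22
  obtain ⟨c₀, c₀0, hB⟩ := beta_facts
  set c₁ := c₀ / 1000 with hc₁
  set c₂ := c₀ * c₁ / (136 * (C' + 1)) with hc₂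
  have c₁0 : 0 < c₁ := by positivity
  have c₂0 : 0 < c₂ := by positivity
  clear_value c₂ c₁
  obtain ⟨C₀, D, σ₀, hC, hD, σ0, hB⟩ := hB c₂ c₂0
  obtain ⟨Y₀, hY₀⟩ := eventually_atTop.1 ((hL (c₁ / C₀) (by positivity)).and card_PS_lower)
  obtain ⟨x₀, hx₀⟩ := eventually_atTop.1 hB
  set κ := min (σ₀ / 12) (1 / 2) with hκ
  have κ0 : 0 < κ := by positivity
  have κ1 : κ ≤ σ₀ / 12 := min_le_left _ _
  have κ2 : κ ≤ 1 / 2 := min_le_right _ _
  have hcc : 360 * c₁ ^ 2 + 9 * C' * c₂ ^ 2 / c₁ ^ 2 ≤ c₀ ^ 2 / 1024 := by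
    have e : 9 * C' * c₂ ^ 2 / c₁ ^ 2 = 9 * c₀ ^ 2 / 18496 * (C' / (C' + 1) ^ 2) := by
      rw [hc₂]; field_simp; norm_num
    have : C' / (C' + 1) ^ 2 ≤ 1 := by rw [div_le_one (by positivity)]; nlinarith
    have h2 : 9 * c₀ ^ 2 / 18496 * (C' / (C' + 1) ^ 2) ≤ 9 * c₀ ^ 2 / 18496 :=
      mul_le_of_le_one_right (by positivity) this
    rw [e, hc₁]; nlinarith [sq_nonneg c₀]
  refine ⟨c / 60, by positivity, by linarith, C₀, D, min 1 (κ * c₀ / 16), σ₀ / 2, hC, hD,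
    by positivity, min_le_left _ _, by positivity, ?_⟩
  filter_upwards [eventually_ge_atTop ((max (max Y₀ 16) ⌈Real.exp (1 / κ)⌉₊) ^ 8),
    tendsto_natCast_atTop_atTop.eventually_ge_atTop (Real.exp (2 * x₀)),
    ((tendsto_rpow_atTop (show 0 < c / 6 by positivity)).comp
      tendsto_natCast_atTop_atTop).eventually_ge_atTop (1080 * CE)] with N e1 e2 e3 W S₀ W0 hW hS₀ hσ
  simp only [Function.comp] at e3
  set P := Nat.nthRoot 8 N with hP
  have P0 := (Nat.le_nthRoot_iff (by norm_num)).2 e1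
  rw [← hP, max_le_iff, max_le_iff, Nat.ceil_le] at P0
  obtain ⟨⟨PY, P16⟩, Pκ⟩ := P0
  have P8 : P ^ 8 ≤ N := Nat.pow_nthRoot_le (.inl (by norm_num))
  have P10 : N ≤ P ^ 10 := by
    refine (Nat.lt_pow_nthRoot_add_one (n := 8) (by norm_num) N).le.trans ?_
    calc (P + 1) ^ 8 ≤ (2 * P) ^ 8 := by gcongr; omega
      _ = 16 ^ 2 * P ^ 8 := by ring
      _ ≤ P ^ 2 * P ^ 8 := by gcongr
      _ = _ := by ring
  have WP : W ≤ P := (Nat.pow_le_pow_iff_left (by norm_num)).1 (hW.trans P10)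
  have P16' : (16 : ℝ) ≤ P := by exact_mod_cast P16
  have P8' : (P : ℝ) ^ 8 ≤ N := by exact_mod_cast P8
  have P10' : (N : ℝ) ≤ P ^ 10 := by exact_mod_cast P10
  have WP' : (W : ℝ) ≤ P := by exact_mod_cast WP
  have W0' : (0 : ℝ) < W := by exact_mod_cast W0
  have N0 : (16 : ℝ) ^ 2 ≤ N := le_trans (by norm_num) ((pow_le_pow_left₀ (by norm_num) P16' 8).trans P8')
  set L := Real.log P with hLP
  have L0 : 0 < L := Real.log_pos (by linarith)
  have L1 : 1 ≤ κ * L := by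
    rw [← div_le_iff₀' κ0]; exact (Real.le_log_iff_exp_le (by linarith)).2 Pκ
  set J := ⌈κ * L⌉₊ with hJ
  have J1 : κ * L ≤ J := Nat.le_ceil _
  have J2 : J ≤ 2 * (κ * L) := by
    have := Nat.ceil_lt_add_one (show 0 ≤ κ * L by positivity); linarith
  set Z : ℝ := N / W with hZ
  set S := S₀ ∪ (range J).biUnion fun v => PS (P * 2 ^ v) with hSdef
  have hS : ∀ p ∈ S, p.Prime ∧ p % 4 = 1 := fun p hp => by
    rcases mem_union.1 hp with h | h
    · exact hS₀ p h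
    · obtain ⟨v, -, hv⟩ := mem_biUnion.1 h; exact (mem_PS.1 hv).2
  have hσS : ∑ p ∈ S, (1 : ℝ) / p ≤ σ₀ := by
    refine (sum_union_le' _ _ _ fun i => by positivity).trans ?_
    have a := sum_inv_biUnion (P := P) (by omega) J
    have b : J * (3 / L) ≤ 2 * (κ * L) * (3 / L) := by gcongr
    have e : 2 * (κ * L) * (3 / L) = 6 * κ := by field_simp; norm_num
    linarith
  have ZP : N / P ≤ Z := by rw [hZ]; gcongr
  have Z1 : 1 ≤ Z := le_trans (by
    rw [le_div_iff₀ (by linarith), one_mul]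
    exact (le_self_pow₀ (by linarith) (by norm_num)).trans P8') ZP
  clear_value Z J κ
  have key : ∀ v ∈ range J, c₀ * Z / (16 * L) ≤
      (PS (P * 2 ^ v)).card * ∑ b ∈ Bset (xv Z P v) C₀ D S, om (xv Z P v) b ∧
      ∀ U : Finset ℤ, U ⊆ (Icc (-(N : ℤ)) N).erase 0 →
        (U.card : ℝ) ≤ 1080 * (N : ℝ) ^ (10 * (c / 60)) → ∑ k ∈ U, ‖Q (P * 2 ^ v) k *
          ∑ b ∈ Bset (xv Z P v) C₀ D S, ((om (xv Z P v) b * lam b : ℝ) : ℂ) * chi k b‖ ^ 2 ≤
          (c₀ * Z / (16 * L)) ^ 2 / 4 := by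
    intro v hv
    have hPY : P ≤ P * 2 ^ v := Nat.le_mul_of_pos_right _ (by positivity)
    have hYP : ((P * 2 ^ v : ℕ) : ℝ) ≤ P ^ 2 := by
      have hv' : (v : ℝ) ≤ J := by exact_mod_cast (mem_range.1 hv).le
      have : (2 : ℝ) ^ v ≤ P := by
        calc (2 : ℝ) ^ v ≤ Real.exp 1 ^ v := by
              gcongr; linarith [Real.add_one_le_exp 1]
          _ = Real.exp v := by rw [← Real.exp_nat_mul, mul_one]
          _ ≤ Real.exp L := Real.exp_le_exp.2 (by nlinarith)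
          _ = P := Real.exp_log (by linarith)
      push_cast; rw [sq]; gcongr
    have hxe : Real.exp (xv Z P v) = Z / (P * 2 ^ v : ℕ) := Real.exp_log (by positivity)
    generalize xv Z P v = x at *
    generalize P * 2 ^ v = Y at *
    have hPY' : (P : ℝ) ≤ Y := by exact_mod_cast hPY
    have Y0 : (0 : ℝ) < Y := by linarith
    have l1 : L ≤ Real.log Y := Real.log_le_log (by linarith) hPY'
    have l2 : Real.log Y ≤ 2 * L := by
      have := Real.log_le_log Y0 hYP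
      rwa [Real.log_pow, Nat.cast_ofNat] at this
    set M := Real.exp x with hM
    have M0 : 0 < M := Real.exp_pos _
    have MY : Z = M * Y := by rw [hxe]; field_simp
    have M2 : (N : ℝ) ≤ M ^ 2 := by
      have a : N / P / P ^ 2 ≤ M := by rw [hxe]; gcongr
      refine le_trans ?_ (pow_le_pow_left₀ (by positivity) a 2)
      rw [div_div, div_pow, le_div_iff₀ (by positivity), sq (N : ℝ)]
      gcongr
      exact le_trans (by rw [← pow_succ', ← pow_mul]; gcongr <;> linarith) P8'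
    have Mx : M ^ 2 = Real.exp (2 * x) := by rw [hM, ← Real.exp_nat_mul]; norm_num
    have M16 : 16 ≤ M := le_of_sq_le_sq (N0.trans M2) M0.le
    obtain ⟨b1, b2⟩ := hx₀ x (by
      have := Real.exp_le_exp.1 (e2.trans (M2.trans Mx.le)); linarith) S hS hσS
    obtain ⟨a1, a2⟩ := hY₀ Y (PY.trans hPY)
    refine ⟨le_trans ?_ (mul_le_mul a2 b1 (by positivity) (Nat.cast_nonneg _)), fun U hU hc => ?_⟩
    · calc c₀ * Z / (16 * L) = Y / (8 * (2 * L)) * (c₀ * M) := by rw [MY]; ring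
        _ ≤ _ := by gcongr; linarith
    have hk : ∀ k ∈ U, k ≠ 0 ∧ |(k : ℝ)| ≤ N := fun k hk => by
      obtain ⟨h1, h2⟩ := mem_erase.1 (hU hk)
      exact ⟨h1, by exact_mod_cast abs_le.2 (mem_Icc.1 h2)⟩
    have hkl : ∀ k ∈ U, ∀ l ∈ U, |(k : ℝ) - l| ≤ 2 * N := fun k h l h' => by
      have := abs_sub (k : ℝ) l; have := (hk k h).2; have := (hk l h').2; linarith
    set y := ⌊C₀ * M⌋₊ with hy
    have y1 : (y : ℝ) ≤ C₀ * M := Nat.floor_le (by positivity)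
    have y2 : M / 2 ≤ y := by
      have := Nat.lt_floor_add_one (C₀ * M); nlinarith
    have y3 : 2 * (N : ℝ) ≤ y ^ 3 := by
      calc 2 * (N : ℝ) ≤ 8 * (M / 2) ^ 2 := by linarith
        _ ≤ y * y ^ 2 := by gcongr; linarith
        _ = _ := by ring
    have y0 : (0 : ℝ) < y := by linarith
    refine (onU U _ _ (fun b hb => (mem_Bset hb).1) (fun b _ => ?_) (E := CE * (y : ℝ) ^ (1 - c))
      (by positivity) (fun k h l h' hne => hE y _ (by exact_mod_cast y0) (sub_ne_zero.2 hne)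
        (by push_cast; exact (hkl k h l h').trans y3)) ?_ (Q Y)
      (fun k => (norm_Q_le Y k).trans (card_PS_upper (by omega)))
      (a1 _ (fun k h l h' => ?_) fun k h => (mem_filter.1 h).2)
      fun k h => b2 k (hk k h).1 ((hk k h).2.trans (M2.trans Mx.le))).trans ?_
    · rw [Complex.norm_real, Real.norm_eq_abs, abs_mul, abs_lam, mul_one, abs_of_nonneg (om_nonneg _ _)]
      exact om_le_two _ _
    · have h1 : (N : ℝ) ^ (c / 6) * (N : ℝ) ^ (c / 6) ≤ (y : ℝ) ^ c := by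
        rw [← Real.rpow_add (by linarith), show c / 6 + c / 6 = c / 3 by ring]
        refine (Real.rpow_le_rpow (by positivity) (show (N : ℝ) ≤ y ^ 3 by linarith)
          (by positivity)).trans (le_of_eq ?_)
        rw [← Real.rpow_natCast, ← Real.rpow_mul y0.le]; congr 1; push_cast; ring
      rw [show 10 * (c / 60) = c / 6 by ring] at hc
      calc U.card * (CE * (y : ℝ) ^ (1 - c)) ≤ 1080 * (N : ℝ) ^ (c / 6) * (CE * (y : ℝ) ^ (1 - c)) := by
            gcongr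
        _ = (N : ℝ) ^ (c / 6) * (1080 * CE) * (y : ℝ) ^ (1 - c) := by ring
        _ ≤ (y : ℝ) ^ c * (y : ℝ) ^ (1 - c) := by gcongr; exact le_trans (by gcongr) h1
        _ = y := by rw [← Real.rpow_add y0]; simp
    · have := hkl k (mem_filter.1 h).1 l (mem_filter.1 h').1
      rw [← sq_abs]
      calc |(k : ℝ) - l| ^ 2 ≤ ((P : ℝ) * P ^ 10) ^ 2 := by gcongr; exact this.trans (by gcongr; linarith)
        _ = (P : ℝ) ^ 22 := by ring
        _ ≤ _ := by gcongr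
    · have lY : 0 < Real.log Y := by linarith
      calc _ ≤ (c₁ / C₀ * Y / L) ^ 2 * (360 * (C₀ * M) ^ 2) +
            C' / (c₁ / C₀) ^ 2 * (3 * Y / L * (c₂ / C₀ * M)) ^ 2 := by gcongr
        _ = (Z / L) ^ 2 * (360 * c₁ ^ 2 + 9 * C' * c₂ ^ 2 / c₁ ^ 2) := by
            rw [MY]; field_simp; ring
        _ ≤ (Z / L) ^ 2 * (c₀ ^ 2 / 1024) := by gcongr
        _ = _ := by field_simp; norm_num
  have hm : J * (c₀ * Z / (16 * L)) ≤ ∑ t ∈ T3 Z C₀ D P J S, om (xv Z P t.1) t.2.2 := by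
    rw [mass_T3]
    simpa using card_nsmul_le_sum _ _ _ fun v hv => (key v hv).1
  refine ⟨_, _, _, _, S, core_T3 (J := J) (P := P) hS Z1 hC (by omega) fun v hv =>
    (subset_biUnion_of_mem (fun v => PS (P * 2 ^ v)) (mem_range.2 hv)).trans subset_union_right,
    subset_union_left, le_trans ?_ hm, fun U hU hc => ?_⟩
  · calc min 1 (κ * c₀ / 16) * Z ≤ κ * c₀ / 16 * Z := by gcongr; exact min_le_right _ _
      _ = κ * L * (c₀ * Z / (16 * L)) := by field_simp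
      _ ≤ _ := by gcongr
  · simp only [Vp_T3]
    calc _ ≤ ∑ k ∈ U, J * ∑ v ∈ range J, ‖Q (P * 2 ^ v) k * ∑ b ∈ Bset (xv Z P v) C₀ D S,
          ((om (xv Z P v) b * lam b : ℝ) : ℂ) * chi k b‖ ^ 2 := sum_le_sum fun k _ =>
          (pow_le_pow_left₀ (norm_nonneg _) (norm_sum_le _ _) 2).trans
            (sq_sum_le_card_mul_sum_sq.trans (by rw [card_range]))
      _ ≤ J * (J * ((c₀ * Z / (16 * L)) ^ 2 / 4)) := by
          rw [← mul_sum, sum_comm]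
          gcongr
          simpa using sum_le_card_nsmul _ _ _ fun v hv => (key v hv).2 U hU hc
      _ = (J * (c₀ * Z / (16 * L))) ^ 2 / 4 := by ring
      _ ≤ _ := by gcongr

end Pool.Agent.P.MP_a1177c_nt.MR
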