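import Pool.Agent.P.MP_a1177c_nt.MR.Euler

namespace Pool.Agent.P.MP_a1177c_nt.MR

open Finset Filter
open scoped ArithmeticFunction.vonMangoldt

namespace Typ

lemma nm_pos_real {y : ℕ} {a : G} (ha : a ∈ disc y) : (0 : ℝ) < nm a := by
  exact_mod_cast nm_pos (mem_disc.1 ha).1

lemma one_le_nm_real {y : ℕ} {a : G} (ha : a ∈ disc y) : (1 : ℝ) ≤ nm a := by
  exact_mod_cast nm_pos (mem_disc.1 ha).1

open Classical in
/-- The convolution identity for `log N`. -/
lemma sum_log_mul (y : ℕ) (F : G → ℝ) :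
    ∑ a ∈ disc y, Real.log (nm a) * F a =
      ∑ d ∈ disc y, LamK d * ∑ b ∈ disc (y / nm d), F (d * b) := by
  have h1 : ∀ a ∈ disc y, Real.log (nm a) * F a =
      ∑ d ∈ disc y, if d ∣ a then LamK d * F a else 0 := by
    intro a ha
    obtain ⟨ha0, hay⟩ := mem_disc.1 ha
    rw [← sum_LamK_dvd ha0, ← sum_filter, sum_mul]
    refine sum_congr ?_ fun _ _ => rfl
    ext d
    simp only [mem_filter, mem_disc]
    constructor
    · rintro ⟨⟨h, h'⟩, hd⟩; exact ⟨⟨h, h'.trans hay⟩, hd⟩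
    · rintro ⟨⟨h, -⟩, hd⟩; exact ⟨⟨h, nm_le_of_dvd ha0 hd⟩, hd⟩
  rw [sum_congr rfl h1, sum_comm]
  refine sum_congr rfl fun d hd => ?_
  rw [← sum_filter, ← mul_sum, sum_disc_dvd y (mem_disc.1 hd).1 F]

lemma sum_swap (y : ℕ) (F : G → G → ℝ) :
    ∑ d ∈ disc y, ∑ b ∈ disc (y / nm d), F d b = ∑ b ∈ disc y, ∑ d ∈ disc (y / nm b), F d b := by
  refine sum_comm' fun d b => ?_
  simp only [mem_disc]
  constructor
  · rintro ⟨⟨hd, -⟩, hb, h⟩
    rw [Nat.le_div_iff_mul_le (nm_pos hd)] at h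
    refine ⟨⟨hd, ?_⟩, hb, ?_⟩
    · rw [Nat.le_div_iff_mul_le (nm_pos hb), mul_comm]; exact h
    · exact (Nat.le_mul_of_pos_right _ (nm_pos hd)).trans h
  · rintro ⟨⟨hd, h⟩, hb, -⟩
    rw [Nat.le_div_iff_mul_le (nm_pos hb)] at h
    refine ⟨⟨hd, (Nat.le_mul_of_pos_right _ (nm_pos hb)).trans h⟩, hb, ?_⟩
    rw [Nat.le_div_iff_mul_le (nm_pos hd), mul_comm]; exact h

/-- Splitting a sum over a disc into dyadic blocks. -/
lemma sum_blocks (y : ℕ) (F : G → ℝ) :
    ∑ a ∈ disc y, F a = ∑ i ∈ range (Nat.log 2 y + 1),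
      ∑ a ∈ (disc y).filter (fun a => Nat.log 2 (nm a) = i), F a := by
  rw [sum_fiberwise_of_maps_to]
  intro a ha
  exact mem_range.2 (Nat.lt_succ_of_le (Nat.log_mono_right (mem_disc.1 ha).2))

lemma block_subset (y i : ℕ) :
    (disc y).filter (fun a => Nat.log 2 (nm a) = i) ⊆ disc (2 ^ (i + 1)) := by
  intro a ha
  obtain ⟨h1, h2⟩ := mem_filter.1 ha
  refine mem_disc.2 ⟨(mem_disc.1 h1).1, ?_⟩
  rw [← h2]
  exact (Nat.lt_pow_succ_log_self (by norm_num) _).le

lemma block_lower {y i : ℕ} {a : G}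
    (ha : a ∈ (disc y).filter (fun a => Nat.log 2 (nm a) = i)) : (2 : ℝ) ^ i ≤ nm a := by
  obtain ⟨h1, h2⟩ := mem_filter.1 ha
  have := Nat.pow_log_le_self 2 (nm_pos (mem_disc.1 h1).1).ne'
  rw [h2] at this
  exact_mod_cast this

lemma sum_inv_sq_le (y : ℕ) : ∑ a ∈ disc y, 1 / (nm a : ℝ) ^ 2 ≤ 36 := by
  rw [sum_blocks]
  have h : ∀ i ∈ range (Nat.log 2 y + 1),
      ∑ a ∈ (disc y).filter (fun a => Nat.log 2 (nm a) = i), 1 / (nm a : ℝ) ^ 2 ≤
        18 * (1 / 2 : ℝ) ^ i := by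
    intro i _
    have h1 : ∀ a ∈ (disc y).filter (fun a => Nat.log 2 (nm a) = i),
        1 / (nm a : ℝ) ^ 2 ≤ 1 / ((2 : ℝ) ^ i) ^ 2 := by
      intro a ha
      have := block_lower ha
      gcongr
    refine (sum_le_card_nsmul _ _ _ h1).trans ?_
    have h2 : (((disc y).filter (fun a => Nat.log 2 (nm a) = i)).card : ℝ) ≤ 9 * 2 ^ (i + 1) := by
      exact_mod_cast (card_le_card (block_subset y i)).trans (card_disc_le _)
    rw [nsmul_eq_mul]
    calc _ ≤ (9 * 2 ^ (i + 1) : ℝ) * (1 / ((2 : ℝ) ^ i) ^ 2) := by gcongr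
      _ = 18 * (1 / 2 : ℝ) ^ i := by
        rw [one_div_pow]; field_simp; ring
  refine (sum_le_sum h).trans ?_
  rw [← mul_sum]
  have := sum_geometric_two_le (Nat.log 2 y + 1)
  linarith

lemma Om_prime_pow {p : G} (hp : Prime p) (j : ℕ) : Om (p ^ j) = j := by
  rw [Om, UniqueFactorizationMonoid.normalizedFactors_pow,
    UniqueFactorizationMonoid.normalizedFactors_irreducible hp.irreducible]
  simp

lemma two_le_nm_of_prime {p : G} (hp : Prime p) : 2 ≤ nm p := by
  have h1 := nm_pos hp.ne_zero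
  have h2 : nm p ≠ 1 := fun h => hp.not_isUnit (nm_eq_one_iff.1 h)
  omega

open Classical in
/-- The contribution of proper prime powers is bounded. -/
lemma tail_le (y : ℕ) : ∑ d ∈ (disc y).filter (fun d => 2 ≤ Om d),
    LamK d / (nm d * Real.log (nm d)) * (9 / 8 : ℝ) ^ Om d ≤ 108 := by
  set t : G → ℝ := fun d => (9 / 8 : ℝ) ^ Om d / nm d with ht
  set P := (disc y).filter (fun p : G => Prime p) with hP
  set I := (P ×ˢ range y).image (fun q : G × ℕ => q.1 ^ (q.2 + 2)) with hI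
  have ht0 : ∀ d, 0 ≤ t d := fun d => by positivity
  have h1 : ∑ d ∈ (disc y).filter (fun d => 2 ≤ Om d),
      LamK d / (nm d * Real.log (nm d)) * (9 / 8 : ℝ) ^ Om d ≤
      ∑ d ∈ (disc y).filter (fun d => 2 ≤ Om d), if d ∈ I then t d else 0 := by
    refine sum_le_sum fun d hd => ?_
    obtain ⟨hd1, hd2⟩ := mem_filter.1 hd
    by_cases h : ∃ p : G, ∃ j : ℕ, IsP p ∧ 0 < j ∧ d = p ^ j
    · have hL : LamK d = Real.log (nm d) / Om d := by rw [LamK, if_pos h]
      obtain ⟨p, j, hp, hj, rfl⟩ := h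
      have hOm := Om_prime_pow hp.1 j
      have h2 := two_le_nm_of_prime hp.1
      have hy := (mem_disc.1 hd1).2
      have hmem : p ^ j ∈ I := by
        refine mem_image.2 ⟨(p, j - 2), mem_product.2 ⟨mem_filter.2 ⟨mem_disc.2 ⟨hp.1.ne_zero, ?_⟩,
          hp.1⟩, mem_range.2 ?_⟩, ?_⟩
        · exact (nm_le_of_dvd (mem_disc.1 hd1).1 (dvd_pow_self p hj.ne')).trans hy
        · have h3 : j < 2 ^ j := Nat.lt_two_pow_self
          have h4 : 2 ^ j ≤ nm p ^ j := Nat.pow_le_pow_left h2 j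
          rw [nm_pow] at hy
          simp only
          omega
        · simp only
          congr 1
          omega
      rw [if_pos hmem, hL, ht]
      have hN : (1 : ℝ) ≤ nm (p ^ j) := one_le_nm_real hd1
      have hlog : 0 ≤ Real.log (nm (p ^ j)) := Real.log_nonneg hN
      have hO : (1 : ℝ) ≤ Om (p ^ j) := by exact_mod_cast (by omega : 1 ≤ Om (p ^ j))
      simp only
      rw [div_eq_mul_inv ((9 / 8 : ℝ) ^ _), mul_comm ((9 / 8 : ℝ) ^ _)]
      gcongr
      rcases hlog.eq_or_lt with h0 | h0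
      · rw [← h0]; simp
      · rw [div_div, div_le_iff₀ (by positivity)]
        field_simp
        exact hO
    · rw [LamK, if_neg h]
      simp only [zero_div, zero_mul]
      split_ifs
      · exact ht0 _
      · exact le_rfl
  refine h1.trans ?_
  rw [← sum_filter]
  have h2 : ∑ d ∈ ((disc y).filter (fun d => 2 ≤ Om d)).filter (fun d => d ∈ I), t d ≤
      ∑ d ∈ I, t d :=
    sum_le_sum_of_subset_of_nonneg (fun d hd => (mem_filter.1 hd).2) fun d _ _ => ht0 d
  refine h2.trans ((sum_image_le_of_nonneg fun d _ => ht0 d).trans ?_)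
  rw [sum_product]
  have h3 : ∀ p ∈ P, ∑ j ∈ range y, t (p ^ (j + 2)) ≤ 3 * (1 / (nm p : ℝ) ^ 2) := by
    intro p hp
    have hp' := (mem_filter.1 hp).2
    have h2 : (2 : ℝ) ≤ nm p := by exact_mod_cast two_le_nm_of_prime hp'
    have h4 : ∀ j ∈ range y, t (p ^ (j + 2)) ≤
        (81 / 64 * (1 / (nm p : ℝ) ^ 2)) * (9 / 16 : ℝ) ^ j := by
      intro j _
      simp only [ht]
      rw [Om_prime_pow hp', nm_pow]
      push_cast
      have h5 : (2 : ℝ) ^ j ≤ (nm p : ℝ) ^ j := by gcongr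
      have e : (9 / 16 : ℝ) ^ j = (9 / 8) ^ j / 2 ^ j := by
        rw [← div_pow]; norm_num
      rw [e, pow_add, pow_add]
      calc (9 / 8 : ℝ) ^ j * (9 / 8) ^ 2 / ((nm p : ℝ) ^ j * (nm p : ℝ) ^ 2)
          ≤ (9 / 8 : ℝ) ^ j * (9 / 8) ^ 2 / ((2 : ℝ) ^ j * (nm p : ℝ) ^ 2) := by gcongr
        _ = _ := by field_simp; ring
    refine (sum_le_sum h4).trans ?_
    rw [← mul_sum]
    have h6 : ∑ j ∈ range y, (9 / 16 : ℝ) ^ j ≤ 16 / 7 := by
      rw [geom_sum_eq (by norm_num)]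
      have : (0 : ℝ) ≤ (9 / 16) ^ y := by positivity
      rw [div_le_iff_of_neg (by norm_num)]
      linarith
    have h7 : (0 : ℝ) ≤ 1 / (nm p : ℝ) ^ 2 := by positivity
    nlinarith
  refine (sum_le_sum h3).trans ?_
  rw [← mul_sum]
  have h8 : ∑ p ∈ P, 1 / (nm p : ℝ) ^ 2 ≤ ∑ p ∈ disc y, 1 / (nm p : ℝ) ^ 2 :=
    sum_le_sum_of_subset_of_nonneg (filter_subset _ _) fun _ _ _ => by positivity
  have := sum_inv_sq_le y
  linarith

lemma LamK_eq_mul (d : G) :
    LamK d = LamK d / Real.log (nm d) * Real.log (nm d) := by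
  by_cases h : Real.log (nm d) = 0
  · have : LamK d = 0 := by
      rw [LamK]; split_ifs
      · rw [h, zero_div]
      · rfl
    rw [this]; simp
  · field_simp

/-- The logarithmic mean of `z ^ Om` against the exponential of its prime power part. -/
lemma logmean_le_exp {z : ℝ} (hz : 0 ≤ z) (y : ℕ) :
    ∑ a ∈ disc y, z ^ Om a / nm a ≤
      9 * Real.exp (∑ d ∈ disc y, LamK d / (nm d * Real.log (nm d)) * z ^ Om d) := by
  set E : G → ℝ → ℝ := fun a s => Real.exp (-(s * Real.log (nm a))) with hE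
  set T : ℝ → ℝ := fun s => ∑ a ∈ disc y, z ^ Om a * E a s with hT
  set R : ℝ → ℝ := fun s => ∑ d ∈ disc y, LamK d / Real.log (nm d) * z ^ Om d * E d s with hR
  set T' : ℝ → ℝ := fun s => ∑ a ∈ disc y, Real.log (nm a) * (z ^ Om a * E a s) with hT'
  set P : ℝ → ℝ := fun s => ∑ d ∈ disc y, LamK d * (z ^ Om d * E d s) with hP
  have hE0 : ∀ a s, 0 < E a s := fun a s => Real.exp_pos _
  have hEd : ∀ a s, HasDerivAt (E a) (-(Real.log (nm a) * E a s)) s := by
    intro a s
    have := (((hasDerivAt_id' s).mul_const (Real.log (nm a))).fun_neg).exp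
    refine this.congr_deriv ?_
    simp only [hE]
    ring
  have hTd : ∀ s, HasDerivAt T (-T' s) s := by
    intro s
    have := HasDerivAt.fun_sum (u := disc y) fun a _ => (hEd a s).const_mul (z ^ Om a)
    refine this.congr_deriv ?_
    simp only [hT']
    rw [← sum_neg_distrib]
    exact sum_congr rfl fun a _ => by ring
  have hRd : ∀ s, HasDerivAt R (-P s) s := by
    intro s
    have := HasDerivAt.fun_sum (u := disc y) fun d _ =>
      (hEd d s).const_mul (LamK d / Real.log (nm d) * z ^ Om d)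
    refine this.congr_deriv ?_
    simp only [hP]
    rw [← sum_neg_distrib]
    refine sum_congr rfl fun d _ => ?_
    conv_rhs => rw [LamK_eq_mul d]
    ring
  have hkey : ∀ s, T' s ≤ P s * T s := by
    intro s
    simp only [hT', hP]
    rw [sum_log_mul, sum_mul]
    refine sum_le_sum fun d hd => ?_
    rw [mul_assoc]
    refine mul_le_mul_of_nonneg_left ?_ (LamK_nonneg d)
    simp only [hT]
    rw [mul_sum]
    have hd0 := (mem_disc.1 hd).1
    calc ∑ b ∈ disc (y / nm d), z ^ Om (d * b) * E (d * b) s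
        = ∑ b ∈ disc (y / nm d), z ^ Om d * E d s * (z ^ Om b * E b s) := by
          refine sum_congr rfl fun b hb => ?_
          have hb0 := (mem_disc.1 hb).1
          have e : E (d * b) s = E d s * E b s := by
            simp only [hE]
            rw [← Real.exp_add, nm_mul, Nat.cast_mul,
              Real.log_mul (nm_pos_real hd).ne' (nm_pos_real hb).ne']
            congr 1; ring
          rw [Om_mul hd0 hb0, pow_add, e]; ring
      _ ≤ _ := sum_le_sum_of_subset_of_nonneg (disc_mono (Nat.div_le_self _ _)) fun b _ _ => by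
          have := hE0 d s; have := hE0 b s; positivity
  have hmono : Monotone fun s => T s * Real.exp (-R s) := by
    refine monotone_of_hasDerivAt_nonneg
      (f' := fun s => -T' s * Real.exp (-R s) + T s * (Real.exp (-R s) * P s)) (fun s => ?_)
      fun s => ?_
    · have := (hTd s).fun_mul (hRd s).fun_neg.exp
      refine this.congr_deriv ?_
      simp
    · have h1 := hkey s
      have h2 := Real.exp_pos (-R s)
      simp only [Pi.zero_apply]
      nlinarith
  have hR0 : ∀ s, 0 ≤ R s := fun s => sum_nonneg fun d hd => by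
    have := LamK_nonneg d
    have := Real.log_nonneg (one_le_nm_real hd)
    have := hE0 d s
    positivity
  have hT0 : ∀ s, 0 ≤ T s := fun s => sum_nonneg fun a _ => by
    have := hE0 a s
    positivity
  have hlim : Tendsto T atTop (nhds (∑ a ∈ disc y, if nm a = 1 then (1 : ℝ) else 0)) := by
    refine tendsto_finsetSum _ fun a ha => ?_
    split_ifs with h
    · have h2 := two_pow_Om_le (mem_disc.1 ha).1
      have h3 : Om a = 0 := by
        by_contra hc
        have : 2 ^ 1 ≤ 2 ^ Om a := Nat.pow_le_pow_right (by norm_num) (by omega)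
        omega
      simp [hE, h, h3]
    · have h1 : (1 : ℝ) < nm a := by
        have := nm_pos (mem_disc.1 ha).1
        exact_mod_cast (by omega : 1 < nm a)
      have h2 := Real.tendsto_exp_neg_atTop_nhds_zero.comp
        (tendsto_id.atTop_mul_const (Real.log_pos h1))
      simpa using h2.const_mul (z ^ Om a)
  have hL : ∑ a ∈ disc y, (if nm a = 1 then (1 : ℝ) else 0) ≤ 9 := by
    rw [← sum_filter, sum_const, nsmul_eq_mul, mul_one]
    have : ((disc y).filter fun a => nm a = 1).card ≤ 9 * 1 :=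
      (card_le_card fun a ha => mem_disc.2 ⟨(mem_disc.1 (mem_filter.1 ha).1).1,
        (mem_filter.1 ha).2.le⟩).trans (card_disc_le 1)
    exact_mod_cast this
  have h1 : T 1 * Real.exp (-R 1) ≤ 9 := by
    refine le_trans (ge_of_tendsto hlim ?_) hL
    filter_upwards [eventually_ge_atTop 1] with s hs
    refine (hmono hs).trans ?_
    exact mul_le_of_le_one_right (hT0 s) (Real.exp_le_one_iff.2 (by linarith [hR0 s]))
  have hE1 : ∀ a ∈ disc y, E a 1 = (nm a : ℝ)⁻¹ := fun a ha => by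
    simp only [hE]
    rw [one_mul, Real.exp_neg, Real.exp_log (nm_pos_real ha)]
  have e1 : ∑ a ∈ disc y, z ^ Om a / nm a = T 1 :=
    sum_congr rfl fun a ha => by rw [hE1 a ha, div_eq_mul_inv]
  have e2 : ∑ d ∈ disc y, LamK d / (nm d * Real.log (nm d)) * z ^ Om d = R 1 :=
    sum_congr rfl fun d hd => by
      rw [hE1 d hd, div_eq_mul_inv, div_eq_mul_inv, mul_inv]; ring
  rw [e1, e2]
  rw [Real.exp_neg, ← div_eq_mul_inv, div_le_iff₀ (Real.exp_pos _)] at h1
  exact h1

lemma logmean_le : ∃ C : ℝ, 0 < C ∧ ∀ z : ℝ, 0 ≤ z → z ≤ 9 / 8 → ∀ y : ℕ, 2 ≤ y →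
    ∑ a ∈ disc y, z ^ Om a / nm a ≤ C * Real.log y ^ z := by
  classical
  obtain ⟨M, hM⟩ := mertensK
  refine ⟨9 * Real.exp (9 / 8 * |M| + 108), by positivity, fun z hz hz' y hy => ?_⟩
  refine (logmean_le_exp hz y).trans ?_
  have hlog : 0 < Real.log y := Real.log_pos (by exact_mod_cast hy)
  rw [Real.rpow_def_of_pos hlog, mul_assoc, ← Real.exp_add]
  gcongr
  have h1 : ∑ d ∈ disc y, LamK d / (nm d * Real.log (nm d)) * z ^ Om d ≤
      ∑ d ∈ disc y, (z * (LamK d / (nm d * Real.log (nm d))) +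
        if 2 ≤ Om d then LamK d / (nm d * Real.log (nm d)) * (9 / 8 : ℝ) ^ Om d else 0) := by
    refine sum_le_sum fun d hd => ?_
    have h0 : 0 ≤ LamK d / (nm d * Real.log (nm d)) := by
      have := LamK_nonneg d
      have := Real.log_nonneg (one_le_nm_real hd)
      positivity
    split_ifs with h
    · have : z ^ Om d ≤ (9 / 8 : ℝ) ^ Om d := by gcongr
      nlinarith [mul_nonneg hz h0]
    · have : Om d = 0 ∨ Om d = 1 := by omega
      rcases this with h2 | h2
      · have : LamK d = 0 := by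
          rw [LamK]; split_ifs
          · rw [h2]; simp
          · rfl
        simp [this]
      · rw [h2, pow_one, add_zero, mul_comm]
  rw [sum_add_distrib, ← mul_sum, ← sum_filter] at h1
  have h2 := tail_le y
  have h3 := mul_le_mul_of_nonneg_left (hM y hy) hz
  have h4 : z * M ≤ 9 / 8 * |M| :=
    (mul_le_mul_of_nonneg_left (le_abs_self M) hz).trans (by gcongr)
  nlinarith

end Typ

open Typ

/-- Mean values of `z ^ Om`. -/
theorem sum_z_pow_Om : ∃ C : ℝ, 0 < C ∧ ∀ z : ℝ, 0 ≤ z → z ≤ 9 / 8 → ∀ y : ℕ, 2 ≤ y →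
    ∑ a ∈ disc y, z ^ Om a ≤ C * y * Real.log y ^ (z - 1) := by
  obtain ⟨C, hC, h⟩ := logmean_le
  obtain ⟨D, hD, hD'⟩ := cheb_z
  refine ⟨(D + 1) * C, by positivity, fun z hz hz' y hy => ?_⟩
  have hy0 : (0 : ℝ) < y := by exact_mod_cast (by omega : 0 < y)
  have hlog : 0 < Real.log y := Real.log_pos (by exact_mod_cast hy)
  set S := ∑ a ∈ disc y, z ^ Om a / nm a with hS
  have h1 : ∑ a ∈ disc y, Real.log (nm a) * z ^ Om a ≤ D * y * S := by
    rw [sum_log_mul]
    simp only [mul_sum]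
    rw [sum_swap y fun d b => LamK d * z ^ Om (d * b), hS, mul_sum]
    refine sum_le_sum fun b hb => ?_
    have hb0 := nm_pos_real hb
    calc ∑ d ∈ disc (y / nm b), LamK d * z ^ Om (d * b)
        = z ^ Om b * ∑ d ∈ disc (y / nm b), LamK d * z ^ Om d := by
          rw [mul_sum]
          refine sum_congr rfl fun d hd => ?_
          rw [Om_mul (mem_disc.1 hd).1 (mem_disc.1 hb).1, pow_add]; ring
      _ ≤ z ^ Om b * (D * ((y / nm b : ℕ) : ℝ)) := by
          gcongr; exact hD' z hz hz' _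
      _ ≤ z ^ Om b * (D * ((y : ℝ) / nm b)) := by
          gcongr; exact Nat.cast_div_le
      _ = _ := by field_simp
  have h2 : Real.log y * ∑ a ∈ disc y, z ^ Om a ≤
      ∑ a ∈ disc y, Real.log (nm a) * z ^ Om a + y * S := by
    rw [hS, mul_sum, mul_sum, ← sum_add_distrib]
    refine sum_le_sum fun a ha => ?_
    have ha0 := nm_pos_real ha
    have h3 : Real.log y ≤ Real.log (nm a) + y / nm a := by
      have := Real.log_le_sub_one_of_pos (div_pos hy0 ha0)
      rw [Real.log_div hy0.ne' ha0.ne'] at this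
      linarith
    calc Real.log y * z ^ Om a ≤ (Real.log (nm a) + y / nm a) * z ^ Om a := by gcongr
      _ = _ := by ring
  have h4 := h z hz hz' y hy
  rw [Real.rpow_sub_one hlog.ne', ← mul_div_assoc, le_div_iff₀ hlog]
  have h5 : (D + 1) * y * S ≤ (D + 1) * y * (C * Real.log y ^ z) := by gcongr
  nlinarith

namespace Typ

/-- Pairs of comparable norm. -/
noncomputable def RP (X w : ℕ) : Finset (G × G) :=
  (disc X ×ˢ disc X).filter fun e => nm e.1 ≤ w * nm e.2 ∧ nm e.2 ≤ w * nm e.1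

/-- The weight `2 ^ (-Om e) / N e`. -/
noncomputable def ph (e : G) : ℝ := (1 / 2 : ℝ) ^ Om e / nm e

/-- The bound for a dyadic block. -/
noncomputable def rh (i : ℕ) : ℝ := ((i + 1) * Real.log 2) ^ (-(1 / 2) : ℝ)

lemma ph_nonneg (e : G) : 0 ≤ ph e := by unfold ph; positivity

lemma rh_nonneg (i : ℕ) : 0 ≤ rh i := by
  have := Real.log_pos (show (1 : ℝ) < 2 by norm_num)
  unfold rh; positivity

lemma rh_anti {i j : ℕ} (h : j ≤ i) : rh i ≤ rh j := by
  have := Real.log_pos (show (1 : ℝ) < 2 by norm_num)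
  refine Real.rpow_le_rpow_of_nonpos (by positivity) ?_ (by norm_num)
  gcongr

lemma rh_sq (i : ℕ) : rh i * rh i ≤ 2 * ((i + 1 : ℕ) : ℝ)⁻¹ := by
  have h := Real.log_two_gt_d9
  have h0 : (0 : ℝ) < (i + 1) * Real.log 2 := by positivity
  rw [rh, ← Real.rpow_add h0, show (-(1 / 2) + -(1 / 2) : ℝ) = -1 by norm_num, Real.rpow_neg_one]
  push_cast
  rw [mul_inv, mul_comm]
  gcongr
  rw [inv_le_comm₀ (by linarith) (by norm_num)]
  linarith

open Classical in
lemma Delta2_le {X : ℕ} (w : ℕ) {a : G} (ha : a ∈ disc X) :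
    (1 / 2 : ℝ) ^ Om a * Delta2 w a ≤ ∑ e ∈ RP X w,
      if e.1 * e.2 ∣ a then 4 * ((1 / 2 : ℝ) ^ Om e.1 * (1 / 2 : ℝ) ^ Om e.2) else 0 := by
  obtain ⟨ha0, haX⟩ := mem_disc.1 ha
  have h1 : Delta2 w a ≤ ((RP X w ×ˢ disc X).filter fun t => t.1.1 * t.1.2 * t.2 ∣ a).card := by
    refine card_le_card_of_surjOn (fun t => (t.2 * t.1.1, t.2 * t.1.2)) ?_
    rintro ⟨q, q'⟩ hq
    simp only [coe_filter, mem_product, mem_disc, Set.mem_ofPred_eq] at hq
    obtain ⟨⟨⟨hq0, -⟩, -⟩, hqa, hqa', hw, hw'⟩ := hq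
    obtain ⟨e, e', g, hrel, rfl, rfl⟩ := UniqueFactorizationMonoid.exists_reduced_factors q hq0 q'
    have hg0 : g ≠ 0 := left_ne_zero_of_mul hq0
    have hdvd : e * e' * g ∣ a := by
      obtain ⟨m, hm⟩ := hqa
      have h2 : g * e' ∣ g * (e * m) := by rw [← mul_assoc, ← hm]; exact hqa'
      obtain ⟨k, rfl⟩ := hrel.symm.dvd_of_dvd_mul_left ((mul_dvd_mul_iff_left hg0).1 h2)
      exact ⟨k, by rw [hm]; ring⟩
    have hmem : ∀ x : G, x ∣ a → x ∈ disc X := fun x hx =>
      mem_disc.2 ⟨ne_zero_of_dvd_ne_zero ha0 hx, (nm_le_of_dvd ha0 hx).trans haX⟩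
    refine ⟨((e, e'), g), ?_, rfl⟩
    simp only [coe_filter, mem_product, RP, mem_filter, Set.mem_ofPred_eq]
    rw [nm_mul, nm_mul, mul_left_comm] at hw hw'
    refine ⟨⟨⟨⟨hmem _ ?_, hmem _ ?_⟩, Nat.le_of_mul_le_mul_left hw (nm_pos hg0),
      Nat.le_of_mul_le_mul_left hw' (nm_pos hg0)⟩, hmem _ ?_⟩, hdvd⟩
    · exact ((dvd_mul_right e e').mul_right g).trans hdvd
    · exact ((dvd_mul_left e' e).mul_right g).trans hdvd
    · exact (dvd_mul_left g _).trans hdvd
  have h2 : (Delta2 w a : ℝ) ≤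
      ∑ e ∈ RP X w, (((disc X).filter fun g => e.1 * e.2 * g ∣ a).card : ℝ) := by
    rw [card_filter, sum_product] at h1
    simp only [card_filter]
    exact_mod_cast h1
  refine (mul_le_mul_of_nonneg_left h2 (by positivity)).trans ?_
  rw [mul_sum]
  refine sum_le_sum fun e _ => ?_
  split_ifs with h
  · obtain ⟨b, rfl⟩ := h
    have he0 : e.1 * e.2 ≠ 0 := left_ne_zero_of_mul ha0
    have hb0 : b ≠ 0 := right_ne_zero_of_mul ha0
    have h3 : ((disc X).filter fun g => e.1 * e.2 * g ∣ e.1 * e.2 * b).card ≤ 4 * 2 ^ Om b := by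
      refine le_trans (card_le_card fun g hg => ?_) (card_divisors_le hb0)
      obtain ⟨hg1, hg2⟩ := mem_filter.1 hg
      have hgb := (mul_dvd_mul_iff_left he0).1 hg2
      exact mem_filter.2 ⟨mem_disc.2 ⟨(mem_disc.1 hg1).1, nm_le_of_dvd hb0 hgb⟩, hgb⟩
    have h4 : (((disc X).filter fun g => e.1 * e.2 * g ∣ e.1 * e.2 * b).card : ℝ) ≤
        4 * 2 ^ Om b := by exact_mod_cast h3
    refine (mul_le_mul_of_nonneg_left h4 (by positivity)).trans (le_of_eq ?_)
    rw [Om_mul he0 hb0, Om_mul (left_ne_zero_of_mul he0) (right_ne_zero_of_mul he0), pow_add,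
      pow_add, one_div_pow 2 (Om b)]
    field_simp
  · have : ((disc X).filter fun g => e.1 * e.2 * g ∣ a) = ∅ :=
      filter_eq_empty_iff.2 fun g _ hg => h ((dvd_mul_right _ g).trans hg)
    simp [this]

lemma sum_Delta2_le (X w : ℕ) : ∑ a ∈ disc X, (1 / 2 : ℝ) ^ Om a * Delta2 w a ≤
    36 * X * ∑ e ∈ RP X w, ph e.1 * ph e.2 := by
  classical
  refine (sum_le_sum fun a ha => Delta2_le w ha).trans ?_
  rw [sum_comm, mul_sum]
  refine sum_le_sum fun e he => ?_
  obtain ⟨h1, h2⟩ := mem_product.1 (mem_filter.1 he).1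
  have he0 : e.1 * e.2 ≠ 0 := mul_ne_zero (mem_disc.1 h1).1 (mem_disc.1 h2).1
  rw [← sum_filter, sum_const, nsmul_eq_mul]
  refine (mul_le_mul_of_nonneg_right (card_disc_dvd_le X he0) (by positivity)).trans (le_of_eq ?_)
  have := nm_pos_real h1
  have := nm_pos_real h2
  rw [nm_mul, ph, ph]
  push_cast
  field_simp
  ring

lemma block_le : ∃ C : ℝ, 0 < C ∧ ∀ (X : ℕ) (h : ℕ → ℝ), (∀ i, 0 ≤ h i) →
    ∑ e ∈ disc X, ph e * h (Nat.log 2 (nm e)) ≤
      ∑ i ∈ range (Nat.log 2 X + 1), C * rh i * h i := by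
  obtain ⟨C, hC, H⟩ := sum_z_pow_Om
  refine ⟨2 * C, by positivity, fun X h hh => ?_⟩
  rw [sum_blocks]
  refine sum_le_sum fun i _ => ?_
  have h1 : ∑ e ∈ (disc X).filter (fun a => Nat.log 2 (nm a) = i), ph e * h (Nat.log 2 (nm e)) ≤
      ∑ e ∈ (disc X).filter (fun a => Nat.log 2 (nm a) = i),
        (1 / 2 : ℝ) ^ Om e * (h i / 2 ^ i) := by
    refine sum_le_sum fun e he => ?_
    have h2 := block_lower he
    rw [(mem_filter.1 he).2, ph, div_mul_eq_mul_div, mul_div_assoc]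
    have := hh i
    gcongr
  refine h1.trans ?_
  rw [← sum_mul]
  have h2 : ∑ e ∈ (disc X).filter (fun a => Nat.log 2 (nm a) = i), (1 / 2 : ℝ) ^ Om e ≤
      ∑ e ∈ disc (2 ^ (i + 1)), (1 / 2 : ℝ) ^ Om e :=
    sum_le_sum_of_subset_of_nonneg (block_subset X i) fun _ _ _ => by positivity
  have h3 := H (1 / 2) (by norm_num) (by norm_num) (2 ^ (i + 1))
    (by calc 2 = 2 ^ 1 := rfl
      _ ≤ _ := Nat.pow_le_pow_right (by norm_num) (by omega))
  have e : Real.log ((2 ^ (i + 1) : ℕ) : ℝ) ^ ((1 / 2 : ℝ) - 1) = rh i := by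
    rw [rh]; push_cast; rw [Real.log_pow]; push_cast; norm_num
  rw [e] at h3
  have := hh i
  refine (mul_le_mul_of_nonneg_right (h2.trans h3) (by positivity)).trans (le_of_eq ?_)
  push_cast
  field_simp
  ring

lemma pair_sum_le : ∃ C : ℝ, 0 < C ∧ ∀ X w : ℕ, ∑ e ∈ RP X w, ph e.1 * ph e.2 ≤
    C * (Nat.log 2 w + 2) * (1 + Real.log (Nat.log 2 X + 1 : ℕ)) := by
  obtain ⟨C, hC, H⟩ := block_le
  refine ⟨4 * C ^ 2, by positivity, fun X w => ?_⟩
  set W := Nat.log 2 w + 1 with hW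
  set K := Nat.log 2 X + 1 with hK
  set ind : ℕ → ℕ → ℝ := fun j i => if j ≤ i ∧ i ≤ j + W then 1 else 0 with hind
  have hind0 : ∀ j i, 0 ≤ ind j i := fun j i => by simp only [hind]; split_ifs <;> norm_num
  set I : G → G → ℝ := fun a b => ph a * (ph b * ind (Nat.log 2 (nm a)) (Nat.log 2 (nm b))) with hI
  have hI0 : ∀ a b, 0 ≤ I a b := fun a b =>
    mul_nonneg (ph_nonneg a) (mul_nonneg (ph_nonneg b) (hind0 _ _))
  have hlog : ∀ m n : ℕ, n ≠ 0 → n ≤ w * m → Nat.log 2 n ≤ Nat.log 2 m + W := by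
    intro m n hn h
    have h1 : w < 2 ^ (Nat.log 2 w + 1) := Nat.lt_pow_succ_log_self (by norm_num) _
    have h2 : m < 2 ^ (Nat.log 2 m + 1) := Nat.lt_pow_succ_log_self (by norm_num) _
    have h3 : n < 2 ^ (Nat.log 2 m + W + 1) := by
      calc n ≤ w * m := h
        _ < 2 ^ (Nat.log 2 w + 1) * 2 ^ (Nat.log 2 m + 1) := Nat.mul_lt_mul'' h1 h2
        _ = _ := by rw [← pow_add]; congr 1; omega
    exact Nat.lt_succ_iff.1 (Nat.log_lt_of_lt_pow hn h3)
  have h1 : ∑ e ∈ RP X w, ph e.1 * ph e.2 ≤ ∑ e ∈ RP X w, (I e.1 e.2 + I e.2 e.1) := by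
    refine sum_le_sum fun e he => ?_
    obtain ⟨h1, h2, h3⟩ := mem_filter.1 he
    obtain ⟨h4, h5⟩ := mem_product.1 h1
    have h6 := hlog _ _ (nm_pos (mem_disc.1 h4).1).ne' h2
    have h7 := hlog _ _ (nm_pos (mem_disc.1 h5).1).ne' h3
    rcases le_total (Nat.log 2 (nm e.1)) (Nat.log 2 (nm e.2)) with h | h
    · have : I e.1 e.2 = ph e.1 * ph e.2 := by simp only [hI, hind]; rw [if_pos ⟨h, h7⟩, mul_one]
      linarith [hI0 e.2 e.1]
    · have : I e.2 e.1 = ph e.1 * ph e.2 := by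
        simp only [hI, hind]; rw [if_pos ⟨h, h6⟩, mul_one, mul_comm]
      linarith [hI0 e.1 e.2]
  have h2 : ∑ e ∈ RP X w, (I e.1 e.2 + I e.2 e.1) ≤
      ∑ e ∈ disc X ×ˢ disc X, (I e.1 e.2 + I e.2 e.1) :=
    sum_le_sum_of_subset_of_nonneg (filter_subset _ _) fun e _ _ => add_nonneg (hI0 _ _) (hI0 _ _)
  have e2 : ∑ e ∈ disc X ×ˢ disc X, (I e.1 e.2 + I e.2 e.1) =
      2 * ∑ a ∈ disc X, ∑ b ∈ disc X, I a b := by
    rw [sum_add_distrib, sum_product, sum_product_right, two_mul]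
  rw [e2] at h2
  have h3 : ∀ j, ∑ b ∈ disc X, ph b * ind j (Nat.log 2 (nm b)) ≤ (W + 1) * C * rh j := by
    intro j
    refine (H X (ind j) (hind0 j)).trans ?_
    have h4 : ∑ i ∈ range K, C * rh i * ind j i ≤
        ∑ i ∈ range K, if i ∈ Icc j (j + W) then C * rh j else 0 := by
      refine sum_le_sum fun i _ => ?_
      simp only [hind, mem_Icc]
      split_ifs with h
      · rw [mul_one]; exact mul_le_mul_of_nonneg_left (rh_anti h.1) hC.le
      · simp
    refine h4.trans ?_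
    rw [← sum_filter, sum_const, nsmul_eq_mul, mul_assoc]
    have h5 : ((range K).filter fun i => i ∈ Icc j (j + W)).card ≤ W + 1 := by
      refine (card_le_card fun i hi => (mem_filter.1 hi).2).trans ?_
      rw [Nat.card_Icc]; omega
    have := rh_nonneg j
    gcongr
    exact_mod_cast h5
  have h4 : ∑ a ∈ disc X, ∑ b ∈ disc X, I a b ≤ (W + 1) * C * (C * (2 * (1 + Real.log K))) := by
    calc ∑ a ∈ disc X, ∑ b ∈ disc X, I a b
        ≤ ∑ a ∈ disc X, (W + 1) * C * (ph a * rh (Nat.log 2 (nm a))) := by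
          refine sum_le_sum fun a _ => ?_
          simp only [hI]
          rw [← mul_sum]
          refine (mul_le_mul_of_nonneg_left (h3 _) (ph_nonneg a)).trans (le_of_eq ?_)
          ring
      _ ≤ (W + 1) * C * ∑ i ∈ range K, C * rh i * rh i := by
          rw [← mul_sum]
          exact mul_le_mul_of_nonneg_left (H X rh rh_nonneg) (by positivity)
      _ ≤ _ := by
          refine mul_le_mul_of_nonneg_left ?_ (by positivity)
          have h5 : ∑ i ∈ range K, C * rh i * rh i ≤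
              ∑ i ∈ range K, C * (2 * ((i + 1 : ℕ) : ℝ)⁻¹) :=
            sum_le_sum fun i _ => by
              rw [mul_assoc]; exact mul_le_mul_of_nonneg_left (rh_sq i) hC.le
          refine h5.trans ?_
          rw [← mul_sum, ← mul_sum]
          have h6 := harmonic_le_one_add_log K
          rw [harmonic] at h6
          push_cast at h6 ⊢
          gcongr
  have e : ((W : ℝ) + 1) = Nat.log 2 w + 2 := by rw [hW]; push_cast; ring
  rw [e] at h4
  linarith

lemma eventually_sq_le (C : ℝ) {δ : ℝ} (hδ : 0 < δ) :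
    ∀ᶠ l : ℝ in atTop, C * l ^ 2 ≤ Real.exp (δ * l) := by
  filter_upwards [eventually_ge_atTop (27 * C / δ ^ 3), eventually_ge_atTop 0] with l h1 h2
  have h3 : δ * l / 3 ≤ Real.exp (δ * l / 3) := by linarith [Real.add_one_le_exp (δ * l / 3)]
  have h4 : (δ * l / 3) ^ 3 ≤ Real.exp (δ * l / 3) ^ 3 := by gcongr
  rw [← Real.exp_nat_mul, show ((3 : ℕ) : ℝ) * (δ * l / 3) = δ * l by push_cast; ring] at h4
  refine le_trans ?_ h4
  rw [div_le_iff₀ (by positivity)] at h1
  have : (δ * l / 3) ^ 3 = l * δ ^ 3 / 27 * l ^ 2 := by ring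
  rw [this]
  gcongr
  linarith

lemma nat_log_le {n : ℕ} (hn : 1 ≤ n) : (Nat.log 2 n : ℝ) ≤ 2 * Real.log n := by
  have h1 : ((2 ^ Nat.log 2 n : ℕ) : ℝ) ≤ n := by
    exact_mod_cast Nat.pow_log_le_self 2 (by omega)
  have h2 := Real.log_le_log (by positivity) h1
  push_cast at h2
  rw [Real.log_pow] at h2
  have h := Real.log_two_gt_d9
  have h0 : (0 : ℝ) ≤ Nat.log 2 n := by positivity
  nlinarith

end Typ

/-- Few Gaussian integers have many pairs of divisors of comparable size. -/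
theorem atypical (ε : ℝ) (hε : 0 < ε) : ∃ c : ℝ, 0 < c ∧ ∀ᶠ X : ℕ in atTop, ∀ w : ℕ, 1 ≤ w →
    (w : ℝ) ≤ Real.log X →
    (((disc X).filter fun a => Real.log X ^ (Real.log 2 + ε) < (Delta2 w a : ℝ)).card : ℝ) ≤
      X / Real.log X ^ c := by
  obtain ⟨C, hC, H⟩ := sum_z_pow_Om
  obtain ⟨D, hD, HD⟩ := pair_sum_le
  set κ := min (1 / 8) (ε / 2) with hκ
  have hκ0 : 0 < κ := lt_min (by norm_num) (by positivity)
  have hκ1 : κ ≤ 1 / 8 := min_le_left _ _
  have hκ2 : κ ≤ ε / 2 := min_le_right _ _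
  set c₁ := (1 + κ) * Real.log (1 + κ) - κ with hc₁
  have hc₁0 : 0 < c₁ := by
    have h1 := Real.log_lt_sub_one_of_pos (x := (1 + κ)⁻¹) (by positivity)
      (by rw [Ne, inv_eq_one]; linarith)
    rw [Real.log_inv] at h1
    have h2 : (1 + κ) * (1 + κ)⁻¹ = 1 := mul_inv_cancel₀ (by positivity)
    have h3 := mul_lt_mul_of_pos_left h1 (show 0 < 1 + κ by positivity)
    rw [mul_sub, h2] at h3
    linarith
  set c := min c₁ (ε / 2) / 2 with hc
  have hm1 : min c₁ (ε / 2) ≤ c₁ := min_le_left _ _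
  have hm2 : min c₁ (ε / 2) ≤ ε / 2 := min_le_right _ _
  have hc0 : 0 < c := half_pos (lt_min hc₁0 (by positivity))
  refine ⟨c, hc0, ?_⟩
  have hlogX : Tendsto (fun X : ℕ => Real.log X) atTop atTop :=
    Real.tendsto_log_atTop.comp tendsto_natCast_atTop_atTop
  have hll : Tendsto (fun X : ℕ => Real.log (Real.log X)) atTop atTop :=
    Real.tendsto_log_atTop.comp hlogX
  filter_upwards [eventually_ge_atTop 2, hlogX.eventually_ge_atTop 1, hll.eventually_ge_atTop 1,
    hll.eventually (eventually_sq_le (2 * C) hc0),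
    hll.eventually (eventually_sq_le (2 * (36 * D * 16)) hc0)] with X hX hL hl hA hB w hw hwL
  set L := Real.log X with hLdef
  set l := Real.log L with hldef
  have hL0 : 0 < L := by linarith
  have hX0 : (0 : ℝ) < X := by exact_mod_cast (by omega : 0 < X)
  have hpow : ∀ t : ℝ, L ^ t = Real.exp (l * t) := fun t => Real.rpow_def_of_pos hL0 t
  have hz : 0 < Real.log (1 + κ) := Real.log_pos (by linarith)
  set u := Real.exp (-((1 + κ) * l * Real.log (1 + κ))) with hu
  set v := Real.exp (-(l * (ε / 2))) with hv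
  have hcount : (((disc X).filter fun a => L ^ (Real.log 2 + ε) < (Delta2 w a : ℝ)).card : ℝ) ≤
      ∑ a ∈ disc X, (u * (1 + κ) ^ Om a + v * ((1 / 2 : ℝ) ^ Om a * Delta2 w a)) := by
    rw [card_filter]
    push_cast
    refine sum_le_sum fun a _ => ?_
    have hu0 : 0 ≤ u * (1 + κ) ^ Om a := by positivity
    have hv0 : 0 ≤ v * ((1 / 2 : ℝ) ^ Om a * Delta2 w a) := by positivity
    split_ifs with h
    · rcases le_total ((1 + κ) * l) (Om a : ℝ) with h1 | h1
      · have : 1 ≤ u * (1 + κ) ^ Om a := by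
          rw [← Real.rpow_natCast, Real.rpow_def_of_pos (by positivity), hu, ← Real.exp_add]
          refine Real.one_le_exp ?_
          nlinarith
        linarith
      · have : 1 ≤ v * ((1 / 2 : ℝ) ^ Om a * Delta2 w a) := by
          have h2 : (1 / 2 : ℝ) ^ Om a = Real.exp (-(Om a * Real.log 2)) := by
            rw [Real.exp_neg, Real.exp_nat_mul, Real.exp_log (by norm_num), one_div, inv_pow]
          rw [hpow] at h
          refine le_trans ?_ (mul_le_mul_of_nonneg_left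
            (mul_le_mul_of_nonneg_left h.le (by positivity)) (by positivity))
          rw [h2, hv, ← Real.exp_add, ← Real.exp_add]
          refine Real.one_le_exp ?_
          have h3 := Real.log_two_gt_d9
          have h4 := Real.log_two_lt_d9
          have h5 : (Om a : ℝ) * Real.log 2 ≤ (1 + κ) * l * Real.log 2 := by gcongr
          have h6 : κ * Real.log 2 ≤ ε / 2 := by nlinarith
          have h7 : l * (κ * Real.log 2) ≤ l * (ε / 2) := by gcongr
          nlinarith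
        linarith
    · linarith
  rw [sum_add_distrib, ← mul_sum, ← mul_sum] at hcount
  refine hcount.trans ?_
  have hcl : Real.exp (c * l) * Real.exp (-(2 * c * l)) = Real.exp (-(l * c)) := by
    rw [← Real.exp_add]; congr 1; ring
  have hl2 : 1 ≤ l ^ 2 := one_le_pow₀ hl
  have h1 : u * ∑ a ∈ disc X, (1 + κ) ^ Om a ≤ X * Real.exp (-(l * c)) / 2 := by
    have h2 := H (1 + κ) (by positivity) (by linarith) X hX
    rw [← hLdef, hpow] at h2
    refine (mul_le_mul_of_nonneg_left h2 (by positivity)).trans ?_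
    have h3 : u * Real.exp (l * (1 + κ - 1)) ≤ Real.exp (-(2 * c * l)) := by
      rw [hu, ← Real.exp_add]
      refine Real.exp_le_exp.2 ?_
      have : 2 * c * l ≤ c₁ * l := by gcongr; linarith
      rw [hc₁] at this
      linarith
    have h4 : C ≤ Real.exp (c * l) / 2 := by nlinarith
    calc u * (C * X * Real.exp (l * (1 + κ - 1))) = X * (C * (u * Real.exp (l * (1 + κ - 1)))) := by
          ring
      _ ≤ X * (Real.exp (c * l) / 2 * Real.exp (-(2 * c * l))) := by gcongr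
      _ = _ := by rw [← hcl]; ring
  have h2 : v * ∑ a ∈ disc X, (1 / 2 : ℝ) ^ Om a * Delta2 w a ≤ X * Real.exp (-(l * c)) / 2 := by
    have h3 := sum_Delta2_le X w
    have h4 := HD X w
    have h5 : (Nat.log 2 w : ℝ) + 2 ≤ 4 * l := by
      have h6 := nat_log_le hw
      have h7 : Real.log w ≤ l := Real.log_le_log (by exact_mod_cast hw) hwL
      linarith
    have h6 : 1 + Real.log (Nat.log 2 X + 1 : ℕ) ≤ 4 * l := by
      have h7 := nat_log_le (show 1 ≤ X by omega)
      have h8 : ((Nat.log 2 X + 1 : ℕ) : ℝ) ≤ 3 * L := by push_cast; linarith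
      have h9 := Real.log_le_log (by positivity) h8
      rw [Real.log_mul (by norm_num) hL0.ne'] at h9
      have h10 := Real.log_le_sub_one_of_pos (show (0 : ℝ) < 3 by norm_num)
      linarith
    have h7 : 0 ≤ Real.log (Nat.log 2 X + 1 : ℕ) := Real.log_natCast_nonneg _
    have h8 : ∑ e ∈ RP X w, ph e.1 * ph e.2 ≤ D * (4 * l) * (4 * l) := h4.trans (by gcongr)
    have h9 : v ≤ Real.exp (-(2 * c * l)) := by
      refine Real.exp_le_exp.2 ?_
      have : 2 * c * l ≤ ε / 2 * l := by gcongr; linarith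
      linarith
    have h10 : 36 * (D * (4 * l) * (4 * l)) ≤ Real.exp (c * l) / 2 := by nlinarith
    calc v * ∑ a ∈ disc X, (1 / 2 : ℝ) ^ Om a * Delta2 w a
        ≤ v * (36 * X * (D * (4 * l) * (4 * l))) := by
          gcongr
          exact h3.trans (by gcongr)
      _ = X * (36 * (D * (4 * l) * (4 * l)) * v) := by ring
      _ ≤ X * (Real.exp (c * l) / 2 * Real.exp (-(2 * c * l))) := by gcongr
      _ = _ := by rw [← hcl]; ring
  rw [hpow c, div_eq_mul_inv (X : ℝ), ← Real.exp_neg]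
  linarith

end Pool.Agent.P.MP_a1177c_nt.MR
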