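import Pool.Agent.P.MP_a1177c_nt.MR.Defs

namespace Pool.Agent.P.MP_a1177c_nt.MR

open Finset Filter
open scoped ArithmeticFunction.vonMangoldt ComplexConjugate

namespace Vdc

lemma lip {g g' : ℝ → ℝ} {a b K x y : ℝ} (hd : ∀ x ∈ Set.Icc a b, HasDerivAt g (g' x) x)
    (hK : ∀ x ∈ Set.Icc a b, |g' x| ≤ K) (hx : x ∈ Set.Icc a b) (hy : y ∈ Set.Icc a b) :
    |g y - g x| ≤ K * |y - x| := by
  have := (convex_Icc a b).norm_image_sub_le_of_norm_hasDerivWithin_le (f := g) (f' := g')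
    (fun x hx => (hd x hx).hasDerivWithinAt) (fun x hx => by simpa using hK x hx) hx hy
  simpa using this

lemma mvt {g g' : ℝ → ℝ} {a b x h : ℝ} (hd : ∀ x ∈ Set.Icc a b, HasDerivAt g (g' x) x)
    (hh : 0 < h) (hx : a ≤ x) (hy : x + h ≤ b) :
    ∃ ξ ∈ Set.Icc a b, g (x + h) - g x = h * g' ξ := by
  obtain ⟨ξ, hξ, e⟩ := exists_hasDerivAt_eq_slope g g' (by linarith : x < x + h)
    (fun t ht => (hd t ⟨by linarith [ht.1], by linarith [ht.2]⟩).continuousAt.continuousWithinAt)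
    (fun t ht => hd t ⟨by linarith [ht.1], by linarith [ht.2]⟩)
  refine ⟨ξ, ⟨by linarith [hξ.1], by linarith [hξ.2]⟩, ?_⟩
  rw [e, add_sub_cancel_left]; field_simp

lemma abel (z c : ℕ → ℂ) (B : ℝ) (hz : ∀ n, ‖z n‖ ≤ 1) (l : ℕ)
    (hB : ∀ n, n < l → ‖c (n + 1) - c n‖ ≤ B) :
    ‖∑ n ∈ range (l + 1), c n * (z (n + 1) - z n) - c l * z (l + 1) + c 0 * z 0‖ ≤ l * B := by
  induction l with
  | zero => simp [mul_sub]
  | succ l ih =>
    have h1 := ih fun n hn => hB n (by omega)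
    have h2 := hB l (by omega)
    have e : ∑ n ∈ range (l + 1 + 1), c n * (z (n + 1) - z n) - c (l + 1) * z (l + 1 + 1) + c 0 * z 0
        = (∑ n ∈ range (l + 1), c n * (z (n + 1) - z n) - c l * z (l + 1) + c 0 * z 0)
          - (c (l + 1) - c l) * z (l + 1) := by
      rw [sum_range_succ _ (l + 1)]; ring
    rw [e]
    refine (norm_sub_le _ _).trans ?_
    rw [norm_mul]
    have h3 : ‖c (l + 1) - c l‖ * ‖z (l + 1)‖ ≤ B :=
      (mul_le_of_le_one_right (norm_nonneg _) (hz _)).trans h2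
    push_cast; linarith

lemma norm_e (t : ℝ) : ‖Complex.exp (Complex.I * t)‖ = 1 := by
  rw [mul_comm]; exact Complex.norm_exp_ofReal_mul_I t

lemma le_norm_sub_one {t : ℝ} (ht : |t| ≤ 3) : |t| / 2 ≤ ‖Complex.exp (Complex.I * t) - 1‖ := by
  rw [Complex.norm_exp_I_mul_ofReal_sub_one, Real.norm_eq_abs, abs_mul, abs_two]
  have hpi := Real.pi_gt_three
  have h4 := Real.pi_le_four
  have h1 : |t / 2| ≤ Real.pi / 2 := by rw [abs_div, abs_two]; linarith
  have h2 := Real.mul_abs_le_abs_sin h1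
  rw [abs_div, abs_two] at h2
  have h3 : (1 / 2 : ℝ) ≤ 2 / Real.pi := by rw [le_div_iff₀ (by linarith)]; linarith
  have h5 : 1 / 2 * (|t| / 2) ≤ 2 / Real.pi * (|t| / 2) :=
    mul_le_mul_of_nonneg_right h3 (by positivity)
  linarith

lemma norm_e_sub (s t : ℝ) :
    ‖Complex.exp (Complex.I * s) - Complex.exp (Complex.I * t)‖ ≤ |s - t| := by
  have e : Complex.exp (Complex.I * s) - Complex.exp (Complex.I * t) =
      Complex.exp (Complex.I * t) * (Complex.exp (Complex.I * ((s - t : ℝ) : ℂ)) - 1) := by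
    rw [mul_sub, ← Complex.exp_add]; push_cast; ring_nf
  rw [e, norm_mul, norm_e, one_mul]
  simpa using Real.norm_exp_I_mul_ofReal_sub_one_le (x := s - t)

/-- The first derivative test. -/
lemma first (f0 f1 f2 : ℝ → ℝ) (a b : ℤ) (L lm mu : ℝ)
    (h0 : ∀ x ∈ Set.Icc (a : ℝ) b, HasDerivAt f0 (f1 x) x)
    (h1 : ∀ x ∈ Set.Icc (a : ℝ) b, HasDerivAt f1 (f2 x) x)
    (hb : ∀ x ∈ Set.Icc (a : ℝ) b, lm ≤ |f1 x| ∧ |f1 x| ≤ 3 ∧ |f2 x| ≤ mu * lm)
    (hlm : 0 < lm) (hmu : 0 ≤ mu) (hL0 : 0 ≤ L) (hL : (b : ℝ) - a ≤ L) :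
    ‖∑ n ∈ Ico a b, Complex.exp (Complex.I * (f0 n : ℝ))‖ ≤ 4 * ((1 + L * mu) / lm) := by
  rcases le_or_gt b a with hab | hab
  · rw [Ico_eq_empty (by omega), sum_empty, norm_zero]; positivity
  obtain ⟨l, hl⟩ : ∃ l : ℕ, b = a + (l + 1) := ⟨(b - a - 1).toNat, by omega⟩
  have hl' : (b : ℝ) = a + (l + 1) := by exact_mod_cast hl
  set δ : ℕ → ℝ := fun n => f0 (a + n + 1) - f0 (a + n) with hδ
  set z : ℕ → ℂ := fun n => Complex.exp (Complex.I * (f0 (a + n) : ℝ)) with hz
  set w : ℕ → ℂ := fun n => Complex.exp (Complex.I * (δ n : ℝ)) with hw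
  set c : ℕ → ℂ := fun n => (w n - 1)⁻¹ with hc
  have hw1 : ∀ n, n ≤ l → lm / 2 ≤ ‖w n - 1‖ := by
    intro n hn
    have hn' : (n : ℝ) ≤ l := by exact_mod_cast hn
    obtain ⟨ξ, hξ, e⟩ := mvt (x := a + n) h0 one_pos
      (by linarith [Nat.cast_nonneg (α := ℝ) n]) (by linarith)
    have e' : δ n = f1 ξ := by simp only [hδ]; rw [e, one_mul]
    have := le_norm_sub_one (t := δ n) (by rw [e']; exact (hb ξ hξ).2.1)
    have h2 : lm ≤ |δ n| := by rw [e']; exact (hb ξ hξ).1
    simp only [hw]; linarith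
  have hne : ∀ n, n ≤ l → w n - 1 ≠ 0 := fun n hn => by
    rw [← norm_pos_iff]; linarith [hw1 n hn]
  have hcn : ∀ n, n ≤ l → ‖c n‖ ≤ 2 / lm := by
    intro n hn
    simp only [hc]
    rw [norm_inv, ← inv_div]
    exact inv_anti₀ (by positivity) (hw1 n hn)
  have hB : ∀ n, n < l → ‖c (n + 1) - c n‖ ≤ 4 * mu / lm := by
    intro n hn
    have hn' : (n : ℝ) + 1 ≤ l := by exact_mod_cast hn
    have hn0 : (0 : ℝ) ≤ n := Nat.cast_nonneg n
    have e : c (n + 1) - c n = (w n - w (n + 1)) * c (n + 1) * c n := by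
      have := hne n hn.le
      have := hne (n + 1) hn
      simp only [hc]; field_simp; ring
    have hd : |δ n - δ (n + 1)| ≤ mu * lm := by
      have := lip (g := fun x => f0 (x + 1) - f0 x) (g' := fun x => f1 (x + 1) - f1 x)
        (a := a) (b := b - 1) (K := mu * lm) (x := a + n + 1) (y := a + n)
        (fun x hx => ((h0 (x + 1) ⟨by linarith [hx.1], by linarith [hx.2]⟩).comp_add_const x 1).sub
          (h0 x ⟨hx.1, by linarith [hx.2]⟩))
        (fun x hx => by
          have := lip h1 (fun x hx => (hb x hx).2.2) (x := x) (y := x + 1)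
            ⟨hx.1, by linarith [hx.2]⟩ ⟨by linarith [hx.1], by linarith [hx.2]⟩
          simpa using this)
        ⟨by linarith, by linarith⟩ ⟨by linarith, by linarith⟩
      simp only [hδ]
      push_cast
      rw [← add_assoc]
      simpa using this
    have hw2 : ‖w n - w (n + 1)‖ ≤ mu * lm := (norm_e_sub _ _).trans hd
    rw [e, norm_mul, norm_mul]
    calc _ ≤ mu * lm * (2 / lm) * (2 / lm) := by
          gcongr
          · exact hcn _ hn
          · exact hcn _ hn.le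
      _ = 4 * mu / lm := by field_simp; ring
  have hz1 : ∀ n, ‖z n‖ ≤ 1 := fun n => (norm_e _).le
  have key := abel z c _ hz1 l hB
  have e1 : ∑ n ∈ Ico a b, Complex.exp (Complex.I * (f0 n : ℝ)) =
      ∑ n ∈ range (l + 1), c n * (z (n + 1) - z n) := by
    symm
    refine sum_nbij' (fun n => a + n) (fun n => (n - a).toNat) ?_ ?_ ?_ ?_ ?_
    · intro n hn; simp only [mem_range, mem_Ico] at hn ⊢; omega
    · intro n hn; simp only [mem_range, mem_Ico] at hn ⊢; omega
    · intro n _; simp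
    · intro n hn; simp only [mem_Ico] at hn; omega
    · intro n hn
      have hn' : n ≤ l := by simpa [Nat.lt_succ_iff] using hn
      have e2 : z (n + 1) = w n * z n := by
        simp only [hz, hw, hδ]
        rw [← Complex.exp_add]; push_cast; rw [← add_assoc]; ring_nf
      have := hne n hn'
      rw [e2]
      simp only [hc]
      field_simp
      simp [hz]
  rw [e1]
  have e3 : ∑ n ∈ range (l + 1), c n * (z (n + 1) - z n) =
      (∑ n ∈ range (l + 1), c n * (z (n + 1) - z n) - c l * z (l + 1) + c 0 * z 0)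
        + c l * z (l + 1) - c 0 * z 0 := by ring
  have h4 : ∀ n k, n ≤ l → ‖c n * z k‖ ≤ 2 / lm := fun n k hn => by
    rw [norm_mul]
    exact (mul_le_of_le_one_right (norm_nonneg _) (hz1 _)).trans (hcn n hn)
  rw [e3]
  refine (norm_sub_le _ _).trans ((add_le_add_left (norm_add_le _ _) _).trans ?_)
  have h5 := h4 l (l + 1) le_rfl
  have h6 := h4 0 0 (Nat.zero_le _)
  have h7 : (l : ℝ) * (4 * mu / lm) ≤ L * (4 * mu / lm) := by gcongr; linarith
  have e4 : 4 * ((1 + L * mu) / lm) = L * (4 * mu / lm) + 2 / lm + 2 / lm := by ring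
  linarith

/-- The Weyl and van der Corput inequality. -/
lemma weyl (z : ℤ → ℂ) (a b : ℤ) (hab : a ≤ b) (N : ℕ) (β : ℕ → ℝ)
    (hβ : ∀ d : ℕ, d < N → ‖∑ n ∈ Ico a (b - d), z (n + d) * conj (z n)‖ ≤ β d) :
    (N : ℝ) ^ 2 * ‖∑ n ∈ Ico a b, z n‖ ^ 2 ≤
      ((b : ℝ) - a + N) * ∑ h ∈ range N, ∑ h' ∈ range N, β (Nat.dist h h') := by
  classical
  set z' : ℤ → ℂ := fun n => if n ∈ Ico a b then z n else 0 with hz'
  set J := Ico (a - N) b with hJ
  have h1 : ∀ h ∈ range N, ∑ n ∈ J, z' (n + h) = ∑ n ∈ Ico a b, z n := by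
    intro h hh
    have hh' := mem_range.1 hh
    simp only [hz']
    rw [← sum_filter]
    refine sum_nbij' (fun n => n + h) (fun n => n - h) ?_ ?_ ?_ ?_ ?_
    · intro n hn; exact (mem_filter.1 hn).2
    · intro n hn; simp only [hJ, mem_filter, mem_Ico] at hn ⊢; omega
    · intro n _; simp
    · intro n _; simp
    · intro n _; rfl
  have h2 : ∀ h h' : ℕ, h < N → h' ≤ h →
      ‖∑ n ∈ J, z' (n + h) * conj (z' (n + h'))‖ ≤ β (h - h') := by
    intro h h' hh hle
    have e : ∑ n ∈ J, z' (n + h) * conj (z' (n + h')) =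
        ∑ n ∈ Ico a (b - (h - h' : ℕ)), z (n + (h - h' : ℕ)) * conj (z n) := by
      have e1 : ∀ n ∈ J, z' (n + h) * conj (z' (n + h')) =
          if n + h ∈ Ico a b ∧ n + h' ∈ Ico a b then z (n + h) * conj (z (n + h')) else 0 := by
        intro n _
        simp only [hz']
        by_cases c1 : n + h ∈ Ico a b <;> by_cases c2 : n + h' ∈ Ico a b <;> simp [c1, c2]
      rw [sum_congr rfl e1, ← sum_filter]
      refine sum_nbij' (fun n => n + h') (fun n => n - h') ?_ ?_ ?_ ?_ ?_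
      · intro n hn; simp only [hJ, mem_filter, mem_Ico] at hn ⊢; omega
      · intro n hn; simp only [hJ, mem_filter, mem_Ico] at hn ⊢; omega
      · intro n _; simp
      · intro n _; simp
      · intro n _
        congr 2
        push_cast [hle]; ring
    rw [e]
    exact hβ _ (by omega)
  have h3 : ∀ h ∈ range N, ∀ h' ∈ range N,
      ‖∑ n ∈ J, z' (n + h) * conj (z' (n + h'))‖ ≤ β (Nat.dist h h') := by
    intro h hh h' hh'
    rcases le_total h' h with hle | hle
    · rw [Nat.dist_eq_sub_of_le_right hle]; exact h2 h h' (mem_range.1 hh) hle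
    · rw [Nat.dist_eq_sub_of_le hle, ← Complex.norm_conj, map_sum]
      have := h2 h' h (mem_range.1 hh') hle
      simpa [mul_comm] using this
  set u : ℤ → ℂ := fun n => ∑ h ∈ range N, z' (n + h) with hu
  have h4 : (N : ℂ) * ∑ n ∈ Ico a b, z n = ∑ n ∈ J, u n := by
    simp only [hu]
    rw [sum_comm, sum_congr rfl h1]; simp
  have h5 : ‖∑ n ∈ J, u n‖ ^ 2 ≤ J.card * ∑ n ∈ J, ‖u n‖ ^ 2 :=
    (pow_le_pow_left₀ (norm_nonneg _) (norm_sum_le _ _) 2).trans sq_sum_le_card_mul_sum_sq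
  have h6 : ((∑ n ∈ J, ‖u n‖ ^ 2 : ℝ) : ℂ) =
      ∑ h ∈ range N, ∑ h' ∈ range N, ∑ n ∈ J, z' (n + h) * conj (z' (n + h')) := by
    push_cast
    have e : ∀ n ∈ J, ((‖u n‖ : ℂ)) ^ 2 =
        ∑ h ∈ range N, ∑ h' ∈ range N, z' (n + h) * conj (z' (n + h')) := by
      intro n _
      rw [← Complex.mul_conj', ← sum_mul_sum]
      simp only [hu, map_sum]
    rw [sum_congr rfl e, sum_comm]
    exact sum_congr rfl fun h _ => sum_comm
  have h7 : ∑ n ∈ J, ‖u n‖ ^ 2 ≤ ∑ h ∈ range N, ∑ h' ∈ range N, β (Nat.dist h h') := by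
    calc ∑ n ∈ J, ‖u n‖ ^ 2 ≤ ‖((∑ n ∈ J, ‖u n‖ ^ 2 : ℝ) : ℂ)‖ := by
          rw [Complex.norm_real]; exact le_abs_self _
      _ ≤ _ := by
          rw [h6]
          refine (norm_sum_le _ _).trans (sum_le_sum fun h hh => ?_)
          exact (norm_sum_le _ _).trans (sum_le_sum fun h' hh' => h3 h hh h' hh')
  have h8 : (J.card : ℝ) = (b : ℝ) - a + N := by
    have : (J.card : ℤ) = b - a + N := by rw [hJ, Int.card_Ico]; omega
    exact_mod_cast this
  calc (N : ℝ) ^ 2 * ‖∑ n ∈ Ico a b, z n‖ ^ 2 = ‖∑ n ∈ J, u n‖ ^ 2 := by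
        rw [← h4, norm_mul, Complex.norm_natCast, mul_pow]
    _ ≤ J.card * ∑ n ∈ J, ‖u n‖ ^ 2 := h5
    _ ≤ _ := by rw [← h8]; gcongr

lemma triv (z : ℤ → ℂ) (hz : ∀ n, ‖z n‖ ≤ 1) (a b : ℤ) {L : ℝ} (hL0 : 0 ≤ L)
    (hL : (b : ℝ) - a ≤ L) : ‖∑ n ∈ Ico a b, z n‖ ≤ L := by
  rcases le_or_gt b a with hab | hab
  · rw [Ico_eq_empty (by omega), sum_empty, norm_zero]; exact hL0
  refine (norm_sum_le _ _).trans ((sum_le_card_nsmul _ _ 1 fun n _ => hz n).trans ?_)
  have : ((Ico a b).card : ℤ) = b - a := by rw [Int.card_Ico]; omega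
  have h2 : ((Ico a b).card : ℝ) = b - a := by exact_mod_cast this
  rw [nsmul_eq_mul, mul_one, h2]; exact hL

lemma count_near (N h : ℕ) {H0 : ℝ} (h1 : 1 ≤ H0) :
    ∑ h' ∈ range N, (if (Nat.dist h h' : ℝ) < H0 then (1 : ℝ) else 0) ≤ 3 * H0 := by
  classical
  rw [← sum_filter, sum_const, nsmul_eq_mul, mul_one]
  have hs : (range N).filter (fun h' => (Nat.dist h h' : ℝ) < H0) ⊆
      Icc (h - ⌊H0⌋₊) (h + ⌊H0⌋₊) := by
    intro h' hh'
    have h2 : Nat.dist h h' ≤ ⌊H0⌋₊ := Nat.le_floor (mem_filter.1 hh').2.le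
    unfold Nat.dist at h2
    rw [mem_Icc]; omega
  have h3 := card_le_card hs
  rw [Nat.card_Icc] at h3
  have h4 : ((range N).filter (fun h' => (Nat.dist h h' : ℝ) < H0)).card ≤ 2 * ⌊H0⌋₊ + 1 := by
    omega
  have h5 : (((range N).filter (fun h' => (Nat.dist h h' : ℝ) < H0)).card : ℝ) ≤
      2 * ⌊H0⌋₊ + 1 := by exact_mod_cast h4
  have h6 : (⌊H0⌋₊ : ℝ) ≤ H0 := Nat.floor_le (by linarith)
  linarith

end Vdc

open Vdc in
/-- van der Corput's higher derivative test, soft form. -/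
theorem vdc (m : ℕ) : ∃ C : ℝ, 1 ≤ C ∧ ∀ (f : ℕ → ℝ → ℝ) (a b : ℤ) (L H0 H lm Lm mu : ℝ),
    (∀ i ≤ m + 1, ∀ x ∈ Set.Icc (a : ℝ) b, HasDerivAt (f i) (f (i + 1) x) x) →
    (∀ x ∈ Set.Icc (a : ℝ) b,
      lm ≤ |f (m + 1) x| ∧ |f (m + 1) x| ≤ Lm * lm ∧ |f (m + 2) x| ≤ mu * lm) →
    0 < lm → 0 ≤ mu → 1 ≤ H0 → H0 ≤ H → H ≤ L → (b : ℝ) - a ≤ L → Lm * lm * H ^ m ≤ 3 →
    ‖∑ n ∈ Ico a b, Complex.exp (Complex.I * (f 0 n : ℝ))‖ ≤
      C * L * (H0 / H + (1 + L * mu) / (lm * H0 ^ m * L)) ^ ((1 : ℝ) / 2 ^ m) := by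
  induction m with
  | zero =>
    refine ⟨4, by norm_num, fun f a b L H0 H lm Lm mu hd hb hlm hmu h0 hH hL hab h3 => ?_⟩
    have hL0 : 0 < L := by linarith
    have hH0 : 0 < H := by linarith
    have := first (f 0) (f 1) (f 2) a b L lm mu (hd 0 (by omega)) (hd 1 (by omega))
      (fun x hx => ⟨(hb x hx).1, (hb x hx).2.1.trans (by simpa using h3), (hb x hx).2.2⟩)
      hlm hmu hL0.le hab
    refine this.trans ?_
    simp only [pow_zero, div_one, Real.rpow_one, mul_one]
    have e : 4 * L * (H0 / H + (1 + L * mu) / (lm * L)) =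
        4 * L * (H0 / H) + 4 * ((1 + L * mu) / lm) := by field_simp
    have : 0 ≤ 4 * L * (H0 / H) := by positivity
    linarith
  | succ m ih =>
    obtain ⟨C, hC, ih⟩ := ih
    refine ⟨12 + 2 * C, by linarith, fun f a b L H0 H lm Lm mu hd hb hlm hmu h0 hH hL hab h3 => ?_⟩
    have hL0 : 0 < L := by linarith
    have hH0 : 0 < H := by linarith
    have hH00 : 0 < H0 := by linarith
    set q := H0 / H + (1 + L * mu) / (lm * H0 ^ (m + 1) * L) with hq
    have hq0 : 0 < q := by positivity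
    set z : ℤ → ℂ := fun n => Complex.exp (Complex.I * (f 0 n : ℝ)) with hz
    have hz1 : ∀ n, ‖z n‖ ≤ 1 := fun n => (norm_e _).le
    rcases le_or_gt b a with hba | hba
    · rw [Ico_eq_empty (by omega), sum_empty, norm_zero]; positivity
    have hba' : (a : ℝ) ≤ b := by exact_mod_cast hba.le
    rcases le_or_gt 1 q with hq1 | hq1
    · have h1 : 1 ≤ q ^ ((1 : ℝ) / 2 ^ (m + 1)) := Real.one_le_rpow hq1 (by positivity)
      refine (triv z hz1 a b hL0.le hab).trans ?_
      calc L = 1 * L * 1 := by ring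
        _ ≤ _ := by gcongr; linarith
    set ρ := q ^ ((1 : ℝ) / 2 ^ m) with hρ
    have hρ0 : 0 ≤ ρ := by positivity
    have hqρ : q ≤ ρ := by
      have : q ^ (1 : ℝ) ≤ q ^ ((1 : ℝ) / 2 ^ m) :=
        Real.rpow_le_rpow_of_exponent_ge hq0 hq1.le
          (by rw [div_le_one (by positivity)]; exact one_le_pow₀ (by norm_num))
      rwa [Real.rpow_one] at this
    have hLm : 0 ≤ Lm := by
      have := hb a ⟨le_rfl, hba'⟩
      by_contra hc
      have : Lm * lm < 0 := mul_neg_of_neg_of_pos (not_le.1 hc) hlm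
      linarith [abs_nonneg (f (m + 1 + 1) a)]
    set N := ⌊H⌋₊ with hN
    have hN1 : 1 ≤ N := Nat.le_floor (by simpa using h0.trans hH)
    have hN1' : (1 : ℝ) ≤ N := by exact_mod_cast hN1
    have hNH : (N : ℝ) ≤ H := Nat.floor_le hH0.le
    have hHN : H ≤ 2 * N := by linarith [Nat.lt_floor_add_one H]
    have hβ : ∀ d : ℕ, d < N → ‖∑ n ∈ Ico a (b - d), z (n + d) * conj (z n)‖ ≤
        L * (if (d : ℝ) < H0 then (1 : ℝ) else 0) + C * L * ρ := by
      intro d hdN
      have hd0 : (0 : ℝ) ≤ d := Nat.cast_nonneg d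
      have hdH : (d : ℝ) ≤ H := le_trans (by exact_mod_cast hdN.le) hNH
      split_ifs with hd1
      · have := triv (fun n => z (n + d) * conj (z n)) (fun n => by
          rw [norm_mul, Complex.norm_conj]
          exact mul_le_one₀ (hz1 _) (norm_nonneg _) (hz1 _)) a (b - d) hL0.le
          (by push_cast; linarith)
        have h2 : 0 ≤ C * L * ρ := by positivity
        linarith
      · have hd2 : H0 ≤ d := not_lt.1 hd1
        have hdpos : (0 : ℝ) < d := by linarith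
        have key := ih (fun i x => f i (x + d) - f i x) a (b - d) L H0 H (d * lm) Lm mu
          (fun i hi x hx => by
            push_cast at hx
            exact ((hd i (by omega) (x + d) ⟨by linarith [hx.1], by linarith [hx.2]⟩).comp_add_const
              x d).sub (hd i (by omega) x ⟨hx.1, by linarith [hx.2]⟩))
          (fun x hx => by
            push_cast at hx
            obtain ⟨ξ, hξ, e⟩ := mvt (x := x) (hd (m + 1) (by omega)) hdpos hx.1
              (by linarith [hx.2])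
            have h5 := lip (hd (m + 1 + 1) le_rfl) (fun x hx => (hb x hx).2.2) (x := x)
              (y := x + d) ⟨hx.1, by linarith [hx.2]⟩ ⟨by linarith [hx.1], by linarith [hx.2]⟩
            rw [add_sub_cancel_left, abs_of_pos hdpos] at h5
            refine ⟨?_, ?_, by linarith⟩
            · rw [e, abs_mul, abs_of_pos hdpos]
              exact mul_le_mul_of_nonneg_left (hb ξ hξ).1 hd0
            · rw [e, abs_mul, abs_of_pos hdpos]
              have := mul_le_mul_of_nonneg_left (hb ξ hξ).2.1 hd0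
              linarith)
          (by positivity) hmu h0 hH hL (by push_cast; linarith)
          (by
            calc Lm * (d * lm) * H ^ m ≤ Lm * (H * lm) * H ^ m := by gcongr
              _ = Lm * lm * H ^ (m + 1) := by ring
              _ ≤ 3 := h3)
        have e : ∑ n ∈ Ico a (b - d), z (n + d) * conj (z n) =
            ∑ n ∈ Ico a (b - d), Complex.exp (Complex.I * ((f 0 (n + d) - f 0 n : ℝ) : ℂ)) := by
          refine sum_congr rfl fun n _ => ?_
          simp only [hz]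
          rw [← Complex.exp_conj, ← Complex.exp_add, map_mul, Complex.conj_I, Complex.conj_ofReal]
          push_cast; ring_nf
        rw [e, mul_zero, zero_add]
        refine key.trans ?_
        have h6 : lm * H0 ^ (m + 1) * L ≤ d * lm * H0 ^ m * L := by
          calc lm * H0 ^ (m + 1) * L = H0 * lm * H0 ^ m * L := by ring
            _ ≤ _ := by gcongr
        have h7 : H0 / H + (1 + L * mu) / (d * lm * H0 ^ m * L) ≤ q :=
          add_le_add_right (div_le_div_of_nonneg_left (by positivity) (by positivity) h6) _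
        rw [hρ]
        gcongr
    have hw := weyl z a b hba.le N
      (fun d => L * (if (d : ℝ) < H0 then (1 : ℝ) else 0) + C * L * ρ) hβ
    have hs : ∑ h ∈ range N, ∑ h' ∈ range N,
        (L * (if (Nat.dist h h' : ℝ) < H0 then (1 : ℝ) else 0) + C * L * ρ) ≤
        N * (L * (3 * H0) + N * (C * L * ρ)) := by
      refine (sum_le_card_nsmul _ _ (L * (3 * H0) + N * (C * L * ρ)) fun h _ => ?_).trans ?_
      · rw [sum_add_distrib, ← mul_sum, sum_const, card_range, nsmul_eq_mul]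
        gcongr
        exact count_near N h h0
      · rw [card_range, nsmul_eq_mul]
    have hH0ρ : H0 ≤ 2 * N * ρ := by
      have h1 : H0 / H ≤ ρ := le_trans (le_add_of_nonneg_right (by positivity)) hqρ
      rw [div_le_iff₀ hH0] at h1
      nlinarith
    have h9 : (N : ℝ) ^ 2 * ‖∑ n ∈ Ico a b, z n‖ ^ 2 ≤ (N : ℝ) ^ 2 * ((12 + 2 * C) * L ^ 2 * ρ) := by
      calc _ ≤ _ := hw
        _ ≤ (2 * L) * (N * (L * (3 * (2 * N * ρ)) + N * (C * L * ρ))) := by
          refine mul_le_mul (by linarith) (hs.trans (by gcongr)) ?_ (by positivity)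
          exact sum_nonneg fun h _ => sum_nonneg fun h' _ => by positivity
        _ = _ := by ring
    have h10 := le_of_mul_le_mul_left h9 (by positivity)
    have h11 : ρ = (q ^ ((1 : ℝ) / 2 ^ (m + 1))) ^ 2 := by
      rw [← Real.rpow_natCast, ← Real.rpow_mul hq0.le, hρ]
      congr 1
      push_cast; field_simp; ring
    refine (pow_le_pow_iff_left₀ (norm_nonneg _) (by positivity) two_ne_zero).1 (h10.trans ?_)
    rw [mul_pow, mul_pow, ← h11]
    gcongr
    nlinarith

end Pool.Agent.P.MP_a1177c_nt.MR
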